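import Pool.Agent.H647.Kot.Select
import Pool.Graph.R_pool_sql_team_seeded_620a6dc7.Helper718_cayley.G

/-!
# Arcs of the cycles of a permutation
-/

set_option autoImplicit false

namespace Pool.Agent.H647.Kot

open Equiv Equiv.Perm

section arcs

variable {X : Type*} (π : Perm X) (F : Set X)

/-- some element of `F` precedes `g` in its cycle -/
def Meets (g : X) : Prop := ∃ j : ℕ, (⇑π.symm)^[j] g ∈ F

open Classical in
/-- the number of steps back to `F` -/
noncomputable def tt (g : X) : ℕ := if h : Meets π F g then Nat.find h else 0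

/-- the last element of `F` before `g` (or `g` itself) -/
noncomputable def st (g : X) : X := (⇑π.symm)^[tt π F g] g

variable {π F}

theorem tt_mem {g : X} (h : Meets π F g) : (⇑π.symm)^[tt π F g] g ∈ F := by
  classical
  unfold tt
  rw [dif_pos h]
  exact Nat.find_spec h

theorem st_mem {g : X} (h : Meets π F g) : st π F g ∈ F := tt_mem h

theorem tt_min {g : X} (h : Meets π F g) {i : ℕ} (hi : i < tt π F g) :
    (⇑π.symm)^[i] g ∉ F := by
  classical
  unfold tt at hi
  rw [dif_pos h] at hi
  exact Nat.find_min h hi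

theorem meets_of_mem {g : X} (h : g ∈ F) : Meets π F g := ⟨0, h⟩

theorem tt_of_mem {g : X} (h : g ∈ F) : tt π F g = 0 := by
  by_contra h1
  exact tt_min (meets_of_mem h) (Nat.pos_of_ne_zero h1) h

theorem st_of_mem {g : X} (h : g ∈ F) : st π F g = g := by
  unfold st
  rw [tt_of_mem h]
  rfl

theorem meets_symm [Finite X] {g : X} : Meets π F (π.symm g) ↔ Meets π F g := by
  constructor
  · rintro ⟨j, hj⟩
    exact ⟨j + 1, hj⟩
  · rintro ⟨j, hj⟩
    rcases j with _ | j
    · refine ⟨orderOf π⁻¹ - 1, ?_⟩
      have h1 : (⇑π.symm)^[orderOf π⁻¹ - 1] (π.symm g) = (⇑π.symm)^[orderOf π⁻¹ - 1 + 1] g := rfl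
      have h2 : (⇑π.symm)^[orderOf π⁻¹] g = g := by
        have h3 : ⇑π.symm = ⇑(π⁻¹) := rfl
        rw [h3, Equiv.Perm.iterate_eq_pow, pow_orderOf_eq_one]
        rfl
      rw [h1, Nat.sub_add_cancel (orderOf_pos _), h2]
      exact hj
    · exact ⟨j, hj⟩

theorem tt_succ [Finite X] {g : X} (hg : g ∉ F) (h : Meets π F g) :
    tt π F g = tt π F (π.symm g) + 1 := by
  have h' : Meets π F (π.symm g) := meets_symm.2 h
  have h1 : tt π F g ≠ 0 := by
    intro h0
    have := tt_mem h
    rw [h0] at this
    exact hg this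
  obtain ⟨k, hk⟩ := Nat.exists_eq_succ_of_ne_zero h1
  have h2 : (⇑π.symm)^[k] (π.symm g) ∈ F := by
    have := tt_mem h
    rw [hk] at this
    exact this
  have h3 : tt π F (π.symm g) ≤ k := by
    by_contra hcon
    exact tt_min h' (not_le.1 hcon) h2
  have h4 : k ≤ tt π F (π.symm g) := by
    by_contra hcon
    have h5 := tt_mem h'
    have h6 : (⇑π.symm)^[tt π F (π.symm g) + 1] g ∈ F := h5
    exact tt_min h (by rw [hk]; omega) h6
  omega

theorem st_succ [Finite X] {g : X} (hg : g ∉ F) (h : Meets π F g) :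
    st π F g = st π F (π.symm g) := by
  unfold st
  rw [tt_succ hg h]
  rfl

/-- going back along an arc -/
theorem path [Finite X] {g : X} (h : Meets π F g) (i : ℕ) (hi : i ≤ tt π F g) :
    Meets π F ((⇑π.symm)^[i] g) ∧ tt π F ((⇑π.symm)^[i] g) + i = tt π F g ∧
      st π F ((⇑π.symm)^[i] g) = st π F g := by
  induction i with
  | zero => exact ⟨h, rfl, rfl⟩
  | succ i ih =>
    obtain ⟨h1, h2, h3⟩ := ih (by omega)
    have h4 := tt_min h (show i < tt π F g by omega)
    rw [Function.iterate_succ_apply']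
    have h5 := tt_succ h4 h1
    refine ⟨meets_symm.2 h1, by omega, ?_⟩
    rw [← st_succ h4 h1, h3]

/-- the previous element of `F` determines an element of `F` -/
theorem pv_inj [Finite X] {g g' : X} (hg : g ∈ F) (hg' : g' ∈ F)
    (h : st π F (π.symm g) = st π F (π.symm g')) : g = g' := by
  have key : ∀ g g' : X, g ∈ F → g' ∈ F → st π F (π.symm g) = st π F (π.symm g') →
      tt π F (π.symm g) ≤ tt π F (π.symm g') → g = g' := by
    intro g g' hg hg' h hle
    have h1 : (⇑π.symm)^[tt π F (π.symm g) + 1] g = (⇑π.symm)^[tt π F (π.symm g') + 1] g' := h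
    obtain ⟨d, hd⟩ := Nat.exists_eq_add_of_le hle
    have h1' : (⇑π.symm)^[tt π F (π.symm g) + 1] g =
        (⇑π.symm)^[tt π F (π.symm g) + 1] ((⇑π.symm)^[d] g') := by
      rw [← Function.iterate_add_apply, h1,
        show tt π F (π.symm g') + 1 = tt π F (π.symm g) + 1 + d by omega]
    have h2 := (π.symm.injective.iterate _) h1'
    rcases d with _ | d
    · exact h2
    · exfalso
      have hm : Meets π F (π.symm g') := meets_symm.2 (meets_of_mem hg')
      refine tt_min hm (i := d) (by omega) ?_
      have h3 : (⇑π.symm)^[d] (π.symm g') = (⇑π.symm)^[d + 1] g' := rfl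
      rw [h3, ← h2]
      exact hg
  rcases Nat.le_total (tt π F (π.symm g)) (tt π F (π.symm g')) with h1 | h1
  · exact key g g' hg hg' h h1
  · exact (key g' g hg' hg h.symm h1).symm

/-- the position of an element on its arc -/
theorem position [Finite X] {g g' : X} (hg : Meets π F g) (hg'F : g' ∈ F)
    (hst : st π F (π.symm g') = st π F g) :
    ∃ i, i + tt π F g = tt π F (π.symm g') ∧ g = (⇑π.symm)^[i] (π.symm g') := by
  have h1 : (⇑π.symm)^[tt π F (π.symm g')] (π.symm g') = (⇑π.symm)^[tt π F g] g := hst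
  rcases Nat.lt_or_ge (tt π F (π.symm g')) (tt π F g) with h | h
  · exfalso
    obtain ⟨d, hd⟩ := Nat.exists_eq_add_of_lt h
    have h2 : (⇑π.symm)^[tt π F (π.symm g') + 1] g' =
        (⇑π.symm)^[tt π F (π.symm g') + 1] ((⇑π.symm)^[d] g) := by
      rw [← Function.iterate_add_apply, show tt π F (π.symm g') + 1 + d = tt π F g by omega]
      exact h1
    have h3 := (π.symm.injective.iterate _) h2
    exact tt_min hg (i := d) (by omega) (h3 ▸ hg'F)
  · obtain ⟨i, hi⟩ := Nat.exists_eq_add_of_le h
    refine ⟨i, by omega, ?_⟩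
    rw [hi, Function.iterate_add_apply] at h1
    exact ((π.symm.injective.iterate _) h1).symm

variable {D : X → Bool} (hD : ∀ x, D (π x) ≠ D x ↔ π x ∈ F)

include hD in
theorem D_prev (g : X) : D (π.symm g) ≠ D g ↔ g ∈ F := by
  have := hD (π.symm g)
  rw [π.apply_symm_apply] at this
  exact ⟨fun h => this.1 h.symm, fun h => (this.2 h).symm⟩

include hD in
theorem D_st [Finite X] {g : X} (h : Meets π F g) : D (st π F g) = D g := by
  have key : ∀ n : ℕ, ∀ g, Meets π F g → tt π F g = n → D (st π F g) = D g := by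
    intro n
    induction n with
    | zero =>
      intro g h hn
      unfold st
      rw [hn]
      rfl
    | succ n ih =>
      intro g h hn
      have hg : g ∉ F := by
        intro hg
        rw [tt_of_mem hg] at hn
        omega
      rw [st_succ hg h, ih _ (meets_symm.2 h) (by have := tt_succ hg h; omega)]
      by_contra h1
      exact hg ((D_prev hD g).1 h1)
  exact key _ g h rfl

theorem sameCycle_iter (n : ℕ) (g : X) : π.SameCycle g ((⇑π.symm)^[n] g) := by
  induction n with
  | zero => exact SameCycle.refl _ _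
  | succ n ih =>
    rw [Function.iterate_succ_apply']
    refine ih.trans ?_
    have h1 : π (π.symm ((⇑π.symm)^[n] g)) = (⇑π.symm)^[n] g := π.apply_symm_apply _
    conv_lhs => rw [← h1]
    exact (sameCycle_apply_left).2 (SameCycle.refl _ _)

theorem sameCycle_st (g : X) : π.SameCycle g (st π F g) := sameCycle_iter _ _

/-- elements of `F` in the same cycle are connected by the map to the previous element -/
theorem reach_pv [Finite X] (R : X → X → Prop) (hR : ∀ g, R g g)
    (hRt : ∀ a b c, R a b → R b c → R a c) (hRpv : ∀ g ∈ F, R g (st π F (π.symm g))) :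
    ∀ n : ℕ, ∀ g ∈ F, (⇑π.symm)^[n] g ∈ F → R g ((⇑π.symm)^[n] g) := by
  intro n
  induction n using Nat.strong_induction_on with
  | _ n ih =>
    intro g hg hn
    rcases n with _ | n
    · exact hR g
    · have hM : Meets π F (π.symm g) := meets_symm.2 (meets_of_mem hg)
      have h1 : tt π F (π.symm g) ≤ n := by
        by_contra hcon
        exact tt_min hM (not_le.1 hcon) hn
      obtain ⟨d, hd⟩ := Nat.exists_eq_add_of_le h1
      have h2 : (⇑π.symm)^[n + 1] g = (⇑π.symm)^[d] (st π F (π.symm g)) := by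
        have h3 : (⇑π.symm)^[n + 1] g = (⇑π.symm)^[n] (π.symm g) := rfl
        rw [h3, hd, Nat.add_comm, Function.iterate_add_apply]
        rfl
      rw [h2]
      refine hRt _ _ _ (hRpv g hg) (ih d (by omega) _ (st_mem hM) ?_)
      rw [← h2]
      exact hn

end arcs

end Pool.Agent.H647.Kot
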