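import Pool.Agent.H647.Kot.Side

/-!
# A complement of a subgroup and the cycles of a permutation
-/

set_option autoImplicit false
set_option linter.unusedSectionVars false

namespace Pool.Agent.H647.Kot

open Equiv Equiv.Perm
open Pool.Agent.Q27.HC (Inv)

/-- The selection of alternate arcs. -/
theorem arc_select {X P : Type*} [Fintype X] [DecidableEq X] (π : Perm X) (F : Finset X) (p : X → P)
    (h1 : ∀ q, Even {e | e ∈ F ∧ p e = q}.ncard)
    (h2 : ∀ x, Even {e | e ∈ F ∧ π.SameCycle x e}.ncard)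
    (h2' : ∀ x, {e | e ∈ F ∧ π.SameCycle x e}.ncard ≤ 5)
    (h3 : ∀ S : Set X, S.Nonempty → (∀ e f, p e = p f → e ∈ S → f ∈ S) →
      (∀ e f, e ∈ F → f ∈ F → π.SameCycle e f → e ∈ S → f ∈ S) → S = Set.univ) :
    ∃ D oo : X → Bool, (∀ x, D (π x) ≠ D x ↔ π x ∈ F) ∧
      (∀ g g', π.SameCycle g g' → oo g = oo g') ∧
      ∀ S : Set X, (∃ e ∈ F, e ∈ S) → (∀ e f, e ∈ F → f ∈ F → p e = p f → e ∈ S → f ∈ S) →
        (∀ e ∈ F, D e ≠ oo e → (e ∈ S ↔ st π (F : Set X) (π.symm e) ∈ S)) → ∀ e ∈ F, e ∈ S := by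
  classical
  obtain ⟨D, hD, -⟩ := Pool.Agent.H718C.exists_phase π F h2
  -- `F` as a set
  obtain ⟨Fs, hFs⟩ : ∃ Fs : Set X, Fs = (F : Set X) := ⟨_, rfl⟩
  have mF : ∀ g, g ∈ Fs ↔ g ∈ F := by intro g; rw [hFs]; exact Finset.mem_coe
  have hD' : ∀ x, D (π x) ≠ D x ↔ π x ∈ Fs := by intro x; rw [mF]; exact hD x
  rw [← hFs]
  -- the previous element
  have hpv : ∀ g ∈ F, Meets π Fs (π.symm g) := fun g hg => meets_symm.2 (meets_of_mem ((mF g).2 hg))
  let ρ0 : {g // g ∈ F} → {g // g ∈ F} :=
    fun z => ⟨st π Fs (π.symm z), (mF _).1 (st_mem (hpv z z.2))⟩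
  have ρ0inj : Function.Injective ρ0 := by
    intro z z' h
    exact Subtype.ext (pv_inj ((mF _).2 z.2) ((mF _).2 z'.2) (congrArg Subtype.val h))
  let ρ : Perm {g // g ∈ F} := Equiv.ofBijective ρ0 (Finite.injective_iff_bijective.1 ρ0inj)
  have hρ : ∀ z, ((ρ z : {g // g ∈ F}) : X) = st π Fs (π.symm z) := fun z => rfl
  -- labels of the cycles
  let S : Setoid X := ⟨π.SameCycle, ⟨SameCycle.refl π, fun h => h.symm, fun h h' => h.trans h'⟩⟩
  let κ : X → Quotient S := fun g => Quotient.mk S g
  have hκ : ∀ g g', κ g = κ g' ↔ π.SameCycle g g' :=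
    fun g g' => ⟨fun h => Quotient.exact h, fun h => Quotient.sound (s := S) h⟩
  have sc1 : ∀ g, π.SameCycle g (π.symm g) := fun g => sameCycle_iter 1 g
  have hρκ : ∀ z : {g // g ∈ F}, κ (ρ z : X) = κ (z : X) := by
    intro z
    rw [hκ, hρ]
    exact ((sc1 _).trans (sameCycle_st _)).symm
  have hρD : ∀ z : {g // g ∈ F}, D (ρ z : X) = !D (z : X) := by
    intro z
    rw [hρ, D_st hD' (hpv z z.2)]
    have := (D_prev hD' (z : X)).2 ((mF _).2 z.2)
    revert this
    cases D (π.symm (z : X)) <;> cases D (z : X) <;> simp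
  have hfib : ∀ z z' : {g // g ∈ F}, κ (z : X) = κ (z' : X) → ∃ i : ℕ, z' = (ρ ^ i) z := by
    intro z z' h
    rw [hκ] at h
    obtain ⟨n, hn⟩ := (sameCycle_inv.2 h).exists_nat_pow_eq
    have hn' : (⇑π.symm)^[n] (z : X) = z' := by
      have h4 : ⇑π.symm = ⇑(π⁻¹) := rfl
      rw [h4, Equiv.Perm.iterate_eq_pow]
      exact hn
    have key := reach_pv (π := π) (F := Fs)
      (fun u v => ∀ hu : u ∈ F, ∃ i : ℕ, v = (((ρ ^ i) ⟨u, hu⟩ : {g // g ∈ F}) : X))
      (fun g hg => ⟨0, rfl⟩)
      (by
        intro a b c hab hbc ha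
        obtain ⟨i, hi⟩ := hab ha
        have hb : b ∈ F := by rw [hi]; exact ((ρ ^ i) ⟨a, ha⟩).2
        obtain ⟨j, hj⟩ := hbc hb
        refine ⟨j + i, ?_⟩
        rw [hj, pow_add, Perm.mul_apply]
        congr 2
        exact Subtype.ext hi)
      (by
        intro g _ hg
        exact ⟨1, rfl⟩)
      n z ((mF _).2 z.2) (by rw [hn', mF]; exact z'.2) z.2
    obtain ⟨i, hi⟩ := key
    refine ⟨i, Subtype.ext ?_⟩
    rw [← hn']
    exact hi
  have h4 : ∀ z : {g // g ∈ F}, ρ (ρ (ρ (ρ z))) = z := by
    intro z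
    have hcyc : ∀ i : ℕ, π.SameCycle (z : X) (((ρ ^ i) z : {g // g ∈ F}) : X) := by
      intro i
      induction i with
      | zero => exact SameCycle.refl _ _
      | succ i ih =>
        have h5 : (ρ ^ (i + 1)) z = ρ ((ρ ^ i) z) := by rw [pow_succ']; rfl
        rw [h5]
        exact ih.trans ((hκ _ _).1 (hρκ _)).symm
    have hcard : {e | e ∈ F ∧ π.SameCycle (z : X) e}.ncard ≤ 4 := by
      have e1 := h2 (z : X)
      have e2 := h2' (z : X)
      rcases Nat.lt_or_ge {e | e ∈ F ∧ π.SameCycle (z : X) e}.ncard 5 with h | h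
      · omega
      · have h6 : {e | e ∈ F ∧ π.SameCycle (z : X) e}.ncard = 5 := le_antisymm e2 h
        rw [h6] at e1
        exact absurd e1 (by decide)
    have hni : ¬ Function.Injective (fun i : Fin 5 => (((ρ ^ i.val) z : {g // g ∈ F}) : X)) := by
      intro hinj
      have h7 : Set.range (fun i : Fin 5 => (((ρ ^ i.val) z : {g // g ∈ F}) : X)) ⊆
          {e | e ∈ F ∧ π.SameCycle (z : X) e} := by
        rintro _ ⟨i, rfl⟩
        exact ⟨((ρ ^ i.val) z).2, hcyc _⟩
      have h8 := Set.ncard_le_ncard h7 (Set.toFinite _)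
      rw [← Set.image_univ, Set.ncard_image_of_injective _ hinj, Set.ncard_univ, Nat.card_fin] at h8
      omega
    obtain ⟨d, hd1, hd4, hd⟩ : ∃ d : ℕ, 1 ≤ d ∧ d ≤ 4 ∧ (ρ ^ d) z = z := by
      rw [Function.Injective] at hni
      push Not at hni
      obtain ⟨i, j, hij, hne⟩ := hni
      have hij' : (ρ ^ i.val) z = (ρ ^ j.val) z := Subtype.ext hij
      have key : ∀ i j : ℕ, i < j → j ≤ 4 → (ρ ^ i) z = (ρ ^ j) z →
          ∃ d : ℕ, 1 ≤ d ∧ d ≤ 4 ∧ (ρ ^ d) z = z := by
        intro i j hlt hle h
        refine ⟨j - i, by omega, by omega, ?_⟩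
        have h9 : (ρ ^ j) z = (ρ ^ i) ((ρ ^ (j - i)) z) := by
          rw [← Perm.mul_apply, ← pow_add, Nat.add_sub_cancel' (le_of_lt hlt)]
        rw [h9] at h
        exact ((ρ ^ i).injective h).symm
      have hi := i.isLt
      have hj := j.isLt
      rcases Nat.lt_trichotomy i.val j.val with h | h | h
      · exact key _ _ h (by omega) hij'
      · exact absurd (Fin.ext h) hne
      · exact key _ _ h (by omega) hij'.symm
    have d1 := hρD z
    have d3 : D (ρ (ρ (ρ z)) : X) = !D (z : X) := by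
      rw [hρD, hρD, hρD, Bool.not_not]
    interval_cases d
    · exfalso
      have h5 : ρ z = z := hd
      rw [h5] at d1
      revert d1
      cases D (z : X) <;> simp
    · have h5 : ρ (ρ z) = z := hd
      rw [h5, h5]
    · exfalso
      have h5 : ρ (ρ (ρ z)) = z := hd
      rw [h5] at d3
      revert d3
      cases D (z : X) <;> simp
    · exact hd
  -- selection of the pairing
  have hp' : ∀ x, Even (F.filter (fun e => p e = x)).card := by
    intro x
    have := h1 x
    have h2 : {e | e ∈ F ∧ p e = x} = ((F.filter (fun e => p e = x) : Finset X) : Set X) := by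
      ext e; simp
    rwa [h2, Set.ncard_coe_finset] at this
  obtain ⟨a, ha⟩ := Pool.Agent.X267.Ham.fibre_pairing F p hp'
  obtain ⟨o, ho⟩ := select (Z := {g // g ∈ F}) (fun z => p z) (fun z => ⟨a z, (ha z z.2).1⟩)
    (fun z _ => ⟨trivial, Subtype.ext (ha z z.2).2.2.1,
      fun h => (ha z z.2).2.1 (congrArg Subtype.val h)⟩)
    (fun z => (ha z z.2).2.2.2) (fun z => κ z) ρ hρκ hfib (fun z => D z) hρD h4 (by
      intro S0 hS0 hp0 hρ0
      have hpow : ∀ i : ℕ, ∀ z ∈ S0, (ρ ^ i) z ∈ S0 := by
        intro i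
        induction i with
        | zero => intro z hz; exact hz
        | succ i ih =>
          intro z hz
          have h5 : (ρ ^ (i + 1)) z = ρ ((ρ ^ i) z) := by rw [pow_succ']; rfl
          rw [h5]
          exact hρ0 _ (ih z hz)
      have hS := h3 {g | ∃ e ∈ S0, p (e : X) = p g} (by
          obtain ⟨s, hs⟩ := hS0
          exact ⟨s, s, hs, rfl⟩)
        (by
          rintro e f hef ⟨e0, he0, h⟩
          exact ⟨e0, he0, h.trans hef⟩)
        (by
          rintro e f he hf hef ⟨e0, he0, h⟩
          have h5 : (⟨e, he⟩ : {g // g ∈ F}) ∈ S0 := hp0 e0 ⟨e, he⟩ h he0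
          obtain ⟨i, hi⟩ := hfib ⟨e, he⟩ ⟨f, hf⟩ ((hκ _ _).2 hef)
          exact ⟨⟨f, hf⟩, by rw [hi]; exact hpow i _ h5, rfl⟩)
      ext z
      simp only [Set.mem_univ, iff_true]
      have h5 : (z : X) ∈ {g | ∃ e ∈ S0, p (e : X) = p g} := by rw [hS]; trivial
      obtain ⟨e, he, h⟩ := h5
      exact hp0 e z h he)
  let bb : {g // g ∈ F} → {g // g ∈ F} := bo ρ (fun z => D z) (fun z => κ z) o
  have hbb := fun z => bo_facts (ρ := ρ) (D := fun z => D (z : X)) (κ := fun z => κ (z : X))
    hρκ hρD o z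
  let oo : X → Bool := fun g => o (κ g)
  have hoo : ∀ g g', π.SameCycle g g' → oo g = oo g' := by
    intro g g' h
    show o (κ g) = o (κ g')
    rw [(hκ g g').2 h]
  have bpos : ∀ z : {g // g ∈ F}, D (z : X) = oo z → bb z = ρ.symm z := fun z h => bo_pos h
  have bneg : ∀ z : {g // g ∈ F}, D (z : X) ≠ oo z → bb z = ρ z := fun z h => bo_neg h
  refine ⟨D, oo, hD, hoo, ?_⟩
  intro S1 hS1 hp1 hst1
  have h6 := ho {z | (z : X) ∈ S1} (by
      obtain ⟨e, he, heS⟩ := hS1
      exact ⟨⟨e, he⟩, heS⟩)
    (fun u v huv hu => hp1 u v u.2 v.2 huv hu) (by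
      intro z hz
      show ((bb z : {g // g ∈ F}) : X) ∈ S1
      obtain ⟨f1, f2, f3, f4⟩ := hbb z
      by_cases hDz : D (z : X) = oo z
      · have hne : D (bb z : X) ≠ oo (bb z) := by
          have h7 : D (bb z : X) = !D (z : X) := f2
          have h8 : oo (bb z) = oo z := by
            show o (κ (bb z : X)) = o (κ (z : X))
            have : κ (bb z : X) = κ (z : X) := f1
            rw [this]
          rw [h7, h8, hDz]
          cases oo z <;> simp
        have h9 := (hst1 (bb z) (bb z).2 hne)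
        have h10 : st π Fs (π.symm (bb z : X)) = z := by
          rw [← hρ, bpos z hDz, ρ.apply_symm_apply]
        rw [h10] at h9
        exact h9.2 hz
      · have h9 := (hst1 z z.2 hDz).1 hz
        rw [bneg z hDz]
        exact h9)
  intro e he
  have h7 : (⟨e, he⟩ : {g // g ∈ F}) ∈ {z : {g // g ∈ F} | (z : X) ∈ S1} := by rw [h6]; trivial
  exact h7

lemma count_half' {X : Type} [Finite X] (β : X → Bool) (S T : Set X) (hST : Disjoint S T) :
    {z : X × Bool | (z.1 ∈ S ∧ z.2 = β z.1) ∨ z.1 ∈ T}.ncard = S.ncard + 2 * T.ncard := by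
  have h1 : {z : X × Bool | (z.1 ∈ S ∧ z.2 = β z.1) ∨ z.1 ∈ T} =
      ((fun x => (x, β x)) '' S) ∪ (((fun x => (x, true)) '' T) ∪ ((fun x => (x, false)) '' T)) := by
    ext ⟨x, γ⟩
    simp only [Set.mem_ofPred_eq, Set.mem_union, Set.mem_image, Prod.mk.injEq]
    constructor
    · rintro (⟨h, h'⟩ | h)
      · exact Or.inl ⟨x, h, rfl, h'.symm⟩
      · right
        cases γ
        · exact Or.inr ⟨x, h, rfl, rfl⟩
        · exact Or.inl ⟨x, h, rfl, rfl⟩
    · rintro (⟨y, h, rfl, rfl⟩ | ⟨y, h, rfl, rfl⟩ | ⟨y, h, rfl, rfl⟩)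
      · exact Or.inl ⟨h, rfl⟩
      · exact Or.inr h
      · exact Or.inr h
  have i1 : ∀ γ : X → Bool, Function.Injective (fun x : X => (x, γ x)) :=
    fun γ x y h => (Prod.ext_iff.1 h).1
  rw [h1, Set.ncard_union_eq _ (Set.toFinite _) (Set.toFinite _),
    Set.ncard_union_eq _ (Set.toFinite _) (Set.toFinite _),
    Set.ncard_image_of_injective _ (i1 _), Set.ncard_image_of_injective _ (i1 (fun _ => true)),
    Set.ncard_image_of_injective _ (i1 (fun _ => false))]
  · ring
  · rw [Set.disjoint_left]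
    rintro _ ⟨x, _, rfl⟩ ⟨y, _, h⟩
    have := (Prod.ext_iff.1 h).2
    simp at this
  · rw [Set.disjoint_left]
    rintro _ ⟨x, hx, rfl⟩ (⟨y, hy, h⟩ | ⟨y, hy, h⟩)
    · have := (Prod.ext_iff.1 h).1
      simp only at this
      exact Set.disjoint_left.1 hST hx (this ▸ hy)
    · have := (Prod.ext_iff.1 h).1
      simp only at this
      exact Set.disjoint_left.1 hST hx (this ▸ hy)

open Pool.Agent.X267.Ham

variable {G : Type} [Group G] [Fintype G] [DecidableEq G]

theorem arc_compl (H L : Subgroup G) (hL : L ≤ H) (π : Perm G) (F : Finset G)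
    (h1 : ∀ q, Even {e | e ∈ F ∧ rp H e = q}.ncard)
    (h2 : ∀ x, Even {e | e ∈ F ∧ π.SameCycle x e}.ncard)
    (h2' : ∀ x, {e | e ∈ F ∧ π.SameCycle x e}.ncard ≤ 5)
    (hrob : ∀ y, 2 * Nat.card L ≤ {e | e ∈ (F : Set G) ∧ rp H e = rp H y}.ncard)
    (h3 : ∀ S : Set G, S.Nonempty → (∀ e f, rp H e = rp H f → e ∈ S → f ∈ S) →
      (∀ e f, e ∈ F → f ∈ F → π.SameCycle e f → e ∈ S → f ∈ S) → S = Set.univ) :
    ∃ τ : Perm G, (∀ x y, τ.SameCycle x y) ∧
      ∀ g, (g⁻¹ * τ g ∈ H ∧ g⁻¹ * τ g ∉ L) ∨ τ g = π g ∨ π (τ g) = g := by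
  classical
  obtain ⟨D, oo, hD, hoo, hsel⟩ := arc_select π F (rp H) h1 h2 h2' h3
  obtain ⟨Fs, hFs⟩ : ∃ Fs : Set G, Fs = (F : Set G) := ⟨_, rfl⟩
  have mF : ∀ g, g ∈ Fs ↔ g ∈ F := by intro g; rw [hFs]; exact Finset.mem_coe
  have hD' : ∀ x, D (π x) ≠ D x ↔ π x ∈ Fs := by intro x; rw [mF]; exact hD x
  rw [← hFs] at hsel hrob
  have sc1 : ∀ g, π.SameCycle g (π.symm g) := fun g => sameCycle_iter 1 g
  have hmsucc : ∀ g, Meets π Fs (π g) ↔ Meets π Fs g := by
    intro g
    rw [← meets_symm (g := π g), π.symm_apply_apply]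
  have hoosucc : ∀ g, oo (π g) = oo g := by
    intro g
    exact hoo _ _ ((sameCycle_apply_left).2 (SameCycle.refl _ _))
  -- the used half-edges
  let idn : G × Bool → G := fun z => if z.2 then z.1 else π.symm z.1
  obtain ⟨used, hused⟩ : ∃ used : G × Bool → Prop,
      ∀ z, used z ↔ (Meets π Fs z.1 ∧ D (idn z) = oo z.1) := ⟨_, fun z => Iff.rfl⟩
  have used1 : ∀ g, used (g, true) ↔ (Meets π Fs g ∧ D g = oo g) := by
    intro g; rw [hused]; simp only [idn, if_true]
  have used0 : ∀ g, used (g, false) ↔ (Meets π Fs g ∧ D (π.symm g) = oo g) := by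
    intro g; rw [hused]; simp [idn]
  have useds : ∀ g, used (π g, false) ↔ used (g, true) := by
    intro g
    rw [used0, used1, hmsucc, hoosucc, π.symm_apply_apply]
  have uF : ∀ g ∈ Fs, (used (g, true) ↔ ¬ used (g, false)) := by
    intro g hg
    have h5 := (D_prev hD' g).2 hg
    have h6 := meets_of_mem (π := π) hg
    rw [used1, used0]
    constructor
    · rintro ⟨_, h7⟩ ⟨_, h8⟩
      exact h5 (h8.trans h7.symm)
    · intro h7
      refine ⟨h6, ?_⟩
      by_contra h8
      apply h7
      refine ⟨h6, ?_⟩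
      revert h5 h8
      cases D (π.symm g) <;> cases D g <;> cases oo g <;> simp
  have uN : ∀ g, g ∉ Fs → (used (g, false) ↔ used (g, true)) := by
    intro g hg
    have h5 : D (π.symm g) = D g := by
      by_contra h6
      exact hg ((D_prev hD' g).1 h6)
    rw [used1, used0, h5]
  let Q : Set G := {g | g ∉ Fs ∧ ¬ used (g, true)}
  have hFQ : Disjoint Fs Q := by
    rw [Set.disjoint_left]
    intro g hg hg'
    exact hg'.1 hg
  -- the unused half-edges
  have unused : ∀ z : G × Bool, ¬ used z ↔ ((z.1 ∈ Fs ∧ z.2 = decide (used (z.1, false))) ∨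
      z.1 ∈ Q) := by
    rintro ⟨g, β⟩
    by_cases hg : g ∈ Fs
    · have h5 := uF g hg
      have h6 : g ∉ Q := fun h => h.1 hg
      simp only [hg, true_and, h6, or_false]
      cases β
      · simp
      · rw [h5]
        simp
    · have h5 := uN g hg
      simp only [hg, false_and, false_or]
      have h6 : g ∈ Q ↔ ¬ used (g, true) := ⟨fun h => h.2, fun h => ⟨hg, h⟩⟩
      rw [h6]
      cases β
      · rw [h5]
      · exact Iff.rfl
  have cnt : ∀ (U : Subgroup G) (y : G), {z : G × Bool | ¬ used z ∧ rp U z.1 = y}.ncard =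
      {e | e ∈ Fs ∧ rp U e = y}.ncard + 2 * {e | e ∈ Q ∧ rp U e = y}.ncard := by
    intro U y
    rw [← count_half' (fun g => decide (used (g, false)))]
    · congr 1
      ext z
      simp only [Set.mem_ofPred_eq, unused]
      tauto
    · rw [Set.disjoint_left]
      rintro x ⟨hx, _⟩ ⟨hx', _⟩
      exact Set.disjoint_left.1 hFQ hx hx'
  let κ : G × Bool → Bool × G := fun z => if used z then (false, idn z) else (true, rp H z.1)
  let cls : G × Bool → Bool ⊕ G := fun z => if used z then Sum.inl z.2 else Sum.inr (rp L z.1)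
  have κ1 : ∀ z, used z → κ z = (false, idn z) := by intro z h; simp [κ, h]
  have κ0 : ∀ z, ¬ used z → κ z = (true, rp H z.1) := by intro z h; simp [κ, h]
  have c1 : ∀ z, used z → cls z = Sum.inl z.2 := by intro z h; simp [cls, h]
  have c0 : ∀ z, ¬ used z → cls z = Sum.inr (rp L z.1) := by intro z h; simp [cls, h]
  have fib0 : ∀ y, {z | κ z = (true, y)} = {z : G × Bool | ¬ used z ∧ rp H z.1 = y} := by
    intro y
    ext z
    simp only [Set.mem_ofPred_eq]
    by_cases h : used z
    · rw [κ1 z h]; simp [h]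
    · rw [κ0 z h]; simp [h]
  have fib1 : ∀ g, used (g, true) → {z | κ z = (false, g)} = {(g, true), (π g, false)} := by
    intro g hg
    ext ⟨x, β⟩
    simp only [Set.mem_ofPred_eq, Set.mem_insert_iff, Set.mem_singleton_iff, Prod.mk.injEq]
    constructor
    · intro h
      by_cases hu : used (x, β)
      · rw [κ1 _ hu] at h
        have h5 : idn (x, β) = g := (Prod.ext_iff.1 h).2
        cases β
        · right
          have h6 : π.symm x = g := by simpa [idn] using h5
          exact ⟨by rw [← h6, π.apply_symm_apply], rfl⟩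
        · left
          have h6 : x = g := by simpa [idn] using h5
          exact ⟨h6, rfl⟩
      · rw [κ0 _ hu] at h
        exact absurd (Prod.ext_iff.1 h).1 (by simp)
    · rintro (⟨rfl, rfl⟩ | ⟨rfl, rfl⟩)
      · rw [κ1 _ hg]; simp [idn]
      · rw [κ1 _ ((useds g).2 hg)]; simp [idn]
  have fib1' : ∀ g, ¬ used (g, true) → {z | κ z = (false, g)} = ∅ := by
    intro g hg
    rw [Set.eq_empty_iff_forall_notMem]
    rintro ⟨x, β⟩ h
    rw [Set.mem_ofPred_eq] at h
    by_cases hu : used (x, β)
    · rw [κ1 _ hu] at h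
      have h5 : idn (x, β) = g := (Prod.ext_iff.1 h).2
      apply hg
      cases β
      · have h6 : π.symm x = g := by simpa [idn] using h5
        rw [← useds, ← h6, π.apply_symm_apply]
        exact hu
      · have h6 : x = g := by simpa [idn] using h5
        rw [← h6]
        exact hu
    · rw [κ0 _ hu] at h
      exact absurd (Prod.ext_iff.1 h).1 (by simp)
  have rpmono : ∀ {a b : G}, rp L a = rp L b → rp H a = rp H b := fun h => rp_le hL h
  have hpair2 : ∀ g : G, ({(g, true), (π g, false)} : Set (G × Bool)).ncard = 2 := by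
    intro g
    rw [Set.ncard_pair]
    intro h
    have := (Prod.ext_iff.1 h).2
    simp at this
  obtain ⟨σ, hσ1, hσ2⟩ := half_edges κ cls (by
      rintro ⟨β, y⟩
      cases β
      · by_cases hy : used (y, true)
        · rw [fib1 y hy, hpair2]
          exact ⟨1, rfl⟩
        · rw [fib1' y hy, Set.ncard_empty]
          exact ⟨0, rfl⟩
      · rw [fib0, cnt]
        refine Even.add ?_ (even_two_mul _)
        have h5 : {e | e ∈ Fs ∧ rp H e = y} = {e | e ∈ F ∧ rp H e = y} := by
          ext e; simp only [Set.mem_ofPred_eq, mF]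
        rw [h5]
        exact h1 y)
    (by
      intro z0
      by_cases h : used z0
      · have h5 : {z | κ z = κ z0 ∧ cls z = cls z0} ⊆ {z0} := by
          rintro z ⟨hz1, hz2⟩
          rw [κ1 z0 h] at hz1
          rw [c1 z0 h] at hz2
          by_cases hz : used z
          · rw [κ1 z hz] at hz1
            rw [c1 z hz] at hz2
            have h6 : idn z = idn z0 := (Prod.ext_iff.1 hz1).2
            have h7 : z.2 = z0.2 := Sum.inl_injective hz2
            rw [Set.mem_singleton_iff]
            obtain ⟨x, β⟩ := z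
            obtain ⟨x0, β0⟩ := z0
            simp only at h7
            subst h7
            cases β
            · have h8 : π.symm x = π.symm x0 := by simpa [idn] using h6
              rw [π.symm.injective h8]
            · have h8 : x = x0 := by simpa [idn] using h6
              rw [h8]
          · rw [c0 z hz] at hz2
            exact absurd hz2 Sum.inr_ne_inl
        have h6 := Set.ncard_le_ncard h5 (Set.toFinite _)
        rw [Set.ncard_singleton] at h6
        have hg : used (idn z0, true) := by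
          obtain ⟨x0, β0⟩ := z0
          cases β0
          · have h8 : idn (x0, false) = π.symm x0 := by simp [idn]
            rw [h8, ← useds, π.apply_symm_apply]
            exact h
          · have h8 : idn (x0, true) = x0 := by simp [idn]
            rw [h8]
            exact h
        rw [κ1 z0 h, fib1 _ hg, hpair2]
        rw [κ1 z0 h] at h6
        omega
      · have e1 : {z | κ z = κ z0 ∧ cls z = cls z0} =
            {z : G × Bool | ¬ used z ∧ rp L z.1 = rp L z0.1} := by
          ext z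
          simp only [Set.mem_ofPred_eq]
          rw [κ0 z0 h, c0 z0 h]
          by_cases hz : used z
          · rw [κ1 z hz]; simp [hz]
          · rw [κ0 z hz, c0 z hz]
            simp only [Prod.mk.injEq, true_and, hz, not_false_eq_true]
            exact ⟨fun h2 => Sum.inr_injective h2.2, fun h2 => ⟨rpmono h2, by rw [h2]⟩⟩
        rw [e1, κ0 z0 h, fib0, cnt, cnt]
        exact side_robust H L hL Fs Q hFQ hrob z0.1)
    (by
      intro S hS hcl
      -- going back along an arc
      have back : ∀ T : Set G, (∀ u v : G × Bool, κ u = κ v → u.1 ∈ T → v.1 ∈ T) →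
          ∀ g ∈ T, Meets π Fs g → D g = oo g → st π Fs g ∈ T := by
        intro T hT g hg hM hDg
        have key : ∀ i ≤ tt π Fs g, (⇑π.symm)^[i] g ∈ T := by
          intro i
          induction i with
          | zero => intro _; exact hg
          | succ i ih =>
            intro hi
            have h5 := ih (by omega)
            have h6 := tt_min hM (show i < tt π Fs g by omega)
            obtain ⟨a1, a2, a3⟩ := path hM i (by omega)
            have h7 : D ((⇑π.symm)^[i] g) = oo ((⇑π.symm)^[i] g) := by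
              rw [← D_st hD' a1, a3, D_st hD' hM, hDg]
              exact hoo _ _ (sameCycle_iter i g)
            have h8 : used ((⇑π.symm)^[i] g, true) := (used1 _).2 ⟨a1, h7⟩
            have h9 : used ((⇑π.symm)^[i] g, false) := (uN _ h6).2 h8
            have h10 : used (π.symm ((⇑π.symm)^[i] g), true) := by
              rw [← useds, π.apply_symm_apply]
              exact h9
            rw [Function.iterate_succ_apply']
            exact hT ((⇑π.symm)^[i] g, false) (π.symm ((⇑π.symm)^[i] g), true)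
              (by rw [κ1 _ h9, κ1 _ h10]; simp [idn]) h5
        exact key _ le_rfl
      -- from an element of `F` to the previous one
      have prev : ∀ T : Set G, (∀ u v : G × Bool, κ u = κ v → u.1 ∈ T → v.1 ∈ T) →
          ∀ e ∈ Fs, D e ≠ oo e → e ∈ T → st π Fs (π.symm e) ∈ T := by
        intro T hT e he hDe heT
        have h5 := (D_prev hD' e).2 he
        have h6 : D (π.symm e) = oo e := by
          revert h5 hDe
          cases D (π.symm e) <;> cases D e <;> cases oo e <;> simp
        have h7 : used (e, false) := (used0 e).2 ⟨meets_of_mem he, h6⟩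
        have h8 : used (π.symm e, true) := by
          rw [← useds, π.apply_symm_apply]
          exact h7
        have h9 : π.symm e ∈ T := hT (e, false) (π.symm e, true)
          (by rw [κ1 _ h7, κ1 _ h8]; simp [idn]) heT
        exact back T hT _ h9 ((used1 _).1 h8).1 ((used1 _).1 h8).2
      have hcl' : ∀ u v : G × Bool, κ u = κ v → u.1 ∈ Sᶜ → v.1 ∈ Sᶜ := by
        intro u v huv hu hv
        exact hu (hcl v u huv.symm hv)
      -- elements with a free half-edge
      have free : ∀ g h : G, (g ∈ Fs ∨ g ∈ Q) → (h ∈ Fs ∨ h ∈ Q) → rp H g = rp H h → g ∈ S →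
          h ∈ S := by
        intro g h hg hh hgh hgS
        have hfr : ∀ g : G, (g ∈ Fs ∨ g ∈ Q) → ∃ β, ¬ used (g, β) := by
          rintro g (hg | hg)
          · refine ⟨decide (used (g, false)), ?_⟩
            rw [unused]
            exact Or.inl ⟨hg, rfl⟩
          · exact ⟨true, hg.2⟩
        obtain ⟨β, hβ⟩ := hfr g hg
        obtain ⟨β', hβ'⟩ := hfr h hh
        exact hcl (g, β) (h, β') (by rw [κ0 _ hβ, κ0 _ hβ', hgh]) hgS
      have hmeet : ∀ g, ∃ e ∈ Fs, rp H e = rp H g := by
        intro g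
        by_contra hcon
        push Not at hcon
        have h5 := hrob g
        have h6 : {e | e ∈ Fs ∧ rp H e = rp H g} = ∅ := by
          rw [Set.eq_empty_iff_forall_notMem]
          rintro e ⟨he, he'⟩
          exact hcon e he he'
        rw [h6, Set.ncard_empty] at h5
        have : 0 < Nat.card L := Nat.card_pos
        omega
      have hFS := hsel S (by
          obtain ⟨s, hs⟩ := hS
          by_cases hsF : s ∈ Fs
          · exact ⟨s, (mF s).1 hsF, hs⟩
          by_cases hsu : used (s, true)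
          · have h5 := (used1 s).1 hsu
            exact ⟨_, (mF _).1 (st_mem h5.1), back S hcl s hs h5.1 h5.2⟩
          · obtain ⟨e, he, he'⟩ := hmeet s
            exact ⟨e, (mF e).1 he, free s e (Or.inr ⟨hsF, hsu⟩) (Or.inl he) he'.symm hs⟩)
        (fun e f he hf hef heS => free e f (Or.inl ((mF e).2 he)) (Or.inl ((mF f).2 hf)) hef heS)
        (by
          intro e he hDe
          constructor
          · exact prev S hcl e ((mF e).2 he) hDe
          · intro h5
            by_contra h6
            exact prev Sᶜ hcl' e ((mF e).2 he) hDe h6 h5)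
      ext s
      simp only [Set.mem_univ, iff_true]
      by_cases hsF : s ∈ Fs
      · exact hFS s ((mF s).1 hsF)
      by_cases hsu : used (s, true)
      · have h5 := (used1 s).1 hsu
        by_contra h6
        exact back Sᶜ hcl' s h6 h5.1 h5.2 (hFS _ ((mF _).1 (st_mem h5.1)))
      · obtain ⟨e, he, he'⟩ := hmeet s
        exact free e s (Or.inl he) (Or.inr ⟨hsF, hsu⟩) he' (hFS e ((mF e).1 he)))
  refine ⟨σ, hσ1, fun g => ?_⟩
  obtain ⟨β, β', h5, h6⟩ := hσ2 g
  by_cases h : used (g, β)
  · right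
    rw [κ1 _ h] at h5
    rw [c1 _ h] at h6
    by_cases h' : used (σ g, β')
    · rw [κ1 _ h'] at h5
      rw [c1 _ h'] at h6
      have h7 : idn (g, β) = idn (σ g, β') := (Prod.ext_iff.1 h5).2
      have h8 : β ≠ β' := fun h9 => h6 (by rw [h9])
      cases β
      · have h9 : β' = true := by revert h8; cases β' <;> simp
        rw [h9] at h7
        right
        have h10 : π.symm g = σ g := by simpa [idn] using h7
        rw [← h10, π.apply_symm_apply]
      · have h9 : β' = false := by revert h8; cases β' <;> simp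
        rw [h9] at h7
        left
        have h10 : g = π.symm (σ g) := by simpa [idn] using h7
        have h11 := congrArg π h10
        rw [π.apply_symm_apply] at h11
        exact h11.symm
    · rw [κ0 _ h'] at h5
      exact absurd (Prod.ext_iff.1 h5).1 (by simp)
  · left
    rw [κ0 _ h] at h5
    rw [c0 _ h] at h6
    by_cases h' : used (σ g, β')
    · rw [κ1 _ h'] at h5
      exact absurd (Prod.ext_iff.1 h5).1 (by simp)
    · rw [κ0 _ h'] at h5
      rw [c0 _ h'] at h6
      have h7 : rp H g = rp H (σ g) := (Prod.ext_iff.1 h5).2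
      refine ⟨(rp_eq_iff H).1 h7, fun h8 => ?_⟩
      apply h6
      have h9 : rp L g = rp L (σ g) := (rp_eq_iff L).2 h8
      simp only [h9]

end Pool.Agent.H647.Kot
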