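import Pool.Agent.H647.Kot.Arc

/-!
# Cyclic orderings with steps along the cycles of a permutation and inside classes
-/

set_option autoImplicit false

namespace Pool.Agent.H647.Kot

open Equiv Equiv.Perm
open Pool.Agent.Q27.HC (Inv)

theorem chain_up {X : Type*} (R : X → X → Prop) (hr : ∀ x, R x x)
    (ht : ∀ x y z, R x y → R y z → R x z) (y : ℕ → X) (J : ℕ)
    (h : ∀ i < J, R (y i) (y (i + 1))) : ∀ i k, i ≤ k → k ≤ J → R (y i) (y k) := by
  intro i k hik
  induction k, hik using Nat.le_induction with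
  | base => intro _; exact hr _
  | succ k _ ih => intro hk; exact ht _ _ _ (ih (by omega)) (h k (by omega))

theorem chain_down {X : Type*} (R : X → X → Prop) (hr : ∀ x, R x x)
    (ht : ∀ x y z, R x y → R y z → R x z) (y : ℕ → X) (J : ℕ)
    (h : ∀ i < J, R (y (i + 1)) (y i)) : ∀ i k, i ≤ k → k ≤ J → R (y k) (y i) := by
  intro i k hik
  induction k, hik using Nat.le_induction with
  | base => intro _; exact hr _
  | succ k _ ih => intro hk; exact ht _ _ _ (h k (by omega)) (ih (by omega))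

/-- **Cyclic orderings from connected even subsets** meeting every cycle of `π` in at most five
elements. -/
theorem arc_tour {X P : Type*} [Fintype X] [DecidableEq X] (π : Perm X) (F : Finset X) (p : X → P)
    (h1 : ∀ q, Even {e | e ∈ F ∧ p e = q}.ncard)
    (h2 : ∀ x, Even {e | e ∈ F ∧ π.SameCycle x e}.ncard)
    (h2' : ∀ x, {e | e ∈ F ∧ π.SameCycle x e}.ncard ≤ 5)
    (h3 : ∀ S : Set X, S.Nonempty → (∀ e f, p e = p f → e ∈ S → f ∈ S) →
      (∀ e f, e ∈ F → f ∈ F → π.SameCycle e f → e ∈ S → f ∈ S) → S = Set.univ) :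
    ∃ τ : Perm X, (∀ x y, τ.SameCycle x y) ∧
      ∀ g, p (τ g) = p g ∨ τ g = π g ∨ π (τ g) = g := by
  classical
  obtain ⟨D, hD, -⟩ := Pool.Agent.H718C.exists_phase π F h2
  -- `F` as a set
  obtain ⟨Fs, hFs⟩ : ∃ Fs : Set X, Fs = (F : Set X) := ⟨_, rfl⟩
  have mF : ∀ g, g ∈ Fs ↔ g ∈ F := by intro g; rw [hFs]; exact Finset.mem_coe
  have hD' : ∀ x, D (π x) ≠ D x ↔ π x ∈ Fs := by intro x; rw [mF]; exact hD x
  -- the previous element
  have hpv : ∀ g ∈ F, Meets π Fs (π.symm g) := fun g hg => meets_symm.2 (meets_of_mem ((mF g).2 hg))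
  let ρ0 : {g // g ∈ F} → {g // g ∈ F} :=
    fun z => ⟨st π Fs (π.symm z), (mF _).1 (st_mem (hpv z z.2))⟩
  have ρ0inj : Function.Injective ρ0 := by
    intro z z' h
    exact Subtype.ext (pv_inj ((mF _).2 z.2) ((mF _).2 z'.2) (congrArg Subtype.val h))
  let ρ : Perm {g // g ∈ F} := Equiv.ofBijective ρ0 (Finite.injective_iff_bijective.1 ρ0inj)
  have hρ : ∀ z, ((ρ z : {g // g ∈ F}) : X) = st π Fs (π.symm z) := fun z => rfl
  -- labels of the cycles
  let S : Setoid X := ⟨π.SameCycle, ⟨SameCycle.refl π, fun h => h.symm, fun h h' => h.trans h'⟩⟩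
  let κ : X → Quotient S := fun g => Quotient.mk S g
  have hκ : ∀ g g', κ g = κ g' ↔ π.SameCycle g g' :=
    fun g g' => ⟨fun h => Quotient.exact h, fun h => Quotient.sound (s := S) h⟩
  have sc1 : ∀ g, π.SameCycle g (π.symm g) := fun g => sameCycle_iter 1 g
  have hρκ : ∀ z : {g // g ∈ F}, κ (ρ z : X) = κ (z : X) := by
    intro z
    rw [hκ, hρ]
    exact ((sc1 _).trans (sameCycle_st _)).symm
  have hρD : ∀ z : {g // g ∈ F}, D (ρ z : X) = !D (z : X) := by
    intro z
    rw [hρ, D_st hD' (hpv z z.2)]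
    have := (D_prev hD' (z : X)).2 ((mF _).2 z.2)
    revert this
    cases D (π.symm (z : X)) <;> cases D (z : X) <;> simp
  have hfib : ∀ z z' : {g // g ∈ F}, κ (z : X) = κ (z' : X) → ∃ i : ℕ, z' = (ρ ^ i) z := by
    intro z z' h
    rw [hκ] at h
    obtain ⟨n, hn⟩ := (sameCycle_inv.2 h).exists_nat_pow_eq
    have hn' : (⇑π.symm)^[n] (z : X) = z' := by
      have h4 : ⇑π.symm = ⇑(π⁻¹) := rfl
      rw [h4, Equiv.Perm.iterate_eq_pow]
      exact hn
    have key := reach_pv (π := π) (F := Fs)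
      (fun u v => ∀ hu : u ∈ F, ∃ i : ℕ, v = (((ρ ^ i) ⟨u, hu⟩ : {g // g ∈ F}) : X))
      (fun g hg => ⟨0, rfl⟩)
      (by
        intro a b c hab hbc ha
        obtain ⟨i, hi⟩ := hab ha
        have hb : b ∈ F := by rw [hi]; exact ((ρ ^ i) ⟨a, ha⟩).2
        obtain ⟨j, hj⟩ := hbc hb
        refine ⟨j + i, ?_⟩
        rw [hj, pow_add, Perm.mul_apply]
        congr 2
        exact Subtype.ext hi)
      (by
        intro g _ hg
        exact ⟨1, rfl⟩)
      n z ((mF _).2 z.2) (by rw [hn', mF]; exact z'.2) z.2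
    obtain ⟨i, hi⟩ := key
    refine ⟨i, Subtype.ext ?_⟩
    rw [← hn']
    exact hi
  have h4 : ∀ z : {g // g ∈ F}, ρ (ρ (ρ (ρ z))) = z := by
    intro z
    have hcyc : ∀ i : ℕ, π.SameCycle (z : X) (((ρ ^ i) z : {g // g ∈ F}) : X) := by
      intro i
      induction i with
      | zero => exact SameCycle.refl _ _
      | succ i ih =>
        have h5 : (ρ ^ (i + 1)) z = ρ ((ρ ^ i) z) := by rw [pow_succ']; rfl
        rw [h5]
        exact ih.trans ((hκ _ _).1 (hρκ _)).symm
    have hcard : {e | e ∈ F ∧ π.SameCycle (z : X) e}.ncard ≤ 4 := by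
      have e1 := h2 (z : X)
      have e2 := h2' (z : X)
      rcases Nat.lt_or_ge {e | e ∈ F ∧ π.SameCycle (z : X) e}.ncard 5 with h | h
      · omega
      · have h6 : {e | e ∈ F ∧ π.SameCycle (z : X) e}.ncard = 5 := le_antisymm e2 h
        rw [h6] at e1
        exact absurd e1 (by decide)
    have hni : ¬ Function.Injective (fun i : Fin 5 => (((ρ ^ i.val) z : {g // g ∈ F}) : X)) := by
      intro hinj
      have h7 : Set.range (fun i : Fin 5 => (((ρ ^ i.val) z : {g // g ∈ F}) : X)) ⊆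
          {e | e ∈ F ∧ π.SameCycle (z : X) e} := by
        rintro _ ⟨i, rfl⟩
        exact ⟨((ρ ^ i.val) z).2, hcyc _⟩
      have h8 := Set.ncard_le_ncard h7 (Set.toFinite _)
      rw [← Set.image_univ, Set.ncard_image_of_injective _ hinj, Set.ncard_univ, Nat.card_fin] at h8
      omega
    obtain ⟨d, hd1, hd4, hd⟩ : ∃ d : ℕ, 1 ≤ d ∧ d ≤ 4 ∧ (ρ ^ d) z = z := by
      rw [Function.Injective] at hni
      push Not at hni
      obtain ⟨i, j, hij, hne⟩ := hni
      have hij' : (ρ ^ i.val) z = (ρ ^ j.val) z := Subtype.ext hij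
      have key : ∀ i j : ℕ, i < j → j ≤ 4 → (ρ ^ i) z = (ρ ^ j) z →
          ∃ d : ℕ, 1 ≤ d ∧ d ≤ 4 ∧ (ρ ^ d) z = z := by
        intro i j hlt hle h
        refine ⟨j - i, by omega, by omega, ?_⟩
        have h9 : (ρ ^ j) z = (ρ ^ i) ((ρ ^ (j - i)) z) := by
          rw [← Perm.mul_apply, ← pow_add, Nat.add_sub_cancel' (le_of_lt hlt)]
        rw [h9] at h
        exact ((ρ ^ i).injective h).symm
      have hi := i.isLt
      have hj := j.isLt
      rcases Nat.lt_trichotomy i.val j.val with h | h | h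
      · exact key _ _ h (by omega) hij'
      · exact absurd (Fin.ext h) hne
      · exact key _ _ h (by omega) hij'.symm
    have d1 := hρD z
    have d3 : D (ρ (ρ (ρ z)) : X) = !D (z : X) := by
      rw [hρD, hρD, hρD, Bool.not_not]
    interval_cases d
    · exfalso
      have h5 : ρ z = z := hd
      rw [h5] at d1
      revert d1
      cases D (z : X) <;> simp
    · have h5 : ρ (ρ z) = z := hd
      rw [h5, h5]
    · exfalso
      have h5 : ρ (ρ (ρ z)) = z := hd
      rw [h5] at d3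
      revert d3
      cases D (z : X) <;> simp
    · exact hd
  -- selection of the pairing
  have hp' : ∀ x, Even (F.filter (fun e => p e = x)).card := by
    intro x
    have := h1 x
    have h2 : {e | e ∈ F ∧ p e = x} = ((F.filter (fun e => p e = x) : Finset X) : Set X) := by
      ext e; simp
    rwa [h2, Set.ncard_coe_finset] at this
  obtain ⟨a, ha⟩ := Pool.Agent.X267.Ham.fibre_pairing F p hp'
  obtain ⟨o, ho⟩ := select (Z := {g // g ∈ F}) (fun z => p z) (fun z => ⟨a z, (ha z z.2).1⟩)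
    (fun z _ => ⟨trivial, Subtype.ext (ha z z.2).2.2.1,
      fun h => (ha z z.2).2.1 (congrArg Subtype.val h)⟩)
    (fun z => (ha z z.2).2.2.2) (fun z => κ z) ρ hρκ hfib (fun z => D z) hρD h4 (by
      intro S0 hS0 hp0 hρ0
      have hpow : ∀ i : ℕ, ∀ z ∈ S0, (ρ ^ i) z ∈ S0 := by
        intro i
        induction i with
        | zero => intro z hz; exact hz
        | succ i ih =>
          intro z hz
          have h5 : (ρ ^ (i + 1)) z = ρ ((ρ ^ i) z) := by rw [pow_succ']; rfl
          rw [h5]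
          exact hρ0 _ (ih z hz)
      have hS := h3 {g | ∃ e ∈ S0, p (e : X) = p g} (by
          obtain ⟨s, hs⟩ := hS0
          exact ⟨s, s, hs, rfl⟩)
        (by
          rintro e f hef ⟨e0, he0, h⟩
          exact ⟨e0, he0, h.trans hef⟩)
        (by
          rintro e f he hf hef ⟨e0, he0, h⟩
          have h5 : (⟨e, he⟩ : {g // g ∈ F}) ∈ S0 := hp0 e0 ⟨e, he⟩ h he0
          obtain ⟨i, hi⟩ := hfib ⟨e, he⟩ ⟨f, hf⟩ ((hκ _ _).2 hef)
          exact ⟨⟨f, hf⟩, by rw [hi]; exact hpow i _ h5, rfl⟩)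
      ext z
      simp only [Set.mem_univ, iff_true]
      have h5 : (z : X) ∈ {g | ∃ e ∈ S0, p (e : X) = p g} := by rw [hS]; trivial
      obtain ⟨e, he, h⟩ := h5
      exact hp0 e z h he)
  let bb : {g // g ∈ F} → {g // g ∈ F} := bo ρ (fun z => D z) (fun z => κ z) o
  have hbb := fun z => bo_facts (ρ := ρ) (D := fun z => D (z : X)) (κ := fun z => κ (z : X))
    hρκ hρD o z
  let oo : X → Bool := fun g => o (κ g)
  have hoo : ∀ g g', π.SameCycle g g' → oo g = oo g' := by
    intro g g' h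
    show o (κ g) = o (κ g')
    rw [(hκ g g').2 h]
  have bpos : ∀ z : {g // g ∈ F}, D (z : X) = oo z → bb z = ρ.symm z := fun z h => bo_pos h
  have bneg : ∀ z : {g // g ∈ F}, D (z : X) ≠ oo z → bb z = ρ z := fun z h => bo_neg h
  let XX : X → Prop := fun g => g ∉ F ∧ Meets π Fs g ∧ D g = oo g
  have inE : ∀ g ∈ F, ¬ XX g := fun g hg h => h.1 hg
  let bE : {g // ¬ XX g} → {g // ¬ XX g} := fun e =>
    if h : (e : X) ∈ F then ⟨(bb ⟨e, h⟩ : X), inE _ (bb ⟨e, h⟩).2⟩ else e
  have hbE : ∀ (e : {g // ¬ XX g}) (h : (e : X) ∈ F), ((bE e : {g // ¬ XX g}) : X) = bb ⟨e, h⟩ := by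
    intro e h
    simp only [bE, dif_pos h]
  let FE : Finset {g // ¬ XX g} := Finset.univ.filter (fun e => (e : X) ∈ F)
  have mFE : ∀ e : {g // ¬ XX g}, e ∈ FE ↔ (e : X) ∈ F := by
    intro e
    simp only [FE, Finset.mem_filter, Finset.mem_univ, true_and]
  obtain ⟨σ, hσ, c, hc1, hc2, hc3⟩ := tour2 FE (fun e => p e) bE (by
      intro q
      have h5 : Subtype.val '' {e : {g // ¬ XX g} | e ∈ FE ∧ p (e : X) = q} =
          {e : X | e ∈ F ∧ p e = q} := by
        ext g
        constructor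
        · rintro ⟨e, ⟨he, hq⟩, rfl⟩
          exact ⟨(mFE e).1 he, hq⟩
        · rintro ⟨hg, hq⟩
          exact ⟨⟨g, inE g hg⟩, ⟨(mFE _).2 hg, hq⟩, rfl⟩
      have h6 := Set.ncard_image_of_injective {e : {g // ¬ XX g} | e ∈ FE ∧ p (e : X) = q}
        Subtype.val_injective
      rw [← h6, h5]
      exact h1 q)
    (by
      intro e he
      have heF := (mFE e).1 he
      obtain ⟨_, _, f3, f4⟩ := hbb ⟨e, heF⟩
      have h5 : ((bE e : {g // ¬ XX g}) : X) ∈ F := by
        rw [hbE e heF]; exact (bb ⟨e, heF⟩).2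
      refine ⟨(mFE _).2 h5, ?_, ?_⟩
      · intro h
        apply f4
        apply Subtype.ext
        show ((bb ⟨e, heF⟩ : {g // g ∈ F}) : X) = e
        rw [← hbE e heF, h]
      · apply Subtype.ext
        rw [hbE (bE e) h5]
        have h6 : (⟨(bE e : X), h5⟩ : {g // g ∈ F}) = bb ⟨e, heF⟩ := Subtype.ext (hbE e heF)
        rw [h6]
        exact congrArg Subtype.val f3)
    (by
      intro S0 hS0 hp0 hb0
      have hS := h3 {g | ∃ e ∈ S0, p (e : X) = p g} (by
          obtain ⟨s, hs⟩ := hS0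
          exact ⟨s, s, hs, rfl⟩)
        (by
          rintro e f hef ⟨e0, he0, h⟩
          exact ⟨e0, he0, h.trans hef⟩)
        (by
          rintro e f he hf hef ⟨e0, he0, h⟩
          have h5 : (⟨e, inE e he⟩ : {g // ¬ XX g}) ∈ S0 := hp0 e0 ⟨e, inE e he⟩ h he0
          have h6 := ho {z | (⟨(z : X), inE _ z.2⟩ : {g // ¬ XX g}) ∈ S0} ⟨⟨e, he⟩, h5⟩
            (fun u v huv hu => hp0 _ _ huv hu) (by
              intro u hu
              have h7 := hb0 ⟨(u : X), inE _ u.2⟩ ((mFE _).2 u.2) hu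
              have h8 : bE ⟨(u : X), inE _ u.2⟩ = ⟨(bb u : X), inE _ (bb u).2⟩ :=
                Subtype.ext (hbE ⟨(u : X), inE _ u.2⟩ u.2)
              rw [h8] at h7
              exact h7)
          have h7 : (⟨f, hf⟩ : {g // g ∈ F}) ∈
              {z : {g // g ∈ F} | (⟨(z : X), inE _ z.2⟩ : {g // ¬ XX g}) ∈ S0} := by
            rw [h6]; trivial
          exact ⟨⟨f, inE f hf⟩, h7, rfl⟩)
      ext z
      simp only [Set.mem_univ, iff_true]
      have h5 : (z : X) ∈ {g | ∃ e ∈ S0, p (e : X) = p g} := by rw [hS]; trivial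
      obtain ⟨e, he, h⟩ := h5
      exact hp0 e z h he)
  let cX : X → Bool := fun g => if h : g ∈ F then c ⟨g, inE g h⟩ else true
  have hcX : ∀ (g : X) (h : g ∈ F), cX g = c ⟨g, inE g h⟩ := by
    intro g h
    simp only [cX, dif_pos h]
  have hcb : ∀ z : {g // g ∈ F}, cX (bb z : X) = !cX (z : X) := by
    intro z
    rw [hcX _ z.2, hcX _ (bb z).2]
    have h5 := hc1 ⟨(z : X), inE _ z.2⟩ ((mFE _).2 z.2)
    rw [← h5]
    congr 1
    apply Subtype.ext
    rw [hbE _ z.2]
  let τ : X → X := fun g =>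
    if Meets π Fs g ∧ D g = oo g ∧ cX (st π Fs g) = false then π g
    else if Meets π Fs g ∧ D (π.symm g) = oo g ∧ cX (st π Fs (π.symm g)) = true then π.symm g
    else if h : ¬ XX g then (σ ⟨g, h⟩ : X) else g
  have τ1 : ∀ g, Meets π Fs g → D g = oo g → cX (st π Fs g) = false → τ g = π g := by
    intro g a1 a2 a3
    simp only [τ]
    rw [if_pos ⟨a1, a2, a3⟩]
  have τ2 : ∀ g, ¬ (Meets π Fs g ∧ D g = oo g ∧ cX (st π Fs g) = false) → Meets π Fs g →
      D (π.symm g) = oo g → cX (st π Fs (π.symm g)) = true → τ g = π.symm g := by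
    intro g a0 a1 a2 a3
    simp only [τ]
    rw [if_neg a0, if_pos ⟨a1, a2, a3⟩]
  have τ3 : ∀ g, ¬ (Meets π Fs g ∧ D g = oo g ∧ cX (st π Fs g) = false) →
      ¬ (Meets π Fs g ∧ D (π.symm g) = oo g ∧ cX (st π Fs (π.symm g)) = true) →
      ∀ h : ¬ XX g, τ g = σ ⟨g, h⟩ := by
    intro g a0 a1 h
    simp only [τ]
    rw [if_neg a0, if_neg a1, dif_pos h]
  let R : X → X → Prop := Relation.ReflTransGen (fun u v => v = τ u)
  have Rr : ∀ x, R x x := fun x => Relation.ReflTransGen.refl
  have Rt : ∀ x y z, R x y → R y z → R x z := fun x y z h h' => Relation.ReflTransGen.trans h h'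
  have R1 : ∀ x, R x (τ x) := fun x => Relation.ReflTransGen.single rfl
  -- one arc
  have arc : ∀ g' ∈ F, D (st π Fs (π.symm g')) = oo (st π Fs (π.symm g')) → ∀ i,
      i ≤ tt π Fs (π.symm g') →
      (cX (st π Fs (π.symm g')) = false → R ((⇑π.symm)^[i] (π.symm g')) g' ∧
        R (st π Fs (π.symm g')) ((⇑π.symm)^[i] (π.symm g'))) ∧
      (cX (st π Fs (π.symm g')) = true → R g' ((⇑π.symm)^[i] (π.symm g')) ∧
        R ((⇑π.symm)^[i] (π.symm g')) (st π Fs (π.symm g'))) := by
    intro g' hg' hs i hi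
    have hM := hpv g' hg'
    set y : ℕ → X := fun i => (⇑π.symm)^[i] (π.symm g') with hy
    set J := tt π Fs (π.symm g') with hJ
    set s := st π Fs (π.symm g') with hsdef
    have hyJ : y J = s := rfl
    have hys : ∀ i, y (i + 1) = π.symm (y i) := fun i => Function.iterate_succ_apply' _ _ _
    have hpath : ∀ i ≤ J, Meets π Fs (y i) ∧ st π Fs (y i) = s ∧ D (y i) = oo (y i) := by
      intro i hi
      obtain ⟨a1, _, a3⟩ := path hM i hi
      refine ⟨a1, a3, ?_⟩
      have a4 := D_st hD' a1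
      have a5 := hoo _ _ (sameCycle_st (π := π) (F := Fs) (y i))
      rw [a3] at a4
      have a3' : st π Fs (y i) = s := a3
      rw [a3'] at a5
      show D ((⇑π.symm)^[i] (π.symm g')) = _
      rw [← a4, a5]
      exact hs
    constructor
    · intro hcs
      have hdown : ∀ i < J, R (y (i + 1)) (y i) := by
        intro i hi
        obtain ⟨a1, a2, a3⟩ := hpath (i + 1) (by omega)
        have h5 := τ1 _ a1 a3 (by rw [a2]; exact hcs)
        have h6 : π (y (i + 1)) = y i := by rw [hys, π.apply_symm_apply]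
        rw [← h6, ← h5]
        exact R1 _
      have h0 : R (y 0) g' := by
        obtain ⟨a1, a2, a3⟩ := hpath 0 (by omega)
        have h5 := τ1 _ a1 a3 (by rw [a2]; exact hcs)
        have h6 : π (y 0) = g' := π.apply_symm_apply _
        rw [← h6, ← h5]
        exact R1 _
      refine ⟨Rt _ _ _ (chain_down R Rr Rt y J hdown 0 i (by omega) hi) h0, ?_⟩
      have := chain_down R Rr Rt y J hdown i J hi le_rfl
      rw [hyJ] at this
      exact this
    · intro hcs
      have hup : ∀ i < J, R (y i) (y (i + 1)) := by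
        intro i hi
        obtain ⟨a1, a2, a3⟩ := hpath i (by omega)
        obtain ⟨b1, b2, b3⟩ := hpath (i + 1) (by omega)
        rw [hys] at b2 b3
        have h5 := τ2 (y i) (by
          rintro ⟨_, _, h⟩
          rw [a2, hcs] at h
          cases h) a1 (by rw [b3]; exact (hoo _ _ (sc1 _)).symm) (by rw [b2]; exact hcs)
        rw [hys, ← h5]
        exact R1 _
      have h0 : R g' (y 0) := by
        obtain ⟨a1, a2, a3⟩ := hpath 0 (by omega)
        have a1' : Meets π Fs (π.symm g') := a1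
        have a2' : st π Fs (π.symm g') = s := a2
        have a3' : D (π.symm g') = oo (π.symm g') := a3
        have h5 := τ2 g' (by
          rintro ⟨_, h, _⟩
          have h6 := (D_prev hD' g').2 ((mF _).2 hg')
          apply h6
          rw [h, a3']
          exact (hoo _ _ (sc1 _)).symm) (meets_of_mem ((mF _).2 hg'))
          (by rw [a3']; exact (hoo _ _ (sc1 _)).symm) (by rw [a2']; exact hcs)
        have h6 : y 0 = τ g' := h5.symm
        rw [h6]
        exact R1 _
      refine ⟨Rt _ _ _ h0 (chain_up R Rr Rt y J hup 0 i (by omega) hi), ?_⟩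
      have := chain_up R Rr Rt y J hup i J hi le_rfl
      rw [hyJ] at this
      exact this
  have hnot : ∀ x y : Bool, x ≠ y → (!x) = y := by decide
  -- pairs of `F`
  have pairR : ∀ z : {g // g ∈ F}, cX (z : X) = false → R z (bb z) := by
    intro z hz
    by_cases hDz : D (z : X) = oo z
    · have h5 := bpos z hDz
      have h6 : st π Fs (π.symm (ρ.symm z : X)) = z := by
        rw [← hρ, ρ.apply_symm_apply]
      have h7 := (arc (ρ.symm z) (ρ.symm z).2 (by rw [h6]; exact hDz) _ le_rfl).1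
        (by rw [h6]; exact hz)
      have h8 := h7.1
      have h9 : (⇑π.symm)^[tt π Fs (π.symm (ρ.symm z : X))] (π.symm (ρ.symm z : X)) = z := h6
      rw [h9] at h8
      rw [h5]
      exact h8
    · have h5 := bneg z hDz
      have h6 : st π Fs (π.symm (z : X)) = bb z := by rw [h5]; rfl
      have h7 := (arc z z.2 (by
        rw [h6, h5, hρD]
        have h8 := hoo _ _ ((hκ _ _).1 (hρκ z))
        rw [h8]
        exact hnot _ _ hDz) _ le_rfl).2 (by rw [h6, hcb, hz]; rfl)
      have h8 := h7.1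
      have h9 : (⇑π.symm)^[tt π Fs (π.symm (z : X))] (π.symm (z : X)) = bb z := h6
      rw [h9] at h8
      exact h8
  -- steps of `σ`
  have neither : ∀ e : {g // ¬ XX g}, ((e : X) ∈ F → c e = true) →
      ¬ (Meets π Fs (e : X) ∧ D (e : X) = oo e ∧ cX (st π Fs (e : X)) = false) ∧
      ¬ (Meets π Fs (e : X) ∧ D (π.symm (e : X)) = oo e ∧
        cX (st π Fs (π.symm (e : X))) = true) := by
    intro e he
    by_cases heF : (e : X) ∈ F
    · have hce : cX (e : X) = true := by rw [hcX _ heF]; exact he heF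
      constructor
      · rintro ⟨_, _, h⟩
        rw [st_of_mem ((mF _).2 heF), hce] at h
        cases h
      · rintro ⟨_, h, h'⟩
        have h5 : D (e : X) ≠ oo e := by
          intro h6
          exact (D_prev hD' (e : X)).2 ((mF _).2 heF) (by rw [h, h6])
        have h6 := bneg ⟨e, heF⟩ h5
        have h7 : st π Fs (π.symm (e : X)) = bb ⟨e, heF⟩ := by rw [h6]; rfl
        rw [h7, hcb, hce] at h'
        cases h'
    · constructor
      · rintro ⟨h, h', _⟩
        exact e.2 ⟨heF, h, h'⟩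
      · rintro ⟨h, h', _⟩
        refine e.2 ⟨heF, h, ?_⟩
        rw [← h']
        by_contra h5
        exact heF ((mF _).1 ((D_prev hD' (e : X)).1 (fun h6 => h5 h6.symm)))
  have stepR : ∀ e : {g // ¬ XX g}, R e (σ e) := by
    intro e
    by_cases he : (e : X) ∈ F → c e = true
    · obtain ⟨n1, n2⟩ := neither e he
      rw [← τ3 e n1 n2 e.2]
      exact R1 _
    · push Not at he
      obtain ⟨heF, hce⟩ := he
      have hce' : c e = false := by simpa using hce
      rw [hc2 e ((mFE e).2 heF) hce', hbE e heF]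
      exact pairR ⟨e, heF⟩ (by rw [hcX _ heF]; exact hce')
  have EE : ∀ e e' : {g // ¬ XX g}, R e e' := by
    intro e e'
    obtain ⟨n, hn⟩ := (hσ e e').exists_nat_pow_eq
    have key : ∀ n : ℕ, R e ((σ ^ n) e) := by
      intro n
      induction n with
      | zero => exact Rr _
      | succ n ih =>
        have h5 : (σ ^ (n + 1)) e = σ ((σ ^ n) e) := by rw [pow_succ']; rfl
        rw [h5]
        exact Rt _ _ _ ih (stepR _)
    have := key n
    rwa [hn] at this
  have toE : ∀ g : X, (∃ e : {g // ¬ XX g}, R g e) ∧ ∃ e : {g // ¬ XX g}, R e g := by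
    intro g
    by_cases hg : XX g
    · obtain ⟨g1, g2, g3⟩ := hg
      have hsF : st π Fs g ∈ F := (mF _).1 (st_mem g2)
      have h6 : st π Fs (π.symm (ρ.symm ⟨st π Fs g, hsF⟩ : X)) = st π Fs g := by
        rw [← hρ, ρ.apply_symm_apply]
      have hs : D (st π Fs g) = oo (st π Fs g) := by
        rw [D_st hD' g2, g3]
        exact hoo _ _ (sameCycle_st g)
      obtain ⟨i, hi1, hi2⟩ := position g2 ((mF _).2 (ρ.symm ⟨st π Fs g, hsF⟩).2) h6
      have h7 := arc (ρ.symm ⟨st π Fs g, hsF⟩) (ρ.symm ⟨st π Fs g, hsF⟩).2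
        (by rw [h6]; exact hs) i (by omega)
      rw [← hi2, h6] at h7
      by_cases hcs : cX (st π Fs g) = false
      · exact ⟨⟨⟨_, inE _ (ρ.symm ⟨st π Fs g, hsF⟩).2⟩, (h7.1 hcs).1⟩,
          ⟨⟨_, inE _ hsF⟩, (h7.1 hcs).2⟩⟩
      · have hcs' : cX (st π Fs g) = true := by simpa using hcs
        exact ⟨⟨⟨_, inE _ hsF⟩, (h7.2 hcs').2⟩,
          ⟨⟨_, inE _ (ρ.symm ⟨st π Fs g, hsF⟩).2⟩, (h7.2 hcs').1⟩⟩
    · exact ⟨⟨⟨g, hg⟩, Rr _⟩, ⟨⟨g, hg⟩, Rr _⟩⟩
  have all : ∀ u v : X, R u v := by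
    intro u v
    obtain ⟨e, he⟩ := (toE u).1
    obtain ⟨e', he'⟩ := (toE v).2
    exact Rt _ _ _ he (Rt _ _ _ (EE e e') he')
  have surj : Function.Surjective τ := by
    intro v
    rcases Relation.ReflTransGen.cases_tail (all (τ v) v) with h | ⟨w, _, h⟩
    · exact ⟨v, h.symm⟩
    · exact ⟨w, h.symm⟩
  refine ⟨Equiv.ofBijective τ (Finite.surjective_iff_bijective.1 surj), ?_, ?_⟩
  · intro x y
    have h5 := all x y
    induction h5 with
    | refl => exact SameCycle.refl _ _
    | tail _ hbc ih =>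
      rw [hbc]
      exact ih.trans ((sameCycle_apply_right).2 (SameCycle.refl _ _))
  · intro g
    show p (τ g) = p g ∨ τ g = π g ∨ π (τ g) = g
    by_cases a1 : Meets π Fs g ∧ D g = oo g ∧ cX (st π Fs g) = false
    · exact Or.inr (Or.inl (τ1 g a1.1 a1.2.1 a1.2.2))
    by_cases a2 : Meets π Fs g ∧ D (π.symm g) = oo g ∧ cX (st π Fs (π.symm g)) = true
    · right; right
      rw [τ2 g a1 a2.1 a2.2.1 a2.2.2, π.apply_symm_apply]
    left
    by_cases hg : XX g
    · have h5 : τ g = g := by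
        simp only [τ]
        rw [if_neg a1, if_neg a2, dif_neg (not_not.2 hg)]
      rw [h5]
    · rw [τ3 g a1 a2 hg]
      refine hc3 ⟨g, hg⟩ ?_
      intro hgF
      have hgF' : g ∈ F := (mFE _).1 hgF
      by_contra hce
      have hce' : cX g = false := by
        rw [hcX g hgF']
        simpa using hce
      by_cases hDg : D g = oo g
      · exact a1 ⟨meets_of_mem ((mF _).2 hgF'), hDg, by rw [st_of_mem ((mF _).2 hgF')]; exact hce'⟩
      · refine a2 ⟨meets_of_mem ((mF _).2 hgF'), ?_, ?_⟩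
        · have h5 := (D_prev hD' g).2 ((mF _).2 hgF')
          revert h5 hDg
          cases D (π.symm g) <;> cases D g <;> cases oo g <;> simp
        · have h6 := bneg ⟨g, hgF'⟩ hDg
          have h7 : st π Fs (π.symm g) = bb ⟨g, hgF'⟩ := by rw [h6]; rfl
          rw [h7, hcb, hce']
          rfl

end Pool.Agent.H647.Kot
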