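import Pool.Graph.R_pool_sql_team_seeded_3997aac3.Q112.CH.CayTough
import Pool.Graph.R_seed8.Helper879.ECD.Tutte

/-!
# Perfect matchings through a given edge in Cayley graphs of even order
-/

set_option autoImplicit false
set_option linter.unusedSectionVars false

namespace Pool.Agent.H647.Kot

open Finset SimpleGraph
open Pool.Agent.Q112.CH (cay bd edge_conn cdeg dg dg_cay)
open Pool.Agent.Helper879.ECD (OddComp off off_adj exists_min_barrier OddComp.closed
  OddComp.notMem OddComp.eq_of_mem)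

variable {Γ : Type} [Group Γ] [Fintype Γ]

/-- Many separated parts need many separating vertices. -/
theorem parts_bound (B : Set Γ) (hB : ∀ b ∈ B, b⁻¹ ∈ B)
    (hgen : Subgroup.closure B = ⊤) (c : Γ) (hc : c ∈ B) (hc1 : c ≠ 1) (S : Finset Γ)
    (h1S : (1 : Γ) ∈ S) (hcS : c ∈ S) (I : Finset (Set Γ)) (hne : ∀ Z ∈ I, Z.Nonempty)
    (hoff : ∀ Z ∈ I, ∀ y ∈ Z, y ∉ S)
    (hcl : ∀ Z ∈ I, ∀ u ∈ Z, ∀ y, (cay B hB).Adj u y → y ∉ S → y ∈ Z)
    (hdis : ∀ Z ∈ I, ∀ Z' ∈ I, Z ≠ Z' → ∀ z ∈ Z, z ∉ Z') :
    I.card * cdeg B + 2 ≤ S.card * cdeg B := by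
  classical
  set Kf : Set Γ → Finset Γ := fun Z => univ.filter fun y => y ∈ Z with hKf
  have hb : ∀ Z ∈ I, cdeg B ≤ bd (cay B hB) (Kf Z) := by
    intro Z hZ
    obtain ⟨z, hz⟩ := hne Z hZ
    refine edge_conn B hB hgen (Kf Z) ⟨z, mem_filter.2 ⟨mem_univ _, hz⟩⟩ fun h => ?_
    have : (1 : Γ) ∈ Kf Z := by rw [h]; exact mem_univ _
    exact hoff Z hZ 1 (mem_filter.1 this).2 h1S
  have hsum : ∑ Z ∈ I, bd (cay B hB) (Kf Z) ≤
      ∑ s ∈ S, ∑ u, if (cay B hB).Adj s u ∧ u ∉ S then 1 else 0 := by
    unfold bd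
    rw [sum_comm]
    have h5 : ∀ u, (∑ Z ∈ I, ∑ y, if (cay B hB).Adj u y ∧ u ∈ Kf Z ∧ y ∉ Kf Z then 1 else 0) ≤
        ∑ s ∈ S, if (cay B hB).Adj s u ∧ u ∉ S then 1 else 0 := by
      intro u
      by_cases hu : ∃ Z ∈ I, u ∈ Z
      · obtain ⟨Z, hZ, huZ⟩ := hu
        have huS : u ∉ S := hoff Z hZ u huZ
        rw [sum_eq_single Z]
        · rw [← sum_filter_add_sum_filter_not univ (fun y => y ∈ S)]
          have h6 : ∑ y with y ∉ S, (if (cay B hB).Adj u y ∧ u ∈ Kf Z ∧ y ∉ Kf Z then 1 else 0) =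
              0 := by
            refine sum_eq_zero fun y hy => if_neg fun h => ?_
            exact h.2.2 (mem_filter.2 ⟨mem_univ _, hcl Z hZ u huZ y h.1 (mem_filter.1 hy).2⟩)
          rw [h6, add_zero]
          have h7 : (univ.filter fun y => y ∈ S) = S := by
            ext y
            rw [mem_filter]
            exact ⟨fun h => h.2, fun h => ⟨mem_univ _, h⟩⟩
          rw [h7]
          refine sum_le_sum fun y _ => ?_
          by_cases h8 : (cay B hB).Adj u y
          · have h9 : (cay B hB).Adj y u ∧ u ∉ S := ⟨h8.symm, huS⟩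
            rw [if_pos h9]
            split_ifs <;> omega
          · rw [if_neg fun h => h8 h.1]
            exact Nat.zero_le _
        · intro Z' hZ' hne'
          refine sum_eq_zero fun y _ => if_neg fun h => ?_
          exact hdis Z hZ Z' hZ' hne'.symm u huZ (mem_filter.1 h.2.1).2
        · intro h
          exact absurd hZ h
      · push Not at hu
        refine le_trans (le_of_eq (sum_eq_zero fun Z hZ => sum_eq_zero fun y _ => if_neg ?_))
          (Nat.zero_le _)
        intro h
        exact hu Z hZ (mem_filter.1 h.2.1).2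
    refine (sum_le_sum (fun u _ => h5 u)).trans ?_
    exact le_of_eq sum_comm
  have hdeg : ∀ s ∈ S, (∑ u, if (cay B hB).Adj s u ∧ u ∉ S then 1 else 0) +
      (if s = 1 ∨ s = c then 1 else 0) ≤ cdeg B := by
    intro s _
    have h6 : (∑ u, if (cay B hB).Adj s u ∧ u ∉ S then 1 else 0) =
        (univ.filter fun u => (cay B hB).Adj s u ∧ u ∉ S).card := by
      rw [card_filter]
    have h7 : cdeg B = (univ.filter fun u => (cay B hB).Adj s u).card := by
      rw [← dg_cay B hB s]
      unfold dg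
      congr 1
    rw [h6, h7]
    by_cases hs : s = 1 ∨ s = c
    · rw [if_pos hs]
      have h8 : (univ.filter fun u => (cay B hB).Adj s u ∧ u ∉ S) ⊂
          (univ.filter fun u => (cay B hB).Adj s u) := by
        rw [ssubset_iff_of_subset (fun u hu => mem_filter.2 ⟨mem_univ _, (mem_filter.1 hu).2.1⟩)]
        rcases hs with rfl | rfl
        · refine ⟨c, mem_filter.2 ⟨mem_univ _, hc1.symm, ?_⟩, fun h => (mem_filter.1 h).2.2 hcS⟩
          rw [inv_one, one_mul]
          exact hc
        · refine ⟨1, mem_filter.2 ⟨mem_univ _, hc1, ?_⟩, fun h => (mem_filter.1 h).2.2 h1S⟩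
          rw [mul_one]
          exact hB _ hc
      have := card_lt_card h8
      omega
    · rw [if_neg hs, add_zero]
      exact card_le_card (fun u hu => mem_filter.2 ⟨mem_univ _, (mem_filter.1 hu).2.1⟩)
  have htwo : ∑ s ∈ S, (if s = 1 ∨ s = c then 1 else 0) = 2 := by
    rw [← card_filter]
    have h8 : (S.filter fun s => s = 1 ∨ s = c) = {1, c} := by
      ext s
      rw [mem_filter, mem_insert, mem_singleton]
      constructor
      · exact fun h => h.2
      · rintro (rfl | rfl)
        · exact ⟨h1S, Or.inl rfl⟩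
        · exact ⟨hcS, Or.inr rfl⟩
    rw [h8, card_pair hc1.symm]
  calc I.card * cdeg B + 2 = ∑ _Z ∈ I, cdeg B + ∑ s ∈ S, (if s = 1 ∨ s = c then 1 else 0) := by
        rw [sum_const, smul_eq_mul, htwo]
    _ ≤ ∑ s ∈ S, (∑ u, if (cay B hB).Adj s u ∧ u ∉ S then 1 else 0) +
        ∑ s ∈ S, (if s = 1 ∨ s = c then 1 else 0) :=
        Nat.add_le_add_right ((sum_le_sum hb).trans hsum) _
    _ = ∑ s ∈ S, ((∑ u, if (cay B hB).Adj s u ∧ u ∉ S then 1 else 0) +
        (if s = 1 ∨ s = c then 1 else 0)) := sum_add_distrib.symm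
    _ ≤ ∑ _s ∈ S, cdeg B := sum_le_sum hdeg
    _ = S.card * cdeg B := by rw [sum_const, smul_eq_mul]

/-- **A perfect matching through a given edge.** -/
theorem exists_pm (B : Set Γ) (hB : ∀ b ∈ B, b⁻¹ ∈ B) (hgen : Subgroup.closure B = ⊤)
    (hev : Even (Nat.card Γ)) (c : Γ) (hc : c ∈ B) (hc1 : c ≠ 1) :
    ∃ m : Γ → Γ, (∀ x, m (m x) = x ∧ m x ≠ x) ∧ (∀ x, x⁻¹ * m x ∈ B) ∧ m 1 = c := by
  classical
  let H : SimpleGraph Γ :=
    { Adj := fun x y => (cay B hB).Adj x y ∧ ((x = 1 ∨ x = c) ↔ (y = 1 ∨ y = c))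
      symm := ⟨fun x y h => ⟨h.1.symm, h.2.symm⟩⟩
      loopless := ⟨fun x h => h.1.ne rfl⟩ }
  have hH : ∀ x y, H.Adj x y ↔ ((cay B hB).Adj x y ∧ ((x = 1 ∨ x = c) ↔ (y = 1 ∨ y = c))) :=
    fun x y => Iff.rfl
  have h1c : H.Adj 1 c := by
    rw [hH]
    refine ⟨⟨hc1.symm, ?_⟩, by simp⟩
    rw [inv_one, one_mul]
    exact hc
  by_cases hM : ∃ M : Subgraph H, M.IsPerfectMatching
  · obtain ⟨M, hM⟩ := hM
    rw [Subgraph.isPerfectMatching_iff] at hM
    choose m hm1 hm2 using hM
    have hadj : ∀ x, H.Adj x (m x) := fun x => (hm1 x).adj_sub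
    refine ⟨m, fun x => ⟨?_, (hadj x).ne'⟩, fun x => (hadj x).1.2, ?_⟩
    · exact (hm2 (m x) x (hm1 x).symm).symm
    · have h5 := (hadj 1).2.1 (Or.inl rfl)
      rcases h5 with h5 | h5
      · exact absurd h5 (hadj 1).ne'
      · exact h5
  · exfalso
    obtain ⟨U, hU, _⟩ := exists_min_barrier hev hM
    -- the elements of an odd component are alike
    have halike : ∀ x y, (off H U).Reachable x y → ((x = 1 ∨ x = c) ↔ (y = 1 ∨ y = c)) := by
      rintro x y ⟨p⟩
      induction p with
      | nil => exact Iff.rfl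
      | cons h _ ih => exact h.1.2.trans ih
    have halike' : ∀ Z, OddComp H U Z → ∀ x ∈ Z, ∀ y ∈ Z, ((x = 1 ∨ x = c) ↔ (y = 1 ∨ y = c)) := by
      rintro Z ⟨⟨a, _, rfl⟩, _⟩ x hx y hy
      exact (halike a x hx).symm.trans (halike a y hy)
    let ZE : Set (Set Γ) := {Z | OddComp H U Z ∧ ∃ z ∈ Z, z = 1 ∨ z = c}
    let ZO : Set (Set Γ) := {Z | OddComp H U Z ∧ ∀ z ∈ Z, ¬ (z = 1 ∨ z = c)}
    have hsplit : {Z | OddComp H U Z} = ZO ∪ ZE := by
      ext Z
      simp only [ZO, ZE, Set.mem_ofPred_eq, Set.mem_union]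
      constructor
      · intro h
        by_cases h5 : ∃ z ∈ Z, z = 1 ∨ z = c
        · exact Or.inr ⟨h, h5⟩
        · push Not at h5
          exact Or.inl ⟨h, fun z hz h6 => by
            have := h5 z hz
            rcases h6 with h6 | h6
            · exact this.1 h6
            · exact this.2 h6⟩
      · rintro (h | h)
        · exact h.1
        · exact h.1
    have hcard : {Z | OddComp H U Z}.ncard ≤ ZO.ncard + ZE.ncard := by
      rw [hsplit]
      exact Set.ncard_union_le _ _
    -- few components meet the pair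
    let E : Set Γ := {x | x = 1 ∨ x = c}
    have hE2 : (E \ U).ncard + ZE.ncard ≤ 2 := by
      by_cases hboth : (1 : Γ) ∉ U ∧ c ∉ U
      · have h5 : ZE = ∅ := by
          rw [Set.eq_empty_iff_forall_notMem]
          rintro Z ⟨hZ, z, hzZ, hz⟩
          have hadj : (off H U).Adj 1 c := ⟨h1c, hboth.1, hboth.2⟩
          have m1 : (1 : Γ) ∈ Z := by
            rcases hz with rfl | rfl
            · exact hzZ
            · exact hZ.closed hzZ hboth.1 h1c.symm
          have mc : c ∈ Z := hZ.closed m1 hboth.2 h1c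
          have h6 : Z = {1, c} := by
            ext y
            rw [Set.mem_insert_iff, Set.mem_singleton_iff]
            constructor
            · intro hy
              exact (halike' Z hZ 1 m1 y hy).1 (Or.inl rfl)
            · rintro (rfl | rfl)
              · exact m1
              · exact mc
          have h7 := hZ.2
          rw [h6, Set.ncard_pair hc1.symm] at h7
          exact absurd h7 (by decide)
        have h6 : (E \ U).ncard ≤ 2 := by
          have h7 : E \ U ⊆ {1, c} := by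
            rintro x ⟨hx, _⟩
            exact hx
          refine (Set.ncard_le_ncard h7 (Set.toFinite _)).trans ?_
          rw [Set.ncard_pair hc1.symm]
        rw [h5, Set.ncard_empty]
        omega
      · have h5 : ZE.ncard ≤ (E \ U).ncard := by
          choose! pt hpt1 hpt2 using fun (Z : Set Γ) (hZ : Z ∈ ZE) => hZ.2
          have h6 : Set.InjOn pt ZE := by
            intro Z hZ Z' hZ' h
            have := hpt1 Z' hZ'
            rw [← h] at this
            exact OddComp.eq_of_mem hZ.1 hZ'.1 (hpt1 Z hZ) this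
          rw [← Set.ncard_image_of_injOn h6]
          apply Set.ncard_le_ncard _ (Set.toFinite _)
          rintro _ ⟨Z, hZ, rfl⟩
          exact ⟨hpt2 Z hZ, OddComp.notMem hZ.1 (hpt1 Z hZ)⟩
        have h6 : (E \ U).ncard ≤ 1 := by
          rw [Set.ncard_le_one_iff]
          rintro a b ⟨ha, haU⟩ ⟨hb, hbU⟩
          rcases ha with rfl | rfl <;> rcases hb with rfl | rfl
          · rfl
          · exact absurd ⟨haU, hbU⟩ hboth
          · exact absurd ⟨hbU, haU⟩ hboth
          · rfl
        omega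
    let S : Finset Γ := (U ∪ E).toFinset
    have hSm : ∀ x, x ∈ S ↔ x ∈ U ∨ x = 1 ∨ x = c := by
      intro x
      rw [Set.mem_toFinset]
      exact Iff.rfl
    have hScard : S.card ≤ U.ncard + (E \ U).ncard := by
      have h5 : S.card = (U ∪ E).ncard := (Set.ncard_eq_toFinset_card' _).symm
      have h6 : U ∪ E = U ∪ (E \ U) := by
        ext x
        simp only [Set.mem_union, Set.mem_sdiff]
        tauto
      rw [h5, h6]
      exact Set.ncard_union_le _ _
    have hmain := parts_bound B hB hgen c hc hc1 S ((hSm 1).2 (Or.inr (Or.inl rfl)))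
      ((hSm c).2 (Or.inr (Or.inr rfl))) ZO.toFinset
      (by
        intro Z hZ
        rw [Set.mem_toFinset] at hZ
        have h5 := hZ.1.2
        by_contra hcon
        rw [Set.not_nonempty_iff_eq_empty] at hcon
        rw [hcon, Set.ncard_empty] at h5
        exact absurd h5 (by decide))
      (by
        intro Z hZ y hy hyS
        rw [Set.mem_toFinset] at hZ
        rcases (hSm y).1 hyS with h | h
        · exact OddComp.notMem hZ.1 hy h
        · exact hZ.2 y hy h)
      (by
        intro Z hZ u hu y huy hy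
        rw [Set.mem_toFinset] at hZ
        have h5 : y ∉ U ∧ ¬ (y = 1 ∨ y = c) := by
          constructor
          · intro h; exact hy ((hSm y).2 (Or.inl h))
          · intro h; exact hy ((hSm y).2 (Or.inr h))
        refine hZ.1.closed hu h5.1 ((hH u y).2 ⟨huy, ?_⟩)
        have h6 := hZ.2 u hu
        tauto)
      (by
        intro Z hZ Z' hZ' hne z hz hz'
        rw [Set.mem_toFinset] at hZ hZ'
        exact hne (OddComp.eq_of_mem hZ.1 hZ'.1 hz hz'))
    have hZOc : ZO.toFinset.card = ZO.ncard := (Set.ncard_eq_toFinset_card' _).symm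
    rw [hZOc] at hmain
    have hle : S.card ≤ ZO.ncard := by omega
    have := Nat.mul_le_mul_right (cdeg B) hle
    omega

end Pool.Agent.H647.Kot
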