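import Pool.Agent.H647.Kot.Walk
import Pool.Agent.H647.Kot.PM
import Pool.Graph.R_pool_sql_team_seeded_620a6dc7.Helper718_cayley.F
import Pool.Graph.R_pool_sql_team_seeded_64922ed1.X267.Ham.Cos

/-!
# A subgroup with the pairing property and a subgroup of at most the same order
-/

set_option autoImplicit false
set_option linter.unusedSectionVars false

namespace Pool.Agent.H647.Kot

open Pool.Agent.Q27.HC
open Pool.Agent.X267.Ham (HasClosedListing HasListing rp rp_eq_iff rp_spec)
open Pool.Agent.H718C (vec sv tv Sp Sp_mono mem_Sp finrank_Sp_le haxell bigU mem_bigU undom cut_ineq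
  bad outs W0 exists_irred cut_of_span conn_of_gen)

/-- **A perfect matching which connects the cosets of `H`.** -/
theorem closed_of_matching {G : Type*} [Group G] [Finite G] (A : Set G) (H : Subgroup G)
    (hH : PP A H) (f : G → G) (hf : ∀ x, f (f x) = x ∧ f x ≠ x) (hfA : ∀ x, x⁻¹ * f x ∈ A)
    (hconn : ∀ S : Set G, S.Nonempty → (∀ x y, x⁻¹ * y ∈ H → x ∈ S → y ∈ S) →
      (∀ x ∈ S, f x ∈ S) → S = Set.univ) : HasClosedListing A := by
  classical
  obtain ⟨f0, hf0, hf0H, hf0A⟩ := initial A H hH.1 hH.2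
  have hp : Equivalence (fun x y : G => x⁻¹ * y ∈ H) := by
    refine ⟨?_, ?_, ?_⟩
    · intro x
      rw [inv_mul_cancel]
      exact H.one_mem
    · intro x y h
      have := H.inv_mem h
      rwa [mul_inv_rev, inv_inv] at this
    · intro x y z h h'
      have := H.mul_mem h h'
      rwa [mul_assoc, mul_inv_cancel_left] at this
  have hq : Equivalence (fun x y : G => y = x ∨ y = f x) := by
    refine ⟨fun x => Or.inl rfl, ?_, ?_⟩
    · rintro x y (rfl | rfl)
      · exact Or.inl rfl
      · exact Or.inr (hf x).1.symm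
    · rintro x y z (rfl | rfl) (rfl | rfl)
      · exact Or.inl rfl
      · exact Or.inr rfl
      · exact Or.inr rfl
      · exact Or.inl (hf x).1
  obtain ⟨F, g, hF, hg, hFA, hgA, hc⟩ := merge (fun x y : G => x⁻¹ * y ∈ H)
    (fun x y : G => y = x ∨ y = f x) (fun a b => a⁻¹ * b ∈ A) (fun a b => a⁻¹ * b ∈ A) hp
    hq (good_coset A H hH.2)
    (by
      intro x f' hf'
      have hmem : ∀ a ∈ {y | y = x ∨ y = f x}, f a ∈ {y | y = x ∨ y = f x} := by
        rintro a (rfl | rfl)
        · exact Or.inr rfl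
        · exact Or.inl (hf x).1
      refine ⟨f, fun a ha => ⟨hmem a ha, (hf a).1, (hf a).2⟩, fun a _ => hfA a, ?_⟩
      have key : ∀ a ∈ {y | y = x ∨ y = f x}, Rel {y | y = x ∨ y = f x} f' f x a := by
        rintro a (rfl | rfl)
        · exact Rel.refl _
        · exact Rel.right (Or.inl rfl)
      intro a ha b hb
      exact (key a ha).symm.trans (key b hb))
    (by
      intro x y
      have h1 := hconn {z | Relation.EqvGen (fun a b => a⁻¹ * b ∈ H ∨ (b = a ∨ b = f a)) x z}
        ⟨x, Relation.EqvGen.refl x⟩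
        (fun a b hab ha => Relation.EqvGen.trans _ _ _ ha (Relation.EqvGen.rel _ _ (Or.inl hab)))
        (fun a ha => Relation.EqvGen.trans _ _ _ ha
          (Relation.EqvGen.rel _ _ (Or.inr (Or.inr rfl))))
      have h2 : y ∈ {z | Relation.EqvGen (fun a b => a⁻¹ * b ∈ H ∨ (b = a ∨ b = f a)) x z} := by
        rw [h1]; trivial
      exact h2)
    f0 f hf0 (fun x _ => ⟨trivial, (hf x).1, (hf x).2⟩) hf0H (fun x => Or.inr rfl) hf0A hfA
  obtain ⟨w, hw0, hws, hwn, hwi, _⟩ := exists_cycle (fun x => (hF x trivial).2)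
    (fun x => (hg x trivial).2) hc 1
  refine listing_of_walk A hw0 ?_ hwn hwi
  intro k
  rcases hws k with h | h
  · rw [h]
    exact hFA _
  · rw [h]
    exact hgA _

/-- **At most one link in every coset of `K`** (Haxell's argument). -/
theorem block_select {G : Type*} [Group G] [Fintype G] [DecidableEq G] (H K : Subgroup G)
    [Fintype (G ⧸ H)] [DecidableEq (G ⧸ H)] (C : Finset G)
    (hgen : Subgroup.closure ((H : Set G) ∪ (C : Set G)) = ⊤)
    (hM : ∀ S : Subgroup G, H ≤ S → S ≠ ⊤ → C.card * Nat.card H ≤ Nat.card S * outs C S)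
    (hKH : Nat.card K ≤ Nat.card H) :
    ∃ I : Finset (G × C), (∀ q ∈ I, ∀ q' ∈ I, q.1⁻¹ * q'.1 ∈ K → q = q') ∧
      ∀ P : Set (G ⧸ H), (∀ q ∈ I, sv H C q ∈ P ↔ tv H C q ∈ P) → P.Nonempty → P = Set.univ := by
  classical
  let D : G × C → G × C → Prop := fun q q' => q ≠ q' ∧ q.1⁻¹ * q'.1 ∈ K
  obtain ⟨I, hI1, hI2, _⟩ := haxell (K := ZMod 2) (vec (sv H C) (tv H C)) D
    (by
      rintro a b ⟨h1, h2⟩
      refine ⟨h1.symm, ?_⟩
      have := K.inv_mem h2
      rwa [mul_inv_rev, inv_inv] at this)
    (fun a h => h.1 rfl)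
    (by
      intro I L hfree hind hne hL hsum hsub
      by_contra hcon
      push Not at hcon
      have hUW : Sp (ZMod 2) (vec (sv H C) (tv H C)) (I \ bigU L) ≤ W0 H C :=
        Sp_mono (Finset.subset_univ _)
      have hcut := cut_ineq H C (C.card * Nat.card H) hM _ hUW
      have h1 : Module.finrank (ZMod 2) (Sp (ZMod 2) (vec (sv H C) (tv H C)) (I \ bigU L)) ≤
          I.card - (bigU L).card := by
        refine (finrank_Sp_le _ _).trans (le_of_eq ?_)
        rw [Finset.card_sdiff_of_subset hsub]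
      have h2 : I.card < Module.finrank (ZMod 2) (W0 H C) := by
        rw [← hind]
        apply Submodule.finrank_lt_finrank_of_lt
        exact lt_of_le_of_ne (Sp_mono (Finset.subset_univ _)) hne
      have h3 := Finset.card_le_card hsub
      -- the bad links are near `bigU L`
      have hbad : bad H C (Sp (ZMod 2) (vec (sv H C) (tv H C)) (I \ bigU L)) ≤
          (bigU L).card * (Nat.card K * C.card) := by
        unfold bad
        have h4 : {q : G × C | vec (sv H C) (tv H C) q ∉
            Sp (ZMod 2) (vec (sv H C) (tv H C)) (I \ bigU L)} ⊆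
            (((bigU L).biUnion (fun a => (Finset.univ.filter
              (fun q : G × C => a.1⁻¹ * q.1 ∈ K))) : Finset (G × C)) : Set (G × C)) := by
          intro e he
          have h5 := hcon e he
          rw [Finset.mem_coe, Finset.mem_biUnion]
          unfold undom at h5
          push Not at h5
          obtain ⟨p, hp, h6⟩ := h5
          obtain ⟨⟨a, ha⟩, hsubI, hdom⟩ := hL p hp
          by_cases h7 : D p.1 e
          · refine ⟨a, mem_bigU.2 ⟨p, hp, ha⟩, Finset.mem_filter.2 ⟨Finset.mem_univ _, ?_⟩⟩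
            have h8 := K.mul_mem (K.inv_mem (hdom a ha).2) h7.2
            rwa [mul_inv_rev, inv_inv, mul_assoc, mul_inv_cancel_left] at h8
          · obtain ⟨b, hb, h8⟩ := h6 h7
            exact ⟨b, mem_bigU.2 ⟨p, hp, hb⟩, Finset.mem_filter.2 ⟨Finset.mem_univ _, h8.2⟩⟩
        refine (Set.ncard_le_ncard h4 (Set.toFinite _)).trans ?_
        rw [Set.ncard_coe_finset]
        apply Finset.card_biUnion_le_card_mul
        intro a _
        have h5 : (Finset.univ.filter (fun q : G × C => a.1⁻¹ * q.1 ∈ K)) =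
            ((Finset.univ.filter (fun g : G => a.1⁻¹ * g ∈ K)) ×ˢ (Finset.univ : Finset C)) := by
          ext ⟨g, c⟩
          simp only [Finset.mem_filter, Finset.mem_univ, true_and, Finset.mem_product, and_true]
        have h6 : (Finset.univ.filter (fun g : G => a.1⁻¹ * g ∈ K)).card = Nat.card K := by
          have h7 : ((Finset.univ.filter (fun g : G => a.1⁻¹ * g ∈ K) : Finset G) : Set G) =
              (fun x : G => a.1 * x) '' (K : Set G) := by
            ext e
            simp only [Finset.coe_filter, Finset.mem_univ, true_and, Set.mem_ofPred_eq]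
            constructor
            · intro he
              exact ⟨a.1⁻¹ * e, he, by simp⟩
            · rintro ⟨x, hx, rfl⟩
              rw [inv_mul_cancel_left]
              exact hx
          rw [← Set.ncard_coe_finset, h7, Set.ncard_image_of_injective _ (mul_right_injective a.1)]
          rfl
        rw [h5, Finset.card_product, h6, Finset.card_univ, Fintype.card_coe]
      have hCpos : 0 < C.card := by
        rw [Finset.card_pos]
        by_contra hemp
        rw [Finset.not_nonempty_iff_eq_empty] at hemp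
        have hall : ∀ x : G, x ∉ C := by
          intro x
          rw [hemp]
          exact Finset.notMem_empty x
        apply hne
        have h5 : (Finset.univ : Finset (G × C)) = ∅ := by
          ext ⟨g, c⟩
          exact absurd c.2 (hall _)
        have h6 : I = Finset.univ := by
          rw [h5]
          exact Finset.subset_empty.1 (h5 ▸ Finset.subset_univ I)
        rw [h6]
      have hHpos : 0 < Nat.card H := Nat.card_pos
      have hMpos : 0 < C.card * Nat.card H := Nat.mul_pos hCpos hHpos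
      have h5 : (bigU L).card * (Nat.card K * C.card) ≤
          (bigU L).card * (C.card * Nat.card H) := by
        apply Nat.mul_le_mul_left
        rw [mul_comm]
        exact Nat.mul_le_mul_left _ hKH
      obtain ⟨t, ht⟩ := Nat.exists_eq_add_of_le h3
      rw [ht] at h1 h2
      have h6 : (bigU L).card + t - (bigU L).card = t := by omega
      rw [h6] at h1
      have h7 := Nat.mul_le_mul_left (C.card * Nat.card H) h1
      have h8 : (C.card * Nat.card H) * ((bigU L).card + t + 1) ≤
          (C.card * Nat.card H) * Module.finrank (ZMod 2) (W0 H C) := Nat.mul_le_mul_left _ h2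
      have h9 : (C.card * Nat.card H) * ((bigU L).card + t + 1) =
          (bigU L).card * (C.card * Nat.card H) + (C.card * Nat.card H) * t +
            C.card * Nat.card H := by ring
      omega)
  refine ⟨I, ?_, ?_⟩
  · intro q hq q' hq' h
    by_contra hne
    exact hI1 q hq q' hq' ⟨hne, h⟩
  · intro P hP hne
    refine conn_of_gen H C hgen P (fun q => ?_) hne
    refine cut_of_span (sv H C) (tv H C) I (fun q => ?_) P hP q
    rw [hI2]
    exact mem_Sp (Finset.mem_univ q)

/-- **A subgroup with the pairing property and a subgroup of at most the same order.** -/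
theorem closed_block {G : Type} [Group G] [Finite G] (A : Set G) (hA : ∀ x ∈ A, x⁻¹ ∈ A)
    (H K : Subgroup G) (hgen : H ⊔ K = ⊤) (hH : PP A H)
    (hKA : Subgroup.closure {x : K | (x : G) ∈ A} = ⊤) (hKe : Even (Nat.card K))
    (hKH : Nat.card K ≤ Nat.card H) : HasClosedListing A := by
  classical
  have := Fintype.ofFinite G
  have := Fintype.ofFinite (G ⧸ H)
  have := Fintype.ofFinite K
  -- the extra generators
  obtain ⟨C, hCA, hCgen, hCH, hM⟩ := exists_irred H ((H : Set G) ∪ (A ∩ K)) (by
    rw [eq_top_iff, ← hgen]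
    refine sup_le ?_ ?_
    · intro x hx
      exact Subgroup.subset_closure (Or.inl hx)
    · have h1 : Subgroup.map K.subtype (Subgroup.closure {x : K | (x : G) ∈ A}) ≤
          Subgroup.closure ((H : Set G) ∪ (A ∩ K)) := by
        rw [MonoidHom.map_closure, Subgroup.closure_le]
        rintro _ ⟨x, hx, rfl⟩
        exact Subgroup.subset_closure (Or.inr ⟨hx, x.2⟩)
      rw [hKA, ← MonoidHom.range_eq_map, Subgroup.range_subtype] at h1
      exact h1)
  have hCAK : ∀ c ∈ C, c ∈ A ∧ c ∈ K := by
    intro c hc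
    rcases hCA hc with h | h
    · exact absurd h (hCH c hc)
    · exact h
  by_cases hCne : C.Nonempty
  swap
  · rw [Finset.not_nonempty_iff_eq_empty] at hCne
    subst hCne
    have hHt : H = ⊤ := by
      rw [← hCgen, Finset.coe_empty, Set.union_empty, Subgroup.closure_eq]
    exact closed_of_pp A H H (by rw [hHt]; exact sup_top_eq _) hH hH
  obtain ⟨c0, hc0⟩ := hCne
  obtain ⟨I, hI1, hI2⟩ := block_select H K C hCgen hM hKH
  -- perfect matchings of `K`
  have hpm : ∀ c : C, ∃ m : K → K, (∀ x, m (m x) = x ∧ m x ≠ x) ∧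
      (∀ x, x⁻¹ * m x ∈ {x : K | (x : G) ∈ A}) ∧ m 1 = ⟨c, (hCAK c c.2).2⟩ := by
    intro c
    refine exists_pm {x : K | (x : G) ∈ A} (fun x hx => hA _ hx) hKA hKe _ (hCAK c c.2).1 ?_
    intro h
    apply hCH c c.2
    rw [show (c : G) = 1 from congrArg Subtype.val h]
    exact H.one_mem
  choose m hm1 hm2 hm3 using hpm
  -- the block of an element
  obtain ⟨blk, hblk1, hblk2, hblk3⟩ : ∃ blk : G → G × C,
      (∀ y, (blk y).1⁻¹ * y ∈ K) ∧ (∀ y z, y⁻¹ * z ∈ K → blk y = blk z) ∧
        ∀ q ∈ I, blk q.1 = q := by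
    let b : G → G × C := fun y => if h : ∃ q ∈ I, q.1⁻¹ * rp K y ∈ K then h.choose
      else (rp K y, ⟨c0, hc0⟩)
    have hb1 : ∀ y, (h : ∃ q ∈ I, q.1⁻¹ * rp K y ∈ K) → b y = h.choose := by
      intro y h
      simp only [b, dif_pos h]
    have hb2 : ∀ y, ¬ (∃ q ∈ I, q.1⁻¹ * rp K y ∈ K) → b y = (rp K y, ⟨c0, hc0⟩) := by
      intro y h
      simp only [b, dif_neg h]
    refine ⟨b, ?_, ?_, ?_⟩
    · intro y
      have h1 := rp_spec K y
      by_cases h : ∃ q ∈ I, q.1⁻¹ * rp K y ∈ K
      · rw [hb1 y h]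
        have h2 := K.mul_mem h.choose_spec.2 h1
        rwa [mul_assoc, mul_inv_cancel_left] at h2
      · rw [hb2 y h]
        exact h1
    · intro y z hyz
      have h1 : rp K y = rp K z := (rp_eq_iff K).2 hyz
      simp only [b, h1]
    · intro q hq
      have h1 := rp_spec K q.1
      have h2 := K.inv_mem h1
      rw [mul_inv_rev, inv_inv] at h2
      have h : ∃ q' ∈ I, q'.1⁻¹ * rp K q.1 ∈ K := ⟨q, hq, h2⟩
      rw [hb1 _ h]
      apply hI1 _ h.choose_spec.1 q hq
      have h3 := K.mul_mem h.choose_spec.2 h1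
      rwa [mul_assoc, mul_inv_cancel_left] at h3
  let f : G → G := fun y => (blk y).1 * (m (blk y).2 ⟨(blk y).1⁻¹ * y, hblk1 y⟩ : K)
  have hfdef : ∀ y, f y = (blk y).1 * (m (blk y).2 ⟨(blk y).1⁻¹ * y, hblk1 y⟩ : K) := fun y => rfl
  have hstep : ∀ y, y⁻¹ * f y =
      (((⟨(blk y).1⁻¹ * y, hblk1 y⟩ : K)⁻¹ * m (blk y).2 ⟨(blk y).1⁻¹ * y, hblk1 y⟩ : K) : G) := by
    intro y
    rw [hfdef, Subgroup.coe_mul, Subgroup.coe_inv]
    group
  have hfK : ∀ y, y⁻¹ * f y ∈ K := by
    intro y
    rw [hstep]
    exact SetLike.coe_mem _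
  have hfA : ∀ y, y⁻¹ * f y ∈ A := by
    intro y
    rw [hstep]
    exact hm2 _ _
  have hfb : ∀ y, blk (f y) = blk y := fun y => (hblk2 y (f y) (hfK y)).symm
  have hpart : ∀ y, (blk y).1⁻¹ * f y = (m (blk y).2 ⟨(blk y).1⁻¹ * y, hblk1 y⟩ : K) := by
    intro y
    rw [hfdef, inv_mul_cancel_left]
  have key : ∀ (q : G × C) (y : G) (hy : q.1⁻¹ * y ∈ K), blk y = q →
      f y = q.1 * (m q.2 ⟨q.1⁻¹ * y, hy⟩ : K) := by
    rintro q y hy rfl
    rfl
  refine closed_of_matching A H hH f ?_ hfA ?_
  · intro y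
    constructor
    · have h1 : (blk y).1⁻¹ * f y ∈ K := by
        rw [hpart]
        exact SetLike.coe_mem _
      rw [key (blk y) (f y) h1 (hfb y)]
      have h2 : (⟨(blk y).1⁻¹ * f y, h1⟩ : K) = m (blk y).2 ⟨(blk y).1⁻¹ * y, hblk1 y⟩ :=
        Subtype.ext (hpart y)
      rw [h2, (hm1 _ _).1]
      exact mul_inv_cancel_left _ _
    · intro h
      have h1 := hpart y
      rw [h] at h1
      exact (hm1 (blk y).2 ⟨(blk y).1⁻¹ * y, hblk1 y⟩).2 (Subtype.ext h1.symm)
  · intro S hS hHS hfS
    have hfS' : ∀ x, f x ∈ S → x ∈ S := by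
      intro x hx
      have h1 := hfS _ hx
      have h2 : f (f x) = x := by
        have h3 : (blk x).1⁻¹ * f x ∈ K := by
          rw [hpart]
          exact SetLike.coe_mem _
        rw [key (blk x) (f x) h3 (hfb x)]
        have h2 : (⟨(blk x).1⁻¹ * f x, h3⟩ : K) = m (blk x).2 ⟨(blk x).1⁻¹ * x, hblk1 x⟩ :=
          Subtype.ext (hpart x)
        rw [h2, (hm1 _ _).1]
        exact mul_inv_cancel_left _ _
      rwa [h2] at h1
    let P : Set (G ⧸ H) := {v | ∃ x ∈ S, (x : G ⧸ H) = v}
    have hP : ∀ x : G, (x : G ⧸ H) ∈ P ↔ x ∈ S := by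
      intro x
      constructor
      · rintro ⟨y, hy, hyx⟩
        exact hHS y x (QuotientGroup.eq.1 hyx) hy
      · intro hx
        exact ⟨x, hx, rfl⟩
    have h1 := hI2 P (by
        intro q hq
        show ((q.1 : G ⧸ H) ∈ P) ↔ (((q.1 * (q.2 : G) : G) : G ⧸ H) ∈ P)
        rw [hP, hP]
        have h2 : f q.1 = q.1 * q.2 := by
          rw [key q q.1 (by rw [inv_mul_cancel]; exact K.one_mem) (hblk3 q hq)]
          have h3 : (⟨q.1⁻¹ * q.1, by rw [inv_mul_cancel]; exact K.one_mem⟩ : K) = 1 :=
            Subtype.ext (inv_mul_cancel _)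
          rw [h3, hm3]
        constructor
        · intro h
          rw [← h2]
          exact hfS _ h
        · intro h
          rw [← h2] at h
          exact hfS' _ h)
      (by
        obtain ⟨s, hs⟩ := hS
        exact ⟨_, s, hs, rfl⟩)
    ext x
    simp only [Set.mem_univ, iff_true]
    rw [← hP, h1]
    trivial

end Pool.Agent.H647.Kot
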