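import Pool.Agent.H647.Kot.Pack

/-!
# Kotzig's theorem for several vertices, and complements of subgroups of index at least three
-/

set_option autoImplicit false
set_option linter.unusedSectionVars false

namespace Pool.Agent.H647.Kot

open Equiv Equiv.Perm
open Pool.Agent.Q27.HC (Inv Rel Rel.refl Rel.symm Rel.trans Rel.left Rel.right)

/-- **Kotzig's theorem**: pairings inside the classes of `κ`, between different classes of
`cls`. -/
theorem kotzig {Z C P : Type*} [Finite Z] (κ : Z → P) (cls : Z → C) (g0 : Z → Z)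
    (h0 : Inv Set.univ g0) (h0' : ∀ x, κ (g0 x) = κ x ∧ cls x ≠ cls (g0 x)) (f : Z → Z)
    (hf : Inv Set.univ f)
    (hconn : ∀ S : Set Z, S.Nonempty → (∀ u v, κ u = κ v → u ∈ S → v ∈ S) →
      (∀ u, u ∈ S → f u ∈ S) → S = Set.univ) :
    ∃ g : Z → Z, (Inv Set.univ g ∧ ∀ x, κ (g x) = κ x ∧ cls x ≠ cls (g x)) ∧
      ∀ x y, Rel Set.univ f g x y := by
  classical
  refine improve f (fun g => Inv Set.univ g ∧ ∀ x, κ (g x) = κ x ∧ cls x ≠ cls (g x)) g0
    ⟨h0, h0'⟩ ?_
  rintro g ⟨hg, hgc⟩
  by_cases hall : ∀ x y, Rel Set.univ f g x y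
  · exact Or.inl hall
  right
  obtain ⟨a, c, hκ, hac⟩ : ∃ a c, κ a = κ c ∧ ¬ Rel Set.univ f g a c := by
    by_contra hcon
    push Not at hcon
    apply hall
    intro x y
    have hS := hconn {y | Rel Set.univ f g x y} ⟨x, Rel.refl _⟩
      (fun u v huv hu => Rel.trans hu (hcon u v huv))
      (fun u hu => Rel.trans hu (Rel.left trivial))
    have : y ∈ ({y | Rel Set.univ f g x y} : Set Z) := by rw [hS]; trivial
    exact this
  have key : ∀ c' : Z, κ a = κ c' → ¬ Rel Set.univ f g a c' → cls a ≠ cls c' →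
      cls (g a) ≠ cls (g c') →
      ∃ g', (Inv Set.univ g' ∧ ∀ x, κ (g' x) = κ x ∧ cls x ≠ cls (g' x)) ∧
      (∀ x y, Rel Set.univ f g x y → Rel Set.univ f g' x y) ∧
      ∃ x y, ¬ Rel Set.univ f g x y ∧ Rel Set.univ f g' x y := by
    intro c' hκ' hac' k1 k2
    have n1 : a ≠ c' := fun h => hac' (h ▸ Rel.refl _)
    have n2 : g a ≠ c' := by
      intro h
      have h' : Rel Set.univ f g a (g a) := Rel.right trivial
      rw [h] at h'
      exact hac' h'
    obtain ⟨h1, h2, h3, h4, e1, e2, e3, e4, e5⟩ := sw_facts hg n1 n2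
    obtain ⟨r1, r2⟩ := sw_rel hg n1 n2 hf hac'
    refine ⟨sw g a c', ⟨sw_inv hg n1 n2, ?_⟩, r1, a, c', hac', r2⟩
    intro x
    by_cases x1 : x = a
    · rw [x1, e1]; exact ⟨hκ'.symm, k1⟩
    by_cases x2 : x = c'
    · rw [x2, e2]; exact ⟨hκ', k1.symm⟩
    by_cases x3 : x = g a
    · rw [x3, e3, (hgc a).1, (hgc c').1]; exact ⟨hκ'.symm, k2⟩
    by_cases x4 : x = g c'
    · rw [x4, e4, (hgc a).1, (hgc c').1]; exact ⟨hκ', k2.symm⟩
    rw [e5 x x1 x2 x3 x4]
    exact hgc x
  by_cases m1 : cls a ≠ cls c ∧ cls (g a) ≠ cls (g c)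
  · exact key c hκ hac m1.1 m1.2
  · have hcc : Rel Set.univ f g c (g c) := Rel.right trivial
    have hgac : ¬ Rel Set.univ f g a (g c) := fun h => hac (h.trans hcc.symm)
    refine key (g c) (by rw [(hgc c).1, hκ]) hgac ?_ ?_
    · intro h
      apply m1
      refine ⟨fun h' => (hgc c).2 (h'.symm.trans h), fun h' => (hgc a).2 (h.trans h'.symm)⟩
    · rw [(hg c trivial).2.1]
      intro h
      apply m1
      refine ⟨fun h' => (hgc a).2 (h'.trans h.symm), fun h' => (hgc c).2 (h.symm.trans h')⟩

/-- An initial pairing. -/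
theorem exists_cross' {Z C P : Type*} [Finite Z] (κ : Z → P) (cls : Z → C)
    (heven : ∀ k, Even {z | κ z = k}.ncard)
    (hhalf : ∀ z0, 2 * {z | κ z = κ z0 ∧ cls z = cls z0}.ncard ≤ {z | κ z = κ z0}.ncard) :
    ∃ g : Z → Z, Inv Set.univ g ∧ ∀ x, κ (g x) = κ x ∧ cls x ≠ cls (g x) := by
  classical
  have := Fintype.ofFinite Z
  obtain ⟨g0, hg0⟩ := Pool.Agent.X267.Ham.fibre_pairing (Finset.univ : Finset Z) κ (by
    intro k
    have := heven k
    have h2 : {z | κ z = k} = ((Finset.univ.filter (fun e => κ e = k) : Finset Z) : Set Z) := by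
      ext e; simp
    rwa [h2, Set.ncard_coe_finset] at this)
  have key : ∀ n : ℕ, ∀ g : Z → Z, Inv Set.univ g → (∀ x, κ (g x) = κ x) →
      ({x | cls x = cls (g x)} : Set Z).ncard ≤ n →
      ∃ g : Z → Z, Inv Set.univ g ∧ ∀ x, κ (g x) = κ x ∧ cls x ≠ cls (g x) := by
    intro n
    induction n with
    | zero =>
      intro g hg hκ hn
      refine ⟨g, hg, fun x => ⟨hκ x, fun hx => ?_⟩⟩
      have h1 : ({x | cls x = cls (g x)} : Set Z) = ∅ :=
        (Set.ncard_eq_zero (Set.toFinite _)).1 (by omega)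
      have h2 : x ∈ ({x | cls x = cls (g x)} : Set Z) := hx
      rw [h1] at h2
      exact h2
    | succ n ih =>
      intro g hg hκ hn
      by_cases hbad : ∃ a, cls a = cls (g a)
      · obtain ⟨a, ha⟩ := hbad
        obtain ⟨u, hu0, hu1, hu2⟩ : ∃ u, κ u = κ a ∧ cls u ≠ cls a ∧ cls (g u) ≠ cls a := by
          by_contra hcon
          push Not at hcon
          have ginj : Function.Injective g := by
            intro x y hxy
            rw [← (hg x trivial).2.1, hxy, (hg y trivial).2.1]
          have h1 : g '' {x | κ x = κ a ∧ cls x ≠ cls a} ⊆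
              {x | κ x = κ a ∧ cls x = cls a} \ {a} := by
            rintro _ ⟨x, ⟨hx0, hx⟩, rfl⟩
            refine ⟨⟨(hκ x).trans hx0, hcon x hx0 hx⟩, ?_⟩
            intro h
            apply hx
            have h3 : g x = a := h
            rw [ha, ← h3, (hg x trivial).2.1]
          have h2 := Set.ncard_le_ncard h1 (Set.toFinite _)
          rw [Set.ncard_image_of_injective _ ginj] at h2
          have h3 := Set.ncard_sdiff_singleton_lt_of_mem
            (s := {x | κ x = κ a ∧ cls x = cls a}) (a := a) ⟨rfl, rfl⟩ (Set.toFinite _)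
          have h4 : {x | κ x = κ a}.ncard =
              {x | κ x = κ a ∧ cls x = cls a}.ncard + {x | κ x = κ a ∧ cls x ≠ cls a}.ncard := by
            rw [← Set.ncard_union_eq]
            · congr 1
              ext x
              simp only [Set.mem_union, Set.mem_ofPred_eq]
              tauto
            · rw [Set.disjoint_left]
              rintro x ⟨_, h⟩ ⟨_, h'⟩
              exact h' h
          have h5 := hhalf a
          omega
        have n1 : a ≠ u := fun h => hu1 (by rw [h])
        have n2 : g a ≠ u := fun h => hu1 (by rw [← h, ha])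
        obtain ⟨h1, h2, h3, h4, e1, e2, e3, e4, e5⟩ := sw_facts hg n1 n2
        refine ih (sw g a u) (sw_inv hg n1 n2) ?_ ?_
        · intro x
          by_cases x1 : x = a
          · rw [x1, e1]; exact hu0
          by_cases x2 : x = u
          · rw [x2, e2]; exact hu0.symm
          by_cases x3 : x = g a
          · rw [x3, e3, hκ, hκ]; exact hu0
          by_cases x4 : x = g u
          · rw [x4, e4, hκ, hκ]; exact hu0.symm
          rw [e5 x x1 x2 x3 x4]
          exact hκ x
        · have h6 : ({x | cls x = cls (sw g a u x)} : Set Z) ⊂ {x | cls x = cls (g x)} := by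
            refine ⟨?_, fun hsub => ?_⟩
            · intro x hx
              have hx' : cls x = cls (sw g a u x) := hx
              by_cases x1 : x = a
              · rw [x1]; exact ha
              by_cases x2 : x = u
              · rw [x2, e2] at hx'; exact absurd hx' hu1
              by_cases x3 : x = g a
              · rw [x3, e3, ← ha] at hx'; exact absurd hx'.symm hu2
              by_cases x4 : x = g u
              · rw [x4, e4, ← ha] at hx'; exact absurd hx' hu2
              rw [e5 x x1 x2 x3 x4] at hx'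
              exact hx'
            · have h7 : cls a = cls (sw g a u a) := hsub ha
              rw [e1] at h7
              exact hu1 h7.symm
          have h8 := Set.ncard_lt_ncard h6 (Set.toFinite _)
          omega
      · push Not at hbad
        exact ⟨g, hg, fun x => ⟨hκ x, hbad x⟩⟩
  exact key _ g0 (fun x _ => ⟨trivial, (hg0 x (Finset.mem_univ _)).2.2.1,
    (hg0 x (Finset.mem_univ _)).2.1⟩) (fun x => (hg0 x (Finset.mem_univ _)).2.2.2) le_rfl

/-- **From labels of half-edges to a cyclic permutation.** -/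
theorem half_edges {X C P : Type*} [Finite X] (κ : X × Bool → P) (cls : X × Bool → C)
    (heven : ∀ k, Even {z | κ z = k}.ncard)
    (hhalf : ∀ z0, 2 * {z | κ z = κ z0 ∧ cls z = cls z0}.ncard ≤ {z | κ z = κ z0}.ncard)
    (hconn : ∀ S : Set X, S.Nonempty →
      (∀ u v : X × Bool, κ u = κ v → u.1 ∈ S → v.1 ∈ S) → S = Set.univ) :
    ∃ σ : Perm X, (∀ x y, σ.SameCycle x y) ∧
      ∀ x, ∃ β β', κ (x, β) = κ (σ x, β') ∧ cls (x, β) ≠ cls (σ x, β') := by
  classical
  obtain ⟨g0, h0, h0'⟩ := exists_cross' κ cls heven hhalf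
  have hf : Inv Set.univ (fun z : X × Bool => (z.1, !z.2)) := by
    rintro ⟨x, β⟩ _
    refine ⟨trivial, by simp, ?_⟩
    intro h
    have := congrArg Prod.snd h
    revert this
    cases β <;> simp
  obtain ⟨g, ⟨hg, hgc⟩, hrel⟩ := kotzig κ cls g0 h0 h0' (fun z => (z.1, !z.2)) hf (by
    intro S hS hκ hf'
    have hb : ∀ x β, (x, β) ∈ S → ∀ β', (x, β') ∈ S := by
      intro x β h β'
      by_cases h1 : β' = β
      · rw [h1]; exact h
      · have h2 : β' = !β := by revert h1; cases β' <;> cases β <;> simp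
        rw [h2]
        exact hf' _ h
    have h1 := hconn {x | (x, true) ∈ S} (by
      obtain ⟨⟨x, β⟩, hx⟩ := hS
      exact ⟨x, hb x β hx true⟩) (by
      rintro ⟨x, β⟩ ⟨y, β'⟩ h hx
      exact hb y β' (hκ _ _ h (hb x true hx β)) true)
    ext ⟨x, β⟩
    simp only [Set.mem_univ, iff_true]
    have h2 : x ∈ {x | (x, true) ∈ S} := by rw [h1]; trivial
    exact hb x true h2 β)
  let ε : Perm (X × Bool) := Function.Involutive.toPerm g (fun z => (hg z trivial).2.1)
  have hε : ∀ z, ε z = g z := fun z => rfl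
  obtain ⟨σ, hσ1, hσ2⟩ := Pool.Agent.H718C.perm_of_invol ε
    (by ext1 z; exact (hg z trivial).2.1) (fun z => (hg z trivial).2.2)
  refine ⟨σ, ?_, ?_⟩
  · have key : ∀ u v : X × Bool, Rel Set.univ (fun z : X × Bool => (z.1, !z.2)) g u v →
        σ.SameCycle u.1 v.1 := by
      intro u v h
      induction h with
      | rel a b hab =>
        obtain ⟨_, rfl | rfl⟩ := hab
        · exact SameCycle.refl _ _
        · exact (hσ1 a.1 a.2).sameCycle
      | refl a => exact SameCycle.refl _ _
      | symm a b _ ih => exact ih.symm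
      | trans a b c _ _ ih1 ih2 => exact ih1.trans ih2
    intro x y
    exact key (x, true) (y, true) (hrel _ _)
  · intro x
    obtain ⟨β, hβ⟩ := hσ2 x
    refine ⟨β, (g (x, β)).2, ?_⟩
    have h1 : (σ x, (g (x, β)).2) = g (x, β) := by
      rw [hβ]
      rfl
    rw [h1]
    exact ⟨(hgc (x, β)).1.symm, (hgc (x, β)).2⟩

end Pool.Agent.H647.Kot
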