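import Pool.Agent.H647.Kot.Invol

/-!
# Complements of subgroups in several subgroups
-/

set_option autoImplicit false
set_option linter.unusedSectionVars false

namespace Pool.Agent.H647.Kot

open Finset Equiv Equiv.Perm
open Pool.Agent.Helper879.ECD (sp Ind sp_mono mem_sp exists_coeff)
open Pool.Agent.X267.Ham

variable {G : Type} [Group G] [Fintype G] [DecidableEq G]

/-- **The union of complements of subgroups.** -/
theorem union_compl {m : ℕ} (H L : Fin (m + 1) → Subgroup G) (hgen : ⨆ i, H i = ⊤)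
    (hL : ∀ i, L i ≤ H i) (h3 : 3 * Nat.card (L 0) ≤ Nat.card (H 0))
    (hcard : 2 * ∑ i, (H i).index + ∑ j : Fin m, (2 * Nat.card (L j.succ) - 2) * (H j.succ).index ≤
      Fintype.card G + 2) :
    ∃ σ : Perm G, (∀ x y, σ.SameCycle x y) ∧
      ∀ g, ∃ i, g⁻¹ * σ g ∈ H i ∧ g⁻¹ * σ g ∉ L i := by
  classical
  -- packing
  let x : (Fin m × Bool) ⊕ (Σ j : Fin m, Fin (2 * Nat.card (L j.succ) - 2)) → G →
      (G ⊕ G) →₀ ZMod 2 :=
    Sum.elim (fun k => cfg (chn H k.1.castSucc) (H k.1.succ)) (fun s => cap (H s.1.succ))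
  have hsr := sum_rank H
  obtain ⟨I, hdis, hsp⟩ := avg_pack (G := G) x (fun i g => by
      rcases i with i | i
      · exact cfg_smul _ _ g
      · exact cap_smul _ g) (by
    rw [Fintype.sum_sum_type]
    have e1 : ∑ k : Fin m × Bool, Module.finrank (ZMod 2) (sp (ZMod 2) (x (Sum.inl k)) univ) =
        ∑ j : Fin m, Module.finrank (ZMod 2)
          (sp (ZMod 2) (cfg (chn H j.castSucc) (H j.succ)) univ) +
        ∑ j : Fin m, Module.finrank (ZMod 2)
          (sp (ZMod 2) (cfg (chn H j.castSucc) (H j.succ)) univ) := by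
      rw [Fintype.sum_prod_type]
      simp only [Fintype.sum_bool]
      rw [Finset.sum_add_distrib]
      rfl
    have e2 : ∑ s : (Σ j : Fin m, Fin (2 * Nat.card (L j.succ) - 2)),
        Module.finrank (ZMod 2) (sp (ZMod 2) (x (Sum.inr s)) univ) =
        ∑ j : Fin m, ∑ _i : Fin (2 * Nat.card (L j.succ) - 2),
          Module.finrank (ZMod 2) (sp (ZMod 2) (cap (H j.succ)) univ) := by
      rw [Fintype.sum_sigma]
      rfl
    have h5 : ∑ j : Fin m, ∑ _i : Fin (2 * Nat.card (L j.succ) - 2),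
        Module.finrank (ZMod 2) (sp (ZMod 2) (cap (H j.succ)) univ) ≤
        ∑ j : Fin m, (2 * Nat.card (L j.succ) - 2) * (H j.succ).index := by
      apply Finset.sum_le_sum
      intro j _
      rw [Finset.sum_const, Finset.card_univ, Fintype.card_fin, smul_eq_mul]
      exact Nat.mul_le_mul_left _ (cap_rank _)
    rw [e1, e2]
    omega)
  have hspf : ∀ j : Fin m, sp (ZMod 2) (cfg (chn H j.castSucc) (H j.succ)) (I (Sum.inl (j, false))) =
      sp (ZMod 2) (cfg (chn H j.castSucc) (H j.succ)) univ := fun j => hsp (Sum.inl (j, false))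
  have hspt : ∀ j : Fin m, sp (ZMod 2) (cfg (chn H j.castSucc) (H j.succ)) (I (Sum.inl (j, true))) =
      sp (ZMod 2) (cfg (chn H j.castSucc) (H j.succ)) univ := fun j => hsp (Sum.inl (j, true))
  have hspc : ∀ (j : Fin m) (i : Fin (2 * Nat.card (L j.succ) - 2)),
      sp (ZMod 2) (cap (H j.succ)) (I (Sum.inr ⟨j, i⟩)) = sp (ZMod 2) (cap (H j.succ)) univ :=
    fun j i => hsp (Sum.inr ⟨j, i⟩)
  let tag : (Fin m × Bool) ⊕ (Σ j : Fin m, Fin (2 * Nat.card (L j.succ) - 2)) → Fin m :=
    Sum.elim (fun k => k.1) (fun s => s.1)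
  -- the combined configuration
  let w : Fin m × G → (G ⊕ (Fin m × G)) →₀ ZMod 2 := fun q =>
    Finsupp.single (Sum.inl (rp (H 0) q.2)) 1 + Finsupp.single (Sum.inr (q.1, rp (H q.1.succ) q.2)) 1
  let S1 : Finset (Fin m × G) := univ.filter (fun q => q.2 ∈ I (Sum.inl (q.1, false)) ∨
    ∃ i, q.2 ∈ I (Sum.inr ⟨q.1, i⟩))
  let S2 : Finset (Fin m × G) := univ.filter (fun q => q.2 ∈ I (Sum.inl (q.1, true)))
  have hclaim : ∀ q, w q ∈ sp (ZMod 2) w S2 := by
    by_contra hcon
    push Not at hcon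
    obtain ⟨q, hq⟩ := hcon
    obtain ⟨φ, hφ1, hφ2⟩ := Submodule.exists_le_ker_of_notMem hq
    let O : Set G := {g | φ (Finsupp.single (Sum.inl (rp (H 0) g)) 1) = 1}
    let ψ : Fin m → Set G := fun j => {g | φ (Finsupp.single (Sum.inr (j, rp (H j.succ) g)) 1) = 1}
    have h1 := chain_agree H (fun j => I (Sum.inl (j, true))) hspt O ψ
      (stab_of_rp (fun e f hef he => by
        show φ _ = 1
        rw [← hef]; exact he))
      (fun j => stab_of_rp (fun e f hef he => by
        show φ _ = 1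
        rw [← hef]; exact he))
      (fun j e he => by
        have h2 : w (j, e) ∈ sp (ZMod 2) w S2 := mem_sp (by
          rw [Finset.mem_filter]
          exact ⟨Finset.mem_univ _, he⟩)
        have h3 := hφ2 h2
        rw [LinearMap.mem_ker] at h3
        show φ _ = 1 ↔ φ _ = 1
        rw [← z2, ← map_add]
        exact h3)
    apply hφ1
    have h2 := h1.2 q.1 q.2
    show φ (Finsupp.single _ 1 + Finsupp.single _ 1) = 0
    rw [map_add, z2]
    exact h2
  have hv : ∑ q ∈ S1, w q ∈ sp (ZMod 2) w S2 := Submodule.sum_mem _ (fun q _ => hclaim q)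
  obtain ⟨c, hc⟩ := exists_coeff hv
  let J : Finset (Fin m × G) := S2.filter (fun q => c q ≠ 0)
  have hJ : ∑ q ∈ J, w q = ∑ q ∈ S1, w q := by
    rw [← hc, Finset.sum_filter]
    apply Finset.sum_congr rfl
    intro q _
    by_cases h : c q = 0
    · simp [h]
    · rw [if_pos h, z2' _ h, one_smul]
  have hd12 : Disjoint S1 J := by
    rw [Finset.disjoint_left]
    intro q h1 h2
    rw [Finset.mem_filter] at h1 h2
    have h3 := (Finset.mem_filter.1 h2.1).2
    rcases h1.2 with h1 | ⟨i, h1⟩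
    · have h4 := hdis (Sum.inl (q.1, false)) (Sum.inl (q.1, true)) (by simp)
      exact Finset.disjoint_left.1 h4 h1 h3
    · have h4 := hdis (Sum.inr ⟨q.1, i⟩) (Sum.inl (q.1, true)) (by simp)
      exact Finset.disjoint_left.1 h4 h1 h3
  let F2 : Finset (Fin m × G) := S1 ∪ J
  have hF2 : ∀ q ∈ F2, ∃ t, tag t = q.1 ∧ q.2 ∈ I t := by
    intro q hq
    rcases Finset.mem_union.1 hq with h | h
    · rcases (Finset.mem_filter.1 h).2 with h | ⟨i, h⟩
      · exact ⟨_, rfl, h⟩
      · exact ⟨_, rfl, h⟩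
    · exact ⟨Sum.inl (q.1, true), rfl, (Finset.mem_filter.1 (Finset.mem_filter.1 h).1).2⟩
  have hsum : ∑ q ∈ F2, w q = 0 := by
    rw [Finset.sum_union hd12, hJ]
    ext v
    rw [Finsupp.add_apply]
    have : ∀ a : ZMod 2, a + a = 0 := by decide
    exact this _
  have hinj : ∀ q ∈ F2, ∀ q' ∈ F2, q.2 = q'.2 → q = q' := by
    intro q hq q' hq' h
    obtain ⟨t, ht, hb⟩ := hF2 q hq
    obtain ⟨t', ht', hb'⟩ := hF2 q' hq'
    have h1 : t = t' := by
      by_contra hne
      exact Finset.disjoint_left.1 (hdis _ _ hne) hb (h ▸ hb')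
    exact Prod.ext (by rw [← ht, ← ht', h1]) h
  let F : Finset G := F2.image Prod.snd
  have hF : ∀ e, e ∈ F ↔ ∃ j, (j, e) ∈ F2 := by
    intro e
    simp only [F, Finset.mem_image, Prod.exists]
    constructor
    · rintro ⟨j, e', h1, rfl⟩; exact ⟨j, h1⟩
    · rintro ⟨j, h1⟩; exact ⟨j, e, h1, rfl⟩
  -- the color of an element
  let col : G → Option (Fin m) := fun e => if h : ∃ j, (j, e) ∈ F2 then some h.choose else none
  have hcol : ∀ j e, (j, e) ∈ F2 → col e = some j := by
    intro j e h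
    have h' : ∃ j, (j, e) ∈ F2 := ⟨j, h⟩
    have h1 : (h'.choose, e) = (j, e) := hinj _ h'.choose_spec _ h rfl
    have h2 : h'.choose = j := (Prod.ext_iff.1 h1).1
    show (if h : ∃ j, (j, e) ∈ F2 then some h.choose else none) = _
    rw [dif_pos h', h2]
  have hcol' : ∀ e, e ∉ F → col e = none := by
    intro e he
    show (if h : ∃ j, (j, e) ∈ F2 then some h.choose else none) = _
    rw [dif_neg]
    exact fun h => he ((hF e).2 h)
  have hcnt : ∀ (P : G → Prop) (P' : Fin m × G → Prop) [DecidablePred P'],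
      (∀ j e, (j, e) ∈ F2 → (P e ↔ P' (j, e))) →
      {e | e ∈ F ∧ P e}.ncard = (F2.filter P').card := by
    intro P P' _ hPP
    have h1 : {e | e ∈ F ∧ P e} = (((F2.filter P').image Prod.snd : Finset G) : Set G) := by
      ext e
      simp only [Set.mem_ofPred_eq, Finset.coe_image, Set.mem_image, Finset.mem_coe,
        Finset.mem_filter, Prod.exists]
      constructor
      · rintro ⟨h1, h2⟩
        obtain ⟨j, hj⟩ := (hF e).1 h1
        exact ⟨j, e, ⟨hj, (hPP j e hj).1 h2⟩, rfl⟩
      · rintro ⟨j, e', ⟨h1, h2⟩, rfl⟩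
        exact ⟨(hF e').2 ⟨j, h1⟩, (hPP j e' h1).2 h2⟩
    rw [h1, Set.ncard_coe_finset, Finset.card_image_of_injOn]
    intro q hq q' hq' h
    rw [Finset.mem_coe, Finset.mem_filter] at hq hq'
    exact hinj q hq.1 q' hq'.1 h
  have g1 : ∀ y, Even {e | e ∈ F ∧ rp (H 0) e = y}.ncard := by
    intro y
    rw [hcnt (fun e => rp (H 0) e = y) (fun q => rp (H 0) q.2 = y) (fun j e _ => Iff.rfl)]
    apply even_of_sum F2 w _ (Sum.inl y) _ hsum
    intro q _
    show (Finsupp.single _ 1 + Finsupp.single _ 1 : (G ⊕ (Fin m × G)) →₀ ZMod 2) (Sum.inl y) = _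
    rw [Finsupp.add_apply, Finsupp.single_apply, Finsupp.single_apply]
    simp only [reduceCtorEq, if_false, add_zero, Sum.inl.injEq]
  have g2 : ∀ (j : Fin m) (z : G), Even {e | (j, e) ∈ F2 ∧ rp (H j.succ) e = z}.ncard := by
    intro j z
    have h0 : {e | (j, e) ∈ F2 ∧ rp (H j.succ) e = z} =
        {e | e ∈ F ∧ (col e = some j ∧ rp (H j.succ) e = z)} := by
      ext e
      simp only [Set.mem_ofPred_eq]
      constructor
      · rintro ⟨h1, h2⟩
        exact ⟨(hF e).2 ⟨j, h1⟩, hcol j e h1, h2⟩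
      · rintro ⟨h1, h2, h3⟩
        obtain ⟨j', hj'⟩ := (hF e).1 h1
        rw [hcol j' e hj'] at h2
        obtain rfl := Option.some_injective _ h2
        exact ⟨hj', h3⟩
    rw [h0, hcnt (fun e => col e = some j ∧ rp (H j.succ) e = z)
      (fun q => (q.1, rp (H q.1.succ) q.2) = (j, z))
      (fun j' e he => by
        rw [hcol j' e he, Option.some_inj, Prod.mk.injEq]
        constructor
        · rintro ⟨rfl, h⟩; exact ⟨rfl, h⟩
        · rintro ⟨rfl, h⟩; exact ⟨rfl, h⟩)]
    apply even_of_sum F2 w _ (Sum.inr (j, z)) _ hsum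
    intro q _
    show (Finsupp.single _ 1 + Finsupp.single _ 1 : (G ⊕ (Fin m × G)) →₀ ZMod 2)
      (Sum.inr (j, z)) = _
    rw [Finsupp.add_apply, Finsupp.single_apply, Finsupp.single_apply]
    simp only [reduceCtorEq, if_false, zero_add, Sum.inr.injEq]
  have hmf : ∀ (j : Fin m), ∀ e ∈ I (Sum.inl (j, false)), (j, e) ∈ F2 := fun j e he =>
    Finset.mem_union_left _ (Finset.mem_filter.2 ⟨Finset.mem_univ _, Or.inl he⟩)
  have hmc : ∀ (j : Fin m) (i : Fin (2 * Nat.card (L j.succ) - 2)),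
      ∀ e ∈ I (Sum.inr ⟨j, i⟩), (j, e) ∈ F2 := fun j i e he =>
    Finset.mem_union_left _ (Finset.mem_filter.2 ⟨Finset.mem_univ _, Or.inr ⟨i, he⟩⟩)
  have g2' : ∀ (j : Fin m) (y : G), 2 * Nat.card (L j.succ) ≤
      {e | (j, e) ∈ F2 ∧ rp (H j.succ) e = rp (H j.succ) y}.ncard := by
    intro j y
    choose e he1 he2 using fun i : Fin (2 * Nat.card (L j.succ) - 2) =>
      cap_meets (H j.succ) (I (Sum.inr ⟨j, i⟩)) (hspc j i) y
    obtain ⟨e0, he01, he02⟩ := cfg_meets_right _ _ (I (Sum.inl (j, false))) (hspf j) y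
    have hinj' : Function.Injective e := by
      intro i i' hii
      by_contra hne
      have h6 := hdis (Sum.inr ⟨j, i⟩) (Sum.inr ⟨j, i'⟩) (by
        intro h
        have h7 := Sum.inr_injective h
        rw [Sigma.mk.injEq] at h7
        exact hne (eq_of_heq h7.2))
      exact Finset.disjoint_left.1 h6 (he1 i) (hii ▸ he1 i')
    have hdj : Disjoint {e0} (Set.range e) := by
      rw [Set.disjoint_left]
      rintro _ h7 ⟨i, rfl⟩
      rw [Set.mem_singleton_iff] at h7
      have h6 := hdis (Sum.inl (j, false)) (Sum.inr ⟨j, i⟩) (by simp)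
      exact Finset.disjoint_left.1 h6 he01 (h7 ▸ he1 i)
    have h8 : {e0} ∪ Set.range e ⊆ {e | (j, e) ∈ F2 ∧ rp (H j.succ) e = rp (H j.succ) y} := by
      rintro g (h | ⟨i, rfl⟩)
      · rw [Set.mem_singleton_iff] at h
        rw [h]
        exact ⟨hmf j _ he01, he02⟩
      · exact ⟨hmc j i _ (he1 i), he2 i⟩
    have h9 := Set.ncard_le_ncard h8 (Set.toFinite _)
    rw [Set.ncard_union_eq hdj (Set.toFinite _) (Set.toFinite _), Set.ncard_singleton,
      ← Set.image_univ, Set.ncard_image_of_injective _ hinj', Set.ncard_univ, Nat.card_fin] at h9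
    obtain ⟨r, hr⟩ := g2 j (rp (H j.succ) y)
    have : 0 < Nat.card (L j.succ) := Nat.card_pos
    omega
  have g3 : ∀ S : Set G, S.Nonempty → (∀ e f, rp (H 0) e = rp (H 0) f → e ∈ S → f ∈ S) →
      (∀ j e f, (j, e) ∈ F2 → (j, f) ∈ F2 → rp (H j.succ) e = rp (H j.succ) f → e ∈ S → f ∈ S) →
      S = Set.univ := by
    intro S hS hp hq
    let ψ : Fin m → Set G := fun j => {g | ∃ e ∈ I (Sum.inl (j, false)), e ∈ S ∧
      e⁻¹ * g ∈ H j.succ}
    have h1 := chain_agree H (fun j => I (Sum.inl (j, false))) hspf S ψ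
      (stab_of_rp hp)
      (fun j => by
        intro x hx g
        constructor
        · rintro ⟨e, h1, h2, h3⟩
          refine ⟨e, h1, h2, ?_⟩
          have := (H j.succ).mul_mem h3 ((H j.succ).inv_mem hx)
          rwa [mul_assoc, mul_inv_cancel_right] at this
        · rintro ⟨e, h1, h2, h3⟩
          refine ⟨e, h1, h2, ?_⟩
          rw [← mul_assoc]
          exact (H j.succ).mul_mem h3 hx)
      (fun j e he => by
        constructor
        · intro h
          refine ⟨e, he, h, ?_⟩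
          rw [inv_mul_cancel]
          exact (H j.succ).one_mem
        · rintro ⟨e', h1, h2, h3⟩
          exact hq j e' e (hmf j _ h1) (hmf j _ he) ((rp_eq_iff _).2 h3) h2)
    have h2 : (⊤ : Subgroup G) ≤ stab S := by
      rw [← hgen]
      exact iSup_le h1.1
    obtain ⟨s, hs⟩ := hS
    ext g
    simp only [Set.mem_univ, iff_true]
    have h3 := h2 (Subgroup.mem_top (s⁻¹ * g)) s
    rw [mul_inv_cancel_left] at h3
    exact h3.2 hs
  -- labels of the half-edges
  let lab : G × Bool → Option (Fin m) := fun z => if z.2 then none else col z.1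
  let up : Option (Fin m) → Fin (m + 1) := fun o => o.elim 0 Fin.succ
  let κ : G × Bool → Option (Fin m) × G := fun z => (lab z, rp (H (up (lab z))) z.1)
  let cls : G × Bool → G := fun z => rp (L (up (lab z))) z.1
  have labt : ∀ g, lab (g, true) = none := fun g => rfl
  have labf : ∀ g, lab (g, false) = col g := fun g => rfl
  have lab_none : ∀ z : G × Bool, lab z = none ↔ ((z.1 ∈ (F : Set G) ∧ z.2 = true) ∨
      z.1 ∈ (F : Set G)ᶜ) := by
    rintro ⟨g, β⟩
    by_cases hg : g ∈ F
    · obtain ⟨j, hj⟩ := (hF g).1 hg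
      have h5 : g ∉ ((F : Set G)ᶜ) := fun h => h hg
      cases β
      · rw [labf, hcol j g hj]
        simp [h5]
      · rw [labt]
        simp [hg]
    · have h5 : g ∈ ((F : Set G)ᶜ) := hg
      cases β
      · rw [labf, hcol' g hg]
        simp [h5]
      · rw [labt]
        simp [h5]
  have lab_some : ∀ (z : G × Bool) (j : Fin m), lab z = some j ↔ ((j, z.1) ∈ F2 ∧ z.2 = false) := by
    rintro ⟨g, β⟩ j
    cases β
    · rw [labf]
      constructor
      · intro h
        refine ⟨?_, rfl⟩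
        by_cases hg : g ∈ F
        · obtain ⟨j', hj'⟩ := (hF g).1 hg
          rw [hcol j' g hj'] at h
          obtain rfl := Option.some_injective _ h
          exact hj'
        · rw [hcol' g hg] at h
          cases h
      · rintro ⟨h, _⟩
        exact hcol j g h
    · rw [labt]
      simp
  have cnt0 : ∀ (U : Subgroup G) (y : G), {z : G × Bool | lab z = none ∧ rp U z.1 = y}.ncard =
      {e | e ∈ (F : Set G) ∧ rp U e = y}.ncard + 2 * {e | e ∈ (F : Set G)ᶜ ∧ rp U e = y}.ncard := by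
    intro U y
    rw [← count_half true]
    · congr 1
      ext z
      simp only [Set.mem_ofPred_eq, lab_none]
      tauto
    · rw [Set.disjoint_left]
      rintro x ⟨hx, _⟩ ⟨hx', _⟩
      exact hx' hx
  have cnt1 : ∀ (j : Fin m) (U : Subgroup G) (y : G),
      {z : G × Bool | lab z = some j ∧ rp U z.1 = y}.ncard =
      {e | (j, e) ∈ F2 ∧ rp U e = y}.ncard := by
    intro j U y
    have h5 : {z : G × Bool | lab z = some j ∧ rp U z.1 = y} =
        (fun e : G => (e, false)) '' {e | (j, e) ∈ F2 ∧ rp U e = y} := by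
      ext ⟨g, β⟩
      simp only [Set.mem_ofPred_eq, lab_some, Set.mem_image, Prod.mk.injEq]
      constructor
      · rintro ⟨⟨h1, h2⟩, h3⟩
        exact ⟨g, ⟨h1, h3⟩, rfl, h2.symm⟩
      · rintro ⟨e, ⟨h1, h3⟩, rfl, h2⟩
        exact ⟨⟨h1, h2.symm⟩, h3⟩
    rw [h5, Set.ncard_image_of_injective]
    intro a b hab
    exact (Prod.ext_iff.1 hab).1
  have fib : ∀ (o : Option (Fin m)) (y : G), {z | κ z = (o, y)} =
      {z : G × Bool | lab z = o ∧ rp (H (up o)) z.1 = y} := by
    intro o y
    ext z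
    simp only [κ, Set.mem_ofPred_eq, Prod.mk.injEq]
    constructor
    · rintro ⟨h1, h2⟩
      rw [h1] at h2
      exact ⟨h1, h2⟩
    · rintro ⟨h1, h2⟩
      refine ⟨h1, ?_⟩
      rw [h1]
      exact h2
  have fibc : ∀ z0 : G × Bool, {z | κ z = κ z0 ∧ cls z = cls z0} =
      {z : G × Bool | lab z = lab z0 ∧ rp (L (up (lab z0))) z.1 = rp (L (up (lab z0))) z0.1} := by
    intro z0
    ext z
    simp only [κ, cls, Set.mem_ofPred_eq, Prod.mk.injEq]
    constructor
    · rintro ⟨⟨h1, _⟩, h2⟩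
      rw [h1] at h2
      exact ⟨h1, h2⟩
    · rintro ⟨h1, h2⟩
      rw [h1]
      exact ⟨⟨rfl, rp_le (hL _) h2⟩, h2⟩
  obtain ⟨σ, hσ1, hσ2⟩ := half_edges κ cls (by
      rintro ⟨o, y⟩
      rw [fib]
      rcases o with _ | j
      · rw [cnt0]
        exact (g1 y).add (even_two_mul _)
      · rw [cnt1]
        exact g2 j y)
    (by
      intro z0
      have hk : κ z0 = (lab z0, rp (H (up (lab z0))) z0.1) := rfl
      rw [fibc, hk, fib]
      rcases hz : lab z0 with _ | j
      · rw [cnt0, cnt0]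
        exact side_all (H 0) (L 0) (hL 0) h3 (F : Set G) z0.1
      · rw [cnt1, cnt1]
        have h5 : {e | (j, e) ∈ F2 ∧ rp (L (up (some j))) e = rp (L (up (some j))) z0.1}.ncard ≤
            Nat.card (L j.succ) := by
          rw [← ncard_coset (L j.succ) z0.1]
          apply Set.ncard_le_ncard _ (Set.toFinite _)
          rintro e ⟨_, h⟩
          exact h
        have h6 := g2' j z0.1
        have h7 : {e | (j, e) ∈ F2 ∧ rp (H (up (some j))) e = rp (H (up (some j))) z0.1} =
            {e | (j, e) ∈ F2 ∧ rp (H j.succ) e = rp (H j.succ) z0.1} := rfl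
        rw [h7]
        omega)
    (by
      intro S hS hcl
      refine g3 S hS ?_ ?_
      · intro e f hef he
        exact hcl (e, true) (f, true) (by
          show (lab (e, true), rp (H (up (lab (e, true)))) e) =
            (lab (f, true), rp (H (up (lab (f, true)))) f)
          rw [labt, labt]
          exact Prod.ext rfl hef) he
      · intro j e f he hf hef heS
        exact hcl (e, false) (f, false) (by
          show (lab (e, false), rp (H (up (lab (e, false)))) e) =
            (lab (f, false), rp (H (up (lab (f, false)))) f)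
          rw [labf, labf, hcol j e he, hcol j f hf]
          exact Prod.ext rfl hef) heS)
  refine ⟨σ, hσ1, fun g => ?_⟩
  obtain ⟨β, β', h5, h6⟩ := hσ2 g
  have h7 : lab (g, β) = lab (σ g, β') := (Prod.ext_iff.1 h5).1
  have h8 : rp (H (up (lab (g, β)))) g = rp (H (up (lab (σ g, β')))) (σ g) :=
    (Prod.ext_iff.1 h5).2
  have h9 : rp (L (up (lab (g, β)))) g ≠ rp (L (up (lab (σ g, β')))) (σ g) := h6
  rw [← h7] at h8 h9
  exact ⟨up (lab (g, β)), (rp_eq_iff _).1 h8, fun h10 => h9 ((rp_eq_iff _).2 h10)⟩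

end Pool.Agent.H647.Kot
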