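import Pool.Agent.H647.Kot.Walk
import Pool.Agent.H647.Kot.Pack3
import Pool.Agent.H647.Kot.UnionCompl

/-!
# Closed listing sequences
-/

set_option autoImplicit false
set_option linter.unusedSectionVars false

namespace Pool.Agent.H647.Kot

open Equiv Equiv.Perm
open Pool.Agent.X267.Ham (HasClosedListing HasListing IsListing listing_of_perm rp rp_eq_iff)

/-- The exceptional orders. -/
def Exc (h l k m : ℕ) : Prop :=
  (h = 3 ∧ (k = 2 ∨ k = 3 ∨ k = 4 ∨ k = 5)) ∨ (k = 3 ∧ (h = 2 ∨ h = 3 ∨ h = 4 ∨ h = 5)) ∨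
    (h = 4 ∧ l = 2 ∧ k = 3 * m ∧ Odd k) ∨ (k = 4 ∧ m = 2 ∧ h = 3 * l ∧ Odd h)

lemma Exc.symm {h l k m : ℕ} (e : Exc k m h l) : Exc h l k m := by
  unfold Exc at *
  tauto

lemma arith_odd {h l k m : ℕ} (hl : l ∣ h) (hm : m ∣ k) (hlh : l < h) (hmk : m < k) (l0 : 0 < l)
    (m0 : 0 < m) (hk : Odd k) (hex : ¬ Exc h l k m) :
    2 * (h * m + k) ≤ h * k ∨ 2 * (k * l + h) ≤ k * h ∨ (h = 2 ∧ 4 ≤ k ∧ 3 * m ≤ k) := by
  obtain ⟨b, rfl⟩ := hm
  have hb : Odd b := (Nat.odd_mul.1 hk).2
  have hb2 : b ≠ 1 := by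
    rintro rfl
    omega
  have hb3 : 3 ≤ b := by
    obtain ⟨t, ht⟩ := hb
    omega
  have first : 2 * (h + b) ≤ h * b → 2 * (h * m + m * b) ≤ h * (m * b) := by
    intro h1
    calc 2 * (h * m + m * b) = m * (2 * (h + b)) := by ring
      _ ≤ m * (h * b) := Nat.mul_le_mul_left _ h1
      _ = h * (m * b) := by ring
  have h3m : 3 * m ≤ m * b := by
    rw [mul_comm]
    exact Nat.mul_le_mul_left _ hb3
  have hldvd : l ≤ h := hlh.le
  rcases Nat.lt_or_ge h 6 with h6 | h6
  · interval_cases h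
    · omega
    · omega
    · -- h = 2
      right; right
      refine ⟨rfl, ?_, h3m⟩
      by_contra hcon
      have h4 : m * b = 3 := by omega
      apply hex
      unfold Exc
      rw [h4]
      tauto
    · -- h = 3
      have hl1 : l = 1 := by
        interval_cases l
        · rfl
        · omega
      subst hl1
      rcases Nat.lt_or_ge (m * b) 6 with h7 | h7
      · exfalso
        have h8 : m * b = 3 ∨ m * b = 5 := by
          obtain ⟨t, ht⟩ := hk
          omega
        apply hex
        unfold Exc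
        rcases h8 with h8 | h8 <;> rw [h8] <;> tauto
      · right; left
        omega
    · -- h = 4
      rcases Nat.lt_or_ge b 4 with h7 | h7
      · have hb3' : b = 3 := by omega
        subst hb3'
        have hl12 : l = 1 ∨ l = 2 := by
          interval_cases l
          · left; rfl
          · right; rfl
          · omega
        rcases hl12 with rfl | rfl
        · rcases Nat.lt_or_ge (m * 3) 4 with h8 | h8
          · exfalso
            have h9 : m * 3 = 3 := by omega
            apply hex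
            unfold Exc
            rw [h9]
            tauto
          · right; left
            omega
        · exfalso
          apply hex
          unfold Exc
          right; right; left
          exact ⟨rfl, rfl, by ring, hk⟩
      · left
        apply first
        omega
    · -- h = 5
      rcases Nat.lt_or_ge b 4 with h7 | h7
      · have hb3' : b = 3 := by omega
        subst hb3'
        have hl1 : l = 1 := by
          interval_cases l
          · rfl
          · omega
          · omega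
          · omega
        subst hl1
        rcases Nat.lt_or_ge (m * 3) 4 with h8 | h8
        · exfalso
          have h9 : m * 3 = 3 := by omega
          apply hex
          unfold Exc
          rw [h9]
          tauto
        · right; left
          omega
      · left
        apply first
        omega
  · left
    apply first
    nlinarith

lemma arith {h l k m : ℕ} (hl : l ∣ h) (hm : m ∣ k) (hlh : l < h) (hmk : m < k) (l0 : 0 < l)
    (m0 : 0 < m) (hex : ¬ Exc h l k m) :
    (Even h ∧ Even k) ∨ 2 * (h * m + k) ≤ h * k ∨ 2 * (k * l + h) ≤ k * h ∨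
      (h = 2 ∧ 4 ≤ k ∧ 3 * m ≤ k) ∨ (k = 2 ∧ 4 ≤ h ∧ 3 * l ≤ h) := by
  rcases Nat.even_or_odd k with hk | hk
  · rcases Nat.even_or_odd h with hh | hh
    · exact Or.inl ⟨hh, hk⟩
    · rcases arith_odd hm hl hmk hlh m0 l0 hh (fun e => hex e.symm) with h1 | h1 | h1
      · exact Or.inr (Or.inr (Or.inl h1))
      · exact Or.inr (Or.inl h1)
      · exact Or.inr (Or.inr (Or.inr (Or.inr h1)))
  · rcases arith_odd hl hm hlh hmk l0 m0 hk hex with h1 | h1 | h1
    · exact Or.inr (Or.inl h1)
    · exact Or.inr (Or.inr (Or.inl h1))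
    · exact Or.inr (Or.inr (Or.inr (Or.inl h1)))

section

variable {G : Type} [Group G] [Finite G]

lemma card_lt_of_lt {L H : Subgroup G} (h : L < H) : Nat.card L < Nat.card H := by
  have h1 : (L : Set G) ⊂ (H : Set G) := h
  exact Set.ncard_lt_ncard h1 (Set.toFinite _)

/-- **Two complements.** -/
theorem closed_compl (A : Set G) (H L K M : Subgroup G) (hgen : H ⊔ K = ⊤) (hL : L < H)
    (hM : M < K) (hLA : ∀ x ∈ H, x ∉ L → x ∈ A) (hMA : ∀ x ∈ K, x ∉ M → x ∈ A)
    (hex : ¬ Exc (Nat.card H) (Nat.card L) (Nat.card K) (Nat.card M)) : HasClosedListing A := by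
  classical
  have := Fintype.ofFinite G
  have hLH := card_lt_of_lt hL
  have hMK := card_lt_of_lt hM
  have hperm : (∃ σ : Perm G, (∀ x y, σ.SameCycle x y) ∧
      ∀ g, (g⁻¹ * σ g ∈ H ∧ g⁻¹ * σ g ∉ L) ∨ (g⁻¹ * σ g ∈ K ∧ g⁻¹ * σ g ∉ M)) →
      HasClosedListing A := by
    rintro ⟨σ, h1, h2⟩
    refine listing_of_perm ⟨σ, fun g => ?_, h1⟩
    rcases h2 g with h | h
    · exact hLA _ h.1 h.2
    · exact hMA _ h.1 h.2
  have hperm' : (∃ σ : Perm G, (∀ x y, σ.SameCycle x y) ∧
      ∀ g, (g⁻¹ * σ g ∈ K ∧ g⁻¹ * σ g ∉ M) ∨ (g⁻¹ * σ g ∈ H ∧ g⁻¹ * σ g ∉ L)) →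
      HasClosedListing A := by
    rintro ⟨σ, h1, h2⟩
    exact hperm ⟨σ, h1, fun g => (h2 g).symm⟩
  have hgen' : K ⊔ H = ⊤ := by rw [sup_comm]; exact hgen
  rcases arith (Subgroup.card_dvd_of_le hL.le) (Subgroup.card_dvd_of_le hM.le) hLH hMK
    Nat.card_pos Nat.card_pos hex with h | h | h | h | h
  · exact closed_of_pp A H K hgen (pp_compl h.1 L (fun h5 => hL.not_ge h5) hLA)
      (pp_compl h.2 M (fun h5 => hM.not_ge h5) hMA)
  · exact hperm (compl_large H L K M hgen hL hM.le h)
  · exact hperm' (compl_large K M H L hgen' hM hL.le h)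
  · exact hperm (compl_invol H L K M hgen h.1 hL h.2.1 hM.le h.2.2)
  · exact hperm' (compl_invol K M H L hgen' h.1 hM h.2.1 hL.le h.2.2)

/-- **A complement and a Hamiltonian cycle.** -/
theorem closed_compl_cycle (A : Set G) (hA : ∀ x ∈ A, x⁻¹ ∈ A) (H L K : Subgroup G)
    (hgen : H ⊔ K = ⊤) (hL : L ≤ H) (hLA : ∀ x ∈ H, x ∉ L → x ∈ A)
    (hH : 4 * Nat.card L ≤ Nat.card H) (hK4 : 4 ≤ Nat.card K)
    (hKH : 2 * (Nat.card K * Nat.card L) ≤ 3 * Nat.card H)
    (hK : HasClosedListing {x : K | (x : G) ∈ A}) : HasClosedListing A := by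
  classical
  have := Fintype.ofFinite G
  obtain ⟨κ, h1, h2⟩ := perm_of_closed hK
  obtain ⟨π, h3, h4⟩ := lift_perm K κ (A := A) h1 h2
  obtain ⟨τ, h5, h6⟩ := compl_cycle H L K hgen hL hH hK4 hKH π h4
  refine listing_of_perm ⟨τ, fun g => ?_, h5⟩
  rcases h6 g with h | h | h
  · exact hLA _ h.1 h.2
  · rw [h]
    exact h3 g
  · have h7 := h3 (τ g)
    rw [h] at h7
    have h8 := hA _ h7
    rwa [mul_inv_rev, inv_inv] at h8

/-- **Several complements.** -/
theorem closed_union (A : Set G) {m : ℕ} (H L : Fin (m + 1) → Subgroup G) (hgen : ⨆ i, H i = ⊤)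
    (hL : ∀ i, L i ≤ H i) (hLA : ∀ i, ∀ x ∈ H i, x ∉ L i → x ∈ A)
    (h3 : 3 * Nat.card (L 0) ≤ Nat.card (H 0))
    (hcard : 2 * (H 0).index + ∑ j : Fin m, 2 * Nat.card (L j.succ) * (H j.succ).index ≤
      Nat.card G + 2) : HasClosedListing A := by
  classical
  have := Fintype.ofFinite G
  obtain ⟨σ, h1, h2⟩ := union_compl H L hgen hL h3 (by
    rw [Fin.sum_univ_succ, mul_add, ← Nat.card_eq_fintype_card (α := G)]
    have h5 : 2 * ∑ j : Fin m, (H j.succ).index +
        ∑ j : Fin m, (2 * Nat.card (L j.succ) - 2) * (H j.succ).index =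
        ∑ j : Fin m, 2 * Nat.card (L j.succ) * (H j.succ).index := by
      rw [Finset.mul_sum, ← Finset.sum_add_distrib]
      apply Finset.sum_congr rfl
      intro j _
      have h6 : 0 < Nat.card (L j.succ) := Nat.card_pos
      obtain ⟨t, ht⟩ := Nat.exists_eq_add_of_le (show 1 ≤ Nat.card (L j.succ) from h6)
      rw [ht]
      have : 2 * (1 + t) - 2 = 2 * t := by omega
      rw [this]
      ring
    omega)
  refine listing_of_perm ⟨σ, fun g => ?_, h1⟩
  obtain ⟨i, hi1, hi2⟩ := h2 g
  exact hLA i _ hi1 hi2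

/-- transport -/
theorem closed_congr {K K' : Type} [Group K] [Group K'] [Finite K] (e : K ≃* K') {B : Set K}
    {B' : Set K'} (hB : ∀ x ∈ B, e x ∈ B') (h : HasClosedListing B) : HasClosedListing B' := by
  classical
  have : Finite K' := Finite.of_equiv K e.toEquiv
  obtain ⟨κ, h1, h2⟩ := perm_of_closed h
  refine listing_of_perm ⟨e.symm.toEquiv.trans (κ.trans e.toEquiv), fun x => ?_, fun x y => ?_⟩
  · have h3 := hB _ (h1 (e.symm x))
    rw [map_mul, map_inv, e.apply_symm_apply] at h3
    exact h3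
  · obtain ⟨n, hn⟩ := (h2 (e.symm x) (e.symm y)).exists_nat_pow_eq
    refine ⟨(n : ℤ), ?_⟩
    rw [zpow_natCast]
    have key : ∀ n : ℕ, ((e.symm.toEquiv.trans (κ.trans e.toEquiv)) ^ n) x =
        e ((κ ^ n) (e.symm x)) := by
      intro n
      induction n with
      | zero => exact (e.apply_symm_apply x).symm
      | succ n ih =>
        rw [pow_succ', pow_succ', Perm.mul_apply, Perm.mul_apply, ih]
        show e (κ (e.symm (e ((κ ^ n) (e.symm x))))) = _
        rw [e.symm_apply_apply]
    rw [key, hn, e.apply_symm_apply]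

/-- passing to a subgroup containing `K` -/
theorem closed_restrict {A : Set G} {K N : Subgroup G} (hKN : K ≤ N)
    (h : HasClosedListing {x : K | (x : G) ∈ A}) :
    HasClosedListing {x : K.subgroupOf N | ((x : N) : G) ∈ A} := by
  refine closed_congr (Subgroup.subgroupOfEquivOfLe hKN).symm ?_ h
  intro x hx
  have h1 : (((Subgroup.subgroupOfEquivOfLe hKN).symm x : N) : G) = (x : G) := by
    obtain ⟨y, rfl⟩ := (Subgroup.subgroupOfEquivOfLe hKN).surjective x
    rw [MulEquiv.symm_apply_apply]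
    exact (Subgroup.subgroupOfEquivOfLe_apply_coe hKN y).symm
  show (((Subgroup.subgroupOfEquivOfLe hKN).symm x : N) : G) ∈ A
  rw [h1]
  exact hx

lemma card_restrict {H N : Subgroup G} (h : H ≤ N) : Nat.card (H.subgroupOf N) = Nat.card H :=
  Nat.card_congr (Subgroup.subgroupOfEquivOfLe h).toEquiv

end

end Pool.Agent.H647.Kot
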