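import Pool.Agent.H647.Kot.Classes

/-!
# Complements of subgroups: gluing the two sides
-/

set_option autoImplicit false
set_option linter.unusedSectionVars false

namespace Pool.Agent.H647.Kot

open Finset Equiv Equiv.Perm
open Pool.Agent.Helper879.ECD (sp Ind sp_mono mem_sp exists_coeff)
open Pool.Agent.X267.Ham

variable {G : Type} [Group G] [Fintype G] [DecidableEq G]

/-- The class condition for the half-edges of the side `H`: `F` are the elements with one
half-edge, `Q` those with two. -/
def SideOK (H L : Subgroup G) (F Q : Set G) : Prop :=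
  ∀ g, 2 * ({e | e ∈ F ∧ rp L e = rp L g}.ncard + 2 * {e | e ∈ Q ∧ rp L e = rp L g}.ncard) ≤
    {e | e ∈ F ∧ rp H e = rp H g}.ncard + 2 * {e | e ∈ Q ∧ rp H e = rp H g}.ncard

lemma count_half {X : Type} [Finite X] (β : Bool) (S T : Set X) (hST : Disjoint S T) :
    {z : X × Bool | (z.1 ∈ S ∧ z.2 = β) ∨ z.1 ∈ T}.ncard = S.ncard + 2 * T.ncard := by
  have h1 : {z : X × Bool | (z.1 ∈ S ∧ z.2 = β) ∨ z.1 ∈ T} =
      ((fun x => (x, β)) '' S) ∪ (((fun x => (x, true)) '' T) ∪ ((fun x => (x, false)) '' T)) := by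
    ext ⟨x, γ⟩
    simp only [Set.mem_ofPred_eq, Set.mem_union, Set.mem_image, Prod.mk.injEq]
    constructor
    · rintro (⟨h, rfl⟩ | h)
      · exact Or.inl ⟨x, h, rfl, rfl⟩
      · right
        cases γ
        · exact Or.inr ⟨x, h, rfl, rfl⟩
        · exact Or.inl ⟨x, h, rfl, rfl⟩
    · rintro (⟨y, h, rfl, rfl⟩ | ⟨y, h, rfl, rfl⟩ | ⟨y, h, rfl, rfl⟩)
      · exact Or.inl ⟨h, rfl⟩
      · exact Or.inr h
      · exact Or.inr h
  have i1 : ∀ γ : Bool, Function.Injective (fun x : X => (x, γ)) :=
    fun γ x y h => (Prod.ext_iff.1 h).1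
  rw [h1, Set.ncard_union_eq _ (Set.toFinite _) (Set.toFinite _),
    Set.ncard_union_eq _ (Set.toFinite _) (Set.toFinite _),
    Set.ncard_image_of_injective _ (i1 _), Set.ncard_image_of_injective _ (i1 _),
    Set.ncard_image_of_injective _ (i1 _)]
  · ring
  · rw [Set.disjoint_left]
    rintro _ ⟨x, _, rfl⟩ ⟨y, _, h⟩
    have := (Prod.ext_iff.1 h).2
    simp at this
  · rw [Set.disjoint_left]
    rintro _ ⟨x, hx, rfl⟩ (⟨y, hy, h⟩ | ⟨y, hy, h⟩)
    · have := (Prod.ext_iff.1 h).1
      simp only at this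
      exact Set.disjoint_left.1 hST hx (this ▸ hy)
    · have := (Prod.ext_iff.1 h).1
      simp only at this
      exact Set.disjoint_left.1 hST hx (this ▸ hy)

/-- **Gluing.** -/
theorem glue (H K L M : Subgroup G) (F Q : Set G) (hFQ : Disjoint F Q)
    (eH : ∀ y, Even {e | e ∈ F ∧ rp H e = y}.ncard)
    (eK : ∀ y, Even {e | e ∈ F ∧ rp K e = y}.ncard)
    (oH : SideOK H L F Q) (oK : SideOK K M F (F ∪ Q)ᶜ)
    (m1 : ∀ q ∈ Q, ∃ e ∈ F, rp H e = rp H q) (m2 : ∀ q, q ∉ F → q ∉ Q → ∃ e ∈ F, rp K e = rp K q)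
    (hL : L ≤ H) (hM : M ≤ K)
    (hconn : ∀ S : Set G, (∃ e ∈ F, e ∈ S) → (∀ e f, e ∈ F → f ∈ F → rp H e = rp H f → e ∈ S →
      f ∈ S) → (∀ e f, e ∈ F → f ∈ F → rp K e = rp K f → e ∈ S → f ∈ S) → ∀ e ∈ F, e ∈ S) :
    ∃ σ : Perm G, (∀ x y, σ.SameCycle x y) ∧
      ∀ g, (g⁻¹ * σ g ∈ H ∧ g⁻¹ * σ g ∉ L) ∨ (g⁻¹ * σ g ∈ K ∧ g⁻¹ * σ g ∉ M) := by
  classical
  have hP : Disjoint F (F ∪ Q)ᶜ := by
    rw [Set.disjoint_left]
    intro x hx hx'
    exact hx' (Or.inl hx)
  -- on which side is the half-edge?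
  let side : G × Bool → Bool := fun z => decide ((z.1 ∈ F ∧ z.2 = true) ∨ z.1 ∈ Q)
  have side1 : ∀ z, side z = true ↔ ((z.1 ∈ F ∧ z.2 = true) ∨ z.1 ∈ Q) := by
    intro z; simp [side]
  have side0 : ∀ z, side z = false ↔ ((z.1 ∈ F ∧ z.2 = false) ∨ z.1 ∈ (F ∪ Q)ᶜ) := by
    intro z
    rw [← Bool.not_eq_true, side1]
    constructor
    · intro h
      by_cases hF : z.1 ∈ F
      · left
        refine ⟨hF, ?_⟩
        by_contra h2
        exact h (Or.inl ⟨hF, by simpa using h2⟩)
      · right
        rintro (h2 | h2)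
        · exact hF h2
        · exact h (Or.inr h2)
    · rintro (⟨h1, h2⟩ | h) (⟨h3, h4⟩ | h3)
      · rw [h2] at h4; cases h4
      · exact Set.disjoint_left.1 hFQ h1 h3
      · exact h (Or.inl h3)
      · exact h (Or.inr h3)
  let κ : G × Bool → Bool × G := fun z => (side z, if side z then rp H z.1 else rp K z.1)
  let cls : G × Bool → Bool × G := fun z => (side z, if side z then rp L z.1 else rp M z.1)
  have κ1 : ∀ z, side z = true → κ z = (true, rp H z.1) := by intro z h; simp [κ, h]
  have κ0 : ∀ z, side z = false → κ z = (false, rp K z.1) := by intro z h; simp [κ, h]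
  have c1 : ∀ z, side z = true → cls z = (true, rp L z.1) := by intro z h; simp [cls, h]
  have c0 : ∀ z, side z = false → cls z = (false, rp M z.1) := by intro z h; simp [cls, h]
  have set1 : ∀ (U : Subgroup G) (y : G), {z : G × Bool | side z = true ∧ rp U z.1 = y} =
      {z : G × Bool | (z.1 ∈ {e | e ∈ F ∧ rp U e = y} ∧ z.2 = true) ∨
        z.1 ∈ {e | e ∈ Q ∧ rp U e = y}} := by
    intro U y
    ext z
    simp only [Set.mem_ofPred_eq, side1]
    tauto
  have set0 : ∀ (U : Subgroup G) (y : G), {z : G × Bool | side z = false ∧ rp U z.1 = y} =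
      {z : G × Bool | (z.1 ∈ {e | e ∈ F ∧ rp U e = y} ∧ z.2 = false) ∨
        z.1 ∈ {e | e ∈ (F ∪ Q)ᶜ ∧ rp U e = y}} := by
    intro U y
    ext z
    simp only [Set.mem_ofPred_eq, side0]
    tauto
  have cnt1 : ∀ (U : Subgroup G) (y : G), {z : G × Bool | side z = true ∧ rp U z.1 = y}.ncard =
      {e | e ∈ F ∧ rp U e = y}.ncard + 2 * {e | e ∈ Q ∧ rp U e = y}.ncard := by
    intro U y
    rw [set1, count_half]
    rw [Set.disjoint_left]
    rintro x ⟨hx, _⟩ ⟨hx', _⟩
    exact Set.disjoint_left.1 hFQ hx hx'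
  have cnt0 : ∀ (U : Subgroup G) (y : G), {z : G × Bool | side z = false ∧ rp U z.1 = y}.ncard =
      {e | e ∈ F ∧ rp U e = y}.ncard + 2 * {e | e ∈ (F ∪ Q)ᶜ ∧ rp U e = y}.ncard := by
    intro U y
    rw [set0, count_half]
    rw [Set.disjoint_left]
    rintro x ⟨hx, _⟩ ⟨hx', _⟩
    exact Set.disjoint_left.1 hP hx hx'
  have fib1 : ∀ y, {z | κ z = (true, y)} = {z : G × Bool | side z = true ∧ rp H z.1 = y} := by
    intro y
    ext z
    simp only [Set.mem_ofPred_eq]
    by_cases h : side z = true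
    · rw [κ1 z h]; simp [h]
    · have h' : side z = false := by simpa using h
      rw [κ0 z h']; simp [h']
  have fib0 : ∀ y, {z | κ z = (false, y)} = {z : G × Bool | side z = false ∧ rp K z.1 = y} := by
    intro y
    ext z
    simp only [Set.mem_ofPred_eq]
    by_cases h : side z = true
    · rw [κ1 z h]; simp [h]
    · have h' : side z = false := by simpa using h
      rw [κ0 z h']; simp [h']
  have rpmono : ∀ {U V : Subgroup G}, U ≤ V → ∀ {a b : G}, rp U a = rp U b → rp V a = rp V b := by
    intro U V hUV a b h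
    rw [rp_eq_iff] at h ⊢
    exact hUV h
  obtain ⟨σ, hσ1, hσ2⟩ := half_edges κ cls (by
      rintro ⟨β, y⟩
      cases β
      · rw [fib0, cnt0]
        exact (eK y).add (even_two_mul _)
      · rw [fib1, cnt1]
        exact (eH y).add (even_two_mul _))
    (by
      intro z0
      by_cases h : side z0 = true
      · have e1 : {z | κ z = κ z0 ∧ cls z = cls z0} =
            {z : G × Bool | side z = true ∧ rp L z.1 = rp L z0.1} := by
          ext z
          simp only [Set.mem_ofPred_eq]
          rw [κ1 z0 h, c1 z0 h]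
          by_cases hz : side z = true
          · rw [κ1 z hz, c1 z hz]
            simp only [Prod.mk.injEq, true_and, hz]
            exact ⟨fun h2 => h2.2, fun h2 => ⟨rpmono hL h2, h2⟩⟩
          · have hz' : side z = false := by simpa using hz
            rw [κ0 z hz']; simp [hz']
        rw [e1, κ1 z0 h, fib1, cnt1, cnt1]
        exact oH z0.1
      · have h' : side z0 = false := by simpa using h
        have e1 : {z | κ z = κ z0 ∧ cls z = cls z0} =
            {z : G × Bool | side z = false ∧ rp M z.1 = rp M z0.1} := by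
          ext z
          simp only [Set.mem_ofPred_eq]
          rw [κ0 z0 h', c0 z0 h']
          by_cases hz : side z = true
          · rw [κ1 z hz]; simp [hz]
          · have hz' : side z = false := by simpa using hz
            rw [κ0 z hz', c0 z hz']
            simp only [Prod.mk.injEq, true_and, hz']
            exact ⟨fun h2 => h2.2, fun h2 => ⟨rpmono hM h2, h2⟩⟩
        rw [e1, κ0 z0 h', fib0, cnt0, cnt0]
        exact oK z0.1)
    (by
      intro S hS hcl
      have clH : ∀ e f : G, (e ∈ F ∨ e ∈ Q) → (f ∈ F ∨ f ∈ Q) → rp H e = rp H f → e ∈ S → f ∈ S := by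
        intro e f he hf hef heS
        have s1 : side (e, true) = true := by rw [side1]; tauto
        have s2 : side (f, true) = true := by rw [side1]; tauto
        exact hcl (e, true) (f, true) (by rw [κ1 _ s1, κ1 _ s2, hef]) heS
      have clK : ∀ e f : G, e ∉ Q → f ∉ Q → rp K e = rp K f → e ∈ S → f ∈ S := by
        intro e f he hf hef heS
        have s1 : side (e, false) = false := by
          rw [side0]
          by_cases h : e ∈ F
          · exact Or.inl ⟨h, rfl⟩
          · right
            rintro (h2 | h2)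
            · exact h h2
            · exact he h2
        have s2 : side (f, false) = false := by
          rw [side0]
          by_cases h : f ∈ F
          · exact Or.inl ⟨h, rfl⟩
          · right
            rintro (h2 | h2)
            · exact h h2
            · exact hf h2
        exact hcl (e, false) (f, false) (by rw [κ0 _ s1, κ0 _ s2, hef]) heS
      have hnq : ∀ e ∈ F, e ∉ Q := fun e he he' => Set.disjoint_left.1 hFQ he he'
      have hFS := hconn S (by
        obtain ⟨s, hs⟩ := hS
        by_cases h1 : s ∈ F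
        · exact ⟨s, h1, hs⟩
        by_cases h2 : s ∈ Q
        · obtain ⟨e, he, h3⟩ := m1 s h2
          exact ⟨e, he, clH s e (Or.inr h2) (Or.inl he) h3.symm hs⟩
        · obtain ⟨e, he, h3⟩ := m2 s h1 h2
          exact ⟨e, he, clK s e h2 (hnq e he) h3.symm hs⟩)
        (fun e f he hf => clH e f (Or.inl he) (Or.inl hf))
        (fun e f he hf => clK e f (hnq e he) (hnq f hf))
      ext s
      simp only [Set.mem_univ, iff_true]
      by_cases h1 : s ∈ F
      · exact hFS s h1
      by_cases h2 : s ∈ Q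
      · obtain ⟨e, he, h3⟩ := m1 s h2
        exact clH e s (Or.inl he) (Or.inr h2) h3 (hFS e he)
      · obtain ⟨e, he, h3⟩ := m2 s h1 h2
        exact clK e s (hnq e he) h2 h3 (hFS e he))
  refine ⟨σ, hσ1, fun g => ?_⟩
  obtain ⟨β, β', h1, h2⟩ := hσ2 g
  by_cases h : side (g, β) = true
  · left
    rw [κ1 _ h] at h1
    rw [c1 _ h] at h2
    by_cases h' : side (σ g, β') = true
    · rw [κ1 _ h'] at h1
      rw [c1 _ h'] at h2
      have h3 : rp H g = rp H (σ g) := (Prod.ext_iff.1 h1).2
      refine ⟨(rp_eq_iff H).1 h3, fun h4 => ?_⟩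
      apply h2
      have h5 : rp L g = rp L (σ g) := (rp_eq_iff L).2 h4
      simp only [h5]
    · have h'' : side (σ g, β') = false := by simpa using h'
      rw [κ0 _ h''] at h1
      exact absurd (Prod.ext_iff.1 h1).1 (by simp)
  · right
    have hh : side (g, β) = false := by simpa using h
    rw [κ0 _ hh] at h1
    rw [c0 _ hh] at h2
    by_cases h' : side (σ g, β') = true
    · rw [κ1 _ h'] at h1
      exact absurd (Prod.ext_iff.1 h1).1 (by simp)
    · have h'' : side (σ g, β') = false := by simpa using h'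
      rw [κ0 _ h''] at h1
      rw [c0 _ h''] at h2
      have h3 : rp K g = rp K (σ g) := (Prod.ext_iff.1 h1).2
      refine ⟨(rp_eq_iff K).1 h3, fun h4 => ?_⟩
      apply h2
      have h5 : rp M g = rp M (σ g) := (rp_eq_iff M).2 h4
      simp only [h5]

end Pool.Agent.H647.Kot
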