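import Mathlib
import Pool.Graph.R_pool_sql_team_seeded_b677cdb8.E8helper62.HL.Factor

/-!
Perfect matchings of a chain of cells (left cosets of a subgroup `P` with `P ∖ {1} ⊆ A`) after the
removal of at most one element of every cell.
-/

set_option autoImplicit false
set_option linter.unusedSectionVars false

namespace Pool.Agent.H647.Kot

/-- `S` has a perfect matching along `A`-edges -/
def PMon {G : Type*} [Group G] (A S : Set G) : Prop :=
  ∃ f : G → G, ∀ x ∈ S, f x ∈ S ∧ f x ≠ x ∧ f (f x) = x ∧ x⁻¹ * f x ∈ A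

section
variable {G : Type*} [Group G] {A : Set G}

lemma PMon.empty : PMon A ∅ := ⟨id, fun _ h => h.elim⟩

lemma PMon.union {S T : Set G} (hS : PMon A S) (hT : PMon A T) (hd : Disjoint S T) :
    PMon A (S ∪ T) := by
  classical
  obtain ⟨f, hf⟩ := hS
  obtain ⟨g, hg⟩ := hT
  rw [Set.disjoint_left] at hd
  refine ⟨fun x => if x ∈ S then f x else g x, ?_⟩
  rintro x (hx | hx)
  · obtain ⟨h1, h2, h3, h4⟩ := hf x hx
    simp only [hx, if_true, h1]
    exact ⟨Or.inl h1, h2, h3, h4⟩
  · obtain ⟨h1, h2, h3, h4⟩ := hg x hx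
    have hx' : x ∉ S := fun h => hd h hx
    have h1' : g x ∉ S := fun h => hd h h1
    simp only [hx', if_false, h1']
    exact ⟨Or.inr h1, h2, h3, h4⟩

lemma PMon.pair (hA : ∀ x ∈ A, x⁻¹ ∈ A) {u v : G} (huv : u ≠ v) (h : u⁻¹ * v ∈ A) :
    PMon A {u, v} := by
  classical
  refine ⟨fun x => if x = u then v else u, ?_⟩
  rintro x (rfl | hx)
  · simp [huv.symm, h]
  · rw [Set.mem_singleton_iff] at hx
    subst hx
    have := hA _ h
    rw [mul_inv_rev, inv_inv] at this
    simp [huv.symm, huv, this]

lemma PMon.coset [Finite G] {P : Subgroup G} (hP : ∀ p ∈ P, p ≠ 1 → p ∈ A) {S : Set G}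
    (hS : ∀ x ∈ S, ∀ y ∈ S, x⁻¹ * y ∈ P) (he : Even S.ncard) : PMon A S := by
  classical
  have : Fintype G := Fintype.ofFinite G
  obtain ⟨n, hn⟩ := he
  obtain ⟨f, hf⟩ := Pool.Agent.E8helper62.HL.even_inv n S.toFinset (by
    rw [← Set.ncard_eq_toFinset_card']
    omega)
  refine ⟨f, ?_⟩
  intro x hx
  obtain ⟨h1, h2, h3⟩ := hf x (by simpa using hx)
  have h1' : f x ∈ S := by simpa using h1
  refine ⟨h1', h2, h3, hP _ (hS x hx _ h1') ?_⟩
  intro h
  exact h2 (inv_mul_eq_one.1 h).symm

variable [Finite G] {P : Subgroup G}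

/-- the cell `r P` -/
def cellOf (P : Subgroup G) (r : G) : Set G := {y | r⁻¹ * y ∈ P}

lemma ncard_cellOf (r : G) : (cellOf P r).ncard = Nat.card P := by
  have h1 : cellOf P r = (fun p => r * p) '' (P : Set G) := by
    ext y
    constructor
    · intro h
      exact ⟨r⁻¹ * y, h, by simp⟩
    · rintro ⟨p, hp, rfl⟩
      show r⁻¹ * (r * p) ∈ P
      simpa using hp
  rw [h1, Set.ncard_image_of_injective _ (mul_right_injective r)]
  rfl

lemma cellOf_rel {r x y : G} (hx : x ∈ cellOf P r) (hy : y ∈ cellOf P r) : x⁻¹ * y ∈ P := by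
  have h1 := P.mul_mem (P.inv_mem hx) hy
  have h2 : (r⁻¹ * x)⁻¹ * (r⁻¹ * y) = x⁻¹ * y := by group
  rwa [h2] at h1

/-- the cell without an even number of points -/
lemma PMon.cell (hP : ∀ p ∈ P, p ≠ 1 → p ∈ A) (hPe : Even (Nat.card P)) (r : G) :
    PMon A (cellOf P r) :=
  PMon.coset hP (fun _ hx _ hy => cellOf_rel hx hy) (by rw [ncard_cellOf]; exact hPe)

lemma PMon.cell_two (hP : ∀ p ∈ P, p ≠ 1 → p ∈ A) (hPe : Even (Nat.card P)) {r a b : G}
    (ha : a ∈ cellOf P r) (hb : b ∈ cellOf P r) (hab : a ≠ b) :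
    PMon A (cellOf P r \ {a, b}) := by
  refine PMon.coset hP (fun _ hx _ hy => cellOf_rel hx.1 hy.1) ?_
  rw [Set.ncard_sdiff (by
    rintro x (rfl | rfl)
    · exact ha
    · exact hb) (Set.toFinite _), ncard_cellOf, Set.ncard_pair hab]
  obtain ⟨k, hk⟩ := hPe
  exact ⟨k - 1, by omega⟩

lemma PMon.translate {S : Set G} (g : G) (h : PMon A S) : PMon A {y | g⁻¹ * y ∈ S} := by
  obtain ⟨f, hf⟩ := h
  refine ⟨fun y => g * f (g⁻¹ * y), ?_⟩
  intro y hy
  obtain ⟨h1, h2, h3, h4⟩ := hf _ hy
  refine ⟨by simpa using h1, ?_, by simp [h3], ?_⟩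
  · intro h
    apply h2
    rw [eq_inv_mul_iff_mul_eq]
    exact h
  · have e : y⁻¹ * (g * f (g⁻¹ * y)) = (g⁻¹ * y)⁻¹ * f (g⁻¹ * y) := by group
    rw [e]
    exact h4

/-- cells from the subgroup itself -/
lemma cells_of_subgroup (hP3 : 3 ≤ Nat.card P) (hA : ∀ x ∈ A, x⁻¹ ∈ A)
    (h2 : ∀ a ∈ P, ∀ b ∈ P, a ≠ b → PMon A ((P : Set G) \ {a, b})) :
    (∀ r : G, PMon A (cellOf P r)) ∧
    (∀ r a b : G, a ∈ cellOf P r → b ∈ cellOf P r → a ≠ b → PMon A (cellOf P r \ {a, b})) := by
  have hP0 : PMon A (P : Set G) := by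
    have hne : ∃ a ∈ P, ∃ b ∈ P, a ≠ b := by
      have h1 : 1 < Nat.card P := by omega
      rw [Finite.one_lt_card_iff_nontrivial] at h1
      obtain ⟨a, b, hab⟩ := h1
      exact ⟨a, a.2, b, b.2, fun h => hab (Subtype.ext h)⟩
    obtain ⟨a, ha, b, hb, hab⟩ := hne
    obtain ⟨f, hf⟩ := h2 a ha b hb hab
    have hex : ((P : Set G) \ {a, b}).Nonempty := by
      rw [Set.nonempty_iff_ne_empty]
      intro h0
      have h1 : (P : Set G) ⊆ {a, b} := Set.sdiff_eq_empty.1 h0
      have h3 := Set.ncard_le_ncard h1 (Set.toFinite _)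
      have h4 : (P : Set G).ncard = Nat.card P := rfl
      rw [h4, Set.ncard_pair hab] at h3
      omega
    obtain ⟨c, hc⟩ := hex
    obtain ⟨h5, h6, _, h7⟩ := hf c hc
    have h8 := (h2 c hc.1 (f c) h5.1 h6.symm).union (PMon.pair hA h6.symm h7)
      Set.disjoint_sdiff_left
    have h9 : (P : Set G) \ {c, f c} ∪ {c, f c} = P := by
      rw [Set.sdiff_union_self, Set.union_eq_left]
      rintro y (rfl | hy)
      · exact hc.1
      · rw [Set.mem_singleton_iff] at hy
        subst hy
        exact h5.1
    rwa [h9] at h8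
  refine ⟨fun r => hP0.translate r, ?_⟩
  intro r a b ha hb hab
  have h1 := (h2 (r⁻¹ * a) ha (r⁻¹ * b) hb (fun h => hab (mul_left_cancel h))).translate r
  have h3 : {y | r⁻¹ * y ∈ (P : Set G) \ {r⁻¹ * a, r⁻¹ * b}} = cellOf P r \ {a, b} := by
    ext y
    simp only [Set.mem_ofPred_eq, Set.mem_sdiff, Set.mem_insert_iff, Set.mem_singleton_iff,
      mul_right_inj, cellOf]
    exact Iff.rfl
  rwa [h3] at h1

lemma exists_exit (hP3 : 3 ≤ Nat.card P) (r a b : G) : ∃ u ∈ cellOf P r, u ≠ a ∧ u ≠ b := by
  by_contra hno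
  push Not at hno
  have h1 : cellOf P r ⊆ {a, b} := by
    intro u hu
    by_cases h : u = a
    · exact Or.inl h
    · exact Or.inr (hno u hu h)
  have h2 := Set.ncard_le_ncard h1 (Set.toFinite _)
  rw [ncard_cellOf] at h2
  have h3 := Set.ncard_insert_le a {b}
  rw [Set.ncard_singleton] at h3
  omega

/-- the first `i` cells -/
def firstCells (P : Subgroup G) (r : ℕ → G) (i : ℕ) : Set G := {x | ∃ j < i, (r j)⁻¹ * x ∈ P}

lemma firstCells_succ (r : ℕ → G) (i : ℕ) :
    firstCells P r (i + 1) = firstCells P r i ∪ cellOf P (r i) := by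
  ext x
  constructor
  · rintro ⟨j, hj, h⟩
    rcases Nat.lt_succ_iff_lt_or_eq.1 hj with hj | rfl
    · exact Or.inl ⟨j, hj, h⟩
    · exact Or.inr h
  · rintro (⟨j, hj, h⟩ | h)
    · exact ⟨j, by omega, h⟩
    · exact ⟨i, by omega, h⟩

theorem complete_cells (hA : ∀ x ∈ A, x⁻¹ ∈ A) (hc0 : ∀ r : G, PMon A (cellOf P r))
    (hc2 : ∀ r a b : G, a ∈ cellOf P r → b ∈ cellOf P r → a ≠ b → PMon A (cellOf P r \ {a, b}))
    (hP3 : 3 ≤ Nat.card P) (t : ℕ) (r x : ℕ → G)
    (hx : ∀ i, i + 1 < t → x i ∈ A ∧ ∀ y ∈ cellOf P (r i), y * x i ∈ cellOf P (r (i + 1)))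
    (hdis : ∀ i < t, ∀ j < t, (r i)⁻¹ * r j ∈ P → i = j) (W : Set G)
    (hW : ∀ a ∈ W, ∀ b ∈ W, a⁻¹ * b ∈ P → a = b)
    (hWe : Even (W ∩ firstCells P r t).ncard) : PMon A (firstCells P r t \ W) := by
  classical
  -- disjointness
  have hd : ∀ i < t, Disjoint (firstCells P r i) (cellOf P (r i)) := by
    intro i hi
    rw [Set.disjoint_left]
    rintro y ⟨j, hj, h1⟩ h2
    have h3 : (r j)⁻¹ * r i ∈ P := by
      have := P.mul_mem h1 (P.inv_mem h2)
      have e : (r j)⁻¹ * y * ((r i)⁻¹ * y)⁻¹ = (r j)⁻¹ * r i := by group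
      rwa [e] at this
    have := hdis j (by omega) i hi h3
    omega
  have key : ∀ i ≤ t, (Even (W ∩ firstCells P r i).ncard → PMon A (firstCells P r i \ W)) ∧
      (Odd (W ∩ firstCells P r i).ncard → ∀ forb : G, i < t → ∃ u ∈ firstCells P r i, u ∉ W ∧
        (∃ s ∈ A, u * s ∈ cellOf P (r i) ∧ u * s ≠ forb) ∧
          PMon A ((firstCells P r i \ W) \ {u})) := by
    intro i
    induction i with
    | zero =>
      intro _
      have h0 : firstCells P r 0 = ∅ := by
        ext y
        simp [firstCells]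
      rw [h0]
      refine ⟨fun _ => by rw [Set.empty_sdiff]; exact PMon.empty, fun h => ?_⟩
      simp at h
    | succ i ih =>
      intro hit
      obtain ⟨ihe, iho⟩ := ih (by omega)
      have hdi := hd i (by omega)
      set U := firstCells P r i with hU
      set D := cellOf P (r i) with hD
      rw [firstCells_succ]
      rw [← hU, ← hD]
      have hdl := Set.disjoint_left.1 hdi
      have hcard : (W ∩ (U ∪ D)).ncard = (W ∩ U).ncard + (W ∩ D).ncard := by
        rw [Set.inter_union_distrib_left]
        exact Set.ncard_union_eq (hdi.mono Set.inter_subset_right Set.inter_subset_right)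
          (Set.toFinite _) (Set.toFinite _)
      -- exit from the cell
      have hexit : ∀ a forb : G, i + 1 < t → ∃ u ∈ D, u ≠ a ∧
          ∃ s ∈ A, u * s ∈ cellOf P (r (i + 1)) ∧ u * s ≠ forb := by
        intro a forb h
        obtain ⟨u, hu, hua, hub⟩ := exists_exit hP3 (r i) a (forb * (x i)⁻¹)
        refine ⟨u, hu, hua, x i, (hx i h).1, (hx i h).2 u hu, ?_⟩
        intro h'
        exact hub (eq_mul_inv_of_mul_eq h')
      by_cases hWD : (W ∩ D).Nonempty
      · obtain ⟨w, hwW, hwD⟩ := hWD
        have hWD' : W ∩ D = {w} := by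
          ext y
          constructor
          · rintro ⟨h1, h2⟩
            exact hW y h1 w hwW (cellOf_rel h2 hwD)
          · rintro rfl
            exact ⟨hwW, hwD⟩
        rw [hcard, hWD', Set.ncard_singleton]
        have hDW : ∀ y ∈ D, y ∉ W ↔ y ≠ w := by
          intro y hy
          constructor
          · rintro h rfl
            exact h hwW
          · intro h h'
            have : y ∈ W ∩ D := ⟨h', hy⟩
            rw [hWD'] at this
            exact h this
        constructor
        · intro he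
          have ho : Odd (W ∩ U).ncard := by
            rw [← Nat.not_even_iff_odd]
            intro h
            have := (Nat.even_add.1 he).1 h
            simp at this
          obtain ⟨u, hu, huW, ⟨s, hs, hs1, hs2⟩, hM⟩ := iho ho w (by omega)
          have hne : u ≠ u * s := by
            intro h
            exact hdl hu (h ▸ hs1)
          have h1 : (U ∪ D) \ W = ((U \ W) \ {u} ∪ {u, u * s}) ∪ D \ {w, u * s} := by
            ext y
            simp only [Set.mem_union, Set.mem_sdiff, Set.mem_singleton_iff, Set.mem_insert_iff]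
            constructor
            · rintro ⟨h | h, h'⟩
              · by_cases hy : y = u
                · exact Or.inl (Or.inr (Or.inl hy))
                · exact Or.inl (Or.inl ⟨⟨h, h'⟩, hy⟩)
              · by_cases hy : y = u * s
                · exact Or.inl (Or.inr (Or.inr hy))
                · right
                  refine ⟨h, ?_⟩
                  rintro (h2 | h2)
                  · exact (hDW y h).1 h' h2
                  · exact hy h2
            · rintro ((⟨⟨h2, h3⟩, _⟩ | (rfl | rfl)) | ⟨h2, h3⟩)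
              · exact ⟨Or.inl h2, h3⟩
              · exact ⟨Or.inl hu, huW⟩
              · exact ⟨Or.inr hs1, (hDW _ hs1).2 hs2⟩
              · refine ⟨Or.inr h2, (hDW y h2).2 fun h4 => h3 (Or.inl h4)⟩
          rw [h1]
          refine (hM.union (PMon.pair hA hne (by simpa using hs)) ?_).union
            (hc2 _ _ _ hwD hs1 hs2.symm) ?_
          · rw [Set.disjoint_left]
            rintro y ⟨⟨h2, h3⟩, h4⟩ (rfl | h5)
            · exact h4 rfl
            · rw [Set.mem_singleton_iff] at h5
              subst h5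
              exact hdl h2 hs1
          · rw [Set.disjoint_left]
            rintro y (⟨⟨h2, _⟩, _⟩ | (rfl | h5)) ⟨h6, h7⟩
            · exact hdl h2 h6
            · exact hdl hu h6
            · exact h7 (Or.inr h5)
        · intro ho forb hlt
          have he : Even (W ∩ U).ncard := by
            by_contra h
            rw [Nat.not_even_iff_odd] at h
            rw [Nat.odd_add] at ho
            have := ho.1 h
            simp at this
          obtain ⟨u, hu, huw, s, hs, hs1, hs2⟩ := hexit w forb hlt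
          refine ⟨u, Or.inr hu, (hDW u hu).2 huw, ⟨s, hs, hs1, hs2⟩, ?_⟩
          have h1 : ((U ∪ D) \ W) \ {u} = (U \ W) ∪ D \ {w, u} := by
            ext y
            simp only [Set.mem_union, Set.mem_sdiff, Set.mem_singleton_iff, Set.mem_insert_iff]
            constructor
            · rintro ⟨⟨h | h, h'⟩, h3⟩
              · exact Or.inl ⟨h, h'⟩
              · right
                refine ⟨h, ?_⟩
                rintro (h4 | h4)
                · exact (hDW y h).1 h' h4
                · exact h3 h4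
            · rintro (⟨h2, h3⟩ | ⟨h2, h3⟩)
              · refine ⟨⟨Or.inl h2, h3⟩, ?_⟩
                rintro rfl
                exact hdl h2 hu
              · exact ⟨⟨Or.inr h2, (hDW y h2).2 fun h4 => h3 (Or.inl h4)⟩,
                  fun h4 => h3 (Or.inr h4)⟩
          rw [h1]
          refine (ihe he).union (hc2 _ _ _ hwD hu huw.symm) ?_
          exact hdi.mono Set.sdiff_subset Set.sdiff_subset
      · rw [Set.not_nonempty_iff_eq_empty] at hWD
        rw [hcard, hWD, Set.ncard_empty, add_zero]
        have hDW : ∀ y ∈ D, y ∉ W := by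
          intro y hy h
          have : y ∈ W ∩ D := ⟨h, hy⟩
          rw [hWD] at this
          exact this
        constructor
        · intro he
          have h1 : (U ∪ D) \ W = (U \ W) ∪ D := by
            ext y
            simp only [Set.mem_union, Set.mem_sdiff]
            constructor
            · rintro ⟨h | h, h'⟩
              · exact Or.inl ⟨h, h'⟩
              · exact Or.inr h
            · rintro (⟨h2, h3⟩ | h2)
              · exact ⟨Or.inl h2, h3⟩
              · exact ⟨Or.inr h2, hDW y h2⟩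
          rw [h1]
          exact (ihe he).union (hc0 (r i)) (hdi.mono_left Set.sdiff_subset)
        · intro ho forb hlt
          obtain ⟨u, hu, huW, ⟨s, hs, hs1, hs2⟩, hM⟩ := iho ho 1 (by omega)
          have hne : u ≠ u * s := by
            intro h
            exact hdl hu (h ▸ hs1)
          obtain ⟨u', hu', hu's, s', hs', hs1', hs2'⟩ := hexit (u * s) forb hlt
          refine ⟨u', Or.inr hu', hDW u' hu', ⟨s', hs', hs1', hs2'⟩, ?_⟩
          have h1 : ((U ∪ D) \ W) \ {u'} =
              ((U \ W) \ {u} ∪ {u, u * s}) ∪ D \ {u * s, u'} := by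
            ext y
            simp only [Set.mem_union, Set.mem_sdiff, Set.mem_singleton_iff, Set.mem_insert_iff]
            constructor
            · rintro ⟨⟨h | h, h'⟩, h3⟩
              · by_cases hy : y = u
                · exact Or.inl (Or.inr (Or.inl hy))
                · exact Or.inl (Or.inl ⟨⟨h, h'⟩, hy⟩)
              · by_cases hy : y = u * s
                · exact Or.inl (Or.inr (Or.inr hy))
                · right
                  refine ⟨h, ?_⟩
                  rintro (h2 | h2)
                  · exact hy h2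
                  · exact h3 h2
            · rintro ((⟨⟨h2, h3⟩, _⟩ | (rfl | rfl)) | ⟨h2, h3⟩)
              · refine ⟨⟨Or.inl h2, h3⟩, ?_⟩
                rintro rfl
                exact hdl h2 hu'
              · refine ⟨⟨Or.inl hu, huW⟩, ?_⟩
                rintro rfl
                exact hdl hu hu'
              · exact ⟨⟨Or.inr hs1, hDW _ hs1⟩, hu's.symm⟩
              · exact ⟨⟨Or.inr h2, hDW y h2⟩, fun h4 => h3 (Or.inr h4)⟩
          rw [h1]
          refine (hM.union (PMon.pair hA hne (by simpa using hs)) ?_).union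
            (hc2 _ _ _ hs1 hu' hu's.symm) ?_
          · rw [Set.disjoint_left]
            rintro y ⟨⟨h2, h3⟩, h4⟩ (rfl | h5)
            · exact h4 rfl
            · rw [Set.mem_singleton_iff] at h5
              subst h5
              exact hdl h2 hs1
          · rw [Set.disjoint_left]
            rintro y (⟨⟨h2, _⟩, _⟩ | (rfl | h5)) ⟨h6, h7⟩
            · exact hdl h2 h6
            · exact hdl hu h6
            · exact h7 (Or.inl h5)
  exact (key t le_rfl).1 hWe

end

end Pool.Agent.H647.Kot
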