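import Pool.Graph.R_pool_sql_team_seeded_b677cdb8.E8helper62.HL.Match

/-!
A connected even matching whose ends are in different left cosets of a small subgroup
(the construction is that of the library file `HL.Sigma`, with the cells recorded).
-/

set_option autoImplicit false
set_option linter.unusedSectionVars false

namespace Pool.Agent.H647.Kot

open Finset Pool.Agent.E8helper62.HL

attribute [local instance] Classical.propDecidable

variable {G : Type*} [Group G] [Fintype G] (H : Subgroup G) (A : Set G) (c : G → ℕ)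

theorem exists_io_cells (hA : ∀ x ∈ A, x⁻¹ ∈ A) (m : ℕ)
    (hm : ∀ v : G ⧸ H, ∀ a : ℕ, (univ.filter fun g : G => (g : G ⧸ H) = v ∧ c g = a).card ≤ m)
    (hmH : 18 * m ≤ Nat.card H) (hgen : ∀ M : Subgroup G, H ≤ M → A ⊆ M → M = ⊤) :
    ∃ io : G → G, (∀ x, io (io x) = x) ∧
      (∀ x, io x ≠ x → ((io x : G) : G ⧸ H) ≠ (x : G ⧸ H)) ∧
      (∀ x, io x ≠ x → x⁻¹ * io x ∈ A) ∧
      (∀ v : G ⧸ H, Even (univ.filter fun x : G => (x : G ⧸ H) = v ∧ io x ≠ x).card) ∧
      (∀ x y, io x ≠ x → io y ≠ y → (x : G ⧸ H) = y → c x = c y → x = y) ∧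
      (∀ Y : Set G, (∀ x ∈ Y, ∀ h ∈ H, x * h ∈ Y) → (∀ x ∈ Y, io x ∈ Y) → Y.Nonempty →
        Y = Set.univ) := by
  obtain ⟨T, hT1, hT2, hT3, hT4⟩ := exists_edges H A c m hm hmH hgen
  -- an element is an end of at most one edge
  have hc1 : ∀ e : EE A, cell H c (e1 A e) ∈ ee H A c e := fun e => Finset.mem_insert_self _ _
  have hc2 : ∀ e : EE A, cell H c (e2 A e) ∈ ee H A c e := fun e =>
    Finset.mem_insert_of_mem (Finset.mem_singleton_self _)
  have huniq : ∀ e ∈ T, ∀ e' ∈ T, ∀ z, z ∈ ee H A c e → z ∈ ee H A c e' → e = e' := by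
    intro e he e' he' z hz hz'
    by_contra h
    exact Finset.disjoint_left.1 (hT2 e he e' he' h) hz hz'
  have h11 : ∀ e ∈ T, ∀ e' ∈ T, cell H c (e1 A e) = cell H c (e1 A e') → e = e' :=
    fun e he e' he' h => huniq e he e' he' _ (hc1 e) (h ▸ hc1 e')
  have h22 : ∀ e ∈ T, ∀ e' ∈ T, cell H c (e2 A e) = cell H c (e2 A e') → e = e' :=
    fun e he e' he' h => huniq e he e' he' _ (hc2 e) (h ▸ hc2 e')
  have h12 : ∀ e ∈ T, ∀ e' ∈ T, cell H c (e1 A e) ≠ cell H c (e2 A e') := by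
    intro e he e' he' h
    have := huniq e he e' he' _ (hc1 e) (h ▸ hc2 e')
    subst this
    exact hT1 e he (congrArg Prod.fst h)
  let M : G → G → Prop := fun x y => ∃ e ∈ T, (x = e1 A e ∧ y = e2 A e) ∨ (x = e2 A e ∧ y = e1 A e)
  have hMs : ∀ x y, M x y → M y x := by
    rintro x y ⟨e, he, h | h⟩
    · exact ⟨e, he, Or.inr ⟨h.2, h.1⟩⟩
    · exact ⟨e, he, Or.inl ⟨h.2, h.1⟩⟩
  have hMu : ∀ x y y', M x y → M x y' → y = y' := by
    rintro x y y' ⟨e, he, h⟩ ⟨e', he', h'⟩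
    rcases h with ⟨rfl, rfl⟩ | ⟨rfl, rfl⟩ <;> rcases h' with ⟨h1, rfl⟩ | ⟨h1, rfl⟩
    · rw [h11 e he e' he' (by rw [h1])]
    · exact absurd (by rw [h1]) (h12 e he e' he')
    · exact absurd (by rw [h1]) (h12 e' he' e he)
    · rw [h22 e he e' he' (by rw [h1])]
  have hMc : ∀ x y, M x y → ((y : G) : G ⧸ H) ≠ (x : G ⧸ H) := by
    rintro x y ⟨e, he, ⟨rfl, rfl⟩ | ⟨rfl, rfl⟩⟩
    · exact (hT1 e he).symm
    · exact hT1 e he
  have hMA : ∀ x y, M x y → x⁻¹ * y ∈ A := by
    rintro x y ⟨e, he, ⟨rfl, rfl⟩ | ⟨rfl, rfl⟩⟩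
    · have : (e1 A e)⁻¹ * e2 A e = e.2.2 := by unfold e1 e2; group
      rw [this]; exact e.2.2.2
    · have : (e2 A e)⁻¹ * e1 A e = ((e.2.2 : G))⁻¹ := by unfold e1 e2; group
      rw [this]; exact hA _ e.2.2.2
  let io : G → G := fun x => if h : ∃ y, M x y then h.choose else x
  have hio : ∀ x y, M x y → io x = y := by
    intro x y h
    have hex : ∃ y, M x y := ⟨y, h⟩
    simp only [io, dif_pos hex]
    exact hMu x _ _ hex.choose_spec h
  have hio0 : ∀ x, (¬ ∃ y, M x y) → io x = x := by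
    intro x h
    simp only [io, dif_neg h]
  have hiff : ∀ x, io x ≠ x ↔ ∃ y, M x y := by
    intro x
    constructor
    · intro h
      by_contra h'
      exact h (hio0 x h')
    · rintro ⟨y, hy⟩ h
      rw [hio x y hy] at h
      exact hMc x y hy (by rw [h])
  have hspec : ∀ x, io x ≠ x → M x (io x) := by
    intro x hx
    obtain ⟨y, hy⟩ := (hiff x).1 hx
    rwa [hio x y hy]
  -- the matched elements of a coset
  have hcount : ∀ v : G ⧸ H, (univ.filter fun x : G => (x : G ⧸ H) = v ∧ io x ≠ x).card =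
      (T.filter fun e => ((e1 A e : G) : G ⧸ H) = v).card +
      (T.filter fun e => ((e2 A e : G) : G ⧸ H) = v).card := by
    intro v
    have e : (univ.filter fun x : G => (x : G ⧸ H) = v ∧ io x ≠ x) =
        (T.filter fun e => ((e1 A e : G) : G ⧸ H) = v).image (e1 A) ∪
        (T.filter fun e => ((e2 A e : G) : G ⧸ H) = v).image (e2 A) := by
      ext x
      simp only [Finset.mem_filter, Finset.mem_univ, true_and, Finset.mem_union, Finset.mem_image,
        hiff]
      constructor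
      · rintro ⟨hv, y, e, he, ⟨rfl, rfl⟩ | ⟨rfl, rfl⟩⟩
        · exact Or.inl ⟨e, ⟨he, hv⟩, rfl⟩
        · exact Or.inr ⟨e, ⟨he, hv⟩, rfl⟩
      · rintro (⟨e, ⟨he, hv⟩, rfl⟩ | ⟨e, ⟨he, hv⟩, rfl⟩)
        · exact ⟨hv, _, e, he, Or.inl ⟨rfl, rfl⟩⟩
        · exact ⟨hv, _, e, he, Or.inr ⟨rfl, rfl⟩⟩
    rw [e, Finset.card_union_of_disjoint, Finset.card_image_of_injOn, Finset.card_image_of_injOn]
    · intro a ha b hb h
      rw [Finset.mem_coe, Finset.mem_filter] at ha hb
      exact h22 a ha.1 b hb.1 (by rw [h])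
    · intro a ha b hb h
      rw [Finset.mem_coe, Finset.mem_filter] at ha hb
      exact h11 a ha.1 b hb.1 (by rw [h])
    · rw [Finset.disjoint_left]
      intro x hx hx'
      obtain ⟨a, ha, rfl⟩ := Finset.mem_image.1 hx
      obtain ⟨b, hb, h⟩ := Finset.mem_image.1 hx'
      exact h12 a (Finset.mem_filter.1 ha).1 b (Finset.mem_filter.1 hb).1 (by rw [h])
  refine ⟨io, ?_, ?_, ?_, ?_, ?_, ?_⟩
  · intro x
    by_cases hx : ∃ y, M x y
    · obtain ⟨y, hy⟩ := hx
      rw [hio x y hy, hio y x (hMs x y hy)]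
    · rw [hio0 x hx, hio0 x hx]
  · intro x hx
    exact hMc _ _ (hspec x hx)
  · intro x hx
    exact hMA _ _ (hspec x hx)
  · intro v
    rw [hcount, ← ZMod.natCast_eq_zero_iff_even]
    have h := congrFun hT3 v
    rw [Finset.sum_apply] at h
    rw [Finset.card_filter, Finset.card_filter, ← Finset.sum_add_distrib]
    push_cast
    refine Eq.trans (Finset.sum_congr rfl fun e _ => ?_) h
    unfold dl de e1 e2
    simp only [Pi.add_apply, Pi.single_apply, eq_comm]
  · intro x y hx hy hxv hxy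
    rw [hiff] at hx hy
    obtain ⟨x', e, he, hxe⟩ := hx
    obtain ⟨y', e', he', hye⟩ := hy
    have hcell : cell H c x = cell H c y := Prod.ext hxv hxy
    rcases hxe with ⟨rfl, _⟩ | ⟨rfl, _⟩ <;> rcases hye with ⟨rfl, _⟩ | ⟨rfl, _⟩
    · rw [h11 e he e' he' hcell]
    · exact absurd hcell (h12 e he e' he')
    · exact absurd hcell.symm (h12 e' he' e he)
    · rw [h22 e he e' he' hcell]
  · intro Y hY1 hY2 hY3
    apply hT4 Y hY1 _ hY3
    intro e he
    have hM1 : M (e1 A e) (e2 A e) := ⟨e, he, Or.inl ⟨rfl, rfl⟩⟩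
    constructor
    · intro h
      rw [← hio _ _ hM1]
      exact hY2 _ h
    · intro h
      rw [← hio _ _ (hMs _ _ hM1)]
      exact hY2 _ h


theorem exists_even_cells {G : Type*} [Group G] [Finite G] (A : Set G) (hA : ∀ x ∈ A, x⁻¹ ∈ A)
    (hgen : Subgroup.closure A = ⊤) (H P : Subgroup G) (hPH : P ≤ H)
    (h18 : 18 * Nat.card P ≤ Nat.card H) :
    ∃ io : G → G, (∀ x, io (io x) = x) ∧
      (∀ x, io x ≠ x → x⁻¹ * io x ∉ H) ∧
      (∀ x, io x ≠ x → x⁻¹ * io x ∈ A) ∧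
      (∀ g, Even (Set.ncard {h : G | h ∈ H ∧ io (g * h) ≠ g * h})) ∧
      (∀ x y, io x ≠ x → io y ≠ y → x⁻¹ * y ∈ P → x = y) ∧
      (∀ Y : Set G, (∀ x ∈ Y, ∀ h ∈ H, x * h ∈ Y) → (∀ x ∈ Y, io x ∈ Y) → Y.Nonempty →
        Y = Set.univ) := by
  have : Fintype G := Fintype.ofFinite G
  let c : G → ℕ := fun g => (Finite.equivFin (G ⧸ P) (g : G ⧸ P)).val
  have hc : ∀ x y : G, c x = c y ↔ x⁻¹ * y ∈ P := by
    intro x y
    rw [← QuotientGroup.eq]
    constructor
    · intro h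
      exact (Finite.equivFin (G ⧸ P)).injective (Fin.ext h)
    · intro h
      simp only [c, h]
  obtain ⟨io, h1, h2, h3, h4, h5, h6⟩ := exists_io_cells H A c hA (Nat.card P) (by
    intro v a
    by_cases hne : (univ.filter fun g : G => (g : G ⧸ H) = v ∧ c g = a).Nonempty
    · obtain ⟨g, hg⟩ := hne
      rw [Finset.mem_filter] at hg
      have h0 : (univ.filter fun x : P => True).card = Nat.card P := by
        rw [Finset.filter_true, Finset.card_univ, Nat.card_eq_fintype_card]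
      rw [← h0]
      refine Finset.card_le_card_of_surjOn (fun x : P => g * x) ?_
      intro y hy
      rw [Finset.mem_coe, Finset.mem_filter] at hy
      have : g⁻¹ * y ∈ P := (hc g y).1 (hg.2.2.trans hy.2.2.symm)
      exact ⟨⟨g⁻¹ * y, this⟩, by simp, by simp⟩
    · rw [Finset.not_nonempty_iff_eq_empty] at hne
      rw [hne]
      simp) h18 (by
    intro M _ hM
    rw [eq_top_iff, ← hgen, Subgroup.closure_le]
    exact hM)
  refine ⟨io, h1, ?_, h3, ?_, ?_, h6⟩
  · intro x hx h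
    exact h2 x hx (QuotientGroup.eq.2 h).symm
  · intro g
    have h := h4 (g : G ⧸ H)
    have e : Set.ncard {h : G | h ∈ H ∧ io (g * h) ≠ g * h} =
        (univ.filter fun x : G => (x : G ⧸ H) = g ∧ io x ≠ x).card := by
      rw [← Set.ncard_coe_finset]
      rw [← Set.ncard_image_of_injective {h : G | h ∈ H ∧ io (g * h) ≠ g * h}
        (mul_right_injective g)]
      congr 1
      ext x
      simp only [Set.mem_image, Set.mem_ofPred_eq, Finset.coe_filter, Finset.mem_univ, true_and]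
      constructor
      · rintro ⟨y, ⟨hy1, hy2⟩, rfl⟩
        refine ⟨(QuotientGroup.eq.2 (by simpa using hy1)).symm, hy2⟩
      · rintro ⟨hx1, hx2⟩
        refine ⟨g⁻¹ * x, ⟨QuotientGroup.eq.1 hx1.symm, by simpa using hx2⟩, by simp⟩
    rw [e]
    exact h
  · intro x y hx hy hxy
    refine h5 x y hx hy (QuotientGroup.eq.2 (hPH hxy)) ((hc x y).2 hxy)

end Pool.Agent.H647.Kot
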