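import Mathlib
import Pool.Agent.H647.Kot.Block
import Pool.Agent.H647.Kot.EvenM
import Pool.Agent.H647.Kot.Complete

/-!
Arbitrary symmetric generating sets containing a subgroup `H` with the pairing property and
involutions in a small subgroup `P` of `H` some of which are conjugated into `A ∩ P` by every
further generator.
-/

set_option autoImplicit false

namespace Pool.Agent.H647.Kot

open Pool.Agent.X267.Ham

theorem closed_conj {G : Type*} [Group G] [Finite G] (A : Set G) (hA : ∀ x ∈ A, x⁻¹ ∈ A)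
    (hgen : Subgroup.closure A = ⊤) (H P : Subgroup G) (hH : PP A H) (hPH : P ≤ H)
    (h18 : 18 * Nat.card P ≤ Nat.card H)
    (hconj : ∀ a ∈ A, a ∉ H → ∃ p ∈ P, p ∈ A ∧ p ≠ 1 ∧ p * p = 1 ∧ a⁻¹ * p * a ∈ P ∧
      a⁻¹ * p * a ∈ A) : HasClosedListing A := by
  classical
  by_cases hAH : ∃ a ∈ A, a ∉ H
  swap
  · push Not at hAH
    have hHt : H = ⊤ := by
      rw [eq_top_iff, ← hgen, Subgroup.closure_le]
      exact hAH
    exact closed_of_pp A H H (by rw [hHt, sup_idem]) hH hH
  obtain ⟨a0, ha0, ha0H⟩ := hAH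
  obtain ⟨p0, hp0P, hp0A, hp01, hp02, _⟩ := hconj a0 ha0 ha0H
  obtain ⟨io, h1, h2, h3, _, h5, h6⟩ := exists_even_cells A hA hgen H P hPH h18
  set W : Set G := {x | io x ≠ x} with hW
  have hioW : ∀ y ∈ W, io y ∈ W := by
    intro y hy h
    rw [h1] at h
    exact hy h.symm
  choose! ch hch using hconj
  let e : G → ℕ := fun x => (Finite.equivFin G x).val
  have he : ∀ x y, e x = e y → x = y := fun x y h => (Finite.equivFin G).injective (Fin.ext h)
  let p : G → G := fun x => if e x < e (io x) then ch (x⁻¹ * io x)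
    else ((io x)⁻¹ * x)⁻¹ * ch ((io x)⁻¹ * x) * ((io x)⁻¹ * x)
  have hp : ∀ x ∈ W, p x ∈ P ∧ p x ∈ A ∧ p x ≠ 1 ∧ p x * p x = 1 ∧
      io x * p (io x) = x * p x * (x⁻¹ * io x) := by
    intro x hx
    have hx' := hioW x hx
    have hne : e x ≠ e (io x) := fun h => hx (he _ _ h).symm
    by_cases hlt : e x < e (io x)
    · have e1 : p x = ch (x⁻¹ * io x) := by simp only [p, hlt, if_true]
      have e2 : p (io x) = (x⁻¹ * io x)⁻¹ * ch (x⁻¹ * io x) * (x⁻¹ * io x) := by
        have : ¬ e (io x) < e x := by omega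
        simp only [p, h1, this, if_false]
      obtain ⟨q1, q2, q3, q4, _⟩ := hch _ (h3 x hx) (h2 x hx)
      rw [e2, e1]
      exact ⟨q1, q2, q3, q4, by group⟩
    · have hlt' : e (io x) < e x := by omega
      have e1 : p x = ((io x)⁻¹ * x)⁻¹ * ch ((io x)⁻¹ * x) * ((io x)⁻¹ * x) := by
        simp only [p, hlt, if_false]
      have e2 : p (io x) = ch ((io x)⁻¹ * x) := by
        simp only [p, h1, hlt', if_true]
      have h7 := h3 _ hx'
      have h8 := h2 _ hx'
      rw [h1] at h7 h8
      obtain ⟨q1, q2, q3, q4, q5, q6⟩ := hch _ h7 h8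
      rw [e2, e1]
      refine ⟨q5, q6, ?_, ?_, by group⟩
      · intro h
        apply q3
        have h9 : ch ((io x)⁻¹ * x) = ((io x)⁻¹ * x) * 1 * ((io x)⁻¹ * x)⁻¹ := by
          rw [← h]
          group
        rw [h9]
        group
      · have h9 : ((io x)⁻¹ * x)⁻¹ * ch ((io x)⁻¹ * x) * ((io x)⁻¹ * x) *
            (((io x)⁻¹ * x)⁻¹ * ch ((io x)⁻¹ * x) * ((io x)⁻¹ * x)) =
            ((io x)⁻¹ * x)⁻¹ * (ch ((io x)⁻¹ * x) * ch ((io x)⁻¹ * x)) * ((io x)⁻¹ * x) := by
          group
        rw [h9, q4]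
        group
  let g : G → G → G := fun w z =>
    if z = w then io w else if z = w * p w then io w * p (io w) else z * p w
  let f : G → G := fun z =>
    if h : ∃ w, w ∈ W ∧ w⁻¹ * z ∈ P then g h.choose z else z * p0
  have hfw : ∀ w ∈ W, ∀ z, w⁻¹ * z ∈ P → f z = g w z := by
    intro w hw z hz
    have h : ∃ w, w ∈ W ∧ w⁻¹ * z ∈ P := ⟨w, hw, hz⟩
    have e1 : f z = g h.choose z := dif_pos h
    obtain ⟨h7, h8⟩ := h.choose_spec
    have h9 : h.choose = w := by
      apply h5 _ _ h7 hw
      have := P.mul_mem h8 (P.inv_mem hz)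
      have e2 : h.choose⁻¹ * z * (w⁻¹ * z)⁻¹ = h.choose⁻¹ * w := by group
      rwa [e2] at this
    rw [e1, h9]
  have hf0 : ∀ z, (¬ ∃ w, w ∈ W ∧ w⁻¹ * z ∈ P) → f z = z * p0 := fun z h => dif_neg h
  have hfW : ∀ w ∈ W, f w = io w := by
    intro w hw
    rw [hfw w hw w (by rw [inv_mul_cancel]; exact P.one_mem)]
    simp only [g, if_true]
  have hfp : ∀ w ∈ W, f (w * p w) = io w * p (io w) := by
    intro w hw
    rw [hfw w hw _ (by rw [inv_mul_cancel_left]; exact (hp w hw).1)]
    have : w * p w ≠ w := fun h => (hp w hw).2.2.1 (mul_eq_left.1 h)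
    simp only [g, this, if_false, if_true]
  have hfz : ∀ w ∈ W, ∀ z, w⁻¹ * z ∈ P → z ≠ w → z ≠ w * p w → f z = z * p w := by
    intro w hw z hz h7 h8
    rw [hfw w hw z hz]
    simp only [g, h7, h8, if_false]
  refine closed_of_matching A H hH f ?_ ?_ ?_
  · intro z
    by_cases h : ∃ w, w ∈ W ∧ w⁻¹ * z ∈ P
    · obtain ⟨w, hw, hz⟩ := h
      obtain ⟨q1, q2, q3, q4, q5⟩ := hp w hw
      by_cases h7 : z = w
      · subst h7
        rw [hfW z hw, hfW _ (hioW z hw)]
        exact ⟨h1 z, hw⟩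
      by_cases h8 : z = w * p w
      · subst h8
        rw [hfp w hw, hfp _ (hioW w hw), h1]
        refine ⟨rfl, ?_⟩
        intro h
        apply h2 w hw
        have h9 : w⁻¹ * io w = p w * (p (io w))⁻¹ := by
          have h10 : io w = w * p w * (p (io w))⁻¹ := by
            rw [← h]
            group
          conv_lhs => rw [h10]
          group
        rw [h9]
        exact H.mul_mem (hPH q1) (H.inv_mem (hPH (hp _ (hioW w hw)).1))
      · rw [hfz w hw z hz h7 h8]
        have h9 : z * p w ≠ w := by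
          intro h
          apply h8
          calc z = z * p w * p w := by rw [mul_assoc, q4, mul_one]
            _ = w * p w := by rw [h]
        have h10 : z * p w ≠ w * p w := fun h => h7 (mul_right_cancel h)
        have h11 : w⁻¹ * (z * p w) ∈ P := by
          rw [← mul_assoc]
          exact P.mul_mem hz q1
        rw [hfz w hw _ h11 h9 h10, mul_assoc, q4, mul_one]
        exact ⟨rfl, fun h => q3 (mul_eq_left.1 h)⟩
    · have h' : ¬ ∃ w, w ∈ W ∧ w⁻¹ * (z * p0) ∈ P := by
        rintro ⟨w, hw, h7⟩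
        apply h
        refine ⟨w, hw, ?_⟩
        have := P.mul_mem h7 (P.inv_mem hp0P)
        have e2 : w⁻¹ * (z * p0) * p0⁻¹ = w⁻¹ * z := by group
        rwa [e2] at this
      rw [hf0 z h, hf0 _ h', mul_assoc, hp02, mul_one]
      exact ⟨rfl, fun h => hp01 (mul_eq_left.1 h)⟩
  · intro z
    by_cases h : ∃ w, w ∈ W ∧ w⁻¹ * z ∈ P
    · obtain ⟨w, hw, hz⟩ := h
      obtain ⟨q1, q2, q3, q4, q5⟩ := hp w hw
      by_cases h7 : z = w
      · subst h7
        rw [hfW z hw]
        exact h3 z hw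
      by_cases h8 : z = w * p w
      · subst h8
        rw [hfp w hw, q5, inv_mul_cancel_left]
        exact h3 w hw
      · rw [hfz w hw z hz h7 h8, inv_mul_cancel_left]
        exact q2
    · rw [hf0 z h, inv_mul_cancel_left]
      exact hp0A
  · intro S hS hSH hSf
    apply h6 S _ _ hS
    · intro y hy h hh
      refine hSH y (y * h) ?_ hy
      simpa using hh
    · intro y hy
      by_cases hyW : y ∈ W
      · rw [← hfW y hyW]
        exact hSf y hy
      · have : io y = y := by
          by_contra h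
          exact hyW h
        rw [this]
        exact hy

end Pool.Agent.H647.Kot
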