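import Mathlib
import Pool.Agent.H647.Kot.Block
import Pool.Agent.H647.Kot.EvenM
import Pool.Agent.H647.Kot.Complete
import Pool.Graph.R_pool_sql_team_seeded_64922ed1.Results.MP_688fd0_co.NormalisingPair

/-!
Arbitrary symmetric generating sets containing a subgroup `H` with the pairing property and a small
subgroup `P` of `H` which stays matchable after the removal of any two elements.
-/

set_option autoImplicit false

namespace Pool.Agent.H647.Kot

open Pool.Agent.X267.Ham

/-- a Hamiltonian path in the quotient of `H` by `P` -/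
structure CellPath {G : Type*} [Group G] (A : Set G) (H P : Subgroup G) (t : ℕ) (r x : ℕ → G) :
    Prop where
  mem : ∀ i < t, r i ∈ H
  cover : ∀ h ∈ H, ∃ i < t, (r i)⁻¹ * h ∈ P
  inj : ∀ i < t, ∀ j < t, (r i)⁻¹ * r j ∈ P → i = j
  step : ∀ i, i + 1 < t → x i ∈ A ∧ ∀ y ∈ cellOf P (r i), y * x i ∈ cellOf P (r (i + 1))

theorem closed_even {G : Type*} [Group G] [Finite G] (A : Set G) (hA : ∀ x ∈ A, x⁻¹ ∈ A)
    (hgen : Subgroup.closure A = ⊤) (H P : Subgroup G) (hH : PP A H) (hPH : P ≤ H)
    (h18 : 18 * Nat.card P ≤ Nat.card H) (hP3 : 3 ≤ Nat.card P)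
    (hbi : ∀ a ∈ P, ∀ b ∈ P, a ≠ b → PMon A ((P : Set G) \ {a, b})) {t : ℕ} {r x : ℕ → G}
    (hpath : CellPath A H P t r x) : HasClosedListing A := by
  classical
  obtain ⟨io, h1, h2, h3, h4, h5, h6⟩ := exists_even_cells A hA hgen H P hPH h18
  obtain ⟨hc0, hc2⟩ := cells_of_subgroup hP3 hA hbi
  set W : Set G := {x | io x ≠ x} with hW
  -- the coset `g H`
  have hcoset : ∀ g : G, PMon A ({y | g⁻¹ * y ∈ H} \ W) := by
    intro g
    have hfc : firstCells P (fun i => g * r i) t = {y | g⁻¹ * y ∈ H} := by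
      ext y
      constructor
      · rintro ⟨i, hi, h⟩
        have h7 := H.mul_mem (hpath.mem i hi) (hPH h)
        have e : r i * ((g * r i)⁻¹ * y) = g⁻¹ * y := by group
        rwa [e] at h7
      · intro h
        obtain ⟨i, hi, h7⟩ := hpath.cover _ h
        refine ⟨i, hi, ?_⟩
        have e : (g * r i)⁻¹ * y = (r i)⁻¹ * (g⁻¹ * y) := by group
        rwa [e]
    have h8 := complete_cells hA hc0 hc2 hP3 t (fun i => g * r i) x (by
      intro i hi
      refine ⟨(hpath.step i hi).1, ?_⟩
      intro y hy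
      have h9 : g⁻¹ * y ∈ cellOf P (r i) := by
        have e : (g * r i)⁻¹ * y = (r i)⁻¹ * (g⁻¹ * y) := by group
        show (r i)⁻¹ * (g⁻¹ * y) ∈ P
        rw [← e]
        exact hy
      have h10 := (hpath.step i hi).2 _ h9
      have e : (g * r (i + 1))⁻¹ * (y * x i) = (r (i + 1))⁻¹ * (g⁻¹ * y * x i) := by group
      show (g * r (i + 1))⁻¹ * (y * x i) ∈ P
      rw [e]
      exact h10) (by
      intro i hi j hj h
      apply hpath.inj i hi j hj
      have e : (g * r i)⁻¹ * (g * r j) = (r i)⁻¹ * r j := by group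
      rwa [e] at h) W (fun a ha b hb h => h5 a b ha hb h) (by
      rw [hfc]
      have h9 := h4 g
      have e : (W ∩ {y | g⁻¹ * y ∈ H}).ncard = Set.ncard {h : G | h ∈ H ∧ io (g * h) ≠ g * h} := by
        rw [← Set.ncard_image_of_injective {h : G | h ∈ H ∧ io (g * h) ≠ g * h}
          (mul_right_injective g)]
        congr 1
        ext y
        simp only [Set.mem_inter_iff, Set.mem_image, Set.mem_ofPred_eq, hW]
        constructor
        · rintro ⟨h1, h2⟩
          exact ⟨g⁻¹ * y, ⟨h2, by simpa using h1⟩, by simp⟩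
        · rintro ⟨z, ⟨hz1, hz2⟩, rfl⟩
          exact ⟨hz2, by simpa using hz1⟩
      rw [e]
      exact h9)
    rwa [hfc] at h8
  choose F hF using hcoset
  let rep : G → G := fun y => Quotient.out (y : G ⧸ H)
  have hrep : ∀ y, (rep y)⁻¹ * y ∈ H := fun y => QuotientGroup.eq.1 (Quotient.out_eq' (y : G ⧸ H))
  have hrep' : ∀ y z, (rep y)⁻¹ * z ∈ H → rep z = rep y := by
    intro y z h
    have h7 : ((y : G) : G ⧸ H) = (z : G ⧸ H) := by
      have h8 : ((rep y : G) : G ⧸ H) = (y : G ⧸ H) := Quotient.out_eq' (y : G ⧸ H)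
      rw [← h8]
      exact QuotientGroup.eq.2 h
    simp only [rep, h7]
  let f : G → G := fun y => if y ∈ W then io y else F (rep y) y
  have hfW : ∀ y ∈ W, f y = io y := fun y hy => by simp only [f, hy, if_true]
  have hfN : ∀ y, y ∉ W → f y = F (rep y) y := fun y hy => by simp only [f, hy, if_false]
  have hioW : ∀ y ∈ W, io y ∈ W := by
    intro y hy h
    rw [h1] at h
    exact hy h.symm
  refine closed_of_matching A H hH f ?_ ?_ ?_
  · intro y
    by_cases hy : y ∈ W
    · rw [hfW y hy, hfW _ (hioW y hy)]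
      exact ⟨h1 y, hy⟩
    · obtain ⟨h7, h8, h9, h10⟩ := hF (rep y) y ⟨hrep y, hy⟩
      rw [hfN y hy, hfN _ h7.2, hrep' y _ h7.1]
      exact ⟨h9, h8⟩
  · intro y
    by_cases hy : y ∈ W
    · rw [hfW y hy]
      exact h3 y hy
    · rw [hfN y hy]
      exact (hF (rep y) y ⟨hrep y, hy⟩).2.2.2
  · intro S hS hSH hSf
    apply h6 S _ _ hS
    · intro y hy h hh
      refine hSH y (y * h) ?_ hy
      simpa using hh
    · intro y hy
      by_cases hyW : y ∈ W
      · rw [← hfW y hyW]
        exact hSf y hy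
      · have : io y = y := by
          by_contra h
          exact hyW h
        rw [this]
        exact hy

/-- the path through the cells of an abelian subgroup -/
theorem exists_path {G : Type*} [Group G] [Finite G] (A : Set G) (hA : ∀ x ∈ A, x⁻¹ ∈ A)
    (H P : Subgroup G) (hcomm : ∀ a ∈ H, ∀ b ∈ H, a * b = b * a)
    (hgen : Subgroup.closure {x : H | (x : G) ∈ A} = ⊤) (hne : {x : H | (x : G) ∈ A}.Nonempty)
    (hPH : P ≤ H) : ∃ (t : ℕ) (r x : ℕ → G), CellPath A H P t r x := by
  classical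
  have hc : ∀ a b : H, a * b = b * a := fun a b => Subtype.ext (hcomm a a.2 b b.2)
  have hnor : (P.subgroupOf H).Normal := by
    refine ⟨fun n hn g => ?_⟩
    have e : g * n * g⁻¹ = n := by rw [hc g n, mul_assoc, mul_inv_cancel, mul_one]
    rwa [e]
  set Q := H ⧸ P.subgroupOf H with hQ
  set q : H →* Q := QuotientGroup.mk' (P.subgroupOf H) with hq
  have hcQ : ∀ a b : Q, a * b = b * a := by
    intro a b
    obtain ⟨a, rfl⟩ := QuotientGroup.mk'_surjective _ a
    obtain ⟨b, rfl⟩ := QuotientGroup.mk'_surjective _ b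
    rw [← map_mul, ← map_mul, hc a b]
  have hgenQ : Subgroup.closure (q '' {x : H | (x : G) ∈ A}) = ⊤ := by
    rw [← MonoidHom.map_closure, hgen, ← MonoidHom.range_eq_map]
    exact QuotientGroup.range_mk' _
  have : Finite Q := inferInstanceAs (Finite (H ⧸ P.subgroupOf H))
  have : Fintype Q := Fintype.ofFinite Q
  obtain ⟨t, ht, a, ha1, ha2⟩ : ∃ t, t = Nat.card Q ∧ ∃ a : Fin t → Q,
      (∀ i, a i ∈ q '' {x : H | (x : G) ∈ A}) ∧
      Function.Injective (fun k : Fin t => ((List.ofFn a).take (k.val + 1)).prod) := by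
    obtain ⟨a, ha1, ha2, _⟩ :=
      Pool.Agent.Results.MP_688fd0_co.NormalisingPair.conj_closed (hne.image q) ⟨by
          rintro _ ⟨x, hx, rfl⟩
          exact ⟨x⁻¹, hA _ hx, map_inv _ _⟩, hgenQ⟩ (by
        intro b hb g
        have e : g⁻¹ * b * g = b := by
          rw [mul_assoc, hcQ b g, ← mul_assoc, inv_mul_cancel, one_mul]
        rwa [e])
    exact ⟨_, rfl, a, ha1, ha2⟩
  choose lift hliftA hlift using ha1
  let L : List H := List.ofFn lift
  have hLlen : L.length = t := List.length_ofFn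
  let R : ℕ → H := fun i => (L.take (i + 1)).prod
  let X : ℕ → H := fun i => if h : i + 1 < t then lift ⟨i + 1, h⟩ else 1
  have hqR : ∀ i, q (R i) = ((List.ofFn a).take (i + 1)).prod := by
    intro i
    simp only [R, L]
    rw [map_list_prod, List.map_take, List.map_ofFn]
    congr 2
    exact congrArg List.ofFn (funext fun j => hlift j)
  have hstep : ∀ i, i + 1 < t → R (i + 1) = R i * X i := by
    intro i hi
    simp only [R, X, dif_pos hi]
    have h7 : i + 1 < L.length := by omega
    rw [List.take_succ_eq_append_getElem h7, List.prod_append]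
    simp [L]
  have hmemP : ∀ a b : H, (a : G)⁻¹ * b ∈ P ↔ q a = q b := by
    intro a b
    rw [hq, QuotientGroup.mk'_apply, QuotientGroup.mk'_apply, QuotientGroup.eq]
    exact Iff.rfl
  have hinj : ∀ i < t, ∀ j < t, q (R i) = q (R j) → i = j := by
    intro i hi j hj h
    rw [hqR, hqR] at h
    have := @ha2 ⟨i, hi⟩ ⟨j, hj⟩ h
    exact congrArg Fin.val this
  refine ⟨t, fun i => R i, fun i => X i, ?_, ?_, ?_, ?_⟩
  · intro i _
    exact (R i).2
  · intro h hh
    have hbij : Function.Bijective (fun i : Fin t => q (R i)) := by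
      rw [Fintype.bijective_iff_injective_and_card]
      refine ⟨?_, ?_⟩
      · intro i j hij
        exact Fin.ext (hinj i i.2 j j.2 hij)
      · rw [Fintype.card_fin, ht, Nat.card_eq_fintype_card]
    obtain ⟨i, hi⟩ := hbij.2 (q ⟨h, hh⟩)
    exact ⟨i, i.2, (hmemP (R i) ⟨h, hh⟩).2 hi⟩
  · intro i hi j hj h
    exact hinj i hi j hj ((hmemP _ _).1 h)
  · intro i hi
    constructor
    · simp only [X, dif_pos hi]
      exact hliftA _
    · intro y hy
      have hy' : ((R i : H) : G)⁻¹ * y ∈ P := hy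
      have hyH : y ∈ H := by
        have := H.mul_mem (R i).2 (hPH hy')
        rwa [mul_inv_cancel_left] at this
      show ((R (i + 1) : H) : G)⁻¹ * (y * (X i : G)) ∈ P
      rw [hstep i hi, Subgroup.coe_mul]
      have e : ((R i : G) * (X i : G))⁻¹ * (y * (X i : G)) = (R i : G)⁻¹ * y := by
        rw [mul_inv_rev, hcomm y hyH _ (X i).2,
          show ((X i : H) : G)⁻¹ * ((R i : H) : G)⁻¹ * (((X i : H) : G) * y) =
            (((X i : H) : G)⁻¹ * (((R i : H) : G)⁻¹ * ((X i : H) : G))) * y by group,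
          hcomm _ (H.inv_mem (R i).2) _ (X i).2, inv_mul_cancel_left]
      rw [e]
      exact hy'

end Pool.Agent.H647.Kot
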