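import Pool.Agent.H647.Kot.Pair

/-!
# The pairing property: commuting elements of orders two and four
-/

set_option autoImplicit false

namespace Pool.Agent.H647.Kot

open Pool.Agent.Q27.HC

section four

variable {H : Type*} [Group H]

/-- The subgroup generated by the squares of `x` and the elements of `X` different from `x` and
`x⁻¹`. -/
def Oth (X : Set H) (x : H) : Subgroup H := Subgroup.closure ((X \ {x, x⁻¹}) ∪ {x * x})

/-- `X` is a symmetric set of pairwise commuting elements `x ≠ 1` with `x ^ 4 = 1`, and every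
element of order four of `X` is outside of the subgroup generated by its square and the elements
of `X` different from `x` and `x⁻¹`. -/
structure CubeSet (X : Set H) : Prop where
  symm : ∀ x ∈ X, x⁻¹ ∈ X
  ne_one : ∀ x ∈ X, x ≠ 1
  four : ∀ x ∈ X, x * x * (x * x) = 1
  comm : ∀ x ∈ X, ∀ y ∈ X, x * y = y * x
  indep : ∀ x ∈ X, x * x ≠ 1 → x ∉ Oth X x

open Classical in
/-- one step along an edge in direction `x` -/
noncomputable def mv (X : Set H) (x : H) : H → H := fun y => if y ∈ Oth X x then y * x else y * x⁻¹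

theorem oth_inv (X : Set H) (x : H) : Oth X x⁻¹ = Oth X x := by
  have h2 : ({x, x⁻¹} : Set H) = {x⁻¹, x} := Set.pair_comm _ _
  apply le_antisymm
  · unfold Oth
    rw [Subgroup.closure_le]
    rintro z (hz | hz)
    · rw [inv_inv, ← h2] at hz
      exact Subgroup.subset_closure (Or.inl hz)
    · have h1 : x * x ∈ Subgroup.closure ((X \ {x, x⁻¹}) ∪ {x * x}) :=
        Subgroup.subset_closure (Or.inr rfl)
      have h3 : z = (x * x)⁻¹ := by
        rw [Set.mem_singleton_iff] at hz
        rw [hz, mul_inv_rev]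
      rw [h3]
      exact (Subgroup.closure _).inv_mem h1
  · unfold Oth
    rw [Subgroup.closure_le]
    rintro z (hz | hz)
    · refine Subgroup.subset_closure (Or.inl ?_)
      rw [inv_inv, ← h2]
      exact hz
    · have h1 : x⁻¹ * x⁻¹ ∈ Subgroup.closure ((X \ {x⁻¹, x⁻¹⁻¹}) ∪ {x⁻¹ * x⁻¹}) :=
        Subgroup.subset_closure (Or.inr rfl)
      have h3 : z = (x⁻¹ * x⁻¹)⁻¹ := by
        rw [Set.mem_singleton_iff] at hz
        rw [hz, mul_inv_rev, inv_inv]
      rw [h3]
      exact (Subgroup.closure _).inv_mem h1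

variable {X : Set H} (hX : CubeSet X) (hgen : Subgroup.closure X = ⊤)

include hX hgen in
theorem comm_all (a b : H) : a * b = b * a := by
  have key : ∀ a : H, a ∈ Subgroup.closure X → ∀ b : H, b ∈ Subgroup.closure X →
      a * b = b * a := by
    intro a ha b hb
    induction ha using Subgroup.closure_induction with
    | mem a ha =>
      induction hb using Subgroup.closure_induction with
      | mem b hb => exact hX.comm a ha b hb
      | one => rw [mul_one, one_mul]
      | mul b c _ _ ih1 ih2 => rw [← mul_assoc, ih1, mul_assoc, ih2, mul_assoc]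
      | inv b _ ih => exact (Commute.inv_right ih : Commute a b⁻¹)
    | one => rw [mul_one, one_mul]
    | mul a c _ _ ih1 ih2 => rw [mul_assoc, ih2, ← mul_assoc, ih1, mul_assoc]
    | inv a _ ih => exact (Commute.inv_left ih : Commute a⁻¹ b)
  exact key a (by rw [hgen]; trivial) b (by rw [hgen]; trivial)

include hX hgen in
theorem oth_dich (x : H) (y : H) : y ∈ Oth X x ∨ y * x ∈ Oth X x := by
  have hc := comm_all hX hgen
  have h2 : x * x ∈ Oth X x := Subgroup.subset_closure (Or.inr rfl)
  have key : ∀ y : H, y ∈ Subgroup.closure X → y ∈ Oth X x ∨ y * x ∈ Oth X x := by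
    intro y hy
    induction hy using Subgroup.closure_induction with
    | mem y hy =>
      by_cases h1 : y = x
      · right; rw [h1]; exact h2
      by_cases h3 : y = x⁻¹
      · right; rw [h3, inv_mul_cancel]; exact (Oth X x).one_mem
      · left
        exact Subgroup.subset_closure (Or.inl ⟨hy, by simp [h1, h3]⟩)
    | one => exact Or.inl (Oth X x).one_mem
    | mul a b _ _ iha ihb =>
      rcases iha with iha | iha <;> rcases ihb with ihb | ihb
      · exact Or.inl ((Oth X x).mul_mem iha ihb)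
      · right; rw [mul_assoc]; exact (Oth X x).mul_mem iha ihb
      · right; rw [mul_assoc, hc b x, ← mul_assoc]; exact (Oth X x).mul_mem iha ihb
      · left
        have h4 := (Oth X x).mul_mem ((Oth X x).mul_mem iha ihb) ((Oth X x).inv_mem h2)
        have h5 : a * x * (b * x) * (x * x)⁻¹ = a * b := by
          rw [hc b x, mul_inv_rev]
          have : a * x * (x * b) * (x⁻¹ * x⁻¹) = a * (x * x) * b * (x⁻¹ * x⁻¹) := by group
          rw [this, hc (a * (x * x)) b, hc a (x * x)]
          have : b * (x * x * a) * (x⁻¹ * x⁻¹) = b * ((x * x * a) * (x⁻¹ * x⁻¹)) := by group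
          rw [this, hc (x * x) a, hc a b]
          group
        rwa [h5] at h4
    | inv a _ iha =>
      rcases iha with iha | iha
      · exact Or.inl ((Oth X x).inv_mem iha)
      · right
        have h4 := (Oth X x).mul_mem ((Oth X x).inv_mem iha) h2
        have h5 : (a * x)⁻¹ * (x * x) = a⁻¹ * x := by
          rw [hc a x]; group
        rwa [h5] at h4
  exact key y (by rw [hgen]; trivial)

include hX hgen in
theorem oth_step {x : H} (hx : x ∈ X) (h4 : x * x ≠ 1) (y : H) :
    (y * x ∈ Oth X x ↔ y ∉ Oth X x) ∧ (y * x⁻¹ ∈ Oth X x ↔ y ∉ Oth X x) := by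
  have h1 : ∀ y : H, y * x ∈ Oth X x ↔ y ∉ Oth X x := by
    intro y
    constructor
    · intro h h'
      apply hX.indep x hx h4
      have := (Oth X x).mul_mem ((Oth X x).inv_mem h') h
      rwa [inv_mul_cancel_left] at this
    · intro h
      exact (oth_dich hX hgen x y).resolve_left h
  refine ⟨h1 y, ?_⟩
  have h2 := h1 (y * x⁻¹)
  rw [inv_mul_cancel_right] at h2
  constructor
  · intro h h'
    exact (h2.1 h') h
  · intro h
    by_contra h'
    exact h (h2.2 h')

theorem oth_other {x z : H} (hz : z ∈ X) (h1 : z ≠ x) (h2 : z ≠ x⁻¹) (y : H) :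
    (y * z ∈ Oth X x ↔ y ∈ Oth X x) ∧ (y * z⁻¹ ∈ Oth X x ↔ y ∈ Oth X x) := by
  have h3 : z ∈ Oth X x := Subgroup.subset_closure (Or.inl ⟨hz, by simp [h1, h2]⟩)
  exact ⟨Subgroup.mul_mem_cancel_right _ h3,
    Subgroup.mul_mem_cancel_right _ ((Oth X x).inv_mem h3)⟩

theorem mv_cases (X : Set H) (x y : H) : (y ∈ Oth X x ∧ mv X x y = y * x) ∨
    (y ∉ Oth X x ∧ mv X x y = y * x⁻¹) := by
  unfold mv
  by_cases h : y ∈ Oth X x
  · left; simp [h]
  · right; simp [h]

include hX hgen in
theorem mv_comm : Comm ((fun x => mv X x) '' X) := by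
  have hc := comm_all hX hgen
  refine ⟨?_, ?_, ?_⟩
  · rintro _ ⟨x, hx, rfl⟩ y
    show mv X x (mv X x y) = y
    by_cases h4 : x * x = 1
    · have h5 : x⁻¹ = x := inv_eq_of_mul_eq_one_left h4
      have h6 : ∀ y, mv X x y = y * x := by
        intro y
        rcases mv_cases X x y with ⟨_, h⟩ | ⟨_, h⟩
        · exact h
        · rw [h, h5]
      rw [h6, h6, mul_assoc, h4, mul_one]
    · rcases mv_cases X x y with ⟨h1, h⟩ | ⟨h1, h⟩
      · rw [h]
        rcases mv_cases X x (y * x) with ⟨h2, _⟩ | ⟨_, h'⟩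
        · exact absurd h1 ((oth_step hX hgen hx h4 y).1.1 h2)
        · rw [h', mul_inv_cancel_right]
      · rw [h]
        rcases mv_cases X x (y * x⁻¹) with ⟨_, h'⟩ | ⟨h2, _⟩
        · rw [h', inv_mul_cancel_right]
        · exact absurd ((oth_step hX hgen hx h4 y).2.2 h1) h2
  · rintro _ ⟨x, hx, rfl⟩ y hy
    have hy' : mv X x y = y := hy
    rcases mv_cases X x y with ⟨_, h⟩ | ⟨_, h⟩
    · rw [h] at hy'
      exact hX.ne_one x hx (by simpa using hy')
    · rw [h] at hy'
      exact hX.ne_one x hx (by simpa using hy')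
  · rintro _ ⟨x, hx, rfl⟩ _ ⟨z, hz, rfl⟩ y
    show mv X x (mv X z y) = mv X z (mv X x y)
    by_cases h1 : z = x
    · rw [h1]
    by_cases h2 : z = x⁻¹
    · -- inverse directions
      subst h2
      have h4 : x * x ≠ 1 := fun h => h1 (inv_eq_of_mul_eq_one_left h)
      have hO : Oth X x⁻¹ = Oth X x := oth_inv X x
      have h44 : x⁻¹ * x⁻¹ = x * x := by
        have h5 := hX.four x hx
        have h6 : x⁻¹ * x⁻¹ = (x * x)⁻¹ := by rw [mul_inv_rev]
        rw [h6]
        exact inv_eq_of_mul_eq_one_left h5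
      have hA : ∀ y, y ∈ Oth X x → mv X x y = y * x ∧ mv X x⁻¹ y = y * x⁻¹ := by
        intro y hy
        rcases mv_cases X x y with ⟨_, h⟩ | ⟨h, _⟩
        · rcases mv_cases X x⁻¹ y with ⟨_, h'⟩ | ⟨h', _⟩
          · exact ⟨h, h'⟩
          · rw [hO] at h'; exact absurd hy h'
        · exact absurd hy h
      have hB : ∀ y, y ∉ Oth X x → mv X x y = y * x⁻¹ ∧ mv X x⁻¹ y = y * x := by
        intro y hy
        rcases mv_cases X x y with ⟨h, _⟩ | ⟨_, h⟩
        · exact absurd h hy
        · rcases mv_cases X x⁻¹ y with ⟨h', _⟩ | ⟨_, h'⟩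
          · rw [hO] at h'; exact absurd h' hy
          · rw [inv_inv] at h'
            exact ⟨h, h'⟩
      by_cases hy : y ∈ Oth X x
      · have k1 : y * x⁻¹ ∉ Oth X x := fun h => (oth_step hX hgen hx h4 y).2.1 h hy
        have k2 : y * x ∉ Oth X x := fun h => (oth_step hX hgen hx h4 y).1.1 h hy
        rw [(hA y hy).2, (hA y hy).1, (hB _ k1).1, (hB _ k2).2, mul_assoc, mul_assoc, h44]
      · have k1 : y * x⁻¹ ∈ Oth X x := (oth_step hX hgen hx h4 y).2.2 hy
        have k2 : y * x ∈ Oth X x := (oth_step hX hgen hx h4 y).1.2 hy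
        rw [(hB y hy).2, (hB y hy).1, (hA _ k2).1, (hA _ k1).2, mul_assoc, mul_assoc, h44]
    · -- independent directions
      have h1' : x ≠ z := fun h => h1 h.symm
      have h2' : x ≠ z⁻¹ := fun h => h2 (by rw [h, inv_inv])
      have ax : mv X z y ∈ Oth X x ↔ y ∈ Oth X x := by
        rcases mv_cases X z y with ⟨_, h⟩ | ⟨_, h⟩
        · rw [h]; exact (oth_other hz h1 h2 y).1
        · rw [h]; exact (oth_other hz h1 h2 y).2
      have az : mv X x y ∈ Oth X z ↔ y ∈ Oth X z := by
        rcases mv_cases X x y with ⟨_, h⟩ | ⟨_, h⟩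
        · rw [h]; exact (oth_other hx h1' h2' y).1
        · rw [h]; exact (oth_other hx h1' h2' y).2
      have sx : ∀ u, (u ∈ Oth X x ↔ y ∈ Oth X x) → ∃ s, mv X x u = u * s ∧ mv X x y = y * s := by
        intro u hu
        rcases mv_cases X x y with ⟨h, h'⟩ | ⟨h, h'⟩
        · rcases mv_cases X x u with ⟨_, k⟩ | ⟨k, _⟩
          · exact ⟨x, k, h'⟩
          · exact absurd (hu.2 h) k
        · rcases mv_cases X x u with ⟨k, _⟩ | ⟨_, k⟩
          · exact absurd (hu.1 k) h
          · exact ⟨x⁻¹, k, h'⟩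
      have sz : ∀ u, (u ∈ Oth X z ↔ y ∈ Oth X z) → ∃ s, mv X z u = u * s ∧ mv X z y = y * s := by
        intro u hu
        rcases mv_cases X z y with ⟨h, h'⟩ | ⟨h, h'⟩
        · rcases mv_cases X z u with ⟨_, k⟩ | ⟨k, _⟩
          · exact ⟨z, k, h'⟩
          · exact absurd (hu.2 h) k
        · rcases mv_cases X z u with ⟨k, _⟩ | ⟨_, k⟩
          · exact absurd (hu.1 k) h
          · exact ⟨z⁻¹, k, h'⟩
      obtain ⟨s, k1, k2⟩ := sx _ ax
      obtain ⟨t, k3, k4⟩ := sz _ az
      rw [k1, k3, k2, k4, mul_assoc, mul_assoc, hc t s]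

include hX hgen in
/-- **Commuting elements of orders two and four have the pairing property.** -/
theorem pairing_cube [Finite H] : Pairing H X := by
  classical
  intro f hf
  obtain ⟨T, hT⟩ : ∃ T : Finset (H → H),
      T = (Set.toFinite ((fun x => mv X x) '' X)).toFinset := ⟨_, rfl⟩
  have mT : (T : Set (H → H)) = (fun x => mv X x) '' X := by
    rw [hT, Set.Finite.coe_toFinset]
  have hTc : Comm (T : Set (H → H)) := by rw [mT]; exact mv_comm hX hgen
  have hstep : ∀ x ∈ X, ∀ y, Orb (T : Set (H → H)) y (y * x) := by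
    intro x hx y
    rcases mv_cases X x y with ⟨_, h⟩ | ⟨h1, h⟩
    · rw [← h]
      exact Orb.step (by rw [mT]; exact ⟨x, hx, rfl⟩) y
    · rcases mv_cases X x⁻¹ y with ⟨h2, _⟩ | ⟨_, h'⟩
      · rw [oth_inv] at h2; exact absurd h2 h1
      · rw [inv_inv] at h'
        rw [← h']
        exact Orb.step (by rw [mT]; exact ⟨x⁻¹, hX.symm x hx, rfl⟩) y
  have horb : ∀ a : H, a ∈ Subgroup.closure X → ∀ y, Orb (T : Set (H → H)) y (y * a) := by
    intro a ha
    induction ha using Subgroup.closure_induction with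
    | mem b hb => exact hstep b hb
    | one => intro y; rw [mul_one]; exact Orb.refl _
    | mul a b _ _ iha ihb =>
      intro y
      rw [← mul_assoc]
      exact (iha y).trans (ihb _)
    | inv a _ iha =>
      intro y
      have := iha (y * a⁻¹)
      rw [inv_mul_cancel_right] at this
      exact this.symm
  have huniv : {y | Orb (T : Set (H → H)) 1 y} = Set.univ := by
    ext y
    simp only [Set.mem_univ, iff_true]
    have := horb y (by rw [hgen]; trivial) 1
    rw [one_mul] at this
    exact this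
  have hgood := good_orb _ T rfl hTc 1
  rw [huniv] at hgood
  obtain ⟨g, hgI, hgE, hgc⟩ := hgood f (fun x _ => ⟨trivial, hf x⟩)
  refine ⟨g, fun x => (hgI x trivial).2, ?_, fun x y => rel_univ (hgc x trivial y trivial)⟩
  intro y
  obtain ⟨t, ht, h⟩ := hgE y trivial
  have ht' : t ∈ (T : Set (H → H)) := by exact_mod_cast ht
  rw [mT] at ht'
  obtain ⟨x, hx, rfl⟩ := ht'
  have h' : g y = mv X x y := h
  rcases mv_cases X x y with ⟨_, k⟩ | ⟨_, k⟩
  · rw [h', k, inv_mul_cancel_left]; exact hx
  · rw [h', k, inv_mul_cancel_left]; exact hX.symm x hx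

end four

end Pool.Agent.H647.Kot
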