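import Pool.Agent.H647.Kot.Four
import Pool.Graph.R_pool_sql_team_seeded_64922ed1.X267.Ham.Seq

/-!
# From the pairing property to closed listing sequences
-/

set_option autoImplicit false

namespace Pool.Agent.H647.Kot

open Pool.Agent.Q27.HC
open Pool.Agent.X267.Ham (HasClosedListing HasListing IsListing isListing_iff take_prod pr)

variable {G : Type*} [Group G]

/-- from a closed walk to a closed listing sequence -/
theorem listing_of_walk (A : Set G) {w : ℕ → G} (h0 : w 0 = 1)
    (hA : ∀ k, (w k)⁻¹ * w (k + 1) ∈ A) (hn : w (Nat.card G) = 1)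
    (hi : ∀ i j, i < Nat.card G → j < Nat.card G → w i = w j → i = j) :
    HasClosedListing A := by
  have hprod : ∀ m, pr (fun k => (w k)⁻¹ * w (k + 1)) m = w m := by
    intro m
    induction m with
    | zero => exact h0.symm
    | succ m ih =>
      rw [pr, ih, mul_inv_cancel_left]
  unfold HasClosedListing
  refine ⟨fun k => (fun k : ℕ => (w k)⁻¹ * w (k + 1)) k.val, fun i => hA i.val, ?_, ?_⟩
  · rw [isListing_iff (fun k : ℕ => (w k)⁻¹ * w (k + 1))]
    intro i j hi' hj' hij
    rw [hprod, hprod] at hij
    by_cases h1 : i + 1 = Nat.card G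
    · by_cases h2 : j + 1 = Nat.card G
      · omega
      · rw [h1, hn, ← h0] at hij
        have := hi 0 (j + 1) (by omega) (by omega) hij
        omega
    · by_cases h2 : j + 1 = Nat.card G
      · rw [h2, hn, ← h0] at hij
        have := hi (i + 1) 0 (by omega) (by omega) hij
        omega
      · have := hi (i + 1) (j + 1) (by omega) (by omega) hij
        omega
  · have h3 := take_prod (n := Nat.card G) (fun k : ℕ => (w k)⁻¹ * w (k + 1)) (Nat.card G) le_rfl
    rw [hprod, hn] at h3
    rwa [List.take_of_length_le (by rw [List.length_ofFn])] at h3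

/-- even order and pairing property -/
def PP (A : Set G) (H : Subgroup G) : Prop :=
  Even (Nat.card H) ∧ Pairing H {h | (h : G) ∈ A}

theorem closed_of_pp [Finite G] (A : Set G) (H K : Subgroup G) (hgen : H ⊔ K = ⊤) (hH : PP A H)
    (hK : PP A K) : HasClosedListing A := by
  obtain ⟨w, h0, hA, hn, hi⟩ := closed_walk A H K hH.1 hK.1 hgen hH.2 hK.2
  exact listing_of_walk A h0 hA hn hi

theorem pairing_congr {H H' : Type*} [Group H] [Group H'] (e : H ≃* H') (B : Set H) (B' : Set H')
    (hB : ∀ h, h ∈ B ↔ e h ∈ B') (P : Pairing H B) : Pairing H' B' := by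
  intro f hf
  obtain ⟨g, hg, hgB, hgc⟩ := P (fun x => e.symm (f (e x))) (by
    intro x
    refine ⟨?_, ?_⟩
    · simp [(hf (e x)).1]
    · intro h
      apply (hf (e x)).2
      have := congrArg e h
      simpa using this)
  refine ⟨fun x => e (g (e.symm x)), ?_, ?_, ?_⟩
  · intro x
    refine ⟨?_, ?_⟩
    · simp [(hg (e.symm x)).1]
    · intro h
      apply (hg (e.symm x)).2
      have := congrArg e.symm h
      simpa using this
  · intro x
    have h1 := (hB _).1 (hgB (e.symm x))
    rw [map_mul, map_inv, e.apply_symm_apply] at h1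
    exact h1
  · intro x y
    have key : ∀ a b : H, Relation.EqvGen (fun a b => b = e.symm (f (e a)) ∨ b = g a) a b →
        Relation.EqvGen (fun a b => b = f a ∨ b = e (g (e.symm a))) (e a) (e b) := by
      intro a b hab
      induction hab with
      | rel a b hab =>
        rcases hab with h | h
        · apply Relation.EqvGen.rel
          left
          rw [h, e.apply_symm_apply]
        · apply Relation.EqvGen.rel
          right
          rw [h, e.symm_apply_apply]
      | refl a => exact Relation.EqvGen.refl _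
      | symm a b _ ih => exact Relation.EqvGen.symm _ _ ih
      | trans a b c _ _ ih1 ih2 => exact Relation.EqvGen.trans _ _ _ ih1 ih2
    have := key _ _ (hgc (e.symm x) (e.symm y))
    rwa [e.apply_symm_apply, e.apply_symm_apply] at this

/-- passing to a subgroup containing `H` -/
theorem PP.restrict {A : Set G} {H : Subgroup G} (h : PP A H) {N : Subgroup G} (hN : H ≤ N) :
    PP {x : N | (x : G) ∈ A} (H.subgroupOf N) := by
  have e := Subgroup.subgroupOfEquivOfLe hN
  refine ⟨?_, ?_⟩
  · rw [Nat.card_congr (Subgroup.subgroupOfEquivOfLe hN).toEquiv]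
    exact h.1
  · refine pairing_congr (Subgroup.subgroupOfEquivOfLe hN).symm {h : H | (h : G) ∈ A} _ ?_ h.2
    intro x
    have h1 : (((Subgroup.subgroupOfEquivOfLe hN).symm x : N) : G) = (x : G) := by
      obtain ⟨y, rfl⟩ := (Subgroup.subgroupOfEquivOfLe hN).surjective x
      rw [MulEquiv.symm_apply_apply]
      exact (Subgroup.subgroupOfEquivOfLe_apply_coe hN y).symm
    show (x : G) ∈ A ↔ (((Subgroup.subgroupOfEquivOfLe hN).symm x : N) : G) ∈ A
    rw [h1]

/-- complements of proper subgroups -/
theorem pp_compl [Finite G] {A : Set G} {H : Subgroup G} (he : Even (Nat.card H)) (L : Subgroup G)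
    (hL : ¬ H ≤ L) (hA : ∀ x ∈ H, x ∉ L → x ∈ A) : PP A H := by
  refine ⟨he, ?_⟩
  refine Pairing.mono (pairing_compl he (L.subgroupOf H) ?_) ?_
  · intro h
    exact hL (Subgroup.subgroupOf_eq_top.1 h)
  · intro x hx
    exact hA x x.2 (fun h => hx (Subgroup.mem_subgroupOf.2 h))

/-- The subgroup generated by the square of `x` and the elements of `X` other than `x`, `x⁻¹`. -/
def Others (X : Set G) (x : G) : Subgroup G := Subgroup.closure ((X \ {x, x⁻¹}) ∪ {x * x})

/-- commuting elements of orders two and four -/
theorem pp_cube [Finite G] {A X : Set G} (hne : X.Nonempty) (hXA : X ⊆ A)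
    (hsymm : ∀ x ∈ X, x⁻¹ ∈ X) (h1 : ∀ x ∈ X, x ≠ 1) (h4 : ∀ x ∈ X, x ^ 4 = 1)
    (hc : ∀ x ∈ X, ∀ y ∈ X, x * y = y * x)
    (hind : ∀ x ∈ X, x ^ 2 ≠ 1 → x ∉ Others X x) : PP A (Subgroup.closure X) := by
  have hX' : CubeSet {h : Subgroup.closure X | (h : G) ∈ X} := by
    refine ⟨?_, ?_, ?_, ?_, ?_⟩
    · intro x hx
      exact hsymm _ hx
    · intro x hx h
      exact h1 _ hx (by rw [h]; rfl)
    · intro x hx
      apply Subtype.ext
      have h5 : (x : G) ^ 4 = x * x * (x * x) := by
        rw [show (4 : ℕ) = 2 + 2 by norm_num, pow_add, pow_two]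
      show (x : G) * x * (x * x) = 1
      rw [← h5]
      exact h4 _ hx
    · intro x hx y hy
      exact Subtype.ext (hc _ hx _ hy)
    · intro x hx hxx hmem
      refine hind _ hx (fun h => hxx (Subtype.ext (by rw [pow_two] at h; exact h))) ?_
      have h5 : Subgroup.map (Subgroup.closure X).subtype (Oth {h : Subgroup.closure X | (h : G) ∈ X} x)
          ≤ Others X (x : G) := by
        unfold Oth Others
        rw [MonoidHom.map_closure, Subgroup.closure_le]
        rintro _ ⟨y, hy, rfl⟩
        rcases hy with hy | hy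
        · apply Subgroup.subset_closure
          left
          refine ⟨hy.1, ?_⟩
          intro h6
          apply hy.2
          rcases h6 with h6 | h6
          · left; exact Subtype.ext h6
          · right; exact Subtype.ext h6
        · apply Subgroup.subset_closure
          right
          rw [Set.mem_singleton_iff] at hy
          rw [hy]
          rfl
      exact h5 ⟨x, hmem, rfl⟩
  refine ⟨?_, ?_⟩
  · obtain ⟨x, hx⟩ := hne
    have h2 : orderOf (⟨x, Subgroup.subset_closure hx⟩ : Subgroup.closure X) ∣ 4 := by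
      rw [orderOf_dvd_iff_pow_eq_one]
      exact Subtype.ext (h4 x hx)
    have h3 : orderOf (⟨x, Subgroup.subset_closure hx⟩ : Subgroup.closure X) ≠ 1 := by
      rw [Ne, orderOf_eq_one_iff]
      intro h
      exact h1 x hx (congrArg Subtype.val h)
    have h5 : 2 ∣ orderOf (⟨x, Subgroup.subset_closure hx⟩ : Subgroup.closure X) := by
      have h6 : orderOf (⟨x, Subgroup.subset_closure hx⟩ : Subgroup.closure X) ≤ 4 :=
        Nat.le_of_dvd (by norm_num) h2
      interval_cases h7 : orderOf (⟨x, Subgroup.subset_closure hx⟩ : Subgroup.closure X) <;> omega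
    exact even_iff_two_dvd.2 (h5.trans (orderOf_dvd_natCard _))
  · refine Pairing.mono (pairing_cube hX' Subgroup.closure_closure_coe_preimage) ?_
    intro h hh
    exact hXA hh

end Pool.Agent.H647.Kot
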