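import Mathlib
import Pool.Agent.H647.Kot.Walk

/-!
The pairing property of every subgroup generated by commuting elements of orders two and four.
-/

set_option autoImplicit false

namespace Pool.Agent.H647.Kot

lemma commute_closure {G : Type*} [Group G] {B : Set G} {c : G} (h : ∀ b ∈ B, c * b = b * c) :
    ∀ w ∈ Subgroup.closure B, c * w = w * c := by
  intro w hw
  have h1 : Subgroup.closure B ≤ Subgroup.centralizer {c} := by
    rw [Subgroup.closure_le]
    intro b hb
    rw [SetLike.mem_coe, Subgroup.mem_centralizer_iff]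
    rintro d hd
    rw [Set.mem_singleton_iff] at hd
    subst hd
    exact h b hb
  have h2 := Subgroup.mem_centralizer_iff.1 (h1 hw) c rfl
  exact h2

lemma mem_closure_insert {G : Type*} [Group G] {B : Set G} {c : G}
    (h : ∀ b ∈ B, c * b = b * c) {y : G} (hy : y ∈ Subgroup.closure (B ∪ {c})) :
    ∃ (n : ℤ) (w : G), w ∈ Subgroup.closure B ∧ y = c ^ n * w := by
  have hcw : ∀ w ∈ Subgroup.closure B, ∀ n : ℤ, c ^ n * w = w * c ^ n := by
    intro w hw n
    have : Commute c w := commute_closure h w hw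
    exact (this.zpow_left n).eq
  induction hy using Subgroup.closure_induction with
  | mem y hy =>
    rcases hy with hy | hy
    · exact ⟨0, y, Subgroup.subset_closure hy, by simp⟩
    · rw [Set.mem_singleton_iff] at hy
      subst hy
      exact ⟨1, 1, Subgroup.one_mem _, by simp⟩
  | one => exact ⟨0, 1, Subgroup.one_mem _, by simp⟩
  | mul y z _ _ ihy ihz =>
    obtain ⟨n, w, hw, rfl⟩ := ihy
    obtain ⟨m, v, hv, rfl⟩ := ihz
    refine ⟨n + m, w * v, Subgroup.mul_mem _ hw hv, ?_⟩
    calc c ^ n * w * (c ^ m * v) = c ^ n * (w * c ^ m) * v := by group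
      _ = c ^ n * (c ^ m * w) * v := by rw [hcw w hw m]
      _ = c ^ (n + m) * (w * v) := by rw [zpow_add]; group
  | inv y _ ih =>
    obtain ⟨n, w, hw, rfl⟩ := ih
    refine ⟨-n, w⁻¹, Subgroup.inv_mem _ hw, ?_⟩
    rw [hcw w hw n, mul_inv_rev, zpow_neg]

theorem pp_fours {G : Type*} [Group G] [Finite G] {A X : Set G} (hA : ∀ x ∈ A, x⁻¹ ∈ A)
    (hXA : X ⊆ A) (h4 : ∀ x ∈ X, x ^ 4 = 1) (hc : ∀ x ∈ X, ∀ y ∈ X, x * y = y * x)
    (he : Even (Nat.card (Subgroup.closure X))) : PP A (Subgroup.closure X) := by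
  classical
  -- symmetric generating sets without `1`
  let Fam : Set (Set G) := {Y | Y ⊆ A ∧ (∀ x ∈ Y, x⁻¹ ∈ Y) ∧ (∀ x ∈ Y, x ≠ 1) ∧
    (∀ x ∈ Y, x ^ 4 = 1) ∧ (∀ x ∈ Y, ∀ y ∈ Y, x * y = y * x) ∧
    Subgroup.closure Y = Subgroup.closure X}
  have hne : Fam.Nonempty := by
    refine ⟨{x | (x ∈ X ∨ x⁻¹ ∈ X) ∧ x ≠ 1}, ?_, ?_, ?_, ?_, ?_, ?_⟩
    · rintro x ⟨hx | hx, _⟩
      · exact hXA hx
      · have := hA _ (hXA hx)
        rwa [inv_inv] at this
    · rintro x ⟨hx, hx1⟩
      refine ⟨?_, fun h => hx1 (inv_eq_one.1 h)⟩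
      rw [inv_inv]
      exact hx.symm
    · rintro x ⟨_, hx1⟩
      exact hx1
    · rintro x ⟨hx | hx, _⟩
      · exact h4 x hx
      · have := h4 _ hx
        rwa [inv_pow, inv_eq_one] at this
    · have key : ∀ x, (x ∈ X ∨ x⁻¹ ∈ X) → ∀ y, (y ∈ X ∨ y⁻¹ ∈ X) → Commute x y := by
        rintro x (hx | hx) y (hy | hy)
        · exact hc x hx y hy
        · exact (Commute.inv_right_iff.1 (hc x hx _ hy))
        · exact (Commute.inv_left_iff.1 (hc _ hx y hy))
        · exact (Commute.inv_inv_iff.1 (hc _ hx _ hy))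
      rintro x ⟨hx, _⟩ y ⟨hy, _⟩
      exact key x hx y hy
    · apply le_antisymm
      · rw [Subgroup.closure_le]
        rintro x ⟨hx | hx, _⟩
        · exact Subgroup.subset_closure hx
        · have := (Subgroup.closure X).inv_mem (Subgroup.subset_closure hx)
          rwa [inv_inv] at this
      · rw [Subgroup.closure_le]
        intro x hx
        by_cases h1 : x = 1
        · rw [h1]
          exact Subgroup.one_mem _
        · exact Subgroup.subset_closure ⟨Or.inl hx, h1⟩
  obtain ⟨Y, hY, hmin⟩ := Set.exists_min_image Fam Set.ncard (Set.toFinite _) hne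
  obtain ⟨hYA, hYs, hY1, hY4, hYc, hYX⟩ := hY
  have hYne : Y.Nonempty := by
    by_contra h0
    rw [Set.not_nonempty_iff_eq_empty] at h0
    rw [← hYX, h0, Subgroup.closure_empty, Subgroup.card_bot] at he
    exact absurd he (by decide)
  rw [← hYX]
  refine pp_cube hYne hYA hYs hY1 hY4 hYc ?_
  intro x hx hx2 hmem
  -- `x` is in the subgroup generated by the others
  have hB : ∀ b ∈ Y \ {x, x⁻¹}, (x * x) * b = b * (x * x) := by
    intro b hb
    have h1 : Commute x b := hYc x hx b hb.1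
    exact (h1.mul_left h1).eq
  obtain ⟨n, w, hw, hxw⟩ := mem_closure_insert hB hmem
  have hx4 : x ^ (4 : ℤ) = 1 := by
    have := hY4 x hx
    exact_mod_cast this
  have hw' : w = x ^ (1 - 2 * n) := by
    have h1 : (x * x) ^ n = x ^ (2 * n) := by
      rw [← pow_two, ← zpow_natCast, ← zpow_mul]
      norm_num
    rw [h1] at hxw
    calc w = x ^ (-(2 * n)) * (x ^ (2 * n) * w) := by
          rw [← mul_assoc, ← zpow_add]
          simp
      _ = x ^ (-(2 * n)) * x := by rw [← hxw]
      _ = x ^ (1 - 2 * n) := by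
          rw [← zpow_add_one]
          congr 1
          ring
  have hxB : x ∈ Subgroup.closure (Y \ {x, x⁻¹}) := by
    have h1 : x = w ^ (1 - 2 * n) := by
      rw [hw', ← zpow_mul]
      have h2 : (1 - 2 * n) * (1 - 2 * n) = 1 + 4 * (n * n - n) := by ring
      rw [h2, zpow_add, zpow_mul, hx4, one_zpow, mul_one, zpow_one]
    have h3 := Subgroup.zpow_mem _ hw (1 - 2 * n)
    rw [← h1] at h3
    exact h3
  have hY' : Y \ {x, x⁻¹} ∈ Fam := by
    refine ⟨fun y hy => hYA hy.1, ?_, fun y hy => hY1 y hy.1, fun y hy => hY4 y hy.1,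
      fun y hy z hz => hYc y hy.1 z hz.1, ?_⟩
    · rintro y ⟨hy, hy'⟩
      refine ⟨hYs y hy, ?_⟩
      rintro (h | h)
      · exact hy' (Or.inr (by rw [Set.mem_singleton_iff, ← h, inv_inv]))
      · rw [Set.mem_singleton_iff, inv_inj] at h
        exact hy' (Or.inl h)
    · rw [← hYX]
      apply le_antisymm (Subgroup.closure_mono Set.sdiff_subset)
      rw [Subgroup.closure_le]
      intro y hy
      by_cases h : y ∈ ({x, x⁻¹} : Set G)
      · rcases h with rfl | h
        · exact hxB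
        · rw [Set.mem_singleton_iff] at h
          subst h
          exact (Subgroup.closure _).inv_mem hxB
      · exact Subgroup.subset_closure ⟨hy, h⟩
  have h1 := hmin _ hY'
  have h2 : (Y \ {x, x⁻¹}).ncard < Y.ncard := by
    apply Set.ncard_lt_ncard _ (Set.toFinite _)
    refine ⟨Set.sdiff_subset, fun h => ?_⟩
    exact (h hx).2 (Or.inl rfl)
  omega

end Pool.Agent.H647.Kot
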