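import Pool.Graph.R_pool_sql_team_seeded_b677cdb8.E8helper62.HL.MH

/-!
The matroidal form of Haxell's theorem for sets of at most `k` ends (the library file `HL.MH` has
the case `k = 2`; the proof is the same).
-/

set_option autoImplicit false
set_option linter.unusedSectionVars false

namespace Pool.Agent.H647.Kot

open Finset Pool.Agent.E8helper62.HL

attribute [local instance] Classical.propDecidable

variable {F W E V : Type*} [Field F] [AddCommGroup W] [Module F W] [Fintype E]
variable {x : E → W} {en : E → Finset V}
theorem UU_card' {k : ℕ} (hk1 : 1 ≤ k) (h2 : ∀ e, (en e).card ≤ k) (I : Finset E) (vs : List E)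
    (hV : Valid F x en I vs) : (UU en I vs).card ≤ (2 * k - 1) * (DD en I vs).card := by
  induction vs with
  | nil => simp [UU, DD]
  | cons v vs ih =>
    obtain ⟨a1, a2, a3, a4, a5⟩ := hV
    rw [DD_card a4]
    have h1 := ih a1
    have hsub : UU en I (v :: vs) ⊆ UU en I vs ∪ ((NN en I v).biUnion en ∪ en v) := by
      intro z hz
      unfold UU at hz ⊢
      simp only [DD, List.toFinset_cons, Finset.mem_union, Finset.mem_biUnion,
        Finset.mem_insert] at hz ⊢
      rcases hz with ⟨a, ha | ha, hz⟩ | ⟨a, rfl | ha, hz⟩
      · exact Or.inl (Or.inl ⟨a, ha, hz⟩)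
      · exact Or.inr (Or.inl ⟨a, ha, hz⟩)
      · exact Or.inr (Or.inr hz)
      · exact Or.inl (Or.inr ⟨a, ha, hz⟩)
    have h3 : ((NN en I v).biUnion en ∪ en v).card ≤ (2 * k - 1) * (NN en I v).card := by
      obtain ⟨d, hd⟩ := a5
      have hdd := (Finset.mem_filter.1 hd).2
      rw [Finset.not_disjoint_iff] at hdd
      obtain ⟨z, hz1, hz2⟩ := hdd
      have hle : ((NN en I v).biUnion en).card ≤ k * (NN en I v).card := by
        refine Finset.card_biUnion_le.trans ?_
        calc ∑ u ∈ NN en I v, (en u).card ≤ ∑ _u ∈ NN en I v, k := Finset.sum_le_sum fun u _ => h2 u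
          _ = k * (NN en I v).card := by simp [mul_comm]
      have hun : (NN en I v).biUnion en ∪ en v ⊆ (NN en I v).biUnion en ∪ (en v).erase z := by
        intro y hy
        rw [Finset.mem_union] at hy ⊢
        rcases hy with h | h
        · exact Or.inl h
        · by_cases hyz : y = z
          · left
            rw [hyz, Finset.mem_biUnion]
            exact ⟨d, hd, hz2⟩
          · exact Or.inr (Finset.mem_erase.2 ⟨hyz, h⟩)
      have h4 := (Finset.card_le_card hun).trans (Finset.card_union_le _ _)
      have h5 := Finset.card_erase_of_mem hz1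
      have h6 := h2 v
      have h7 : 0 < (NN en I v).card := Finset.card_pos.2 ⟨d, hd⟩
      have h8 : k - 1 ≤ (k - 1) * (NN en I v).card := Nat.le_mul_of_pos_right _ h7
      have h9 : (2 * k - 1) * (NN en I v).card = k * (NN en I v).card +
          (k - 1) * (NN en I v).card := by
        rw [← add_mul]
        congr 1
        omega
      omega
    have h4 := (Finset.card_le_card hsub).trans (Finset.card_union_le _ _)
    rw [mul_add]
    omega

/-- hypothesis of the theorem -/
def Cond' (k : ℕ) (F : Type*) {W E V : Type*} [Field F] [AddCommGroup W] [Module F W] [Fintype E]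
    (x : E → W) (en : E → Finset V) : Prop :=
  ∀ (R : Finset E) (n : ℕ), Idp F x R → R.card + n + 1 ≤ Module.finrank F (sp F x univ) →
    ∀ U : Finset V, U.card ≤ (2 * k - 1) * n → ∃ w, x w ∉ sp F x R ∧ Disjoint (en w) U

theorem main' (hne : ∀ e, (en e).Nonempty) {k : ℕ} (hk1 : 1 ≤ k) (h2 : ∀ e, (en e).card ≤ k) (hC : Cond' k F x en)
    (c : ℕ) (hc : c + 1 ≤ Module.finrank F (sp F x univ)) :
    ∀ (r : ℕ) (I : Finset E) (vs : List E), Good F x en I → I.card = c → Valid F x en I vs →
      I.card - (DD en I vs).card = r →
      (∃ I', Good F x en I' ∧ c < I'.card) ∨ Improve F x en I vs := by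
  intro r
  induction r using Nat.strong_induction_on with
  | _ r ihr =>
  intro I vs hI hIc hv hr
  have hDle : (DD en I vs).card ≤ I.card := Finset.card_le_card (DD_subset I vs)
  have hRc : (I \ DD en I vs).card = I.card - (DD en I vs).card :=
    Finset.card_sdiff_of_subset (DD_subset I vs)
  obtain ⟨w, hw1, hw2⟩ := hC (I \ DD en I vs) (DD en I vs).card
    (hI.1.mono Finset.sdiff_subset) (by omega) (UU en I vs) (UU_card' hk1 h2 I vs hv)
  have hA : ∀ u ∈ vs, Disjoint (en w) (en u) := by
    intro u hu
    refine Finset.disjoint_of_subset_right ?_ hw2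
    intro z hz
    unfold UU
    rw [Finset.mem_union, Finset.mem_biUnion, Finset.mem_biUnion]
    exact Or.inr ⟨u, by simpa using hu, hz⟩
  have hB : ∀ d ∈ DD en I vs, Disjoint (en w) (en d) := by
    intro d hd
    refine Finset.disjoint_of_subset_right ?_ hw2
    intro z hz
    unfold UU
    rw [Finset.mem_union, Finset.mem_biUnion]
    exact Or.inl ⟨d, hd, hz⟩
  -- inner induction
  have inner : ∀ (m : ℕ) (I' : Finset E), Good F x en I' → I'.card = c → Valid F x en I' vs →
      DD en I vs ⊆ I' → sp F x (I' \ DD en I vs) = sp F x (I \ DD en I vs) →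
      (∀ u ∈ vs, NN en I' u = NN en I u) →
      (NN en I' w).card = m → (∃ I'', Good F x en I'' ∧ c < I''.card) ∨ Improve F x en I' vs := by
    intro m
    induction m using Nat.strong_induction_on with
    | _ m ihm =>
    intro I' hI' hIc' hv' hsub' hsp' hN' hm
    have hD : DD en I' vs = DD en I vs := DD_congr hN'
    have hw1' : x w ∉ sp F x (I' \ DD en I' vs) := by rw [hD, hsp']; exact hw1
    rcases Finset.eq_empty_or_nonempty (NN en I' w) with hE | hE
    · rcases swap hne I' vs w hI' hv' hw1' hA hE with ⟨I'', h3, h4⟩ | h3
      · left; exact ⟨I'', h3, by omega⟩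
      · right; exact h3
    · have hB' : ∀ d ∈ DD en I' vs, Disjoint (en w) (en d) := by
        intro d hd
        rw [hD] at hd
        exact hB d hd
      have hval : Valid F x en I' (w :: vs) := ⟨hv', hw1', hA, hB', hE⟩
      have hcard := DD_card hB'
      have hle := Finset.card_le_card (DD_subset (en := en) I' (w :: vs))
      have hpos := hE.card_pos
      rcases ihr (I'.card - (DD en I' (w :: vs)).card)
        (by rw [← hr, ← hD]; omega) I' (w :: vs) hI' hIc' hval rfl with h1 | h1
      · exact Or.inl h1
      · obtain ⟨pre, v, post, I'', e1, e2, e3, e4, e5, e6, e7⟩ := h1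
        rcases pre with _ | ⟨p, pre⟩
        · -- improvement at the new element
          simp only [List.nil_append, List.cons.injEq] at e1
          obtain ⟨e1, rfl⟩ := e1
          subst e1
          have hN'' : ∀ u ∈ vs, NN en I'' u = NN en I u := by
            intro u hu
            rw [← hN' u hu]
            exact e6 u hu
          have hv'' : Valid F x en I'' vs := valid_congr e6 e4 e5 hv'
          rcases ihm _ (hm ▸ e7) I'' e2 (e3.trans hIc') hv'' (by rw [← hD]; exact e4)
            (by rw [← hD, e5, hD, hsp']) hN'' rfl with h1 | h1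
          · exact Or.inl h1
          · right
            obtain ⟨pre, v, post, J, g1, g2, g3, g4, g5, g6, g7⟩ := h1
            have hpost : ∀ u ∈ post, u ∈ vs := fun u hu => by rw [g1]; simp [hu]
            have hDp : DD en I'' post = DD en I' post :=
              DD_congr (fun u hu => e6 u (hpost u hu))
            have hDsub : DD en I' post ⊆ DD en I' vs := by
              rw [g1, ← List.singleton_append, ← List.append_assoc]
              exact DD_mono_append I' _ post
            refine ⟨pre, v, post, J, g1, g2, g3.trans e3, ?_, ?_, ?_, ?_⟩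
            · rw [← hDp]; exact g4
            · rw [hDp] at g5
              rw [g5]
              exact sp_congr hDsub (DD_subset I' _) e4 e5
            · intro u hu
              rw [g6 u hu]
              exact e6 u (hpost u hu)
            · rw [← e6 v (by rw [g1]; simp)]
              exact g7
        · right
          simp only [List.cons_append, List.cons.injEq] at e1
          exact ⟨pre, v, post, I'', e1.2, e2, e3, e4, e5, e6, e7⟩
  exact inner _ I hI hIc hv (DD_subset I vs) rfl (fun _ _ => rfl) rfl

/-- **matroidal Haxell theorem** -/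
theorem haxell' (hne : ∀ e, (en e).Nonempty) {k : ℕ} (hk1 : 1 ≤ k) (h2 : ∀ e, (en e).card ≤ k) (hC : Cond' k F x en) :
    ∃ I : Finset E, Good F x en I ∧ sp F x I = sp F x univ := by
  obtain ⟨I, hI, hmax⟩ := Finset.exists_max_image (univ.filter (Good F x en)) (fun I => I.card)
    ⟨∅, by
      simp only [Finset.mem_filter, Finset.mem_univ, true_and]
      refine ⟨?_, by simp⟩
      unfold Idp
      rw [Finset.coe_empty]
      exact linearIndepOn_empty F x⟩
  have hIG : Good F x en I := (Finset.mem_filter.1 hI).2
  have hmax' : ∀ I', Good F x en I' → I'.card ≤ I.card := fun I' h =>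
    hmax I' (by simp only [Finset.mem_filter, Finset.mem_univ, true_and]; exact h)
  refine ⟨I, hIG, ?_⟩
  have hle : sp F x I ≤ sp F x univ := sp_mono (Finset.subset_univ I)
  have : FiniteDimensional F (sp F x univ) := by
    unfold sp
    exact FiniteDimensional.span_of_finite F ((Finset.finite_toSet _).image x)
  have hfr : Module.finrank F (sp F x I) = I.card := by
    have h := hIG.1
    unfold Idp LinearIndepOn at h
    have h3 := finrank_span_eq_card h
    unfold sp
    rw [Set.image_eq_range]
    rw [h3]
    simp
  by_contra hneq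
  have hlt : sp F x I < sp F x univ := lt_of_le_of_ne hle hneq
  have h3 := Submodule.finrank_lt_finrank_of_lt hlt
  rw [hfr] at h3
  rcases main' hne hk1 h2 hC I.card h3 _ I [] hIG rfl trivial rfl with ⟨I', h4, h5⟩ | h4
  · have := hmax' I' h4
    omega
  · obtain ⟨pre, v, post, I', e, -⟩ := h4
    simp at e

end Pool.Agent.H647.Kot
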