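import Pool.Agent.H647.Kot.Pack

/-!
# Connected even sets with many elements in every coset
-/

set_option autoImplicit false
set_option linter.unusedSectionVars false

namespace Pool.Agent.H647.Kot

open Finset Equiv Equiv.Perm
open Pool.Agent.Helper879.ECD (sp Ind sp_mono mem_sp exists_coeff)
open Pool.Agent.X267.Ham

variable {G : Type} [Group G] [Fintype G] [DecidableEq G]

lemma cfg_meets_left (H K : Subgroup G) (I : Finset G)
    (hI : sp (ZMod 2) (cfg H K) I = sp (ZMod 2) (cfg H K) univ) (g : G) :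
    ∃ e ∈ I, rp H e = rp H g := by
  by_contra hcon
  push Not at hcon
  let φ : ((G ⊕ G) →₀ ZMod 2) →ₗ[ZMod 2] ZMod 2 := Finsupp.lapply (Sum.inl (rp H g))
  have hle : sp (ZMod 2) (cfg H K) I ≤ LinearMap.ker φ := by
    unfold sp
    rw [Submodule.span_le]
    rintro _ ⟨e, he, rfl⟩
    show (Finsupp.single _ 1 + Finsupp.single _ 1 : (G ⊕ G) →₀ ZMod 2) (Sum.inl (rp H g)) = 0
    rw [Finsupp.add_apply, Finsupp.single_apply, Finsupp.single_apply, if_neg, if_neg, add_zero]
    · exact Sum.inr_ne_inl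
    · intro h
      exact hcon e he (Sum.inl_injective h)
  rw [hI] at hle
  have h1 : (Finsupp.single (Sum.inl (rp H g)) 1 + Finsupp.single (Sum.inr (rp K g)) 1 :
      (G ⊕ G) →₀ ZMod 2) (Sum.inl (rp H g)) = 0 := hle (mem_sp (Finset.mem_univ g))
  rw [Finsupp.add_apply, Finsupp.single_eq_same, Finsupp.single_apply, if_neg Sum.inr_ne_inl,
    add_zero] at h1
  exact one_ne_zero h1

lemma cfg_meets_right (H K : Subgroup G) (I : Finset G)
    (hI : sp (ZMod 2) (cfg H K) I = sp (ZMod 2) (cfg H K) univ) (g : G) :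
    ∃ e ∈ I, rp K e = rp K g := by
  by_contra hcon
  push Not at hcon
  let φ : ((G ⊕ G) →₀ ZMod 2) →ₗ[ZMod 2] ZMod 2 := Finsupp.lapply (Sum.inr (rp K g))
  have hle : sp (ZMod 2) (cfg H K) I ≤ LinearMap.ker φ := by
    unfold sp
    rw [Submodule.span_le]
    rintro _ ⟨e, he, rfl⟩
    show (Finsupp.single _ 1 + Finsupp.single _ 1 : (G ⊕ G) →₀ ZMod 2) (Sum.inr (rp K g)) = 0
    rw [Finsupp.add_apply, Finsupp.single_apply, Finsupp.single_apply, if_neg, if_neg, add_zero]
    · intro h
      exact hcon e he (Sum.inr_injective h)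
    · exact Sum.inl_ne_inr
  rw [hI] at hle
  have h1 : (Finsupp.single (Sum.inl (rp H g)) 1 + Finsupp.single (Sum.inr (rp K g)) 1 :
      (G ⊕ G) →₀ ZMod 2) (Sum.inr (rp K g)) = 0 := hle (mem_sp (Finset.mem_univ g))
  rw [Finsupp.add_apply, Finsupp.single_eq_same, Finsupp.single_apply, if_neg Sum.inl_ne_inr,
    zero_add] at h1
  exact one_ne_zero h1

/-- **A connected even subset** with more than `c` elements in every left coset of `K`. -/
theorem exists_even2 (H K : Subgroup G) (hgen : H ⊔ K = ⊤) (c : ℕ)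
    (hc : 2 * (H.index + K.index) + c * K.index ≤ Fintype.card G + 2) :
    ∃ F : Finset G, (∀ y, Even {e | e ∈ F ∧ rp H e = y}.ncard) ∧
      (∀ y, Even {e | e ∈ F ∧ rp K e = y}.ncard) ∧
      (∀ y, c + 1 ≤ {e | e ∈ F ∧ rp K e = rp K y}.ncard) ∧
      (∀ y, ∃ e ∈ F, rp H e = rp H y) ∧
      ∀ S : Set G, S.Nonempty → (∀ e f, rp H e = rp H f → e ∈ S → f ∈ S) →
        (∀ e f, e ∈ F → f ∈ F → rp K e = rp K f → e ∈ S → f ∈ S) → S = Set.univ := by
  classical
  let x : Bool ⊕ Fin c → G → (G ⊕ G) →₀ ZMod 2 := Sum.elim (fun _ => cfg H K) (fun _ => cap K)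
  have hr1 : Module.finrank (ZMod 2) (sp (ZMod 2) (cfg H K) univ) + 1 ≤ H.index + K.index := by
    have := rank_bound H K ⊤ le_top le_top
    rwa [Subgroup.index_top] at this
  have hr2 := cap_rank K
  obtain ⟨I, hdis, hsp⟩ := avg_pack (G := G) x (fun i g => by
      rcases i with i | i
      · exact cfg_smul _ _ g
      · exact cap_smul _ g) (by
    rw [Fintype.sum_sum_type]
    have s1 : ∑ b : Bool, Module.finrank (ZMod 2) (sp (ZMod 2) (x (Sum.inl b)) univ) =
        2 * Module.finrank (ZMod 2) (sp (ZMod 2) (cfg H K) univ) := by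
      rw [Fintype.sum_bool]
      exact (two_mul _).symm
    have s2 : ∑ i : Fin c, Module.finrank (ZMod 2) (sp (ZMod 2) (x (Sum.inr i)) univ) =
        c * Module.finrank (ZMod 2) (sp (ZMod 2) (cap K) univ) := by
      have h0 : ∀ i : Fin c, Module.finrank (ZMod 2) (sp (ZMod 2) (x (Sum.inr i)) univ) =
          Module.finrank (ZMod 2) (sp (ZMod 2) (cap K) univ) := fun _ => rfl
      rw [Finset.sum_congr rfl (fun i _ => h0 i), Finset.sum_const, Finset.card_univ,
        Fintype.card_fin, smul_eq_mul]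
    rw [s1, s2]
    have := Nat.mul_le_mul_left c hr2
    omega)
  have hsp1 : ∀ b : Bool, sp (ZMod 2) (cfg H K) (I (Sum.inl b)) = sp (ZMod 2) (cfg H K) univ :=
    fun b => hsp (Sum.inl b)
  have hsp2 : ∀ i : Fin c, sp (ZMod 2) (cap K) (I (Sum.inr i)) = sp (ZMod 2) (cap K) univ :=
    fun i => hsp (Sum.inr i)
  let B : Finset G := I (Sum.inl false) ∪ univ.biUnion (fun i : Fin c => I (Sum.inr i))
  have hv : ∑ q ∈ B, cfg H K q ∈ sp (ZMod 2) (cfg H K) (I (Sum.inl true)) := by
    rw [hsp1 true]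
    exact Submodule.sum_mem _ (fun q _ => mem_sp (Finset.mem_univ q))
  obtain ⟨cf, hcf⟩ := exists_coeff hv
  let J : Finset G := (I (Sum.inl true)).filter (fun q => cf q ≠ 0)
  have hJ : ∑ q ∈ J, cfg H K q = ∑ q ∈ B, cfg H K q := by
    rw [← hcf, Finset.sum_filter]
    apply Finset.sum_congr rfl
    intro q _
    by_cases h : cf q = 0
    · simp [h]
    · rw [if_pos h, z2' _ h, one_smul]
  have hd12 : Disjoint B J := by
    apply Disjoint.mono_right (Finset.filter_subset _ _)
    rw [Finset.disjoint_union_left]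
    refine ⟨hdis (Sum.inl false) (Sum.inl true) (by simp), ?_⟩
    rw [Finset.disjoint_biUnion_left]
    intro i _
    exact hdis (Sum.inr i) (Sum.inl true) (by simp)
  let F : Finset G := B ∪ J
  have hsum : ∑ q ∈ F, cfg H K q = 0 := by
    rw [Finset.sum_union hd12, hJ]
    ext v
    rw [Finsupp.add_apply]
    have : ∀ a : ZMod 2, a + a = 0 := by decide
    exact this _
  have hm : ∀ e ∈ I (Sum.inl false), e ∈ F := fun e he =>
    Finset.mem_union_left _ (Finset.mem_union_left _ he)
  have hm' : ∀ i : Fin c, ∀ e ∈ I (Sum.inr i), e ∈ F := fun i e he =>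
    Finset.mem_union_left _ (Finset.mem_union_right _
      (Finset.mem_biUnion.2 ⟨i, Finset.mem_univ i, he⟩))
  refine ⟨F, ?_, ?_, ?_, ?_, ?_⟩
  · intro y
    have h5 : {e | e ∈ F ∧ rp H e = y} = ((F.filter (fun e => rp H e = y) : Finset G) : Set G) := by
      ext e; simp
    rw [h5, Set.ncard_coe_finset]
    apply even_of_sum F (cfg H K) _ (Sum.inl y) _ hsum
    intro q _
    show (Finsupp.single _ 1 + Finsupp.single _ 1 : (G ⊕ G) →₀ ZMod 2) (Sum.inl y) = _
    rw [Finsupp.add_apply, Finsupp.single_apply, Finsupp.single_apply]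
    simp only [reduceCtorEq, if_false, add_zero, Sum.inl.injEq]
  · intro y
    have h5 : {e | e ∈ F ∧ rp K e = y} = ((F.filter (fun e => rp K e = y) : Finset G) : Set G) := by
      ext e; simp
    rw [h5, Set.ncard_coe_finset]
    apply even_of_sum F (cfg H K) _ (Sum.inr y) _ hsum
    intro q _
    show (Finsupp.single _ 1 + Finsupp.single _ 1 : (G ⊕ G) →₀ ZMod 2) (Sum.inr y) = _
    rw [Finsupp.add_apply, Finsupp.single_apply, Finsupp.single_apply]
    simp only [reduceCtorEq, if_false, zero_add, Sum.inr.injEq]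
  · intro y
    choose e he1 he2 using fun i : Fin c => cap_meets K (I (Sum.inr i)) (hsp2 i) y
    obtain ⟨e0, he01, he02⟩ := cfg_meets_right H K (I (Sum.inl false)) (hsp1 false) y
    have hinj : Function.Injective e := by
      intro i j hij
      by_contra hne
      have h6 := hdis (Sum.inr i) (Sum.inr j) (fun h => hne (Sum.inr_injective h))
      exact Finset.disjoint_left.1 h6 (he1 i) (hij ▸ he1 j)
    have hdj : Disjoint {e0} (Set.range e) := by
      rw [Set.disjoint_left]
      rintro _ h7 ⟨i, rfl⟩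
      rw [Set.mem_singleton_iff] at h7
      have h6 := hdis (Sum.inl false) (Sum.inr i) (by simp)
      exact Finset.disjoint_left.1 h6 he01 (h7 ▸ he1 i)
    have h8 : {e0} ∪ Set.range e ⊆ {e | e ∈ F ∧ rp K e = rp K y} := by
      rintro g (h | ⟨i, rfl⟩)
      · rw [Set.mem_singleton_iff] at h
        rw [h]
        exact ⟨hm _ he01, he02⟩
      · exact ⟨hm' i _ (he1 i), he2 i⟩
    have h9 := Set.ncard_le_ncard h8 (Set.toFinite _)
    rw [Set.ncard_union_eq hdj (Set.toFinite _) (Set.toFinite _), Set.ncard_singleton,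
      ← Set.image_univ, Set.ncard_image_of_injective _ hinj, Set.ncard_univ, Nat.card_fin] at h9
    omega
  · intro y
    obtain ⟨e0, he01, he02⟩ := cfg_meets_left H K (I (Sum.inl false)) (hsp1 false) y
    exact ⟨e0, hm _ he01, he02⟩
  · intro S hS hp hq
    let ψ : Set G := {g | ∃ e ∈ I (Sum.inl false), e ∈ S ∧ e⁻¹ * g ∈ K}
    have h1 := agree H K (I (Sum.inl false)) (hsp1 false) S ψ (stab_of_rp hp)
      (by
        intro x hx g
        constructor
        · rintro ⟨e, h1, h2, h3⟩
          refine ⟨e, h1, h2, ?_⟩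
          have := K.mul_mem h3 (K.inv_mem hx)
          rwa [mul_assoc, mul_assoc, mul_inv_cancel, mul_one] at this
        · rintro ⟨e, h1, h2, h3⟩
          refine ⟨e, h1, h2, ?_⟩
          rw [← mul_assoc]
          exact K.mul_mem h3 hx)
      (by
        intro e he
        constructor
        · intro h
          refine ⟨e, he, h, ?_⟩
          rw [inv_mul_cancel]
          exact K.one_mem
        · rintro ⟨e', h1, h2, h3⟩
          exact hq e' e (hm _ h1) (hm _ he) ((rp_eq_iff K).2 h3) h2)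
    have hKS : K ≤ stab S := by
      intro x hx g
      rw [h1, h1]
      constructor
      · rintro ⟨e, h2, h3, h4⟩
        refine ⟨e, h2, h3, ?_⟩
        have := K.mul_mem h4 (K.inv_mem hx)
        rwa [mul_assoc, mul_assoc, mul_inv_cancel, mul_one] at this
      · rintro ⟨e, h2, h3, h4⟩
        refine ⟨e, h2, h3, ?_⟩
        rw [← mul_assoc]
        exact K.mul_mem h4 hx
    have h2 : (⊤ : Subgroup G) ≤ stab S := by
      rw [← hgen]
      exact sup_le (stab_of_rp hp) hKS
    obtain ⟨s, hs⟩ := hS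
    ext g
    simp only [Set.mem_univ, iff_true]
    have h3 := h2 (Subgroup.mem_top (s⁻¹ * g)) s
    rw [mul_inv_cancel_left] at h3
    exact h3.2 hs

end Pool.Agent.H647.Kot
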