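import Pool.Agent.H647.Kot.Side
import Pool.Agent.H647.Kot.Pack2

/-!
# Complements of subgroups: all cases with a subgroup of index at least three
-/

set_option autoImplicit false
set_option linter.unusedSectionVars false

namespace Pool.Agent.H647.Kot

open Finset Equiv Equiv.Perm
open Pool.Agent.Helper879.ECD (sp Ind sp_mono mem_sp exists_coeff)
open Pool.Agent.X267.Ham

variable {G : Type} [Group G] [Fintype G] [DecidableEq G]

theorem exists_even_invol (H K : Subgroup G) (hgen : H ⊔ K = ⊤) (hH : 4 ≤ Nat.card H)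
    (hK : Nat.card K = 2) :
    ∃ F : Finset G, (∀ y, Even {e | e ∈ F ∧ rp H e = y}.ncard) ∧
      (∀ g g', rp K g = rp K g' → g ∈ F → g' ∈ F) ∧
      ∀ S : Set G, S.Nonempty → (∀ e f, rp H e = rp H f → e ∈ S → f ∈ S) →
        (∀ e f, e ∈ F → f ∈ F → rp K e = rp K f → e ∈ S → f ∈ S) → S = Set.univ := by
  classical
  have hr := blk_rank H K (by rw [hK]; exact ⟨1, rfl⟩)
  have h1 := H.index_mul_card
  have h2 := K.index_mul_card
  have h3 : K.index = Fintype.card (G ⧸ K) := by rw [Subgroup.index, Nat.card_eq_fintype_card]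
  have h4 : 2 * H.index ≤ K.index := by
    have : H.index * 4 ≤ K.index * 2 := by
      rw [← hK, h2, ← h1]
      exact Nat.mul_le_mul_left _ hH
    omega
  obtain ⟨I, hdis, hsp⟩ := avg_pack (G := G) (K := Bool) (fun _ => blk H K)
    (fun _ g => blk_smul H K g) (by
      rw [Fintype.sum_bool, ← h3]
      omega)
  have hv : ∑ q ∈ I false, blk H K q ∈ sp (ZMod 2) (blk H K) (I true) := by
    rw [hsp true]
    exact Submodule.sum_mem _ (fun q _ => mem_sp (Finset.mem_univ q))
  obtain ⟨c, hc⟩ := exists_coeff hv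
  let J : Finset (G ⧸ K) := (I true).filter (fun q => c q ≠ 0)
  have hJ : ∑ q ∈ J, blk H K q = ∑ q ∈ I false, blk H K q := by
    rw [← hc, Finset.sum_filter]
    apply Finset.sum_congr rfl
    intro q _
    by_cases h : c q = 0
    · simp [h]
    · rw [if_pos h, z2' _ h, one_smul]
  have hd12 : Disjoint (I false) J :=
    (hdis false true (by simp)).mono_right (Finset.filter_subset _ _)
  let F2 : Finset (G ⧸ K) := I false ∪ J
  have hsum : ∑ q ∈ F2, blk H K q = 0 := by
    rw [Finset.sum_union hd12, hJ]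
    ext v
    rw [Finsupp.add_apply]
    have : ∀ a : ZMod 2, a + a = 0 := by decide
    exact this _
  let F : Finset G := univ.filter (fun g => (g : G ⧸ K) ∈ F2)
  have hsumF : ∑ g ∈ F, Finsupp.single (rp H g) (1 : ZMod 2) = 0 := by
    rw [← hsum]
    unfold blk
    rw [← Finset.sum_fiberwise_of_maps_to (s := F) (t := F2) (g := fun g : G => (g : G ⧸ K))
      (fun g hg => (Finset.mem_filter.1 hg).2)]
    apply Finset.sum_congr rfl
    intro q hq
    apply Finset.sum_congr _ (fun _ _ => rfl)
    ext g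
    simp only [F, Finset.mem_filter, Finset.mem_univ, true_and]
    constructor
    · rintro ⟨_, h⟩; exact h
    · intro h; exact ⟨h ▸ hq, h⟩
  refine ⟨F, ?_, ?_, ?_⟩
  · intro y
    have h5 : {e | e ∈ F ∧ rp H e = y} = ((F.filter (fun e => rp H e = y) : Finset G) : Set G) := by
      ext e; simp
    rw [h5, Set.ncard_coe_finset]
    apply even_of_sum F (fun g => Finsupp.single (rp H g) (1 : ZMod 2)) _ y _ hsumF
    intro e _
    rw [Finsupp.single_apply]
  · intro g g' hgg hg
    have h5 : (g : G ⧸ K) = (g' : G ⧸ K) := by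
      rw [QuotientGroup.eq]
      exact (rp_eq_iff K).1 hgg
    simp only [F, Finset.mem_filter, Finset.mem_univ, true_and] at hg ⊢
    rwa [← h5]
  · intro S hS hp hq
    have hHS : H ≤ stab S := stab_of_rp hp
    let w : G → ZMod 2 := fun u => if u ∈ S then 1 else 0
    let φ := Finsupp.linearCombination (ZMod 2) w
    have hφ : ∀ q, φ (blk H K q) =
        (((univ.filter (fun g : G => (g : G ⧸ K) = q)).filter (fun g => g ∈ S)).card : ZMod 2) := by
      intro q
      unfold blk
      rw [map_sum, Finset.card_filter, Nat.cast_sum]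
      apply Finset.sum_congr rfl
      intro g _
      simp only [φ, Finsupp.linearCombination_single, one_smul, w]
      rw [if_congr (rp_mem_iff hHS g) rfl rfl]
      by_cases h : g ∈ S <;> simp [h]
    have hle : sp (ZMod 2) (blk H K) (I false) ≤ LinearMap.ker φ := by
      unfold sp
      rw [Submodule.span_le]
      rintro _ ⟨q, hq', rfl⟩
      show φ (blk H K q) = 0
      rw [hφ, ZMod.natCast_eq_zero_iff_even]
      have hqF : ∀ g : G, (g : G ⧸ K) = q → g ∈ F := by
        intro g hg
        rw [Finset.mem_filter]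
        refine ⟨mem_univ _, ?_⟩
        rw [hg]
        exact Finset.mem_union_left _ hq'
      by_cases hex : ∃ g : G, (g : G ⧸ K) = q ∧ g ∈ S
      · obtain ⟨g, hg1, hg2⟩ := hex
        rw [Finset.filter_true_of_mem, Pool.Agent.X267.Ham.card_mk, hK]
        · exact ⟨1, rfl⟩
        · intro g' hg'
          rw [Finset.mem_filter] at hg'
          exact hq g g' (hqF g hg1) (hqF g' hg'.2)
            ((rp_eq_iff K).2 (QuotientGroup.eq.1 (hg1.trans hg'.2.symm))) hg2
      · rw [Finset.filter_false_of_mem]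
        · exact ⟨0, rfl⟩
        · intro g' hg' h
          rw [Finset.mem_filter] at hg'
          exact hex ⟨g', hg'.2, h⟩
    rw [hsp false] at hle
    have hKS : K ≤ stab S := by
      have key : ∀ g : G, ∀ x ∈ K, g ∈ S → g * x ∈ S := by
        intro g x hx hg
        by_contra hgx
        have h5 : φ (blk H K (g : G ⧸ K)) = 0 := hle (mem_sp (Finset.mem_univ _))
        rw [hφ, ZMod.natCast_eq_zero_iff_even] at h5
        have h6 := Pool.Agent.X267.Ham.card_mk K (g : G ⧸ K)
        rw [hK] at h6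
        have h7 : g ∈ (univ.filter (fun g' : G => (g' : G ⧸ K) = (g : G ⧸ K))).filter (fun g => g ∈ S) := by
          simp [hg]
        have h8 : g * x ∈ (univ.filter (fun g' : G => (g' : G ⧸ K) = (g : G ⧸ K))) := by
          rw [Finset.mem_filter]
          refine ⟨mem_univ _, ?_⟩
          symm
          rw [QuotientGroup.eq, inv_mul_cancel_left]
          exact hx
        have h9 : ((univ.filter (fun g' : G => (g' : G ⧸ K) = (g : G ⧸ K))).filter
            (fun g => g ∈ S)).card < 2 := by
          rw [← h6]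
          apply Finset.card_lt_card
          refine ⟨Finset.filter_subset _ _, fun hsub => hgx ?_⟩
          exact (Finset.mem_filter.1 (hsub h8)).2
        have h10 : 0 < ((univ.filter (fun g' : G => (g' : G ⧸ K) = (g : G ⧸ K))).filter
            (fun g => g ∈ S)).card := Finset.card_pos.2 ⟨g, h7⟩
        obtain ⟨r, hr⟩ := h5
        omega
      intro x hx g
      constructor
      · intro h
        have := key _ x⁻¹ (K.inv_mem hx) h
        rwa [mul_inv_cancel_right] at this
      · exact key g x hx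
    have h3 : (⊤ : Subgroup G) ≤ stab S := by
      rw [← hgen]
      exact sup_le hHS hKS
    obtain ⟨s, hs⟩ := hS
    ext g
    simp only [Set.mem_univ, iff_true]
    have h4 := h3 (Subgroup.mem_top (s⁻¹ * g)) s
    rw [mul_inv_cancel_left] at h4
    exact h4.2 hs

/-- from the full closure to the closure inside `F` -/
lemma conn_of_full (H K : Subgroup G) (F : Set G)
    (h : ∀ S : Set G, S.Nonempty → (∀ e f, rp H e = rp H f → e ∈ S → f ∈ S) →
        (∀ e f, e ∈ F → f ∈ F → rp K e = rp K f → e ∈ S → f ∈ S) → S = Set.univ) :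
    ∀ S : Set G, (∃ e ∈ F, e ∈ S) → (∀ e f, e ∈ F → f ∈ F → rp H e = rp H f → e ∈ S →
      f ∈ S) → (∀ e f, e ∈ F → f ∈ F → rp K e = rp K f → e ∈ S → f ∈ S) → ∀ e ∈ F, e ∈ S := by
  intro S hS hp hq
  let S' : Set G := {g | ∃ e ∈ F, e ∈ S ∧ rp H e = rp H g}
  have h1 := h S' (by
      obtain ⟨e, he, heS⟩ := hS
      exact ⟨e, e, he, heS, rfl⟩)
    (by
      rintro e f hef ⟨e0, h1, h2, h3⟩
      exact ⟨e0, h1, h2, h3.trans hef⟩)
    (by
      rintro e f he hf hef ⟨e0, h1, h2, h3⟩
      exact ⟨f, hf, hq e f he hf hef (hp e0 e h1 he h3 h2), rfl⟩)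
  intro e he
  have h2 : e ∈ S' := by rw [h1]; exact Set.mem_univ _
  obtain ⟨e0, h3, h4, h5⟩ := h2
  exact hp e0 e h3 he h5 h4

/-- the other order of the two sides -/
lemma conn_symm (H K : Subgroup G) (F : Set G)
    (h : ∀ S : Set G, (∃ e ∈ F, e ∈ S) → (∀ e f, e ∈ F → f ∈ F → rp H e = rp H f → e ∈ S →
      f ∈ S) → (∀ e f, e ∈ F → f ∈ F → rp K e = rp K f → e ∈ S → f ∈ S) → ∀ e ∈ F, e ∈ S) :
    ∀ S : Set G, (∃ e ∈ F, e ∈ S) → (∀ e f, e ∈ F → f ∈ F → rp K e = rp K f → e ∈ S →
      f ∈ S) → (∀ e f, e ∈ F → f ∈ F → rp H e = rp H f → e ∈ S → f ∈ S) → ∀ e ∈ F, e ∈ S :=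
  fun S h1 h2 h3 => h S h1 h3 h2

/-- one subgroup only -/
theorem compl_top (M : Subgroup G) (hM : M ≠ ⊤) :
    ∃ σ : Perm G, (∀ x y, σ.SameCycle x y) ∧ ∀ g, g⁻¹ * σ g ∉ M := by
  classical
  have hidx : 2 * Nat.card M ≤ Fintype.card G := by
    have h1 := M.index_mul_card
    rw [Nat.card_eq_fintype_card (α := G)] at h1
    have h2 : M.index ≠ 1 := fun h => hM (Subgroup.index_eq_one.1 h)
    have h3 : M.index ≠ 0 := Subgroup.index_ne_zero_of_finite
    rw [← h1]
    exact Nat.mul_le_mul_right _ (by omega)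
  obtain ⟨σ, hσ1, hσ2⟩ := half_edges (fun _ : G × Bool => ()) (fun z => rp M z.1) (by
      intro y
      have h1 : {z : G × Bool | (fun _ : G × Bool => ()) z = y} = Set.univ := by
        ext z; simp
      rw [h1, Set.ncard_univ, Nat.card_eq_fintype_card, Fintype.card_prod, Fintype.card_bool]
      exact ⟨Fintype.card G, by ring⟩)
    (by
      intro z0
      have h1 : {z : G × Bool | (fun _ : G × Bool => ()) z = (fun _ : G × Bool => ()) z0} =
          Set.univ := by
        ext z; simp
      have h2 : {z : G × Bool | (fun _ : G × Bool => ()) z = (fun _ : G × Bool => ()) z0 ∧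
          rp M z.1 = rp M z0.1} = {z : G × Bool | (z.1 ∈ (∅ : Set G) ∧ z.2 = true) ∨
            z.1 ∈ {e | rp M e = rp M z0.1}} := by
        ext z; simp
      have h3 : Nat.card (G × Bool) = Fintype.card G * 2 := by
        rw [Nat.card_eq_fintype_card, Fintype.card_prod, Fintype.card_bool]
      rw [h1, h2, count_half _ _ _ (Set.empty_disjoint _), ncard_coset, Set.ncard_univ,
        Set.ncard_empty, h3]
      omega)
    (by
      intro S hS hcl
      obtain ⟨s, hs⟩ := hS
      ext g
      simp only [Set.mem_univ, iff_true]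
      exact hcl (s, true) (g, true) rfl hs)
  refine ⟨σ, hσ1, fun g h => ?_⟩
  obtain ⟨β, β', _, h2⟩ := hσ2 g
  exact h2 ((rp_eq_iff M).2 h)

/-- **Order two, and a subgroup of index at least three.** -/
theorem compl_invol (H L K M : Subgroup G) (hgen : H ⊔ K = ⊤) (hH : Nat.card H = 2)
    (hL : L < H) (hK : 4 ≤ Nat.card K) (hM : M ≤ K) (h3 : 3 * Nat.card M ≤ Nat.card K) :
    ∃ σ : Perm G, (∀ x y, σ.SameCycle x y) ∧
      ∀ g, (g⁻¹ * σ g ∈ H ∧ g⁻¹ * σ g ∉ L) ∨ (g⁻¹ * σ g ∈ K ∧ g⁻¹ * σ g ∉ M) := by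
  classical
  by_cases hKt : K = ⊤
  · obtain ⟨σ, h1, h2⟩ := compl_top M (by
      intro h
      rw [h] at h3
      have h5 : Nat.card K ≤ Nat.card (⊤ : Subgroup G) := by rw [hKt]
      omega)
    exact ⟨σ, h1, fun g => Or.inr ⟨by rw [hKt]; exact Subgroup.mem_top _, h2 g⟩⟩
  have hL1 : L = ⊥ := by
    have h4 : Nat.card L ∣ 2 := by
      rw [← hH]
      exact Subgroup.card_dvd_of_le hL.le
    have h5 : Nat.card L ≠ 2 := by
      intro h5
      apply hL.ne
      apply SetLike.coe_injective
      apply Set.eq_of_subset_of_ncard_le hL.le _ (Set.toFinite _)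
      show Nat.card H ≤ Nat.card L
      omega
    have h6 := Nat.le_of_dvd (by norm_num) h4
    have h7 : 0 < Nat.card L := Nat.card_pos
    exact Subgroup.card_eq_one.1 (by omega)
  obtain ⟨F, f1, f2, f3⟩ := exists_even_invol K H (by rw [sup_comm]; exact hgen) hK hH
  have hmeet : ∀ g, ∃ e ∈ F, rp K e = rp K g := by
    intro g
    by_contra hcon
    push Not at hcon
    have h4 := f3 {e | rp K e = rp K g} ⟨g, rfl⟩ (fun e f hef he => by
        rw [Set.mem_ofPred_eq] at he ⊢
        rw [← hef, he])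
      (fun e f he _ _ heS => absurd heS (hcon e he))
    apply hKt
    rw [eq_top_iff]
    intro x _
    have h5 : g * x ∈ ({e | rp K e = rp K g} : Set G) := by rw [h4]; exact Set.mem_univ _
    have h6 := (rp_eq_iff K).1 (Eq.symm (show rp K (g * x) = rp K g from h5))
    rwa [inv_mul_cancel_left] at h6
  have hconn := conn_symm K H (F : Set G) (conn_of_full K H (F : Set G) f3)
  refine glue H K L M (F : Set G) ∅ (Set.disjoint_empty _) ?_ f1 ?_ ?_ ?_ ?_ hL.le hM hconn
  · intro y
    rcases Set.eq_empty_or_nonempty {e | e ∈ (F : Set G) ∧ rp H e = y} with h | ⟨e0, he0, he1⟩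
    · rw [h, Set.ncard_empty]; exact ⟨0, rfl⟩
    · have h5 : {e | e ∈ (F : Set G) ∧ rp H e = y} = {e | rp H e = rp H e0} := by
        ext e
        rw [Set.mem_ofPred_eq, Set.mem_ofPred_eq, he1]
        constructor
        · rintro ⟨_, h⟩; exact h
        · intro h
          exact ⟨f2 e0 e (he1.trans h.symm) he0, h⟩
      rw [h5, ncard_coset, hH]
      exact ⟨1, rfl⟩
  · intro g
    rw [hL1]
    have h0 : ∀ (U : Subgroup G), {e : G | e ∈ (∅ : Set G) ∧ rp U e = rp U g}.ncard = 0 := by
      intro U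
      have : {e : G | e ∈ (∅ : Set G) ∧ rp U e = rp U g} = ∅ := by ext e; simp
      rw [this, Set.ncard_empty]
    rw [h0, h0]
    have h1 : {e | e ∈ (F : Set G) ∧ rp (⊥ : Subgroup G) e = rp (⊥ : Subgroup G) g} ⊆ {g} := by
      rintro e ⟨_, he⟩
      rw [rp_eq_iff, Subgroup.mem_bot] at he
      rw [Set.mem_singleton_iff]
      exact inv_mul_eq_one.1 he
    by_cases hg : g ∈ F
    · have h2 := Set.ncard_le_ncard h1 (Set.toFinite _)
      rw [Set.ncard_singleton] at h2
      have h5 : {e | e ∈ (F : Set G) ∧ rp H e = rp H g} = {e | rp H e = rp H g} := by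
        ext e
        rw [Set.mem_ofPred_eq, Set.mem_ofPred_eq]
        constructor
        · rintro ⟨_, h⟩; exact h
        · intro h
          exact ⟨f2 g e h.symm hg, h⟩
      rw [h5, ncard_coset, hH]
      omega
    · have h2 : {e | e ∈ (F : Set G) ∧ rp (⊥ : Subgroup G) e = rp (⊥ : Subgroup G) g} = ∅ := by
        rw [Set.eq_empty_iff_forall_notMem]
        intro e he
        have h6 := h1 he
        rw [Set.mem_singleton_iff] at h6
        rw [h6] at he
        exact hg he.1
      rw [h2, Set.ncard_empty]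
      omega
  · have h7 : ((F : Set G) ∪ ∅)ᶜ = (F : Set G)ᶜ := by rw [Set.union_empty]
    rw [h7]
    exact side_all K M hM h3 _
  · intro q hq
    exact absurd hq (Set.notMem_empty q)
  · intro q _ _
    exact hmeet q

/-- **Large index.** -/
theorem compl_large (H L K M : Subgroup G) (hgen : H ⊔ K = ⊤) (hL : L < H) (hM : M ≤ K)
    (hb : 2 * (Nat.card H * Nat.card M + Nat.card K) ≤ Nat.card H * Nat.card K) :
    ∃ σ : Perm G, (∀ x y, σ.SameCycle x y) ∧
      ∀ g, (g⁻¹ * σ g ∈ H ∧ g⁻¹ * σ g ∉ L) ∨ (g⁻¹ * σ g ∈ K ∧ g⁻¹ * σ g ∉ M) := by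
  classical
  have hMpos : 0 < Nat.card M := Nat.card_pos
  have hKpos : 0 < Nat.card K := Nat.card_pos
  have hHpos : 0 < Nat.card H := Nat.card_pos
  obtain ⟨F, f1, f2, f3, f4, f5⟩ := exists_even2 H K hgen (2 * Nat.card M - 2) (by
    have h1 := H.index_mul_card
    have h2 := K.index_mul_card
    rw [Nat.card_eq_fintype_card (α := G)] at h1 h2
    have h3 : (2 * (H.index + K.index) + (2 * Nat.card M - 2) * K.index) =
        2 * H.index + 2 * Nat.card M * K.index := by
      obtain ⟨d, hd⟩ := Nat.exists_eq_add_of_le (show 1 ≤ Nat.card M from hMpos)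
      rw [hd]
      have : 2 * (1 + d) - 2 = 2 * d := by omega
      rw [this]
      ring
    rw [h3]
    have h4 : (2 * H.index + 2 * Nat.card M * K.index) * (Nat.card H * Nat.card K) ≤
        Fintype.card G * (Nat.card H * Nat.card K) := by
      calc (2 * H.index + 2 * Nat.card M * K.index) * (Nat.card H * Nat.card K)
          = 2 * (H.index * Nat.card H) * Nat.card K +
            2 * Nat.card M * (K.index * Nat.card K) * Nat.card H := by ring
        _ = Fintype.card G * (2 * (Nat.card H * Nat.card M + Nat.card K)) := by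
            rw [h1, h2]; ring
        _ ≤ Fintype.card G * (Nat.card H * Nat.card K) := Nat.mul_le_mul_left _ hb
    have h5 := Nat.le_of_mul_le_mul_right h4 (Nat.mul_pos hHpos hKpos)
    omega)
  have f3' : ∀ y, 2 * Nat.card M ≤ {e | e ∈ (F : Set G) ∧ rp K e = rp K y}.ncard := by
    intro y
    have h1 := f3 y
    obtain ⟨r, hr⟩ := f2 (rp K y)
    have h2 : {e | e ∈ (F : Set G) ∧ rp K e = rp K y} = {e | e ∈ F ∧ rp K e = rp K y} := rfl
    rw [h2]
    omega
  have hconn := conn_of_full H K (F : Set G) f5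
  have hmK : ∀ q, ∃ e ∈ (F : Set G), rp K e = rp K q := by
    intro q
    by_contra hcon
    push Not at hcon
    have h1 := f3' q
    have h2 : {e | e ∈ (F : Set G) ∧ rp K e = rp K q} = ∅ := by
      rw [Set.eq_empty_iff_forall_notMem]
      rintro e ⟨he, he'⟩
      exact hcon e he he'
    rw [h2, Set.ncard_empty] at h1
    omega
  have hidx : 2 * Nat.card L ≤ Nat.card H ∧ (Nat.card H = 2 * Nat.card L ∨
      3 * Nat.card L ≤ Nat.card H) := by
    obtain ⟨t, ht⟩ := Subgroup.card_dvd_of_le hL.le
    have h5 : Nat.card L ≠ Nat.card H := by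
      intro h5
      apply hL.ne
      apply SetLike.coe_injective
      apply Set.eq_of_subset_of_ncard_le hL.le _ (Set.toFinite _)
      show Nat.card H ≤ Nat.card L
      omega
    have hLpos : 0 < Nat.card L := Nat.card_pos
    have ht2 : 2 ≤ t := by
      rcases Nat.lt_or_ge t 2 with h | h
      · interval_cases t
        · omega
        · omega
      · exact h
    rcases Nat.lt_or_ge t 3 with h | h
    · have h6 : t = 2 := by omega
      rw [h6] at ht
      constructor
      · omega
      · left; omega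
    · have h7 : 3 * Nat.card L ≤ Nat.card L * t := by
        rw [mul_comm]
        exact Nat.mul_le_mul_left _ h
      rw [← ht] at h7
      exact ⟨by omega, Or.inr h7⟩
  rcases hidx.2 with h2 | h3
  · obtain ⟨Q, hQ1, hQ2⟩ := side_two H L hL.le h2 (F : Set G) f1
    refine glue H K L M (F : Set G) Q hQ1 f1 f2 hQ2 ?_ (fun q _ => f4 q) (fun q _ _ => hmK q)
      hL.le hM hconn
    apply side_robust K M hM
    · rw [Set.disjoint_left]
      intro e he he'
      exact he' (Or.inl he)
    · exact f3'
  · refine glue H K L M (F : Set G) (F : Set G)ᶜ disjoint_compl_right f1 f2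
      (side_all H L hL.le h3 _) ?_ (fun q _ => f4 q) (fun q _ _ => hmK q) hL.le hM hconn
    apply side_robust K M hM
    · rw [Set.disjoint_left]
      intro e he he'
      exact he' (Or.inl he)
    · exact f3'

end Pool.Agent.H647.Kot
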