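import Pool.Graph.R_pool_sql_team_seeded_b677cdb8.E8helper62.HL.Trees
import Pool.Agent.H647.Kot.Hax

/-!
Spanning trees of the coset graph with disjoint local gadgets of at most `k` cells.
-/

set_option autoImplicit false
set_option linter.unusedSectionVars false

namespace Pool.Agent.H647.Kot

open Finset Pool.Agent.E8helper62.HL

attribute [local instance] Classical.propDecidable

section parts
variable {G : Type*} [Group G] [Fintype G] {ι : Type*}

theorem step_count_k (P : G → ι) {K K' : Subgroup G} (hKK : K ≤ K') (s : G) (hs : s ∈ K')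
    (hgen : ∀ M : Subgroup G, K ≤ M → s ∈ M → K' ≤ M) (U V : Finset G) {k : ℕ} (hV : V.card ≤ k)
    (hU : ∀ x, P x ≠ P (x * s) → ∃ w ∈ V, x * w ∈ U) :
    (bad P K' \ bad P K).card * Nat.card K ≤ k * U.card := by
  set new := bad P K' \ bad P K with hnew
  -- each new part is left by many arrows
  have h1 : ∀ a ∈ new, Nat.card K ≤ (univ.filter fun z => P z = a ∧ P (z * s) ≠ a).card := by
    intro a ha
    rw [hnew, Finset.mem_sdiff, mem_bad, mem_bad] at ha
    obtain ⟨⟨x, hx, k, hk, hxk⟩, hno⟩ := ha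
    push Not at hno
    have hc := cut hKK hs hgen (univ.filter fun y => y ∈ K' ∧ P (x * y) = a)
      (by intro y hy; exact (Finset.mem_filter.1 hy).2.1)
      ⟨1, by rw [Finset.mem_filter]; exact ⟨Finset.mem_univ _, K'.one_mem, by rw [mul_one]; exact hx⟩⟩
      ⟨k, hk, by rw [Finset.mem_filter]; exact fun h => hxk h.2.2⟩
      (by
        intro y hy l hl
        rw [Finset.mem_filter] at hy ⊢
        refine ⟨Finset.mem_univ _, K'.mul_mem hy.2.1 (hKK hl), ?_⟩
        rw [← mul_assoc]
        exact hno _ hy.2.2 l hl)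
    refine hc.trans ?_
    unfold dd
    refine Finset.card_le_card_of_injOn (fun y => x * y) ?_ ?_
    · intro y hy
      rw [Finset.mem_coe, Finset.mem_filter, Finset.mem_filter] at hy
      obtain ⟨⟨_, hy1, hy2⟩, hy3⟩ := hy
      rw [Finset.mem_coe, Finset.mem_filter]
      refine ⟨Finset.mem_univ _, hy2, fun h => hy3 ?_⟩
      rw [Finset.mem_filter]
      exact ⟨Finset.mem_univ _, K'.mul_mem hy1 hs, by rw [← mul_assoc]; exact h⟩
    · intro y _ y' _ h
      simpa using h
  have h2 : new.card * Nat.card K ≤ (univ.filter fun z => P z ∈ new ∧ P (z * s) ≠ P z).card := by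
    have e : (univ.filter fun z => P z ∈ new ∧ P (z * s) ≠ P z) =
        new.biUnion fun a => univ.filter fun z => P z = a ∧ P (z * s) ≠ a := by
      ext z
      simp only [Finset.mem_filter, Finset.mem_univ, true_and, Finset.mem_biUnion]
      constructor
      · rintro ⟨ha, hb⟩; exact ⟨P z, ha, rfl, hb⟩
      · rintro ⟨a, ha, rfl, hb⟩; exact ⟨ha, hb⟩
    rw [e, Finset.card_biUnion]
    · rw [← smul_eq_mul]
      exact Finset.card_nsmul_le_sum _ _ _ h1
    · intro a _ b _ hab
      rw [Function.onFun, Finset.disjoint_left]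
      intro z hz hz'
      rw [Finset.mem_filter] at hz hz'
      exact hab (hz.2.1.symm.trans hz'.2.1)
  refine h2.trans ?_
  -- every such arrow is blocked by `U`
  have h3 : (univ.filter fun z => P z ∈ new ∧ P (z * s) ≠ P z) ⊆
      V.biUnion fun w => U.map (Equiv.mulRight w⁻¹).toEmbedding := by
    intro z hz
    rw [Finset.mem_filter] at hz
    obtain ⟨_, hz1, hz2⟩ := hz
    obtain ⟨w, hw, hwU⟩ := hU z (Ne.symm hz2)
    rw [Finset.mem_biUnion]
    refine ⟨w, hw, ?_⟩
    rw [Finset.mem_map]
    exact ⟨z * w, hwU, by simp⟩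
  refine (Finset.card_le_card h3).trans (Finset.card_biUnion_le.trans ?_)
  calc ∑ w ∈ V, (U.map (Equiv.mulRight w⁻¹).toEmbedding).card = V.card * U.card := by
        simp [Finset.card_map]
    _ ≤ k * U.card := Nat.mul_le_mul_right _ hV

theorem parts_k (P : G → ι) (H : Subgroup G) (S : Set G)
    (hgen : ∀ M : Subgroup G, H ≤ M → S ⊆ M → M = ⊤)
    (hP : ∀ x, ∀ h ∈ H, P (x * h) = P x) (U : Finset G) {k : ℕ} (V : G → Finset G)
    (hV : ∀ s ∈ S, (V s).card ≤ k)
    (hU : ∀ x, ∀ s ∈ S, P x ≠ P (x * s) → ∃ w ∈ V s, x * w ∈ U)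
    (ht : 2 ≤ (univ.image P).card) :
    Nat.card H * (univ.image P).card ≤ 2 * (k * U.card) := by
  have hfin : ∀ K : Subgroup G, 0 < Nat.card K := fun K => Nat.card_pos
  let Inv : Subgroup G → Prop := fun K => H ≤ K ∧
    Nat.card H * Nat.card K * (bad P K).card + 2 * (k * U.card) * Nat.card H ≤
      2 * (k * U.card) * Nat.card K
  have h0 : Inv H := by
    refine ⟨le_rfl, ?_⟩
    have : bad P H = ∅ := by
      rw [Finset.eq_empty_iff_forall_notMem]
      intro a ha
      rw [mem_bad] at ha
      obtain ⟨x, hx, k, hk, h⟩ := ha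
      exact h ((hP x k hk).trans hx)
    rw [this]
    simp
  obtain ⟨K, hK, hmax⟩ := Finset.exists_max_image (univ.filter Inv) (fun K => Nat.card K)
    ⟨H, by simp only [Finset.mem_filter, Finset.mem_univ, true_and]; exact h0⟩
  have hKI : Inv K := (Finset.mem_filter.1 hK).2
  have hmax' : ∀ K', Inv K' → Nat.card K' ≤ Nat.card K := fun K' h =>
    hmax K' (by simp only [Finset.mem_filter, Finset.mem_univ, true_and]; exact h)
  obtain ⟨hHK, hinv⟩ := hKI
  have hKtop : K = ⊤ := by
    apply hgen K hHK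
    by_contra hno
    rw [Set.not_subset] at hno
    obtain ⟨s, hsS, hsK⟩ := hno
    have hsK' : s ∉ K := hsK
    set K' := K ⊔ Subgroup.zpowers s with hK'
    have hKK : K ≤ K' := le_sup_left
    have hsK2 : s ∈ K' := (le_sup_right : Subgroup.zpowers s ≤ K') (Subgroup.mem_zpowers s)
    have hlt : Nat.card K < Nat.card K' := by
      have h1 : (K : Set G).ncard < (K' : Set G).ncard := by
        apply Set.ncard_lt_ncard _ (Set.toFinite _)
        exact ⟨hKK, fun h => hsK' (h hsK2)⟩
      exact h1
    obtain ⟨c, hc⟩ : Nat.card K ∣ Nat.card K' := Subgroup.card_dvd_of_le hKK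
    have hc2 : 2 ≤ c := by
      by_contra h
      have : c ≤ 1 := by omega
      interval_cases c <;> omega
    have hcount := step_count_k P hKK s hsK2 (fun M hM hsM => by
      rw [hK', sup_le_iff, Subgroup.zpowers_le]; exact ⟨hM, hsM⟩) U (V s) (hV s hsS)
      (fun x h => hU x s hsS h)
    have hbsub : bad P K ⊆ bad P K' := by
      intro a ha
      rw [mem_bad] at ha ⊢
      obtain ⟨x, hx, k, hk, h⟩ := ha
      exact ⟨x, hx, k, hKK hk, h⟩
    have hbc : (bad P K').card = (bad P K).card + (bad P K' \ bad P K).card := by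
      rw [Finset.card_sdiff_of_subset hbsub]
      have := Finset.card_le_card hbsub
      omega
    have hnew : Inv K' := by
      refine ⟨hHK.trans hKK, ?_⟩
      rw [hbc, hc]
      set h := Nat.card H
      set q := Nat.card K
      set t := (bad P K).card
      set u := k * U.card
      set dt := (bad P K' \ bad P K).card
      have a1 : c * (h * q * t + 2 * u * h) ≤ c * (2 * u * q) := Nat.mul_le_mul_left _ hinv
      have a2 : h * c * (dt * q) ≤ h * c * u := Nat.mul_le_mul_left _ hcount
      have a3 : 2 * (u * h) ≤ c * (u * h) := Nat.mul_le_mul_right _ hc2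
      nlinarith
    have := hmax' K' hnew
    omega
  subst hKtop
  have hbad : bad P (⊤ : Subgroup G) = univ.image P := by
    unfold bad
    rw [Finset.filter_true_of_mem]
    intro a ha
    obtain ⟨x, _, hx⟩ := Finset.mem_image.1 ha
    have : ∃ b ∈ univ.image P, b ≠ a := by
      by_contra hno
      push Not at hno
      have : (univ.image P).card ≤ 1 := Finset.card_le_one.2 (fun b hb b' hb' =>
        (hno b hb).trans (hno b' hb').symm)
      omega
    obtain ⟨b, hb, hne⟩ := this
    obtain ⟨y, _, hy⟩ := Finset.mem_image.1 hb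
    exact ⟨x, hx, x⁻¹ * y, Subgroup.mem_top _, by rw [mul_inv_cancel_left, hy]; exact hne⟩
  rw [hbad] at hinv
  have hG := hfin (⊤ : Subgroup G)
  set h := Nat.card H
  set g := Nat.card (⊤ : Subgroup G)
  set t := (univ.image P).card
  set u := k * U.card
  have b1 : g * (h * t) ≤ g * (2 * u) := by nlinarith
  exact Nat.le_of_mul_le_mul_left b1 hG

end parts

section trees

variable {G : Type*} [Group G] [Fintype G] (H P : Subgroup G) (S : Set G) (V : G → Finset G)

/-- the ground set -/
abbrev EL := G × S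

/-- the configuration -/
noncomputable def xl (e : EL S) : W1 H := dl H e.1 e.2

/-- the cells of the gadget -/
noncomputable def el (e : EL S) : Finset (G ⧸ P) :=
  (V e.2).image fun w => ((e.1 * w : G) : G ⧸ P)

theorem finrank_all' : Module.finrank (ZMod 2) (sp (ZMod 2) (xl H S) univ) + 1 ≤
    Fintype.card (G ⧸ H) := by
  have h1 : sp (ZMod 2) (xl H S) univ ≤ LinearMap.ker (sumf H) := by
    apply sp_le
    rintro ⟨g, a⟩ _
    exact LinearMap.mem_ker.2 (sumf_dl H g a)
  have h2 := Submodule.finrank_mono h1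
  have h3 := finrank_ker H
  omega

theorem cond_local {k : ℕ} (hV : ∀ s ∈ S, (V s).card ≤ k)
    (hb : 2 * k * (2 * k - 1) * Nat.card P ≤ Nat.card H)
    (hgen : ∀ M : Subgroup G, H ≤ M → S ⊆ M → M = ⊤) :
    Cond' k (ZMod 2) (xl H S) (el P S V) := by
  intro R n _ hRn U hU
  by_contra hno
  push Not at hno
  have hno' : ∀ w, Disjoint (el P S V w) U → xl H S w ∈ sp (ZMod 2) (xl H S) R := by
    intro w hw
    by_contra h
    exact hno w h hw
  -- the covered elements
  set Ut : Finset G := univ.filter fun g => (g : G ⧸ P) ∈ U with hUt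
  have hUtc : Ut.card ≤ Nat.card P * U.card := by
    have e : Ut = U.biUnion fun z => univ.filter fun g : G => (g : G ⧸ P) = z := by
      ext g
      simp [hUt]
    rw [e]
    refine Finset.card_biUnion_le.trans ?_
    calc ∑ z ∈ U, (univ.filter fun g : G => (g : G ⧸ P) = z).card
        ≤ ∑ _z ∈ U, Nat.card P := Finset.sum_le_sum fun z _ => by
          obtain ⟨g, rfl⟩ := QuotientGroup.mk_surjective z
          have h0 : (univ.filter fun x : P => True).card = Nat.card P := by
            rw [Finset.filter_true, Finset.card_univ, Nat.card_eq_fintype_card]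
          rw [← h0]
          refine Finset.card_le_card_of_surjOn (fun x : P => g * x) ?_
          intro y hy
          rw [Finset.mem_coe, Finset.mem_filter] at hy
          exact ⟨⟨g⁻¹ * y, QuotientGroup.eq.1 hy.2.symm⟩, by simp, by simp⟩
      _ = Nat.card P * U.card := by simp [mul_comm]
  -- the span of the edges avoiding `U`
  let Y1 : Submodule (ZMod 2) (W1 H) :=
    Submodule.span (ZMod 2) {f | ∃ e : EL S, Disjoint (el P S V e) U ∧ f = xl H S e}
  let Q : G → W1 H ⧸ Y1 := fun g => Y1.mkQ (de H g)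
  have hPH : ∀ x, ∀ h ∈ H, Q (x * h) = Q x := by
    intro x h hh
    simp only [Q, de_mul H x h hh]
  have hPU : ∀ x, ∀ s ∈ S, Q x ≠ Q (x * s) → ∃ w ∈ V s, x * w ∈ Ut := by
    intro x s hs hne
    by_contra hcon
    push Not at hcon
    apply hne
    change Submodule.Quotient.mk _ = Submodule.Quotient.mk _
    rw [Submodule.Quotient.eq, sub_de]
    refine Submodule.subset_span ⟨(x, ⟨s, hs⟩), ?_, rfl⟩
    rw [Finset.disjoint_left]
    intro z hz hzU
    obtain ⟨w, hw, rfl⟩ := Finset.mem_image.1 hz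
    exact hcon w hw (by rw [hUt, Finset.mem_filter]; exact ⟨Finset.mem_univ _, hzU⟩)
  set t := (univ.image Q).card with ht
  set k' := Fintype.card (G ⧸ H) with hk
  -- dimension of the quotient
  have hq : Module.finrank (ZMod 2) (W1 H ⧸ Y1) ≤ t := by
    have htop : Submodule.span (ZMod 2) (((univ.image Q : Finset _) : Set (W1 H ⧸ Y1))) = ⊤ := by
      rw [eq_top_iff]
      rintro z _
      obtain ⟨f, rfl⟩ := Submodule.mkQ_surjective Y1 z
      have hf : f = ∑ v, f v • (Pi.single v (1 : ZMod 2) : W1 H) := by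
        ext w
        simp [Finset.sum_apply, Pi.single_apply]
      rw [hf, map_sum]
      apply Submodule.sum_mem
      intro v _
      rw [map_smul]
      apply Submodule.smul_mem
      apply Submodule.subset_span
      obtain ⟨g, rfl⟩ := QuotientGroup.mk_surjective v
      rw [Finset.mem_coe, Finset.mem_image]
      exact ⟨g, Finset.mem_univ _, rfl⟩
    have h1 := finrank_span_finset_le_card (R := ZMod 2) (univ.image Q)
    unfold Set.finrank at h1
    rw [htop, finrank_top] at h1
    exact h1
  have hY1 : Module.finrank (ZMod 2) (W1 H ⧸ Y1) + Module.finrank (ZMod 2) Y1 = k' := by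
    rw [Submodule.finrank_quotient_add_finrank, finrank_W1]
  have hY2 : Module.finrank (ZMod 2) Y1 ≤ R.card := by
    have h1 : Y1 ≤ sp (ZMod 2) (xl H S) R := by
      rw [Submodule.span_le]
      rintro f ⟨e, he, rfl⟩
      exact hno' e he
    refine (Submodule.finrank_mono h1).trans ?_
    unfold sp
    have : (xl H S '' (R : Set (EL S))) = ((R.image (xl H S) : Finset _) : Set (W1 H)) := by
      rw [Finset.coe_image]
    rw [this]
    exact (finrank_span_finset_le_card _).trans Finset.card_image_le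
  have hall := finrank_all' H S
  have ht2 : n + 2 ≤ t := by omega
  have h5 := parts_k Q H S hgen hPH Ut V hV hPU (by omega)
  rw [← ht] at h5
  have h6 : Ut.card ≤ Nat.card P * ((2 * k - 1) * n) := hUtc.trans (Nat.mul_le_mul_left _ hU)
  have h7 : 2 * (k * Ut.card) ≤ 2 * k * (2 * k - 1) * Nat.card P * n := by
    calc 2 * (k * Ut.card) ≤ 2 * (k * (Nat.card P * ((2 * k - 1) * n))) :=
          Nat.mul_le_mul_left _ (Nat.mul_le_mul_left _ h6)
      _ = 2 * k * (2 * k - 1) * Nat.card P * n := by ring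
  have h8 : 2 * k * (2 * k - 1) * Nat.card P * n ≤ Nat.card H * n := Nat.mul_le_mul_right _ hb
  have h9 : Nat.card H * t ≤ Nat.card H * n := h5.trans (h7.trans h8)
  have h10 := Nat.le_of_mul_le_mul_left h9 Nat.card_pos
  omega

/-- `I` is a set of edges with disjoint gadgets connecting the cosets -/
theorem exists_local {k : ℕ} (hk : 1 ≤ k) (hV : ∀ s ∈ S, (V s).card ≤ k)
    (hVne : ∀ s ∈ S, (V s).Nonempty)
    (hb : 2 * k * (2 * k - 1) * Nat.card P ≤ Nat.card H)
    (hgen : ∀ M : Subgroup G, H ≤ M → S ⊆ M → M = ⊤) :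
    ∃ I : Finset (EL S),
      (∀ e ∈ I, ∀ e' ∈ I, e ≠ e' → Disjoint (el P S V e) (el P S V e')) ∧
      (∀ Y : Set G, (∀ x ∈ Y, ∀ h ∈ H, x * h ∈ Y) → (∀ e ∈ I, e.1 ∈ Y ↔ e.1 * e.2 ∈ Y) →
        Y.Nonempty → Y = Set.univ) := by
  obtain ⟨I, hI, hsp⟩ := haxell' (F := ZMod 2) (x := xl H S) (en := el P S V)
    (fun e => (hVne e.2 e.2.2).image _) hk
    (fun e => Finset.card_image_le.trans (hV e.2 e.2.2)) (cond_local H P S V hV hb hgen)
  refine ⟨I, fun e he e' he' h => hI.2 e he e' he' h, ?_⟩
  intro Y hYH hYT hYne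
  let χ : (G ⧸ H) → ZMod 2 := fun v => if ∃ x ∈ Y, (x : G ⧸ H) = v then 1 else 0
  have hχ : ∀ g : G, χ (g : G ⧸ H) = if g ∈ Y then 1 else 0 := by
    intro g
    simp only [χ]
    by_cases hg : g ∈ Y
    · rw [if_pos hg, if_pos ⟨g, hg, rfl⟩]
    · rw [if_neg hg, if_neg]
      rintro ⟨x, hx, hxg⟩
      apply hg
      have h1 := QuotientGroup.eq.1 hxg
      have := hYH x hx _ h1
      simpa using this
  let φ : W1 H →ₗ[ZMod 2] ZMod 2 :=
    { toFun := fun f => ∑ v, χ v * f v
      map_add' := by intro f g; simp [mul_add, Finset.sum_add_distrib]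
      map_smul' := by
        intro a f
        simp only [Pi.smul_apply, smul_eq_mul, RingHom.id_apply, Finset.mul_sum]
        exact Finset.sum_congr rfl fun v _ => by ring }
  have hφ : ∀ g : G, φ (de H g) = if g ∈ Y then 1 else 0 := by
    intro g
    rw [← hχ]
    change ∑ v, χ v * (Pi.single (g : G ⧸ H) (1 : ZMod 2) : W1 H) v = _
    simp [Pi.single_apply]
  have hφe : ∀ e ∈ I, φ (xl H S e) = 0 := by
    intro e he
    have h1 := hYT e he
    change φ (dl H e.1 e.2) = 0
    unfold dl
    rw [map_add, hφ, hφ]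
    by_cases h2 : e.1 ∈ Y
    · have h3 : e.1 * e.2 ∈ Y := h1.1 h2
      rw [if_pos h2, if_pos h3]; decide
    · have h3 : e.1 * e.2 ∉ Y := fun h => h2 (h1.2 h)
      rw [if_neg h2, if_neg h3]; decide
  have hφ0 : ∀ w ∈ sp (ZMod 2) (xl H S) I, φ w = 0 := by
    intro w hw
    have : sp (ZMod 2) (xl H S) I ≤ LinearMap.ker φ := by
      apply sp_le
      intro e he
      rw [LinearMap.mem_ker]
      exact hφe e he
    exact this hw
  have hall : ∀ g, ∀ a ∈ S, (g ∈ Y ↔ g * a ∈ Y) := by
    intro g a ha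
    have h1 := hφ0 (xl H S (g, ⟨a, ha⟩)) (by rw [hsp]; exact mem_sp (Finset.mem_univ _))
    have h2 : φ (de H g) + φ (de H (g * a)) = 0 := by
      rw [← map_add]
      exact h1
    rw [hφ, hφ] at h2
    by_cases h3 : g ∈ Y <;> by_cases h4 : g * a ∈ Y <;> simp [h3, h4] at h2 ⊢
  obtain ⟨y, hy⟩ := hYne
  let M : Subgroup G :=
    { carrier := {z | ∀ g, g ∈ Y ↔ g * z ∈ Y}
      mul_mem' := by
        intro a b ha hb g
        rw [ha g, hb (g * a), mul_assoc]
      one_mem' := by intro g; rw [mul_one]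
      inv_mem' := by
        intro a ha g
        rw [ha (g * a⁻¹), inv_mul_cancel_right] }
  have hM : M = ⊤ := by
    apply hgen M
    · intro h hh g
      refine ⟨fun hg => hYH g hg h hh, fun hg => ?_⟩
      have := hYH _ hg _ (H.inv_mem hh)
      rwa [mul_inv_cancel_right] at this
    · intro a ha g
      exact hall g a ha
  ext z
  simp only [Set.mem_univ, iff_true]
  have h1 : y⁻¹ * z ∈ M := by rw [hM]; exact Subgroup.mem_top _
  have h2 := (h1 y).1 hy
  rwa [mul_inv_cancel_left] at h2

end trees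

end Pool.Agent.H647.Kot
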