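import Mathlib
import Pool.Agent.H647.Kot.Block
import Pool.Agent.H647.Kot.Complete
import Pool.Agent.H647.Kot.PartsK

/-!
Hamiltonian cycles from a subgroup with the pairing property and local pairings.
-/

set_option autoImplicit false

namespace Pool.Agent.H647.Kot

open Pool.Agent.X267.Ham

/-- a union of at most `k` left cosets of `P` has a pairing along `A`-edges in which `1` is paired
with `a` -/
def LocalPair {G : Type*} [Group G] (A : Set G) (P : Subgroup G) (k : ℕ) (a : G) : Prop :=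
  ∃ (V : Finset G) (φ : G → G), V.card ≤ k ∧ (∃ v ∈ V, v⁻¹ * 1 ∈ P) ∧ φ 1 = a ∧
    ∀ z, (∃ v ∈ V, v⁻¹ * z ∈ P) →
      (∃ v ∈ V, v⁻¹ * φ z ∈ P) ∧ φ z ≠ z ∧ φ (φ z) = z ∧ z⁻¹ * φ z ∈ A

theorem closed_local {G : Type*} [Group G] [Finite G] (A S : Set G) (H P : Subgroup G)
    (hgen : ∀ M : Subgroup G, H ≤ M → S ⊆ M → M = ⊤) (hH : PP A H)
    (hP0 : PMon A (P : Set G)) {k : ℕ} (hk : 1 ≤ k)
    (hb : 2 * k * (2 * k - 1) * Nat.card P ≤ Nat.card H)
    (hloc' : ∀ a : G, a ∈ S → LocalPair A P k a) : HasClosedListing A := by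
  classical
  have : Fintype G := Fintype.ofFinite G
  unfold LocalPair at hloc'
  choose! V φ hVk hV1 hφ1 hφ using hloc'
  obtain ⟨I, hI1, hI2⟩ := exists_local H P S V hk hVk (fun s hs => by
    obtain ⟨v, hv, _⟩ := hV1 s hs
    exact ⟨v, hv⟩) hb hgen
  obtain ⟨F, hF⟩ := hP0
  let rep : G → G := fun y => Quotient.out (y : G ⧸ P)
  have hrep : ∀ y, (rep y)⁻¹ * y ∈ P := fun y => QuotientGroup.eq.1 (Quotient.out_eq' (y : G ⧸ P))
  have hrep' : ∀ y z, (rep y)⁻¹ * z ∈ P → rep z = rep y := by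
    intro y z h
    have h7 : ((y : G) : G ⧸ P) = (z : G ⧸ P) := by
      have h8 : ((rep y : G) : G ⧸ P) = (y : G ⧸ P) := Quotient.out_eq' (y : G ⧸ P)
      rw [← h8]
      exact QuotientGroup.eq.2 h
    simp only [rep, h7]
  let Cov : EL S → G → Prop := fun e z => ∃ v ∈ V e.2, v⁻¹ * (e.1⁻¹ * z) ∈ P
  have hCov : ∀ e z, Cov e z ↔ (z : G ⧸ P) ∈ el P S V e := by
    intro e z
    simp only [Cov, el, Finset.mem_image]
    constructor
    · rintro ⟨v, hv, h⟩
      refine ⟨v, hv, QuotientGroup.eq.2 ?_⟩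
      rwa [mul_inv_rev, mul_assoc]
    · rintro ⟨v, hv, h⟩
      refine ⟨v, hv, ?_⟩
      have := QuotientGroup.eq.1 h
      rwa [mul_inv_rev, mul_assoc] at this
  have huniq : ∀ e ∈ I, ∀ e' ∈ I, ∀ z, Cov e z → Cov e' z → e = e' := by
    intro e he e' he' z h h'
    by_contra hne
    exact Finset.disjoint_left.1 (hI1 e he e' he' hne) ((hCov e z).1 h) ((hCov e' z).1 h')
  have hCovP : ∀ e z w, z⁻¹ * w ∈ P → Cov e z → Cov e w := by
    rintro e z w hzw ⟨v, hv, h⟩
    refine ⟨v, hv, ?_⟩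
    have := P.mul_mem h hzw
    have e2 : v⁻¹ * (e.1⁻¹ * z) * (z⁻¹ * w) = v⁻¹ * (e.1⁻¹ * w) := by group
    rwa [e2] at this
  let f : G → G := fun z =>
    if h : ∃ e, e ∈ I ∧ Cov e z then h.choose.1 * φ h.choose.2 (h.choose.1⁻¹ * z)
    else rep z * F ((rep z)⁻¹ * z)
  have hfe : ∀ e ∈ I, ∀ z, Cov e z → f z = e.1 * φ e.2 (e.1⁻¹ * z) := by
    intro e he z hz
    have h : ∃ e, e ∈ I ∧ Cov e z := ⟨e, he, hz⟩
    have e1 : f z = h.choose.1 * φ h.choose.2 (h.choose.1⁻¹ * z) := dif_pos h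
    obtain ⟨h7, h8⟩ := h.choose_spec
    have h9 : h.choose = e := huniq _ h7 _ he z h8 hz
    rw [e1, h9]
  have hf0 : ∀ z, (¬ ∃ e, e ∈ I ∧ Cov e z) → f z = rep z * F ((rep z)⁻¹ * z) :=
    fun z h => dif_neg h
  have hfall : ∀ z, f (f z) = z ∧ f z ≠ z ∧ z⁻¹ * f z ∈ A := by
    intro z
    by_cases h : ∃ e, e ∈ I ∧ Cov e z
    · obtain ⟨e, he, hz⟩ := h
      obtain ⟨q1, q2, q3, q4⟩ := hφ e.2 e.2.2 (e.1⁻¹ * z) hz
      have h7 : Cov e (f z) := by
        rw [hfe e he z hz]
        simp only [Cov, inv_mul_cancel_left]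
        exact q1
      rw [hfe e he _ h7, hfe e he z hz, inv_mul_cancel_left, q3, mul_inv_cancel_left]
      refine ⟨rfl, ?_, ?_⟩
      · intro h
        apply q2
        rw [eq_inv_mul_iff_mul_eq]
        exact h
      · have e2 : z⁻¹ * (e.1 * φ e.2 (e.1⁻¹ * z)) = (e.1⁻¹ * z)⁻¹ * φ e.2 (e.1⁻¹ * z) := by group
        rw [e2]
        exact q4
    · obtain ⟨q1, q2, q3, q4⟩ := hF _ (hrep z)
      have h7 : (rep z)⁻¹ * f z ∈ P := by
        rw [hf0 z h, inv_mul_cancel_left]
        exact q1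
      have h8 : ¬ ∃ e, e ∈ I ∧ Cov e (f z) := by
        rintro ⟨e, he, hc⟩
        apply h
        refine ⟨e, he, hCovP e (f z) z ?_ hc⟩
        have := P.mul_mem (P.inv_mem h7) (hrep z)
        have e2 : ((rep z)⁻¹ * f z)⁻¹ * ((rep z)⁻¹ * z) = (f z)⁻¹ * z := by group
        rwa [e2] at this
      rw [hf0 _ h8, hrep' z _ h7, hf0 z h, inv_mul_cancel_left, q3, mul_inv_cancel_left]
      refine ⟨rfl, ?_, ?_⟩
      · intro h
        apply q2
        rw [eq_inv_mul_iff_mul_eq]
        exact h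
      · have e2 : z⁻¹ * (rep z * F ((rep z)⁻¹ * z)) =
            ((rep z)⁻¹ * z)⁻¹ * F ((rep z)⁻¹ * z) := by group
        rw [e2]
        exact q4
  refine closed_of_matching A H hH f (fun z => ⟨(hfall z).1, (hfall z).2.1⟩)
    (fun z => (hfall z).2.2) ?_
  intro Y hY hYH hYf
  apply hI2 Y _ _ hY
  · intro y hy h hh
    refine hYH y (y * h) ?_ hy
    simpa using hh
  · intro e he
    have hc : Cov e e.1 := by
      obtain ⟨v, hv, h⟩ := hV1 e.2 e.2.2
      refine ⟨v, hv, ?_⟩
      rwa [inv_mul_cancel]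
    have h7 : f e.1 = e.1 * e.2 := by
      rw [hfe e he _ hc, inv_mul_cancel, hφ1 e.2 e.2.2]
    constructor
    · intro h
      rw [← h7]
      exact hYf _ h
    · intro h
      have h8 := hYf _ h
      rwa [← h7, (hfall e.1).1] at h8

section
variable {G : Type*} [Group G] {A : Set G} {P : Subgroup G}

lemma paired_of_inv {p : G} (hpP : p ∈ P) (hpA : p ∈ A) (hp1 : p ≠ 1) (hp2 : p * p = 1) :
    PMon A (P : Set G) := by
  refine ⟨fun z => z * p, ?_⟩
  intro z hz
  refine ⟨P.mul_mem hz hpP, fun h => hp1 (mul_eq_left.1 h), ?_, ?_⟩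
  · show z * p * p = z
    rw [mul_assoc, hp2, mul_one]
  · show z⁻¹ * (z * p) ∈ A
    rwa [inv_mul_cancel_left]

theorem local_of_conj (hA : ∀ x ∈ A, x⁻¹ ∈ A) {a p : G} (ha : a ∈ A) (haP : a ∉ P) (hpP : p ∈ P)
    (hpA : p ∈ A) (hp1 : p ≠ 1) (hp2 : p * p = 1) (hqP : a⁻¹ * p * a ∈ P)
    (hqA : a⁻¹ * p * a ∈ A) {k : ℕ} (hk : 2 ≤ k) : LocalPair A P k a := by
  classical
  set q := a⁻¹ * p * a with hq
  have hq2 : q * q = 1 := by
    rw [hq]
    have : a⁻¹ * p * a * (a⁻¹ * p * a) = a⁻¹ * (p * p) * a := by group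
    rw [this, hp2]
    group
  have hq1 : q ≠ 1 := by
    intro h
    apply hp1
    have : p = a * q * a⁻¹ := by rw [hq]; group
    rw [this, h]
    group
  have haq : a * q = p * a := by rw [hq]; group
  have ha1 : a ≠ 1 := fun h => haP (h ▸ P.one_mem)
  have hpa1 : p * a ≠ 1 := by
    intro h
    apply haP
    have : a = p⁻¹ := (eq_inv_of_mul_eq_one_right h)
    rw [this]
    exact P.inv_mem hpP
  have hpaa : p * a ≠ a := fun h => hp1 (mul_eq_right.1 h)
  have hpap : p * a ≠ p := fun h => ha1 (mul_eq_left.1 h)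
  have hap : a ≠ p := fun h => haP (h ▸ hpP)
  have hpaP : p * a ∉ P := fun h => haP ((Subgroup.mul_mem_cancel_left P hpP).1 h)
  let φ : G → G := fun z => if z = 1 then a else if z = a then 1 else if z = p then p * a else
    if z = p * a then p else if z ∈ P then z * p else z * q
  have f1 : φ 1 = a := by simp [φ]
  have f2 : φ a = 1 := by simp [φ, ha1]
  have f3 : φ p = p * a := by simp [φ, hp1, hap.symm]
  have f4 : φ (p * a) = p := by simp only [φ, hpa1, hpaa, hpap, if_false, if_true]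
  have f5 : ∀ z ∈ P, z ≠ 1 → z ≠ p → φ z = z * p := by
    intro z hz h1 h2
    have h3 : z ≠ a := fun h => haP (h ▸ hz)
    have h4 : z ≠ p * a := fun h => hpaP (h ▸ hz)
    simp only [φ, h1, h2, h3, h4, hz, if_false, if_true]
  have f6 : ∀ z, z ∉ P → z ≠ a → z ≠ p * a → φ z = z * q := by
    intro z hz h1 h2
    have h3 : z ≠ 1 := fun h => hz (h ▸ P.one_mem)
    have h4 : z ≠ p := fun h => hz (h ▸ hpP)
    simp only [φ, h1, h2, h3, h4, hz, if_false]
  refine ⟨{1, a}, φ, ?_, ⟨1, by simp, by simp⟩, f1, ?_⟩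
  · refine (Finset.card_insert_le _ _).trans ?_
    rw [Finset.card_singleton]
    exact hk
  have hm1 : ∀ z ∈ P, ∃ v ∈ ({1, a} : Finset G), v⁻¹ * z ∈ P := fun z hz => ⟨1, by simp, by simpa⟩
  have hm2 : ∀ z, a⁻¹ * z ∈ P → ∃ v ∈ ({1, a} : Finset G), v⁻¹ * z ∈ P :=
    fun z hz => ⟨a, by simp, hz⟩
  rintro z ⟨v, hv, hz⟩
  rw [Finset.mem_insert, Finset.mem_singleton] at hv
  rcases hv with rfl | rfl
  · rw [inv_one, one_mul] at hz
    by_cases h1 : z = 1
    · subst h1
      rw [f1, f2]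
      exact ⟨hm2 _ (by rw [inv_mul_cancel]; exact P.one_mem), ha1, rfl, by simpa using ha⟩
    by_cases h2 : z = p
    · subst h2
      rw [f3, f4]
      refine ⟨hm2 _ ?_, hpap, rfl, by simpa using ha⟩
      rw [← haq, inv_mul_cancel_left]
      exact hqP
    · have h3 : z * p ≠ 1 := by
        intro h
        apply h2
        calc z = z * (p * p) := by rw [hp2, mul_one]
          _ = z * p * p := (mul_assoc _ _ _).symm
          _ = p := by rw [h, one_mul]
      have h4 : z * p ≠ p := fun h => h1 (mul_eq_right.1 h)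
      rw [f5 z hz h1 h2, f5 _ (P.mul_mem hz hpP) h3 h4]
      refine ⟨hm1 _ (P.mul_mem hz hpP), fun h => hp1 (mul_eq_left.1 h), ?_, ?_⟩
      · rw [mul_assoc, hp2, mul_one]
      · rwa [inv_mul_cancel_left]
  · have hzP : z ∉ P := by
      intro h
      apply haP
      have := P.mul_mem h (P.inv_mem hz)
      have e : z * (v⁻¹ * z)⁻¹ = v := by group
      rwa [e] at this
    by_cases h1 : z = v
    · subst h1
      rw [f2, f1]
      exact ⟨hm1 _ P.one_mem, ha1.symm, rfl, by simpa using hA _ ha⟩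
    by_cases h2 : z = p * v
    · subst h2
      rw [f4, f3]
      refine ⟨hm1 _ hpP, hpap.symm, rfl, ?_⟩
      have e : (p * v)⁻¹ * p = v⁻¹ := by group
      rw [e]
      exact hA _ ha
    · have h3 : z * q ∉ P := fun h => hzP ((Subgroup.mul_mem_cancel_right P hqP).1 h)
      have h4 : z * q ≠ v := by
        intro h
        apply h2
        calc z = z * (q * q) := by rw [hq2, mul_one]
          _ = z * q * q := (mul_assoc _ _ _).symm
          _ = v * q := by rw [h]
          _ = p * v := haq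
      have h5 : z * q ≠ p * v := by
        intro h
        rw [← haq] at h
        exact h1 (mul_right_cancel h)
      rw [f6 z hzP h1 h2, f6 _ h3 h4 h5]
      refine ⟨hm2 _ ?_, fun h => hq1 (mul_eq_left.1 h), ?_, ?_⟩
      · rw [← mul_assoc]
        exact P.mul_mem hz hqP
      · rw [mul_assoc, hq2, mul_one]
      · rwa [inv_mul_cancel_left]

theorem local_of_order [Finite G] (hA : ∀ x ∈ A, x⁻¹ ∈ A) {a p : G} (ha : a ∈ A) (haP : a ∉ P)
    (hpP : p ∈ P) (hpA : p ∈ A) (hp1 : p ≠ 1) (hp2 : p * p = 1) {k : ℕ} (hk : 2 ≤ k)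
    (ho : orderOf (a * p) ≤ k) : LocalPair A P k a := by
  classical
  have : Fintype G := Fintype.ofFinite G
  set C := Subgroup.zpowers (a * p) with hC
  have hcC : a * p ∈ C := Subgroup.mem_zpowers _
  by_cases hpC : p ∈ C
  · -- `p` commutes with `a`
    obtain ⟨n, hn⟩ := Subgroup.mem_zpowers_iff.1 hpC
    have hcomm : p * (a * p) = a * p * p := by
      conv_lhs => rw [← hn]
      conv_rhs => rw [← hn]
      conv_lhs => rw [hn]
      have h1 := (Commute.refl (a * p)).zpow_right n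
      rw [hn] at h1
      rw [hn]
      exact h1.eq.symm
    have h1 : p * a * p = a := by
      rw [mul_assoc, hcomm, mul_assoc, hp2, mul_one]
    have h2 : a⁻¹ * p * a = p := by
      have h3 : p * a = a * p := by
        calc p * a = p * a * (p * p) := by rw [hp2, mul_one]
          _ = p * a * p * p := (mul_assoc _ _ _).symm
          _ = a * p := by rw [h1]
      rw [mul_assoc, h3, inv_mul_cancel_left]
    exact local_of_conj hA ha haP hpP hpA hp1 hp2 (by rwa [h2]) (by rwa [h2]) hk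
  · have hpi : p⁻¹ = p := inv_eq_of_mul_eq_one_left hp2
    let φ : G → G := fun z => if z ∈ C then z * a else if z * p ∈ C then z * a⁻¹ else z * p
    have hap' : p * a⁻¹ ∈ C := by
      have := C.inv_mem hcC
      rwa [mul_inv_rev, hpi] at this
    -- the two kinds of covered points
    have g1 : ∀ z, z ∈ C → z * a ∉ C ∧ z * a * p ∈ C := by
      intro z hz
      have h1 : z * a * p ∈ C := by
        rw [mul_assoc]
        exact C.mul_mem hz hcC
      refine ⟨fun h => hpC ?_, h1⟩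
      have := C.mul_mem (C.inv_mem h) h1
      rwa [inv_mul_cancel_left] at this
    have g2 : ∀ z, z ∉ C → z * p ∈ C → z * a⁻¹ ∈ C := by
      intro z _ hz
      have := C.mul_mem hz hap'
      have e : z * p * (p * a⁻¹) = z * (p * p) * a⁻¹ := by group
      rwa [e, hp2, mul_one] at this
    refine ⟨Finset.univ.filter fun z => z ∈ C, φ, ?_, ⟨1, by simp, by simp⟩, ?_, ?_⟩
    · refine le_trans (le_of_eq ?_) ho
      rw [← Nat.card_zpowers, Nat.card_eq_fintype_card, Fintype.card_subtype]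
    · simp [φ]
    · rintro z ⟨v, hv, hz⟩
      have hvC : v ∈ C := by simpa using hv
      have hm : ∀ w, w ∈ C → ∃ v ∈ (Finset.univ.filter fun z => z ∈ C), v⁻¹ * w ∈ P :=
        fun w hw => ⟨w, by simpa using hw, by rw [inv_mul_cancel]; exact P.one_mem⟩
      have hm' : ∀ w, w * p ∈ C → ∃ v ∈ (Finset.univ.filter fun z => z ∈ C), v⁻¹ * w ∈ P := by
        intro w hw
        refine ⟨w * p, by simpa using hw, ?_⟩
        have e : (w * p)⁻¹ * w = p⁻¹ := by group
        rw [e]
        exact P.inv_mem hpP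
      by_cases h1 : z ∈ C
      · obtain ⟨h2, h3⟩ := g1 z h1
        have e1 : φ z = z * a := by simp only [φ, h1, if_true]
        have e2 : φ (z * a) = z * a * a⁻¹ := by simp only [φ, h2, h3, if_false, if_true]
        rw [e1, e2]
        refine ⟨hm' _ h3, fun h => h2 (by rw [h]; exact h1), by rw [mul_inv_cancel_right], ?_⟩
        rwa [inv_mul_cancel_left]
      by_cases h2 : z * p ∈ C
      · have h3 := g2 z h1 h2
        have e1 : φ z = z * a⁻¹ := by simp only [φ, h1, h2, if_false, if_true]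
        have e2 : φ (z * a⁻¹) = z * a⁻¹ * a := by simp only [φ, h3, if_true]
        rw [e1, e2]
        refine ⟨hm _ h3, fun h => h1 (by rw [← h]; exact h3), by rw [inv_mul_cancel_right], ?_⟩
        rw [inv_mul_cancel_left]
        exact hA _ ha
      · have e1 : φ z = z * p := by simp only [φ, h1, h2, if_false]
        have h3 : z * p * p ∉ C := by
          rw [mul_assoc, hp2, mul_one]
          exact h1
        have e2 : φ (z * p) = z * p * p := by simp only [φ, h2, h3, if_false]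
        rw [e1, e2]
        refine ⟨⟨v, hv, ?_⟩, fun h => hp1 (mul_eq_left.1 h), ?_, ?_⟩
        · rw [← mul_assoc]
          exact P.mul_mem hz hpP
        · rw [mul_assoc, hp2, mul_one]
        · rwa [inv_mul_cancel_left]

end

end Pool.Agent.H647.Kot
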