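import Mathlib
import Pool.Agent.H647.Kot.Local

/-!
Local pairings from the dihedral group generated by `p` and `a p a⁻¹`.
-/

set_option autoImplicit false

namespace Pool.Agent.H647.Kot

theorem local_of_comm {G : Type*} [Group G] [Finite G] {A : Set G} {P : Subgroup G}
    (hA : ∀ x ∈ A, x⁻¹ ∈ A) {a p : G} (ha : a ∈ A) (haP : a ∉ P)
    (hpP : p ∈ P) (hpA : p ∈ A) (hp1 : p ≠ 1) (hp2 : p * p = 1) {k : ℕ}
    (ho : 2 * orderOf (a * p * a⁻¹ * p) ≤ k) : LocalPair A P k a := by
  classical
  have : Fintype G := Fintype.ofFinite G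
  set r := a * p * a⁻¹ * p with hr
  have hr0 : 0 < orderOf r := orderOf_pos r
  have hk : 2 ≤ k := by omega
  have hpi : p⁻¹ = p := inv_eq_of_mul_eq_one_left hp2
  set C := Subgroup.zpowers r with hC
  have hrC : r ∈ C := Subgroup.mem_zpowers _
  -- `p` inverts `r`
  have hprp : p * r * p⁻¹ = r⁻¹ := by
    rw [hr]
    have e1 : p * (a * p * a⁻¹ * p) * p⁻¹ = p * a * p * a⁻¹ := by group
    have e2 : (a * p * a⁻¹ * p)⁻¹ = p⁻¹ * a * p⁻¹ * a⁻¹ := by group
    rw [e1, e2, hpi]
  have hconj : ∀ c ∈ C, p * c * p = c⁻¹ := by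
    intro c hc
    obtain ⟨n, rfl⟩ := Subgroup.mem_zpowers_iff.1 hc
    have h1 : p * r ^ n * p⁻¹ = (p * r * p⁻¹) ^ n := (conj_zpow).symm
    rw [hprp, inv_zpow, hpi] at h1
    exact h1
  by_cases haC : a ∈ C
  · refine local_of_order hA ha haP hpP hpA hp1 hp2 hk ?_
    have h1 : (a * p) ^ 2 = 1 := by
      have h2 := hconj a haC
      calc (a * p) ^ 2 = a * (p * a * p) := by rw [pow_two]; group
        _ = 1 := by rw [h2, mul_inv_cancel]
    exact (Nat.le_of_dvd (by norm_num) (orderOf_dvd_of_pow_eq_one h1)).trans hk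
  by_cases hapC : a * p ∈ C
  · refine local_of_order hA ha haP hpP hpA hp1 hp2 hk ?_
    have h1 : orderOf (a * p) ∣ orderOf r := orderOf_dvd_of_mem_zpowers hapC
    have := Nat.le_of_dvd hr0 h1
    omega
  -- the dihedral group
  let E : G → Prop := fun z => z ∈ C ∨ z * p ∈ C
  have hE1 : E 1 := Or.inl C.one_mem
  have hzpp : ∀ z : G, z * p * p = z := fun z => by rw [mul_assoc, hp2, mul_one]
  have hEp : ∀ z, E z ↔ E (z * p) := by
    intro z
    simp only [E, hzpp]
    exact or_comm
  have hEdiv : ∀ z w, E z → E w → E (w⁻¹ * z) := by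
    intro z w hz hw
    rcases hz with hz | hz <;> rcases hw with hw | hw
    · exact Or.inl (C.mul_mem (C.inv_mem hw) hz)
    · right
      have h1 := C.mul_mem (C.inv_mem hw) hz
      have h2 := hconj _ h1
      have e : w⁻¹ * z * p = p * ((w * p)⁻¹ * z) * p := by
        rw [mul_inv_rev, hpi]
        have : p * (p * w⁻¹ * z) * p = p * p * w⁻¹ * z * p := by group
        rw [this, hp2]
        group
      rw [e, h2]
      exact C.inv_mem h1
    · right
      rw [mul_assoc]
      exact C.mul_mem (C.inv_mem hw) hz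
    · left
      have h1 := C.mul_mem (C.inv_mem hw) hz
      have h2 := hconj _ h1
      have e : w⁻¹ * z = p * ((w * p)⁻¹ * (z * p)) * p := by
        rw [mul_inv_rev, hpi]
        have : p * (p * w⁻¹ * (z * p)) * p = (p * p) * w⁻¹ * z * (p * p) := by group
        rw [this, hp2]
        group
      rw [e, h2]
      exact C.inv_mem h1
  have haE : ¬ E a := by
    rintro (h | h)
    · exact haC h
    · exact hapC h
  -- right multiplication by `a p a⁻¹`
  have hEq : ∀ z, E z → E (z * (a * p * a⁻¹)) := by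
    intro z hz
    rcases hz with hz | hz
    · right
      have e : z * (a * p * a⁻¹) * p = z * r := by rw [hr]; group
      rw [e]
      exact C.mul_mem hz hrC
    · left
      have e : z * (a * p * a⁻¹) = (z * p) * r⁻¹ := by
        rw [hr]
        have : z * p * (a * p * a⁻¹ * p)⁻¹ = z * (p * p⁻¹) * a * p⁻¹ * a⁻¹ := by group
        rw [this, mul_inv_cancel, hpi]
        group
      rw [e]
      exact C.mul_mem hz (C.inv_mem hrC)
  -- the shifted points
  let E' : G → Prop := fun z => E (z * a⁻¹)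
  have hdis : ∀ z, E z → E' z → False := by
    intro z hz hz'
    apply haE
    have h1 := hEdiv z (z * a⁻¹) hz hz'
    have e : (z * a⁻¹)⁻¹ * z = a := by group
    rwa [e] at h1
  have hE'p : ∀ z, E' z → E' (z * p) := by
    intro z hz
    have h1 := hEq _ hz
    have e : z * a⁻¹ * (a * p * a⁻¹) = z * p * a⁻¹ := by group
    rwa [e] at h1
  have hE'p' : ∀ z, E' (z * p) → E' z := by
    intro z hz
    have := hE'p _ hz
    rwa [hzpp] at this
  let φ : G → G := fun z => if E z then z * a else if E' z then z * a⁻¹ else z * p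
  have f1 : ∀ z, E z → φ z = z * a := fun z hz => if_pos hz
  have f2 : ∀ z, E' z → φ z = z * a⁻¹ := by
    intro z hz
    have h : ¬ E z := fun h => hdis z h hz
    simp only [φ, h, hz, if_false, if_true]
  have f3 : ∀ z, ¬ E z → ¬ E' z → φ z = z * p := by
    intro z h h'
    simp only [φ, h, h', if_false]
  let VC : Finset G := Finset.univ.filter fun z => z ∈ C
  have hVC : ∀ z, z ∈ VC ↔ z ∈ C := fun z => by simp [VC]
  have hcard : VC.card = orderOf r := by
    rw [← Nat.card_zpowers, Nat.card_eq_fintype_card, Fintype.card_subtype]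
  let V : Finset G := VC ∪ VC.image (fun z => z * a)
  -- covered points
  have hcE : ∀ z, E z → ∃ v ∈ V, v⁻¹ * z ∈ P := by
    rintro z (hz | hz)
    · exact ⟨z, Finset.mem_union_left _ ((hVC z).2 hz), by rw [inv_mul_cancel]; exact P.one_mem⟩
    · refine ⟨z * p, Finset.mem_union_left _ ((hVC _).2 hz), ?_⟩
      have e : (z * p)⁻¹ * z = p⁻¹ := by group
      rw [e]
      exact P.inv_mem hpP
  have hcE' : ∀ z, E' z → ∃ v ∈ V, v⁻¹ * z ∈ P := by
    intro z hz
    have hmem : ∀ c, c ∈ C → c * a ∈ V := fun c hc =>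
      Finset.mem_union_right _ (Finset.mem_image_of_mem _ ((hVC c).2 hc))
    rcases hz with hz | hz
    · refine ⟨z, ?_, by rw [inv_mul_cancel]; exact P.one_mem⟩
      have := hmem _ hz
      rwa [inv_mul_cancel_right] at this
    · -- `z a⁻¹ p ∈ C`, so `z p a⁻¹ ∈ C`
      refine ⟨z * p, ?_, ?_⟩
      · have h1 : z * p * a⁻¹ ∈ C := by
          have h2 := C.mul_mem hz (C.inv_mem hrC)
          have e : z * a⁻¹ * p * r⁻¹ = z * p * a⁻¹ := by
            rw [hr]
            have : z * a⁻¹ * p * (a * p * a⁻¹ * p)⁻¹ = z * a⁻¹ * (p * p⁻¹) * a * p⁻¹ * a⁻¹ := by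
              group
            rw [this, mul_inv_cancel, hpi]
            group
          rwa [e] at h2
        have := hmem _ h1
        rwa [inv_mul_cancel_right] at this
      · have e : (z * p)⁻¹ * z = p⁻¹ := by group
        rw [e]
        exact P.inv_mem hpP
  refine ⟨V, φ, ?_, hcE 1 hE1, ?_, ?_⟩
  · refine (Finset.card_union_le _ _).trans ?_
    have := Finset.card_image_le (s := VC) (f := fun z => z * a)
    omega
  · rw [f1 1 hE1, one_mul]
  · rintro z hz
    by_cases h1 : E z
    · have h2 : E' (z * a) := by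
        show E (z * a * a⁻¹)
        rwa [mul_inv_cancel_right]
      rw [f1 z h1, f2 _ h2]
      refine ⟨hcE' _ h2, ?_, by rw [mul_inv_cancel_right], ?_⟩
      · intro h
        exact hdis z h1 (by rw [h] at h2; exact h2)
      · rwa [inv_mul_cancel_left]
    by_cases h2 : E' z
    · have h3 : E (z * a⁻¹) := h2
      rw [f2 z h2, f1 _ h3]
      refine ⟨hcE _ h3, ?_, by rw [inv_mul_cancel_right], ?_⟩
      · intro h
        exact h1 (by rw [← h]; exact h3)
      · rw [inv_mul_cancel_left]
        exact hA _ ha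
    · have h3 : ¬ E (z * p) := fun h => h1 ((hEp z).2 h)
      have h4 : ¬ E' (z * p) := fun h => h2 (hE'p' z h)
      rw [f3 z h1 h2, f3 _ h3 h4]
      obtain ⟨v, hv, hz⟩ := hz
      refine ⟨⟨v, hv, ?_⟩, fun h => hp1 (mul_eq_left.1 h), hzpp z, ?_⟩
      · rw [← mul_assoc]
        exact P.mul_mem hz hpP
      · rwa [inv_mul_cancel_left]

end Pool.Agent.H647.Kot
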