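import Mathlib
import Pool.Agent.H647.Kot.Local

/-!
Local pairings from elements of order four.
-/

set_option autoImplicit false

namespace Pool.Agent.H647.Kot

theorem local_mono {G : Type*} [Group G] {A : Set G} {P0 P : Subgroup G} (hPP : P0 ≤ P)
    (h0 : PMon A (P0 : Set G)) {k : ℕ} {a : G} (h : LocalPair A P0 k a) : LocalPair A P k a := by
  classical
  obtain ⟨V, φ, hV, ⟨v0, hv0, hv0P⟩, hφ1, hφ⟩ := h
  obtain ⟨F, hF⟩ := h0
  let rep : G → G := fun y => Quotient.out (y : G ⧸ P0)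
  have hrep : ∀ y, (rep y)⁻¹ * y ∈ P0 := fun y => QuotientGroup.eq.1 (Quotient.out_eq' (y : G ⧸ P0))
  have hrep' : ∀ y z, (rep y)⁻¹ * z ∈ P0 → rep z = rep y := by
    intro y z h
    have h7 : ((y : G) : G ⧸ P0) = (z : G ⧸ P0) := by
      have h8 : ((rep y : G) : G ⧸ P0) = (y : G ⧸ P0) := Quotient.out_eq' (y : G ⧸ P0)
      rw [← h8]
      exact QuotientGroup.eq.2 h
    simp only [rep, h7]
  let Cov : G → Prop := fun z => ∃ v ∈ V, v⁻¹ * z ∈ P0
  have hCov : ∀ z w, z⁻¹ * w ∈ P0 → Cov z → Cov w := by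
    rintro z w hzw ⟨v, hv, h⟩
    refine ⟨v, hv, ?_⟩
    have := P0.mul_mem h hzw
    have e : v⁻¹ * z * (z⁻¹ * w) = v⁻¹ * w := by group
    rwa [e] at this
  let ψ : G → G := fun z => if Cov z then φ z else rep z * F ((rep z)⁻¹ * z)
  have f1 : ∀ z, Cov z → ψ z = φ z := fun z hz => if_pos hz
  have f2 : ∀ z, ¬ Cov z → ψ z = rep z * F ((rep z)⁻¹ * z) := fun z hz => if_neg hz
  refine ⟨V, ψ, hV, ⟨v0, hv0, hPP hv0P⟩, ?_, ?_⟩
  · rw [f1 1 ⟨v0, hv0, hv0P⟩, hφ1]
  · rintro z ⟨v, hv, hz⟩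
    by_cases hc : Cov z
    · obtain ⟨⟨w, hw, q1⟩, q2, q3, q4⟩ := hφ z hc
      rw [f1 z hc, f1 _ ⟨w, hw, q1⟩]
      exact ⟨⟨w, hw, hPP q1⟩, q2, q3, q4⟩
    · obtain ⟨q1, q2, q3, q4⟩ := hF _ (hrep z)
      have h7 : (rep z)⁻¹ * ψ z ∈ P0 := by
        rw [f2 z hc, inv_mul_cancel_left]
        exact q1
      have h9 : z⁻¹ * ψ z ∈ P0 := by
        have := P0.mul_mem (P0.inv_mem (hrep z)) h7
        have e : ((rep z)⁻¹ * z)⁻¹ * ((rep z)⁻¹ * ψ z) = z⁻¹ * ψ z := by group
        rwa [e] at this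
      have h8 : ¬ Cov (ψ z) := by
        intro h
        apply hc
        apply hCov _ _ _ h
        have := P0.inv_mem h9
        rwa [mul_inv_rev, inv_inv] at this
      refine ⟨⟨v, hv, ?_⟩, ?_, ?_, ?_⟩
      · have := P.mul_mem hz (hPP h9)
        have e : v⁻¹ * z * (z⁻¹ * ψ z) = v⁻¹ * ψ z := by group
        rwa [e] at this
      · rw [f2 z hc]
        intro h
        apply q2
        rw [eq_inv_mul_iff_mul_eq]
        exact h
      · rw [f2 _ h8, hrep' z _ h7, f2 z hc, inv_mul_cancel_left, q3, mul_inv_cancel_left]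
      · rw [f2 z hc]
        have e : z⁻¹ * (rep z * F ((rep z)⁻¹ * z)) =
            ((rep z)⁻¹ * z)⁻¹ * F ((rep z)⁻¹ * z) := by group
        rw [e]
        exact q4

/-- the pairing of the group generated by an element of order four -/
theorem paired_of_four {G : Type*} [Group G] {A : Set G} (hA : ∀ x ∈ A, x⁻¹ ∈ A) {p : G}
    (hpA : p ∈ A) (hp4 : p ^ 4 = 1) (hp2 : p * p ≠ 1) :
    PMon A (Subgroup.zpowers p : Set G) := by
  classical
  have hp1 : p ≠ 1 := fun h => hp2 (by rw [h, mul_one])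
  have hmem : ∀ z ∈ Subgroup.zpowers p, z = 1 ∨ z = p ∨ z = p * p ∨ z = p * p * p := by
    intro z hz
    obtain ⟨n, rfl⟩ := Subgroup.mem_zpowers_iff.1 hz
    have h4 : p ^ (4 : ℤ) = 1 := by exact_mod_cast hp4
    have h1 : p ^ n = p ^ (n % 4) := by
      conv_lhs => rw [← Int.emod_add_mul_ediv n 4]
      rw [zpow_add, zpow_mul, h4, one_zpow, mul_one]
    rw [h1]
    have h2 := Int.emod_nonneg n (by norm_num : (4 : ℤ) ≠ 0)
    have h3 := Int.emod_lt_of_pos n (by norm_num : (0 : ℤ) < 4)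
    generalize n % 4 = m at h2 h3
    interval_cases m
    · left; simp
    · right; left; simp
    · right; right; left
      rw [show (2 : ℤ) = 1 + 1 by norm_num, zpow_add, zpow_one]
    · right; right; right
      rw [show (3 : ℤ) = 1 + 1 + 1 by norm_num, zpow_add, zpow_add, zpow_one]
  have e4 : p * p * p * p = 1 := by
    rw [← hp4]
    simp [pow_succ, mul_assoc]
  have n1 : p * p ≠ p := fun h => hp1 (mul_eq_left.1 h)
  have n2 : p * p * p ≠ 1 := by
    intro h
    rw [h, one_mul] at e4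
    exact hp1 e4
  have n3 : p * p * p ≠ p := by
    intro h
    apply hp2
    have : p * (p * p) = p := by rw [← mul_assoc]; exact h
    exact mul_eq_left.1 this
  have n4 : p * p * p ≠ p * p := fun h => hp1 (mul_eq_left.1 h)
  have hpz : p ∈ Subgroup.zpowers p := Subgroup.mem_zpowers p
  refine ⟨fun z => if z = 1 ∨ z = p * p then z * p else z * p⁻¹, ?_⟩
  intro z hz
  have hz' : z ∈ Subgroup.zpowers p := hz
  refine ⟨?_, ?_, ?_, ?_⟩
  · show (if z = 1 ∨ z = p * p then z * p else z * p⁻¹) ∈ Subgroup.zpowers p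
    split_ifs
    · exact Subgroup.mul_mem _ hz' hpz
    · exact Subgroup.mul_mem _ hz' (Subgroup.inv_mem _ hpz)
  · show (if z = 1 ∨ z = p * p then z * p else z * p⁻¹) ≠ z
    split_ifs
    · exact fun h => hp1 (mul_eq_left.1 h)
    · exact fun h => hp1 (inv_eq_one.1 (mul_eq_left.1 h))
  · rcases hmem z hz' with rfl | rfl | rfl | rfl
    · simp [hp1, Ne.symm n1]
    · simp [hp1, Ne.symm n1]
    · have h1 : (p * p) * p = p * p * p := rfl
      simp [hp2, n2, n4]
    · simp only [n2, n4, or_self, if_false, mul_inv_cancel_right, or_true, if_true]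
  · show z⁻¹ * (if z = 1 ∨ z = p * p then z * p else z * p⁻¹) ∈ A
    split_ifs
    · rwa [inv_mul_cancel_left]
    · rw [inv_mul_cancel_left]
      exact hA _ hpA

theorem local_of_order_four {G : Type*} [Group G] [Finite G] {A : Set G}
    (hA : ∀ x ∈ A, x⁻¹ ∈ A) {a p : G} (ha : a ∈ A) (haP : a ∉ Subgroup.zpowers p)
    (hpA : p ∈ A) (hp4 : p ^ 4 = 1) (hp2 : p * p ≠ 1) {k : ℕ} (hk : 2 ≤ k)
    (ho : orderOf (a * p) ≤ k) : LocalPair A (Subgroup.zpowers p) k a := by
  classical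
  have : Fintype G := Fintype.ofFinite G
  set P := Subgroup.zpowers p with hP
  have hpP : p ∈ P := Subgroup.mem_zpowers p
  have hp1 : p ≠ 1 := fun h => hp2 (by rw [h, mul_one])
  have e4 : p * p * p * p = 1 := by
    rw [← hp4]
    simp [pow_succ, mul_assoc]
  have hmem : ∀ z ∈ P, z = 1 ∨ z = p ∨ z = p * p ∨ z = p⁻¹ := by
    intro z hz
    obtain ⟨n, rfl⟩ := Subgroup.mem_zpowers_iff.1 hz
    have h4 : p ^ (4 : ℤ) = 1 := by exact_mod_cast hp4
    have h1 : p ^ n = p ^ (n % 4) := by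
      conv_lhs => rw [← Int.emod_add_mul_ediv n 4]
      rw [zpow_add, zpow_mul, h4, one_zpow, mul_one]
    rw [h1]
    have h2 := Int.emod_nonneg n (by norm_num : (4 : ℤ) ≠ 0)
    have h3 := Int.emod_lt_of_pos n (by norm_num : (0 : ℤ) < 4)
    generalize n % 4 = m at h2 h3
    interval_cases m
    · left; simp
    · right; left; simp
    · right; right; left
      rw [show (2 : ℤ) = 1 + 1 by norm_num, zpow_add, zpow_one]
    · right; right; right
      rw [show (3 : ℤ) = 4 + (-1) by norm_num, zpow_add, h4, one_mul, zpow_neg_one]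
  set C := Subgroup.zpowers (a * p) with hC
  have hcC : a * p ∈ C := Subgroup.mem_zpowers _
  have hCo : (Finset.univ.filter fun z => z ∈ C).card ≤ k := by
    refine le_trans (le_of_eq ?_) ho
    rw [← Nat.card_zpowers, Nat.card_eq_fintype_card, Fintype.card_subtype]
  by_cases hpC : p ∈ C
  · -- `p` commutes with `a`
    have hcomm : a * p = p * a := by
      obtain ⟨n, hn⟩ := Subgroup.mem_zpowers_iff.1 hpC
      have h1 : Commute (a * p) p := by
        have := (Commute.refl (a * p)).zpow_right n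
        rwa [hn] at this
      have h2 : a * p * p = p * (a * p) := h1.eq
      exact mul_right_cancel (b := p) (by rw [h2, mul_assoc])
    have haP2 : ∀ q ∈ P, a * q ∉ P := fun q hq h => haP ((Subgroup.mul_mem_cancel_right P hq).1 h)
    have n0 : ∀ q ∈ P, ∀ q' ∈ P, q ≠ a * q' := fun q hq q' hq' h => haP2 q' hq' (h ▸ hq)
    let φ : G → G := fun z => if z = 1 then a else if z = a then 1 else if z = p then a * p else
      if z = a * p then p else if z = p * p ∨ z = a * (p * p) then z * p else z * p⁻¹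
    have hpp : p * p ∈ P := P.mul_mem hpP hpP
    have hpi : p⁻¹ ∈ P := P.inv_mem hpP
    have m1 : p⁻¹ = p * p * p := by
      rw [inv_eq_iff_mul_eq_one]
      calc p * (p * p * p) = p * p * p * p := by group
        _ = 1 := e4
    have mm : p⁻¹ * p⁻¹ = p * p := by
      rw [← mul_inv_rev, inv_eq_iff_mul_eq_one]
      calc p * p * (p * p) = p * p * p * p := by group
        _ = 1 := e4
    have m2 : p⁻¹ ≠ 1 := fun h => hp1 (inv_eq_one.1 h)
    have m3 : p⁻¹ ≠ p := by
      intro h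
      apply hp2
      nth_rw 1 [← h]
      exact inv_mul_cancel p
    have m4 : p⁻¹ ≠ p * p := by
      rw [m1]
      exact fun h => hp1 (mul_eq_left.1 h)
    have m5 : p * p ≠ p := fun h => hp1 (mul_eq_left.1 h)
    have a1 : a ≠ 1 := fun h => haP (h ▸ P.one_mem)
    have k1 : p ≠ a := by simpa using n0 p hpP 1 P.one_mem
    have k2 : p * p ≠ a := by simpa using n0 _ hpp 1 P.one_mem
    have k3 : p⁻¹ ≠ a := by simpa using n0 _ hpi 1 P.one_mem
    have f1 : φ 1 = a := by simp [φ]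
    have f2 : φ a = 1 := by simp [φ, a1]
    have f3 : φ p = a * p := by simp [φ, hp1, k1]
    have f4 : φ (a * p) = p := by
      have h1 : a * p ≠ 1 := fun h => n0 1 P.one_mem p hpP h.symm
      have h2 : a * p ≠ a := fun h => hp1 (mul_eq_left.1 h)
      have h3 : a * p ≠ p := fun h => n0 p hpP p hpP h.symm
      simp only [φ, h1, h2, h3, if_false, if_true]
    have f5 : φ (p * p) = p⁻¹ := by
      have h3 : p * p ≠ a * p := n0 _ hpp p hpP
      simp only [φ, hp2, k2, m5, h3, if_false, true_or, if_true, m1]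
    have f6 : φ p⁻¹ = p * p := by
      have h3 : p⁻¹ ≠ a * p := n0 _ hpi p hpP
      have h4 : p⁻¹ ≠ a * (p * p) := n0 _ hpi _ hpp
      simp only [φ, m2, k3, m3, h3, m4, h4, or_self, if_false, mm]
    have f7 : φ (a * (p * p)) = a * p⁻¹ := by
      have h1 : a * (p * p) ≠ 1 := fun h => n0 1 P.one_mem _ hpp h.symm
      have h2 : a * (p * p) ≠ a := fun h => hp2 (mul_eq_left.1 h)
      have h3 : a * (p * p) ≠ p := fun h => n0 p hpP _ hpp h.symm
      have h4 : a * (p * p) ≠ a * p := fun h => m5 (mul_left_cancel h)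
      simp only [φ, h1, h2, h3, h4, if_false, or_true, if_true, m1, mul_assoc]
    have f8 : φ (a * p⁻¹) = a * (p * p) := by
      have h1 : a * p⁻¹ ≠ 1 := fun h => n0 1 P.one_mem _ hpi h.symm
      have h2 : a * p⁻¹ ≠ a := fun h => m2 (mul_eq_left.1 h)
      have h3 : a * p⁻¹ ≠ p := fun h => n0 p hpP _ hpi h.symm
      have h4 : a * p⁻¹ ≠ a * p := fun h => m3 (mul_left_cancel h)
      have h5 : a * p⁻¹ ≠ p * p := fun h => n0 _ hpp _ hpi h.symm
      have h6 : a * p⁻¹ ≠ a * (p * p) := fun h => m4 (mul_left_cancel h)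
      simp only [φ, h1, h2, h3, h4, h5, h6, or_self, if_false, mul_assoc, mm]
    refine ⟨{1, a}, φ, ?_, ⟨1, by simp, by simp⟩, f1, ?_⟩
    · refine (Finset.card_insert_le _ _).trans ?_
      rw [Finset.card_singleton]
      exact hk
    have hm1 : ∀ z ∈ P, ∃ v ∈ ({1, a} : Finset G), v⁻¹ * z ∈ P :=
      fun z hz => ⟨1, by simp, by simpa⟩
    have hm2 : ∀ q ∈ P, ∃ v ∈ ({1, a} : Finset G), v⁻¹ * (a * q) ∈ P :=
      fun q hq => ⟨a, by simp, by simpa⟩
    have g1 : (p * p)⁻¹ * p⁻¹ = p := by rw [mul_inv_rev, mm, mul_inv_cancel_right]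
    have g2 : p * (p * p) = p⁻¹ := by rw [← mul_assoc, m1]
    have g3 : p⁻¹ * (a * p) = a := by rw [hcomm, inv_mul_cancel_left]
    have g4 : (a * p)⁻¹ * p = a⁻¹ := by rw [hcomm, mul_inv_rev, inv_mul_cancel_right]
    rintro z ⟨v, hv, hz⟩
    rw [Finset.mem_insert, Finset.mem_singleton] at hv
    rcases hv with rfl | rfl
    · rw [inv_one, one_mul] at hz
      rcases hmem z hz with rfl | rfl | rfl | rfl
      · rw [f1, f2]
        exact ⟨by simpa using hm2 1 P.one_mem, a1, rfl, by simpa using ha⟩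
      · rw [f3, f4, g3]
        exact ⟨hm2 _ hpP, fun h => n0 _ hpP _ hpP h.symm, rfl, ha⟩
      · rw [f5, f6, g1]
        exact ⟨hm1 _ hpi, m4, rfl, hpA⟩
      · rw [f6, f5, inv_inv, g2]
        exact ⟨hm1 _ hpp, fun h => m4 h.symm, rfl, hA _ hpA⟩
    · obtain ⟨q, hq, rfl⟩ : ∃ q ∈ P, z = v * q := ⟨v⁻¹ * z, hz, by group⟩
      rcases hmem q hq with rfl | rfl | rfl | rfl
      · rw [mul_one, f2, f1]
        exact ⟨hm1 _ P.one_mem, a1.symm, rfl, by simpa using hA _ ha⟩
      · rw [f4, f3, g4]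
        exact ⟨hm1 _ hpP, fun h => n0 _ hpP _ hpP h, rfl, hA _ ha⟩
      · rw [f7, f8]
        refine ⟨hm2 _ hpi, fun h => m4 (mul_left_cancel h), rfl, ?_⟩
        have e : (v * (p * p))⁻¹ * (v * p⁻¹) = (p * p)⁻¹ * p⁻¹ := by group
        rw [e, g1]
        exact hpA
      · rw [f8, f7]
        refine ⟨hm2 _ hpp, fun h => m4 (mul_left_cancel h).symm, rfl, ?_⟩
        have e : (v * p⁻¹)⁻¹ * (v * (p * p)) = p * (p * p) := by group
        rw [e, g2]
        exact hA _ hpA
  · let φ : G → G := fun z => if z ∈ C then z * a else if z * p ∈ C then z * a⁻¹ else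
      if z * p⁻¹ ∈ C then z * p else z * p⁻¹
    have hpiC : p⁻¹ ∉ C := fun h => hpC (by simpa using C.inv_mem h)
    have hap' : p⁻¹ * a⁻¹ ∈ C := by
      have := C.inv_mem hcC
      rwa [mul_inv_rev] at this
    have hdiv : ∀ z w, z ∈ C → w ∈ C → z⁻¹ * w ∈ C := fun z w hz hw => C.mul_mem (C.inv_mem hz) hw
    have g1 : ∀ z, z ∈ C → z * a ∉ C ∧ z * a * p ∈ C := by
      intro z hz
      have h1 : z * a * p ∈ C := by
        rw [mul_assoc]
        exact C.mul_mem hz hcC
      refine ⟨fun h => hpC ?_, h1⟩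
      have := C.mul_mem (C.inv_mem h) h1
      rwa [inv_mul_cancel_left] at this
    have g2 : ∀ z, z * p ∈ C → z * a⁻¹ ∈ C := by
      intro z hz
      have := C.mul_mem hz hap'
      have e : z * p * (p⁻¹ * a⁻¹) = z * a⁻¹ := by group
      rwa [e] at this
    refine ⟨Finset.univ.filter fun z => z ∈ C, φ, hCo, ⟨1, by simp, by simp⟩, by simp [φ], ?_⟩
    rintro z ⟨v, hv, hz⟩
    have hvC : v ∈ C := by simpa using hv
    obtain ⟨q, hq, rfl⟩ : ∃ q ∈ P, z = v * q := ⟨v⁻¹ * z, hz, by group⟩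
    have hm : ∀ w ∈ C, ∀ q ∈ P, ∃ v ∈ (Finset.univ.filter fun z => z ∈ C), v⁻¹ * (w * q) ∈ P :=
      fun w hw q hq => ⟨w, by simpa using hw, by rwa [inv_mul_cancel_left]⟩
    have hm' : ∀ w, w ∈ C → ∃ v ∈ (Finset.univ.filter fun z => z ∈ C), v⁻¹ * w ∈ P :=
      fun w hw => by simpa using hm w hw 1 P.one_mem
    have hmp : ∀ w, w * p ∈ C → ∃ v ∈ (Finset.univ.filter fun z => z ∈ C), v⁻¹ * w ∈ P := by
      intro w hw
      have := hm _ hw p⁻¹ (P.inv_mem hpP)
      rwa [mul_inv_cancel_right] at this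
    generalize hzz : v * q = z at *
    by_cases h1 : z ∈ C
    · obtain ⟨h2, h3⟩ := g1 z h1
      have e1 : φ z = z * a := by simp only [φ, h1, if_true]
      have e2 : φ (z * a) = z * a * a⁻¹ := by simp only [φ, h2, h3, if_false, if_true]
      rw [e1, e2]
      refine ⟨hmp _ h3, fun h => h2 (by rw [h]; exact h1), by rw [mul_inv_cancel_right], ?_⟩
      rwa [inv_mul_cancel_left]
    by_cases h2 : z * p ∈ C
    · have h3 := g2 z h2
      have e1 : φ z = z * a⁻¹ := by simp only [φ, h1, h2, if_false, if_true]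
      have e2 : φ (z * a⁻¹) = z * a⁻¹ * a := by simp only [φ, h3, if_true]
      rw [e1, e2]
      refine ⟨hm' _ h3, fun h => h1 (by rw [← h]; exact h3), by rw [inv_mul_cancel_right], ?_⟩
      rw [inv_mul_cancel_left]
      exact hA _ ha
    -- the two remaining kinds
    have key : z = v * p ∨ z = v * (p * p) := by
      rcases hmem q hq with rfl | rfl | rfl | rfl
      · exact absurd (by rw [← hzz, mul_one]; exact hvC) h1
      · exact Or.inl hzz.symm
      · exact Or.inr hzz.symm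
      · exact absurd (by rw [← hzz, inv_mul_cancel_right]; exact hvC) h2
    have ppC : ∀ w ∈ C, w * p ∉ C := fun w hw h => hpC (by simpa using C.mul_mem (C.inv_mem hw) h)
    have ppiC : ∀ w ∈ C, w * p⁻¹ ∉ C := fun w hw h =>
      hpiC (by simpa using C.mul_mem (C.inv_mem hw) h)
    have hpppp : ∀ w : G, w * p * p * p = w * p⁻¹ := by
      intro w
      have : w * p * p * p = w * (p * p * p * p) * p⁻¹ := by group
      rw [this, e4, mul_one]
    have hcov : ∀ q ∈ P, ∃ v ∈ (Finset.univ.filter fun z => z ∈ C), v⁻¹ * (z * q) ∈ P := by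
      intro q' hq'
      refine ⟨v, hv, ?_⟩
      rw [← mul_assoc]
      exact P.mul_mem hz hq'
    rcases key with hk1 | hk1
    · -- `z = v p`
      have h3 : z * p⁻¹ ∈ C := by rw [hk1, mul_inv_cancel_right]; exact hvC
      have e1 : φ z = z * p := by simp only [φ, h1, h2, h3, if_false, if_true]
      have h4 : z * p * p ∉ C := by
        rw [hk1, hpppp]
        exact ppiC _ hvC
      have h5 : z * p * p⁻¹ ∉ C := by rwa [mul_inv_cancel_right]
      have e2 : φ (z * p) = z * p * p⁻¹ := by simp only [φ, h2, h4, h5, if_false]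
      rw [e1, e2]
      refine ⟨hcov _ hpP, fun h => hp1 (mul_eq_left.1 h), by rw [mul_inv_cancel_right], ?_⟩
      rwa [inv_mul_cancel_left]
    · -- `z = v p p`
      have h3 : z * p⁻¹ ∉ C := by
        rw [hk1, ← mul_assoc, mul_inv_cancel_right]
        exact ppC _ hvC
      have e1 : φ z = z * p⁻¹ := by simp only [φ, h1, h2, h3, if_false]
      have h4 : z * p⁻¹ * p ∉ C := by rwa [inv_mul_cancel_right]
      have h5 : z * p⁻¹ * p⁻¹ ∈ C := by
        rw [hk1, ← mul_assoc, mul_inv_cancel_right, mul_inv_cancel_right]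
        exact hvC
      have e2 : φ (z * p⁻¹) = z * p⁻¹ * p := by simp only [φ, h3, h4, h5, if_false, if_true]
      rw [e1, e2]
      refine ⟨hcov _ (P.inv_mem hpP), fun h => hp1 (inv_eq_one.1 (mul_eq_left.1 h)),
        by rw [inv_mul_cancel_right], ?_⟩
      rw [inv_mul_cancel_left]
      exact hA _ hpA

end Pool.Agent.H647.Kot
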