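import Mathlib
import Pool.Agent.H647.Kot.PM
import Pool.Agent.H647.Kot.Local

/-!
Local pairings from subgroups, and from smaller subgroups.
-/

set_option autoImplicit false

namespace Pool.Agent.H647.Kot

theorem local_of_subgroup {G : Type} [Group G] [Finite G] {A : Set G} {P K : Subgroup G}
    (hA : ∀ x ∈ A, x⁻¹ ∈ A) (hPK : P ≤ K) (hKA : Subgroup.closure (A ∩ K) = K)
    (hKe : Even (Nat.card K)) {a : G} (ha : a ∈ A) (haK : a ∈ K) (ha1 : a ≠ 1) {k : ℕ}
    (hk : Nat.card K ≤ k * Nat.card P) : LocalPair A P k a := by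
  classical
  have : Fintype G := Fintype.ofFinite G
  have hgen : Subgroup.closure {x : K | (x : G) ∈ A} = ⊤ := by
    have h1 : ∀ (s : Set G) (L : Subgroup G), Subgroup.closure s = L →
        Subgroup.closure {x : L | (x : G) ∈ s} = ⊤ := by
      rintro s L rfl
      exact Subgroup.closure_closure_coe_preimage
    have h2 := h1 _ _ hKA
    have h3 : {x : K | (x : G) ∈ A} = {x : K | (x : G) ∈ A ∩ (K : Set G)} := by
      ext x
      exact ⟨fun hx => ⟨hx, x.2⟩, fun hx => hx.1⟩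
    rwa [h3]
  obtain ⟨m, hm1, hm2, hm3⟩ := exists_pm {x : K | (x : G) ∈ A} (fun x hx => hA _ hx) hgen hKe
    ⟨a, haK⟩ ha (fun h => ha1 (congrArg Subtype.val h))
  let out : G → G := fun z => Quotient.out (z : G ⧸ P)
  have hout : ∀ z, (out z)⁻¹ * z ∈ P := fun z => QuotientGroup.eq.1 (Quotient.out_eq' (z : G ⧸ P))
  have hout2 : ∀ z w, z⁻¹ * w ∈ P → out z = out w := by
    intro z w h
    simp only [out, QuotientGroup.eq.2 h]
  let V : Finset G := (Finset.univ.filter (· ∈ K)).image out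
  have hV : ∀ v, v ∈ V ↔ ∃ z ∈ K, out z = v := by
    intro v
    simp [V]
  have hVK : ∀ v ∈ V, v ∈ K := by
    intro v hv
    obtain ⟨z, hz, rfl⟩ := (hV v).1 hv
    have h1 := K.mul_mem hz (K.inv_mem (hPK (hout z)))
    have e : z * ((out z)⁻¹ * z)⁻¹ = out z := by group
    rwa [e] at h1
  have hVout : ∀ v ∈ V, out v = v := by
    intro v hv
    obtain ⟨z, hz, rfl⟩ := (hV v).1 hv
    exact hout2 _ _ (hout z)
  have hcov : ∀ z ∈ K, ∃ v ∈ V, v⁻¹ * z ∈ P := fun z hz => ⟨out z, (hV _).2 ⟨z, hz, rfl⟩, hout z⟩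
  have hcard : V.card ≤ k := by
    have h1 : V.card * Nat.card P ≤ Nat.card K := by
      have h2 : Nat.card (V × P) ≤ Nat.card K := by
        refine Nat.card_le_card_of_injective
          (fun x => (⟨x.1 * x.2, K.mul_mem (hVK _ x.1.2) (hPK x.2.2)⟩ : K)) ?_
        rintro ⟨v, p⟩ ⟨v', p'⟩ h
        have h3 : (v : G) * p = v' * p' := congrArg Subtype.val h
        have h4 : (v : G) = v' := by
          have h5 : (v : G)⁻¹ * v' ∈ P := by
            have e : (v : G)⁻¹ * v' = p * (p' : G)⁻¹ := by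
              rw [inv_mul_eq_iff_eq_mul, ← mul_assoc, h3, mul_inv_cancel_right]
            rw [e]
            exact P.mul_mem p.2 (P.inv_mem p'.2)
          rw [← hVout _ v.2, ← hVout _ v'.2]
          exact hout2 _ _ h5
        rw [h4] at h3
        exact Prod.ext (Subtype.ext h4) (Subtype.ext (mul_left_cancel h3))
      rw [Nat.card_prod] at h2
      simpa using h2
    exact Nat.le_of_mul_le_mul_right (h1.trans hk) Nat.card_pos
  refine ⟨V, fun z => if h : z ∈ K then (m ⟨z, h⟩ : G) else z, hcard, hcov 1 K.one_mem, ?_, ?_⟩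
  · have h1 : (1 : G) ∈ K := K.one_mem
    simp only [h1, dif_pos]
    exact congrArg Subtype.val hm3
  · rintro z ⟨v, hv, hz⟩
    have hzK : z ∈ K := by
      have := K.mul_mem (hVK v hv) (hPK hz)
      rwa [mul_inv_cancel_left] at this
    have h1 := hm1 ⟨z, hzK⟩
    have h2 : ((m ⟨z, hzK⟩ : K) : G) ∈ K := (m ⟨z, hzK⟩).2
    simp only [hzK, dif_pos, h2]
    refine ⟨hcov _ h2, fun h => h1.2 (Subtype.ext h), ?_, hm2 ⟨z, hzK⟩⟩
    exact congrArg Subtype.val h1.1

end Pool.Agent.H647.Kot
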