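import Pool.Agent.H647.Kot.ArcTour
import Pool.Graph.R_pool_sql_team_seeded_64922ed1.X267.Ham.Two
import Pool.Graph.R_pool_sql_team_seeded_64922ed1.X267.Ham.Seq

/-!
# Connected even sets with few elements in every coset; permutations from closed listings
-/

set_option autoImplicit false
set_option linter.unusedSectionVars false

namespace Pool.Agent.H647.Kot

open Finset Equiv Equiv.Perm
open Pool.Agent.Helper879.ECD (sp Ind sp_mono mem_sp exists_coeff)
open Pool.Agent.X267.Ham

section pack

variable {G : Type} [Group G] [Fintype G] [DecidableEq G]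

/-- the configuration of the left cosets of `K` -/
noncomputable def cap (K : Subgroup G) (g : G) : (G ⊕ G) →₀ ZMod 2 :=
  Finsupp.single (Sum.inl (rp K g)) 1

lemma cap_smul (K : Subgroup G) (h : G) :
    ∃ ρ : ((G ⊕ G) →₀ ZMod 2) →ₗ[ZMod 2] ((G ⊕ G) →₀ ZMod 2),
      ∀ e, ρ (cap K e) = cap K (h • e) := by
  refine ⟨Finsupp.lmapDomain _ _ (Sum.map (fun u => rp K (h * u)) (fun u => u)), ?_⟩
  intro e
  unfold cap
  rw [Finsupp.lmapDomain_apply, Finsupp.mapDomain_single, Sum.map_inl, rp_mul]
  rfl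

lemma cap_rank (K : Subgroup G) :
    Module.finrank (ZMod 2) (sp (ZMod 2) (cap K) univ) ≤ K.index := by
  classical
  let b : G ⧸ K → (G ⊕ G) →₀ ZMod 2 := fun q => Finsupp.single (Sum.inl q.out) 1
  have h1 : sp (ZMod 2) (cap K) univ ≤ Submodule.span (ZMod 2) (Set.range b) := by
    unfold sp
    rw [Submodule.span_le]
    rintro _ ⟨e, _, rfl⟩
    exact Submodule.subset_span ⟨(e : G ⧸ K), rfl⟩
  have h2 : (Set.range b).finrank (ZMod 2) ≤ Fintype.card (G ⧸ K) := finrank_range_le_card b
  have h3 : K.index = Fintype.card (G ⧸ K) := by rw [Subgroup.index, Nat.card_eq_fintype_card]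
  rw [h3]
  exact (Submodule.finrank_mono h1).trans h2

lemma cap_meets (K : Subgroup G) (I : Finset G)
    (hI : sp (ZMod 2) (cap K) I = sp (ZMod 2) (cap K) univ) (g : G) :
    ∃ e ∈ I, rp K e = rp K g := by
  by_contra hcon
  push Not at hcon
  let φ : ((G ⊕ G) →₀ ZMod 2) →ₗ[ZMod 2] ZMod 2 := Finsupp.lapply (Sum.inl (rp K g))
  have hle : sp (ZMod 2) (cap K) I ≤ LinearMap.ker φ := by
    unfold sp
    rw [Submodule.span_le]
    rintro _ ⟨e, he, rfl⟩
    show (Finsupp.single (Sum.inl (rp K e) : G ⊕ G) (1 : ZMod 2)) (Sum.inl (rp K g)) = 0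
    rw [Finsupp.single_apply, if_neg]
    intro h
    exact hcon e he (Sum.inl_injective h)
  rw [hI] at hle
  have h1 : (Finsupp.single (Sum.inl (rp K g) : G ⊕ G) (1 : ZMod 2)) (Sum.inl (rp K g)) = 0 :=
    hle (mem_sp (Finset.mem_univ g))
  rw [Finsupp.single_eq_same] at h1
  exact one_ne_zero h1

lemma ncard_coset (K : Subgroup G) (y : G) : {e : G | rp K e = rp K y}.ncard = Nat.card K := by
  rcases card_rp K (rp K y) with h | h
  · rw [Set.ncard_eq_zero (Set.toFinite _)] at h
    have h1 : y ∈ ({e : G | rp K e = rp K y} : Set G) := rfl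
    rw [h] at h1
    exact absurd h1 (Set.notMem_empty y)
  · exact h

/-- **A connected even subset** with at most `|K| - c` elements in every left coset of `K`. -/
theorem exists_even (H K : Subgroup G) (hgen : H ⊔ K = ⊤) (c : ℕ)
    (hc : 2 * (H.index + K.index) + c * K.index ≤ Fintype.card G + 2) :
    ∃ F : Finset G, (∀ y, Even {e | e ∈ F ∧ rp H e = y}.ncard) ∧
      (∀ y, Even {e | e ∈ F ∧ rp K e = y}.ncard) ∧
      (∀ y, {e | e ∈ F ∧ rp K e = rp K y}.ncard + c ≤ Nat.card K) ∧
      ∀ S : Set G, S.Nonempty → (∀ e f, rp H e = rp H f → e ∈ S → f ∈ S) →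
        (∀ e f, e ∈ F → f ∈ F → rp K e = rp K f → e ∈ S → f ∈ S) → S = Set.univ := by
  classical
  let x : Bool ⊕ Fin c → G → (G ⊕ G) →₀ ZMod 2 := Sum.elim (fun _ => cfg H K) (fun _ => cap K)
  have hr1 : Module.finrank (ZMod 2) (sp (ZMod 2) (cfg H K) univ) + 1 ≤ H.index + K.index := by
    have := rank_bound H K ⊤ le_top le_top
    rwa [Subgroup.index_top] at this
  have hr2 := cap_rank K
  obtain ⟨I, hdis, hsp⟩ := avg_pack (G := G) x (fun i g => by
      rcases i with i | i
      · exact cfg_smul _ _ g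
      · exact cap_smul _ g) (by
    rw [Fintype.sum_sum_type]
    have s1 : ∑ b : Bool, Module.finrank (ZMod 2) (sp (ZMod 2) (x (Sum.inl b)) univ) =
        2 * Module.finrank (ZMod 2) (sp (ZMod 2) (cfg H K) univ) := by
      rw [Fintype.sum_bool]
      exact (two_mul _).symm
    have s2 : ∑ i : Fin c, Module.finrank (ZMod 2) (sp (ZMod 2) (x (Sum.inr i)) univ) =
        c * Module.finrank (ZMod 2) (sp (ZMod 2) (cap K) univ) := by
      have h0 : ∀ i : Fin c, Module.finrank (ZMod 2) (sp (ZMod 2) (x (Sum.inr i)) univ) =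
          Module.finrank (ZMod 2) (sp (ZMod 2) (cap K) univ) := fun _ => rfl
      rw [Finset.sum_congr rfl (fun i _ => h0 i), Finset.sum_const, Finset.card_univ,
        Fintype.card_fin, smul_eq_mul]
    rw [s1, s2]
    have := Nat.mul_le_mul_left c hr2
    omega)
  have hsp1 : ∀ b : Bool, sp (ZMod 2) (cfg H K) (I (Sum.inl b)) = sp (ZMod 2) (cfg H K) univ :=
    fun b => hsp (Sum.inl b)
  have hsp2 : ∀ i : Fin c, sp (ZMod 2) (cap K) (I (Sum.inr i)) = sp (ZMod 2) (cap K) univ :=
    fun i => hsp (Sum.inr i)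
  have hv : ∑ q ∈ I (Sum.inl false), cfg H K q ∈ sp (ZMod 2) (cfg H K) (I (Sum.inl true)) := by
    rw [hsp1 true]
    exact Submodule.sum_mem _ (fun q _ => mem_sp (Finset.mem_univ q))
  obtain ⟨cf, hcf⟩ := exists_coeff hv
  let J : Finset G := (I (Sum.inl true)).filter (fun q => cf q ≠ 0)
  have hJ : ∑ q ∈ J, cfg H K q = ∑ q ∈ I (Sum.inl false), cfg H K q := by
    rw [← hcf, Finset.sum_filter]
    apply Finset.sum_congr rfl
    intro q _
    by_cases h : cf q = 0
    · simp [h]
    · rw [if_pos h, z2' _ h, one_smul]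
  have hd12 : Disjoint (I (Sum.inl false)) J :=
    (hdis (Sum.inl false) (Sum.inl true) (by simp)).mono_right (Finset.filter_subset _ _)
  let F : Finset G := I (Sum.inl false) ∪ J
  have hsum : ∑ q ∈ F, cfg H K q = 0 := by
    rw [Finset.sum_union hd12, hJ]
    ext v
    rw [Finsupp.add_apply]
    have : ∀ a : ZMod 2, a + a = 0 := by decide
    exact this _
  have hFI : ∀ e ∈ F, ∃ b : Bool, e ∈ I (Sum.inl b) := by
    intro e he
    rcases Finset.mem_union.1 he with h | h
    · exact ⟨false, h⟩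
    · exact ⟨true, (Finset.mem_filter.1 h).1⟩
  refine ⟨F, ?_, ?_, ?_, ?_⟩
  · intro y
    have h5 : {e | e ∈ F ∧ rp H e = y} = ((F.filter (fun e => rp H e = y) : Finset G) : Set G) := by
      ext e; simp
    rw [h5, Set.ncard_coe_finset]
    apply even_of_sum F (cfg H K) _ (Sum.inl y) _ hsum
    intro q _
    show (Finsupp.single _ 1 + Finsupp.single _ 1 : (G ⊕ G) →₀ ZMod 2) (Sum.inl y) = _
    rw [Finsupp.add_apply, Finsupp.single_apply, Finsupp.single_apply]
    simp only [reduceCtorEq, if_false, add_zero, Sum.inl.injEq]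
  · intro y
    have h5 : {e | e ∈ F ∧ rp K e = y} = ((F.filter (fun e => rp K e = y) : Finset G) : Set G) := by
      ext e; simp
    rw [h5, Set.ncard_coe_finset]
    apply even_of_sum F (cfg H K) _ (Sum.inr y) _ hsum
    intro q _
    show (Finsupp.single _ 1 + Finsupp.single _ 1 : (G ⊕ G) →₀ ZMod 2) (Sum.inr y) = _
    rw [Finsupp.add_apply, Finsupp.single_apply, Finsupp.single_apply]
    simp only [reduceCtorEq, if_false, zero_add, Sum.inr.injEq]
  · intro y
    choose e he1 he2 using fun i : Fin c => cap_meets K (I (Sum.inr i)) (hsp2 i) y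
    have hinj : Function.Injective e := by
      intro i j hij
      by_contra hne
      have h6 := hdis (Sum.inr i) (Sum.inr j) (fun h => hne (Sum.inr_injective h))
      exact Finset.disjoint_left.1 h6 (he1 i) (hij ▸ he1 j)
    have hdj : Disjoint {e | e ∈ F ∧ rp K e = rp K y} (Set.range e) := by
      rw [Set.disjoint_left]
      rintro _ ⟨h7, _⟩ ⟨i, rfl⟩
      obtain ⟨b, hb⟩ := hFI _ h7
      have h6 := hdis (Sum.inl b) (Sum.inr i) (by simp)
      exact Finset.disjoint_left.1 h6 hb (he1 i)
    have h8 : {e | e ∈ F ∧ rp K e = rp K y} ∪ Set.range e ⊆ {e : G | rp K e = rp K y} := by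
      rintro g (h | ⟨i, rfl⟩)
      · exact h.2
      · exact he2 i
    have h9 := Set.ncard_le_ncard h8 (Set.toFinite _)
    rw [Set.ncard_union_eq hdj (Set.toFinite _) (Set.toFinite _), ncard_coset,
      ← Set.image_univ, Set.ncard_image_of_injective _ hinj, Set.ncard_univ, Nat.card_fin] at h9
    exact h9
  · intro S hS hp hq
    let ψ : Set G := {g | ∃ e ∈ I (Sum.inl false), e ∈ S ∧ e⁻¹ * g ∈ K}
    have h1 := agree H K (I (Sum.inl false)) (hsp1 false) S ψ (stab_of_rp hp)
      (by
        intro x hx g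
        constructor
        · rintro ⟨e, h1, h2, h3⟩
          refine ⟨e, h1, h2, ?_⟩
          have := K.mul_mem h3 (K.inv_mem hx)
          rwa [mul_assoc, mul_assoc, mul_inv_cancel, mul_one] at this
        · rintro ⟨e, h1, h2, h3⟩
          refine ⟨e, h1, h2, ?_⟩
          rw [← mul_assoc]
          exact K.mul_mem h3 hx)
      (by
        intro e he
        have hm : ∀ e ∈ I (Sum.inl false), e ∈ F := fun e he => Finset.mem_union_left _ he
        constructor
        · intro h
          refine ⟨e, he, h, ?_⟩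
          rw [inv_mul_cancel]
          exact K.one_mem
        · rintro ⟨e', h1, h2, h3⟩
          exact hq e' e (hm _ h1) (hm _ he) ((rp_eq_iff K).2 h3) h2)
    have hKS : K ≤ stab S := by
      intro x hx g
      rw [h1, h1]
      constructor
      · rintro ⟨e, h2, h3, h4⟩
        refine ⟨e, h2, h3, ?_⟩
        have := K.mul_mem h4 (K.inv_mem hx)
        rwa [mul_assoc, mul_assoc, mul_inv_cancel, mul_one] at this
      · rintro ⟨e, h2, h3, h4⟩
        refine ⟨e, h2, h3, ?_⟩
        rw [← mul_assoc]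
        exact K.mul_mem h4 hx
    have h2 : (⊤ : Subgroup G) ≤ stab S := by
      rw [← hgen]
      exact sup_le (stab_of_rp hp) hKS
    obtain ⟨s, hs⟩ := hS
    ext g
    simp only [Set.mem_univ, iff_true]
    have h3 := h2 (Subgroup.mem_top (s⁻¹ * g)) s
    rw [mul_inv_cancel_left] at h3
    exact h3.2 hs

/-- **A clique partition and a cycle partition.** -/
theorem clique_cycle (H K : Subgroup G) (hgen : H ⊔ K = ⊤) (hH : 4 ≤ Nat.card H)
    (hK4 : 4 ≤ Nat.card K) (hKH : 2 * Nat.card K ≤ 3 * Nat.card H) (π : Perm G)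
    (hπ : ∀ g g', π.SameCycle g g' ↔ g⁻¹ * g' ∈ K) :
    ∃ τ : Perm G, (∀ x y, τ.SameCycle x y) ∧
      ∀ g, g⁻¹ * τ g ∈ H ∨ τ g = π g ∨ π (τ g) = g := by
  have h1 := H.index_mul_card
  have h2 := K.index_mul_card
  rw [Nat.card_eq_fintype_card (α := G)] at h1 h2
  obtain ⟨F, e1, e2, e3, e4⟩ := exists_even H K hgen (Nat.card K - 5) (by
    have h3 : 2 * H.index ≤ 3 * K.index := by
      have h4 : (2 * H.index) * Nat.card H ≤ (3 * K.index) * Nat.card H := by
        calc (2 * H.index) * Nat.card H = 2 * (H.index * Nat.card H) := by ring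
          _ = K.index * (2 * Nat.card K) := by rw [h1, ← h2]; ring
          _ ≤ K.index * (3 * Nat.card H) := Nat.mul_le_mul_left _ hKH
          _ = (3 * K.index) * Nat.card H := by ring
      exact Nat.le_of_mul_le_mul_right h4 (by omega)
    rcases Nat.lt_or_ge (Nat.card K) 5 with h5 | h5
    · have h6 : Nat.card K = 4 := by omega
      rw [h6] at h2
      have h7 : H.index * 4 ≤ H.index * Nat.card H := Nat.mul_le_mul_left _ hH
      rw [h6]
      omega
    · obtain ⟨d, hd⟩ := Nat.exists_eq_add_of_le h5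
      rw [hd] at h2 ⊢
      have h8 : 5 + d - 5 = d := by omega
      rw [h8]
      have h9 : K.index * (5 + d) = 5 * K.index + d * K.index := by ring
      omega)
  have hsc : ∀ x e : G, π.SameCycle x e ↔ rp K e = rp K x := by
    intro x e
    rw [hπ, eq_comm, rp_eq_iff]
  obtain ⟨τ, t1, t2⟩ := arc_tour π F (rp H) e1 (by
      intro x
      simp only [hsc]
      exact e2 _) (by
      intro x
      simp only [hsc]
      have := e3 x
      omega) (by
      intro S hS hp hq
      refine e4 S hS hp (fun e f he hf hef => hq e f he hf ?_)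
      rw [hsc, hef])
  refine ⟨τ, t1, fun g => ?_⟩
  rcases t2 g with h | h | h
  · exact Or.inl ((rp_eq_iff H).1 h.symm)
  · exact Or.inr (Or.inl h)
  · exact Or.inr (Or.inr h)

end pack

/-- a function all of whose iterates reach everything is a permutation with one cycle -/
theorem perm_of_reach {X : Type*} [Finite X] (τ : X → X)
    (all : ∀ u v, Relation.ReflTransGen (fun u v => v = τ u) u v) :
    ∃ σ : Perm X, (∀ x, σ x = τ x) ∧ ∀ x y, σ.SameCycle x y := by
  have surj : Function.Surjective τ := by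
    intro v
    rcases Relation.ReflTransGen.cases_tail (all (τ v) v) with h | ⟨w, _, h⟩
    · exact ⟨v, h.symm⟩
    · exact ⟨w, h.symm⟩
  refine ⟨Equiv.ofBijective τ (Finite.surjective_iff_bijective.1 surj), fun _ => rfl, ?_⟩
  intro x y
  have h5 := all x y
  induction h5 with
  | refl => exact SameCycle.refl _ _
  | tail _ hbc ih =>
    rw [hbc]
    exact ih.trans ((sameCycle_apply_right).2 (SameCycle.refl _ _))

/-- from a closed listing to a permutation with one cycle -/
theorem perm_of_closed {K : Type*} [Group K] [Finite K] {A : Set K} (h : HasClosedListing A) :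
    ∃ κ : Perm K, (∀ x, x⁻¹ * κ x ∈ A) ∧ ∀ x y, κ.SameCycle x y := by
  classical
  obtain ⟨a, h1, h2, h3⟩ := h
  obtain ⟨f, rfl⟩ := exists_ext a
  rw [isListing_iff] at h2
  have hn0 : 0 < Nat.card K := Nat.card_pos
  have hpn : pr f (Nat.card K) = 1 := by
    have h4 := take_prod (n := Nat.card K) f (Nat.card K) le_rfl
    rw [← h4, List.take_of_length_le (by rw [List.length_ofFn])]
    exact h3
  have hinj : ∀ i j, i < Nat.card K → j < Nat.card K → pr f i = pr f j → i = j := by
    intro i j hi hj hij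
    rcases Nat.eq_zero_or_pos i with rfl | hi0
    · rcases Nat.eq_zero_or_pos j with rfl | hj0
      · rfl
      · have h5 : pr f (Nat.card K - 1 + 1) = pr f (j - 1 + 1) := by
          rw [Nat.sub_add_cancel hn0, Nat.sub_add_cancel hj0, hpn, ← hij]
          rfl
        have := h2 _ _ (by omega) (by omega) h5
        omega
    · rcases Nat.eq_zero_or_pos j with rfl | hj0
      · have h5 : pr f (i - 1 + 1) = pr f (Nat.card K - 1 + 1) := by
          rw [Nat.sub_add_cancel hn0, Nat.sub_add_cancel hi0, hpn, hij]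
          rfl
        have := h2 _ _ (by omega) (by omega) h5
        omega
      · have := h2 (i - 1) (j - 1) (by omega) (by omega)
          (by rw [Nat.sub_add_cancel hi0, Nat.sub_add_cancel hj0]; exact hij)
        omega
  have hsurj : ∀ k : K, ∃ i, i < Nat.card K ∧ pr f i = k := by
    intro k
    have hb : Function.Bijective (fun i : Fin (Nat.card K) => pr f i.val) := by
      rw [Nat.bijective_iff_injective_and_card]
      exact ⟨fun i j hij => Fin.ext (hinj _ _ i.isLt j.isLt hij), Nat.card_fin _⟩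
    obtain ⟨i, hi⟩ := hb.2 k
    exact ⟨i.val, i.isLt, hi⟩
  choose idx hidx1 hidx2 using hsurj
  have hstep : ∀ i, i < Nat.card K → pr f (idx (pr f i) + 1) = pr f (i + 1) := by
    intro i hi
    rw [hinj _ _ (hidx1 _) hi (hidx2 (pr f i))]
  obtain ⟨κ, hκ1, hκ2⟩ := perm_of_reach (fun k => pr f (idx k + 1)) (by
    have up : ∀ i j, i ≤ j → j ≤ Nat.card K →
        Relation.ReflTransGen (fun u v => v = pr f (idx u + 1)) (pr f i) (pr f j) := by
      intro i j hij
      induction j, hij using Nat.le_induction with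
      | base => intro _; exact Relation.ReflTransGen.refl
      | succ j _ ih =>
        intro hj
        exact (ih (by omega)).tail (hstep j (by omega)).symm
    intro u v
    have h5 := up (idx u) (Nat.card K) (le_of_lt (hidx1 u)) le_rfl
    have h6 := up 0 (idx v) (Nat.zero_le _) (le_of_lt (hidx1 v))
    rw [hidx2, hpn] at h5
    rw [hidx2] at h6
    exact h5.trans h6)
  refine ⟨κ, fun x => ?_, hκ2⟩
  rw [hκ1]
  have h7 : pr f (idx x + 1) = x * f (idx x) := by
    show pr f (idx x) * f (idx x) = _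
    rw [hidx2]
  rw [h7, inv_mul_cancel_left]
  exact h1 ⟨idx x, hidx1 x⟩

/-- the permutation of the group acting on every left coset -/
theorem lift_perm {G : Type} [Group G] [Finite G] (K : Subgroup G) {A : Set G} (κ : Perm K)
    (h1 : ∀ x : K, ((x⁻¹ * κ x : K) : G) ∈ A) (h2 : ∀ x y, κ.SameCycle x y) :
    ∃ π : Perm G, (∀ g, g⁻¹ * π g ∈ A) ∧ ∀ g g', π.SameCycle g g' ↔ g⁻¹ * g' ∈ K := by
  classical
  obtain ⟨t, ht⟩ : ∃ t : G → K, ∀ g, ((t g : K) : G) = (rp K g)⁻¹ * g :=
    ⟨fun g => ⟨(rp K g)⁻¹ * g, rp_spec K g⟩, fun g => rfl⟩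
  let f : G → G := fun g => rp K g * (κ (t g) : K)
  have hf : ∀ g, g⁻¹ * f g = ((t g)⁻¹ * κ (t g) : K) := by
    intro g
    show g⁻¹ * (rp K g * (κ (t g) : K)) = _
    rw [Subgroup.coe_mul, Subgroup.coe_inv, ht]
    group
  have hrf : ∀ g, rp K (f g) = rp K g := by
    intro g
    symm
    rw [rp_eq_iff, hf]
    exact SetLike.coe_mem _
  have htf : ∀ g, t (f g) = κ (t g) := by
    intro g
    apply Subtype.ext
    rw [ht, hrf]
    exact inv_mul_cancel_left _ _
  have hinj : Function.Injective f := by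
    intro g g' h
    have h3 : rp K g = rp K g' := by rw [← hrf g, ← hrf g', h]
    have h4 : t g = t g' := by
      apply κ.injective
      rw [← htf, ← htf, h]
    have h5 := congrArg (fun z : K => (z : G)) h4
    simp only [ht, h3] at h5
    exact mul_left_cancel h5
  let π : Perm G := Equiv.ofBijective f (Finite.injective_iff_bijective.1 hinj)
  have hπ : ∀ g, π g = f g := fun g => rfl
  have hpow : ∀ (n : ℕ) g, rp K ((π ^ n) g) = rp K g ∧ t ((π ^ n) g) = (κ ^ n) (t g) := by
    intro n g
    induction n with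
    | zero => exact ⟨rfl, rfl⟩
    | succ n ih =>
      have h3 : (π ^ (n + 1)) g = f ((π ^ n) g) := by rw [pow_succ']; rfl
      have h4 : (κ ^ (n + 1)) (t g) = κ ((κ ^ n) (t g)) := by rw [pow_succ']; rfl
      rw [h3, hrf, htf, ih.1, ih.2, h4]
      exact ⟨rfl, rfl⟩
  refine ⟨π, fun g => ?_, fun g g' => ?_⟩
  · rw [hπ, hf]
    exact h1 _
  · constructor
    · intro h
      obtain ⟨n, hn⟩ := h.exists_nat_pow_eq
      rw [← rp_eq_iff, ← hn, (hpow n g).1]
    · intro h
      rw [← rp_eq_iff] at h
      obtain ⟨n, hn⟩ := (h2 (t g) (t g')).exists_nat_pow_eq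
      refine ⟨(n : ℤ), ?_⟩
      rw [zpow_natCast]
      have h3 := (hpow n g).2
      rw [hn] at h3
      have h5 := congrArg (fun z : K => (z : G)) h3
      simp only [ht, (hpow n g).1, h] at h5
      exact mul_left_cancel h5

end Pool.Agent.H647.Kot
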