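import Pool.Graph.R_pool_sql_team_seeded_3997aac3.Q27.HC.Act

/-!
# The pairing property: complements of subgroups, commuting elements of orders two and four
-/

set_option autoImplicit false

namespace Pool.Agent.H647.Kot

open Pool.Agent.Q27.HC

/-- Repeated improvement of a pairing. -/
theorem improve {X : Type*} [Finite X] (f : X → X) (P : (X → X) → Prop) (g0 : X → X) (h0 : P g0)
    (step : ∀ g, P g → (∀ x y, Rel Set.univ f g x y) ∨ ∃ g', P g' ∧
      (∀ x y, Rel Set.univ f g x y → Rel Set.univ f g' x y) ∧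
      ∃ x y, ¬ Rel Set.univ f g x y ∧ Rel Set.univ f g' x y) :
    ∃ g, P g ∧ ∀ x y, Rel Set.univ f g x y := by
  classical
  have key : ∀ n : ℕ, ∀ g, P g →
      ({q : X × X | ¬ Rel Set.univ f g q.1 q.2} : Set (X × X)).ncard ≤ n →
      ∃ g, P g ∧ ∀ x y, Rel Set.univ f g x y := by
    intro n
    induction n with
    | zero =>
      intro g hg hn
      refine ⟨g, hg, fun x y => ?_⟩
      by_contra h
      have h1 : ({q : X × X | ¬ Rel Set.univ f g q.1 q.2} : Set (X × X)) = ∅ :=
        (Set.ncard_eq_zero (Set.toFinite _)).1 (by omega)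
      have h2 : ((x, y) : X × X) ∈ ({q : X × X | ¬ Rel Set.univ f g q.1 q.2} : Set (X × X)) := h
      rw [h1] at h2
      exact h2
    | succ n ih =>
      intro g hg hn
      rcases step g hg with h | ⟨g', hg', hle, x, y, hxy, hxy'⟩
      · exact ⟨g, hg, h⟩
      · refine ih g' hg' ?_
        have h3 : ({q : X × X | ¬ Rel Set.univ f g' q.1 q.2} : Set (X × X)) ⊂
            ({q : X × X | ¬ Rel Set.univ f g q.1 q.2} : Set (X × X)) := by
          refine ⟨fun q hq hq' => hq (hle _ _ hq'), fun hsub => ?_⟩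
          exact (hsub (show ((x, y) : X × X) ∈ _ from hxy)) hxy'
        have h4 := Set.ncard_lt_ncard h3 (Set.toFinite _)
        omega
  exact key _ g0 h0 le_rfl

/-- The pairing `g` with the pairs `{a, g a}`, `{c, g c}` replaced by `{a, c}`, `{g a, g c}`. -/
def sw {X : Type*} [DecidableEq X] (g : X → X) (a c : X) : X → X := fun x =>
  if x = a then c else if x = c then a else if x = g a then g c else if x = g c then g a else g x

section sw

variable {X : Type*} [DecidableEq X] {g : X → X} (hg : Inv Set.univ g) {a c : X} (hac : a ≠ c)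
  (hac' : g a ≠ c)

include hg hac hac'

theorem sw_facts : g a ≠ a ∧ g c ≠ c ∧ g c ≠ a ∧ g a ≠ g c ∧ sw g a c a = c ∧ sw g a c c = a ∧
    sw g a c (g a) = g c ∧ sw g a c (g c) = g a ∧
    ∀ x, x ≠ a → x ≠ c → x ≠ g a → x ≠ g c → sw g a c x = g x := by
  have h1 : g a ≠ a := (hg a trivial).2.2
  have h2 : g c ≠ c := (hg c trivial).2.2
  have h3 : g c ≠ a := by
    intro h
    apply hac'
    rw [← h, (hg c trivial).2.1]
  have h4 : g a ≠ g c := by
    intro h
    apply hac
    rw [← (hg a trivial).2.1, h, (hg c trivial).2.1]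
  refine ⟨h1, h2, h3, h4, ?_, ?_, ?_, ?_, ?_⟩
  · simp [sw]
  · simp [sw, hac.symm]
  · simp [sw, h1, hac']
  · simp [sw, h3, h2, h4.symm]
  · intro x x1 x2 x3 x4
    simp [sw, x1, x2, x3, x4]

theorem sw_inv : Inv Set.univ (sw g a c) := by
  obtain ⟨h1, h2, h3, h4, e1, e2, e3, e4, e5⟩ := sw_facts hg hac hac'
  intro x _
  refine ⟨trivial, ?_⟩
  by_cases x1 : x = a
  · rw [x1, e1, e2]; exact ⟨rfl, hac.symm⟩
  by_cases x2 : x = c
  · rw [x2, e2, e1]; exact ⟨rfl, hac⟩
  by_cases x3 : x = g a
  · rw [x3, e3, e4]; exact ⟨rfl, h4.symm⟩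
  by_cases x4 : x = g c
  · rw [x4, e4, e3]; exact ⟨rfl, h4⟩
  obtain ⟨_, k1, k2⟩ := hg x trivial
  rw [e5 x x1 x2 x3 x4]
  rw [e5 (g x) (fun h => x3 (by rw [← h, k1])) (fun h => x4 (by rw [← h, k1]))
    (fun h => x1 (by rw [← k1, h, (hg a trivial).2.1]))
    (fun h => x2 (by rw [← k1, h, (hg c trivial).2.1]))]
  exact ⟨k1, k2⟩

/-- Switching pairs of different classes merges the classes. -/
theorem sw_rel [Finite X] {f : X → X} (hf : Inv Set.univ f) (h : ¬ Rel Set.univ f g a c) :
    (∀ x y, Rel Set.univ f g x y → Rel Set.univ f (sw g a c) x y) ∧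
      Rel Set.univ f (sw g a c) a c := by
  obtain ⟨h1, h2, h3, h4, e1, e2, e3, e4, e5⟩ := sw_facts hg hac hac'
  let U : Set X := {a, g a, c, g c}
  have mU : ∀ x, x ∈ U ↔ x = a ∨ x = g a ∨ x = c ∨ x = g c := by
    intro x
    simp only [U, Set.mem_insert_iff, Set.mem_singleton_iff]
  obtain ⟨e, he, hec⟩ := parity Set.univ U (Set.subset_univ _) f g hf (by
    intro x _ hx
    obtain ⟨_, k1, k2⟩ := hg x trivial
    refine ⟨trivial, ?_, k1, k2⟩
    rw [mU] at hx ⊢
    rintro (h5 | h5 | h5 | h5)
    · exact hx (Or.inr (Or.inl (by rw [← h5, k1])))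
    · exact hx (Or.inl (by rw [← k1, h5, (hg a trivial).2.1]))
    · exact hx (Or.inr (Or.inr (Or.inr (by rw [← h5, k1]))))
    · exact hx (Or.inr (Or.inr (Or.inl (by rw [← k1, h5, (hg c trivial).2.1])))))
  have toRel : ∀ x y, Relation.EqvGen (fun a b => a ∈ Set.univ ∧ (b = f a ∨ (a ∉ U ∧ b = g a))) x y →
      Rel Set.univ f g x y ∧ Rel Set.univ f (sw g a c) x y := by
    intro x y hxy
    induction hxy with
    | rel u v huv =>
      obtain ⟨hu, hv | ⟨hu', hv⟩⟩ := huv
      · rw [hv]; exact ⟨Rel.left trivial, Rel.left trivial⟩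
      · rw [mU] at hu'
        push Not at hu'
        have h6 : v = sw g a c u := by rw [e5 u hu'.1 hu'.2.2.1 hu'.2.1 hu'.2.2.2, hv]
        refine ⟨?_, ?_⟩
        · rw [hv]; exact Rel.right trivial
        · rw [h6]; exact Rel.right trivial
    | refl u => exact ⟨Rel.refl _, Rel.refl _⟩
    | symm u v _ ih => exact ⟨ih.1.symm, ih.2.symm⟩
    | trans u v w _ _ ih1 ih2 => exact ⟨ih1.1.trans ih2.1, ih1.2.trans ih2.2⟩
  have hga : Rel Set.univ f g a (g a) := Rel.right trivial
  have hgc : Rel Set.univ f g c (g c) := Rel.right trivial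
  have ha : e a = g a := by
    have k1 := (he a ((mU a).2 (Or.inl rfl)))
    have k2 := (toRel _ _ (hec a ((mU a).2 (Or.inl rfl)))).1
    rcases (mU _).1 k1.1 with h7 | h7 | h7 | h7
    · exact absurd h7 k1.2.2
    · exact h7
    · rw [h7] at k2; exact absurd k2 h
    · rw [h7] at k2; exact absurd (k2.trans hgc.symm) h
  have hc : e c = g c := by
    have k1 := (he c ((mU c).2 (Or.inr (Or.inr (Or.inl rfl)))))
    have k2 := (toRel _ _ (hec c ((mU c).2 (Or.inr (Or.inr (Or.inl rfl)))))).1
    rcases (mU _).1 k1.1 with h7 | h7 | h7 | h7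
    · rw [h7] at k2; exact absurd k2.symm h
    · rw [h7] at k2; exact absurd (hga.trans k2.symm) h
    · exact absurd h7 k1.2.2
    · exact h7
  have ra : Rel Set.univ f (sw g a c) a (g a) := by
    have := (toRel _ _ (hec a ((mU a).2 (Or.inl rfl)))).2
    rwa [ha] at this
  have rc : Rel Set.univ f (sw g a c) c (g c) := by
    have := (toRel _ _ (hec c ((mU c).2 (Or.inr (Or.inr (Or.inl rfl)))))).2
    rwa [hc] at this
  refine ⟨?_, ?_⟩
  · intro x y hxy
    induction hxy with
    | rel u v huv =>
      obtain ⟨_, hv | hv⟩ := huv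
      · rw [hv]; exact Rel.left trivial
      · rw [hv]
        by_cases u1 : u = a
        · rw [u1]; exact ra
        by_cases u2 : u = c
        · rw [u2]; exact rc
        by_cases u3 : u = g a
        · rw [u3, (hg a trivial).2.1]; exact ra.symm
        by_cases u4 : u = g c
        · rw [u4, (hg c trivial).2.1]; exact rc.symm
        rw [← e5 u u1 u2 u3 u4]
        exact Rel.right trivial
    | refl u => exact Rel.refl _
    | symm u v _ ih => exact ih.symm
    | trans u v w _ _ ih1 ih2 => exact ih1.trans ih2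
  · have : Rel Set.univ f (sw g a c) a (sw g a c a) := Rel.right trivial
    rwa [e1] at this

end sw

/-- **Kotzig's theorem at one vertex**: pairings between different classes. -/
theorem pairing_classes {X C : Type*} [Finite X] (cls : X → C) (g0 : X → X)
    (h0 : Inv Set.univ g0) (h0' : ∀ x, cls x ≠ cls (g0 x)) (f : X → X) (hf : Inv Set.univ f) :
    ∃ g : X → X, (Inv Set.univ g ∧ ∀ x, cls x ≠ cls (g x)) ∧ ∀ x y, Rel Set.univ f g x y := by
  classical
  refine improve f (fun g => Inv Set.univ g ∧ ∀ x, cls x ≠ cls (g x)) g0 ⟨h0, h0'⟩ ?_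
  rintro g ⟨hg, hgc⟩
  by_cases hall : ∀ x y, Rel Set.univ f g x y
  · exact Or.inl hall
  right
  push Not at hall
  obtain ⟨a, c, hac⟩ := hall
  -- one of the two switches is allowed
  have key : ∀ c' : X, ¬ Rel Set.univ f g a c' → cls a ≠ cls c' → cls (g a) ≠ cls (g c') →
      ∃ g', (Inv Set.univ g' ∧ ∀ x, cls x ≠ cls (g' x)) ∧
      (∀ x y, Rel Set.univ f g x y → Rel Set.univ f g' x y) ∧
      ∃ x y, ¬ Rel Set.univ f g x y ∧ Rel Set.univ f g' x y := by
    intro c' hac' k1 k2
    have n1 : a ≠ c' := fun h => hac' (h ▸ Rel.refl _)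
    have n2 : g a ≠ c' := by
      intro h
      have h' : Rel Set.univ f g a (g a) := Rel.right trivial
      rw [h] at h'
      exact hac' h'
    obtain ⟨h1, h2, h3, h4, e1, e2, e3, e4, e5⟩ := sw_facts hg n1 n2
    obtain ⟨r1, r2⟩ := sw_rel hg n1 n2 hf hac'
    refine ⟨sw g a c', ⟨sw_inv hg n1 n2, ?_⟩, r1, a, c', hac', r2⟩
    intro x
    by_cases x1 : x = a
    · rw [x1, e1]; exact k1
    by_cases x2 : x = c'
    · rw [x2, e2]; exact k1.symm
    by_cases x3 : x = g a
    · rw [x3, e3]; exact k2
    by_cases x4 : x = g c'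
    · rw [x4, e4]; exact k2.symm
    rw [e5 x x1 x2 x3 x4]
    exact hgc x
  by_cases m1 : cls a ≠ cls c ∧ cls (g a) ≠ cls (g c)
  · exact key c hac m1.1 m1.2
  · have hcc : Rel Set.univ f g c (g c) := Rel.right trivial
    have hgac : ¬ Rel Set.univ f g a (g c) := fun h => hac (h.trans hcc.symm)
    refine key (g c) hgac ?_ ?_
    · intro h
      apply m1
      refine ⟨fun h' => hgc c (h'.symm.trans h), fun h' => hgc a (h.trans h'.symm)⟩
    · rw [(hg c trivial).2.1]
      intro h
      apply m1
      refine ⟨fun h' => hgc a (h'.trans h.symm), fun h' => hgc c (h.symm.trans h')⟩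

/-- A pairing between different classes exists, if no class is larger than the complement. -/
theorem exists_cross {X C : Type*} [Finite X] (cls : X → C) (g0 : X → X) (h0 : Inv Set.univ g0)
    (hc : ∀ c, 2 * ({x | cls x = c} : Set X).ncard ≤ Nat.card X) :
    ∃ g : X → X, Inv Set.univ g ∧ ∀ x, cls x ≠ cls (g x) := by
  classical
  have key : ∀ n : ℕ, ∀ g : X → X, Inv Set.univ g →
      ({x | cls x = cls (g x)} : Set X).ncard ≤ n →
      ∃ g : X → X, Inv Set.univ g ∧ ∀ x, cls x ≠ cls (g x) := by
    intro n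
    induction n with
    | zero =>
      intro g hg hn
      refine ⟨g, hg, fun x hx => ?_⟩
      have h1 : ({x | cls x = cls (g x)} : Set X) = ∅ :=
        (Set.ncard_eq_zero (Set.toFinite _)).1 (by omega)
      have h2 : x ∈ ({x | cls x = cls (g x)} : Set X) := hx
      rw [h1] at h2
      exact h2
    | succ n ih =>
      intro g hg hn
      by_cases hbad : ∃ a, cls a = cls (g a)
      · obtain ⟨a, ha⟩ := hbad
        obtain ⟨u, hu1, hu2⟩ : ∃ u, cls u ≠ cls a ∧ cls (g u) ≠ cls a := by
          by_contra hcon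
          push Not at hcon
          have ginj : Function.Injective g := by
            intro x y hxy
            rw [← (hg x trivial).2.1, hxy, (hg y trivial).2.1]
          have h1 : g '' {x | cls x = cls a}ᶜ ⊆ {x | cls x = cls a} \ {a} := by
            rintro _ ⟨x, hx, rfl⟩
            refine ⟨hcon x hx, ?_⟩
            intro h
            apply hx
            show cls x = cls a
            have h3 : g x = a := h
            rw [ha, ← h3, (hg x trivial).2.1]
          have h2 := Set.ncard_le_ncard h1 (Set.toFinite _)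
          rw [Set.ncard_image_of_injective _ ginj] at h2
          have h3 := Set.ncard_sdiff_singleton_lt_of_mem (s := {x | cls x = cls a}) (a := a) rfl
            (Set.toFinite _)
          have h4 := Set.ncard_add_ncard_compl ({x | cls x = cls a} : Set X)
          have h5 := hc (cls a)
          omega
        have n1 : a ≠ u := fun h => hu1 (by rw [h])
        have n2 : g a ≠ u := fun h => hu1 (by rw [← h, ha])
        obtain ⟨h1, h2, h3, h4, e1, e2, e3, e4, e5⟩ := sw_facts hg n1 n2
        refine ih (sw g a u) (sw_inv hg n1 n2) ?_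
        have h6 : ({x | cls x = cls (sw g a u x)} : Set X) ⊂ {x | cls x = cls (g x)} := by
          refine ⟨?_, fun hsub => ?_⟩
          · intro x hx
            have hx' : cls x = cls (sw g a u x) := hx
            by_cases x1 : x = a
            · rw [x1]; exact ha
            by_cases x2 : x = u
            · rw [x2, e2] at hx'; exact absurd hx' hu1
            by_cases x3 : x = g a
            · rw [x3, e3, ← ha] at hx'; exact absurd hx'.symm hu2
            by_cases x4 : x = g u
            · rw [x4, e4, ← ha] at hx'; exact absurd hx' hu2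
            rw [e5 x x1 x2 x3 x4] at hx'
            exact hx'
          · have h7 : cls a = cls (sw g a u a) := hsub ha
            rw [e1] at h7
            exact hu1 h7.symm
        have h8 := Set.ncard_lt_ncard h6 (Set.toFinite _)
        omega
      · push Not at hbad
        exact ⟨g, hg, hbad⟩
  exact key _ g0 h0 le_rfl

/-- **Complements of proper subgroups of groups of even order have the pairing property.** -/
theorem pairing_compl {H : Type*} [Group H] [Finite H] (he : Even (Nat.card H)) (L : Subgroup H)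
    (hL : L ≠ ⊤) : Pairing H {h | h ∉ L} := by
  classical
  -- an initial pairing
  obtain ⟨t, ht⟩ := exists_prime_orderOf_dvd_card' (G := H) (hp := ⟨Nat.prime_two⟩) 2 he.two_dvd
  have ht1 : t ≠ 1 := by
    intro h
    rw [h, orderOf_one] at ht
    omega
  have ht2 : t * t = 1 := by
    rw [← pow_two, ← ht]
    exact pow_orderOf_eq_one t
  have h0 : Inv Set.univ (fun x : H => x * t) := by
    intro x _
    refine ⟨trivial, ?_, ?_⟩
    · show x * t * t = x
      rw [mul_assoc, ht2, mul_one]
    · intro h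
      exact ht1 (by simpa using h)
  have hidx : 2 ≤ L.index := by
    have h1 : L.index ≠ 1 := fun h => hL (Subgroup.index_eq_one.1 h)
    have h2 : L.index ≠ 0 := Subgroup.index_ne_zero_of_finite
    omega
  have hcl : ∀ c : H ⧸ L, 2 * ({x : H | (x : H ⧸ L) = c} : Set H).ncard ≤ Nat.card H := by
    intro c
    obtain ⟨y, rfl⟩ := QuotientGroup.mk_surjective c
    have h1 : ({x : H | (x : H ⧸ L) = (y : H ⧸ L)} : Set H) = (fun z : H => y * z) '' (L : Set H) := by
      ext x
      constructor
      · intro hx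
        exact ⟨y⁻¹ * x, QuotientGroup.eq.1 (show (y : H ⧸ L) = (x : H ⧸ L) from
          (show (x : H ⧸ L) = (y : H ⧸ L) from hx).symm), by simp⟩
      · rintro ⟨z, hz, rfl⟩
        show ((y * z : H) : H ⧸ L) = (y : H ⧸ L)
        symm
        rw [QuotientGroup.eq, inv_mul_cancel_left]
        exact hz
    rw [h1, Set.ncard_image_of_injective _ (mul_right_injective y)]
    have h2 := L.index_mul_card
    have h3 : (L : Set H).ncard = Nat.card L := rfl
    rw [h3, ← h2]
    exact Nat.mul_le_mul_right _ hidx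
  obtain ⟨g1, hg1, hg1'⟩ := exists_cross (fun x : H => (x : H ⧸ L)) _ h0 hcl
  intro f hf
  obtain ⟨g, ⟨hg, hgc⟩, hrel⟩ := pairing_classes (fun x : H => (x : H ⧸ L)) g1 hg1 hg1' f
    (fun x _ => ⟨trivial, hf x⟩)
  refine ⟨g, fun x => (hg x trivial).2, fun x hx => ?_, fun x y => rel_univ (hrel x y)⟩
  exact hgc x (QuotientGroup.eq.2 hx)

end Pool.Agent.H647.Kot
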