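import Pool.Agent.H647.Kot.Pair
import Pool.Graph.R_pool_sql_team_seeded_64922ed1.X267.Ham.Tour

/-!
# Choosing between two pairings at every vertex of degree four, keeping connectivity
-/

set_option autoImplicit false

namespace Pool.Agent.H647.Kot

open Equiv Equiv.Perm
open Pool.Agent.Q27.HC (Inv parity)

/-- Repeated improvement of a relation. -/
theorem improve' {Z W : Type*} [Finite Z] (R : W → Z → Z → Prop) (w0 : W)
    (step : ∀ w, (∀ x y, R w x y) ∨ ∃ w', (∀ x y, R w x y → R w' x y) ∧
      ∃ x y, ¬ R w x y ∧ R w' x y) : ∃ w, ∀ x y, R w x y := by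
  classical
  have key : ∀ n : ℕ, ∀ w,
      ({q : Z × Z | ¬ R w q.1 q.2} : Set (Z × Z)).ncard ≤ n → ∃ w, ∀ x y, R w x y := by
    intro n
    induction n with
    | zero =>
      intro w hn
      refine ⟨w, fun x y => ?_⟩
      by_contra h
      have h1 : ({q : Z × Z | ¬ R w q.1 q.2} : Set (Z × Z)) = ∅ :=
        (Set.ncard_eq_zero (Set.toFinite _)).1 (by omega)
      have h2 : ((x, y) : Z × Z) ∈ ({q : Z × Z | ¬ R w q.1 q.2} : Set (Z × Z)) := h
      rw [h1] at h2
      exact h2
    | succ n ih =>
      intro w hn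
      rcases step w with h | ⟨w', hle, x, y, hxy, hxy'⟩
      · exact ⟨w, h⟩
      · refine ih w' ?_
        have h3 : ({q : Z × Z | ¬ R w' q.1 q.2} : Set (Z × Z)) ⊂
            ({q : Z × Z | ¬ R w q.1 q.2} : Set (Z × Z)) := by
          refine ⟨fun q hq hq' => hq (hle _ _ hq'), fun hsub => ?_⟩
          exact (hsub (show ((x, y) : Z × Z) ∈ _ from hxy)) hxy'
        have h4 := Set.ncard_lt_ncard h3 (Set.toFinite _)
        omega
  exact key _ w0 le_rfl

/-- the partner of `e` for the option `o` -/
def bo {Z Y : Type*} (ρ : Perm Z) (D : Z → Bool) (κ : Z → Y) (o : Y → Bool) (e : Z) : Z :=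
  if D e = o (κ e) then ρ.symm e else ρ e

section bo

variable {Z Y : Type*} {ρ : Perm Z} {D : Z → Bool} {κ : Z → Y}
  (hρκ : ∀ z, κ (ρ z) = κ z) (hD : ∀ z, D (ρ z) = !D z)

include hD in
theorem D_symm (z : Z) : D (ρ.symm z) = !D z := by
  have := hD (ρ.symm z)
  rw [ρ.apply_symm_apply] at this
  rw [this, Bool.not_not]

include hρκ in
theorem kap_symm (z : Z) : κ (ρ.symm z) = κ z := by
  have := hρκ (ρ.symm z)
  rw [ρ.apply_symm_apply] at this
  exact this.symm

theorem bo_pos {o : Y → Bool} {e : Z} (h : D e = o (κ e)) : bo ρ D κ o e = ρ.symm e := by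
  simp [bo, h]

theorem bo_neg {o : Y → Bool} {e : Z} (h : D e ≠ o (κ e)) : bo ρ D κ o e = ρ e := by
  simp [bo, h]

include hρκ hD in
theorem bo_facts (o : Y → Bool) (e : Z) : κ (bo ρ D κ o e) = κ e ∧ D (bo ρ D κ o e) = !D e ∧
    bo ρ D κ o (bo ρ D κ o e) = e ∧ bo ρ D κ o e ≠ e := by
  have hne : D (bo ρ D κ o e) = !D e := by
    by_cases h : D e = o (κ e)
    · rw [bo_pos h, D_symm hD]
    · rw [bo_neg h, hD]
  refine ⟨?_, hne, ?_, ?_⟩
  · by_cases h : D e = o (κ e)
    · rw [bo_pos h, kap_symm hρκ]
    · rw [bo_neg h, hρκ]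
  · by_cases h : D e = o (κ e)
    · rw [bo_pos h, bo_neg, ρ.apply_symm_apply]
      rw [D_symm hD, kap_symm hρκ, ← h]
      simp
    · rw [bo_neg h, bo_pos, ρ.symm_apply_apply]
      rw [hD, hρκ]
      revert h
      cases D e <;> cases o (κ e) <;> simp
  · intro h
    rw [h] at hne
    revert hne
    cases D e <;> simp

end bo

/-- **Kotzig's argument**: `p` and `ρ` connect `Z`, `ρ` has order four; then one of the two
pairings of every orbit of `ρ` can be selected in such a way that `p` and the pairings connect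
`Z`. -/
theorem select {Z P Y : Type*} [Finite Z] (p : Z → P) (a : Z → Z) (ha : Inv Set.univ a)
    (hpa : ∀ z, p (a z) = p z) (κ : Z → Y) (ρ : Perm Z) (hρκ : ∀ z, κ (ρ z) = κ z)
    (hfib : ∀ z z', κ z = κ z' → ∃ i : ℕ, z' = (ρ ^ i) z) (D : Z → Bool)
    (hD : ∀ z, D (ρ z) = !D z) (h4 : ∀ z, ρ (ρ (ρ (ρ z))) = z)
    (hconn : ∀ S : Set Z, S.Nonempty → (∀ e f, p e = p f → e ∈ S → f ∈ S) →
      (∀ e, e ∈ S → ρ e ∈ S) → S = Set.univ) :
    ∃ o : Y → Bool, ∀ S : Set Z, S.Nonempty → (∀ e f, p e = p f → e ∈ S → f ∈ S) →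
      (∀ e, e ∈ S → bo ρ D κ o e ∈ S) → S = Set.univ := by
  classical
  let R : (Y → Bool) → Z → Z → Prop := fun o =>
    Relation.EqvGen (fun u v => p u = p v ∨ v = bo ρ D κ o u)
  have Rrefl : ∀ o x, R o x x := fun o x => Relation.EqvGen.refl x
  have Rsymm : ∀ o x y, R o x y → R o y x := fun o x y h => Relation.EqvGen.symm _ _ h
  have Rtrans : ∀ o x y z, R o x y → R o y z → R o x z :=
    fun o x y z h h' => Relation.EqvGen.trans _ _ _ h h'
  have Rp : ∀ o x y, p x = p y → R o x y := fun o x y h => Relation.EqvGen.rel _ _ (Or.inl h)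
  have Rb : ∀ o x, R o x (bo ρ D κ o x) := fun o x => Relation.EqvGen.rel _ _ (Or.inr rfl)
  obtain ⟨o, ho⟩ := improve' R (fun _ => true) (by
    intro o
    by_cases hall : ∀ x y, R o x y
    · exact Or.inl hall
    right
    obtain ⟨z, hz⟩ : ∃ z, ¬ R o z (ρ z) := by
      by_contra hcon
      push Not at hcon
      apply hall
      intro x y
      have hS := hconn {y | R o x y} ⟨x, Rrefl o x⟩
        (fun e f hef he => Rtrans o _ _ _ he (Rp o _ _ hef))
        (fun e he => Rtrans o _ _ _ he (hcon e))
      have : y ∈ ({y | R o x y} : Set Z) := by rw [hS]; trivial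
      exact this
    have hzo : D z = o (κ z) := by
      by_contra h
      apply hz
      have := Rb o z
      rwa [bo_neg h] at this
    set z1 := ρ z with hz1
    set z2 := ρ z1 with hz2
    set z3 := ρ z2 with hz3
    have hz4 : ρ z3 = z := h4 z
    have s3 : ρ.symm z = z3 := by rw [← hz4, ρ.symm_apply_apply]
    have b0 : bo ρ D κ o z = z3 := by rw [bo_pos hzo, s3]
    have k1 : κ z1 = κ z := hρκ z
    have k2 : κ z2 = κ z := by rw [hz2, hρκ, k1]
    have k3 : κ z3 = κ z := by rw [hz3, hρκ, k2]
    have d1 : D z1 = !D z := hD z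
    have b1 : bo ρ D κ o z1 = z2 := by
      rw [bo_neg]
      rw [d1, k1, ← hzo]
      simp
    have b3 : bo ρ D κ o z3 = z := by rw [← b0]; exact (bo_facts hρκ hD o z).2.2.1
    have b2 : bo ρ D κ o z2 = z1 := by rw [← b1]; exact (bo_facts hρκ hD o z1).2.2.1
    let U : Set Z := {u | κ u = κ z}
    have hU : ∀ u ∈ U, u = z ∨ u = z1 ∨ u = z2 ∨ u = z3 := by
      intro u hu
      obtain ⟨i, hi⟩ := hfib z u (show κ z = κ u from (show κ u = κ z from hu).symm)
      rw [hi]
      clear hi hu
      induction i with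
      | zero => left; rfl
      | succ i ih =>
        have h5 : (ρ ^ (i + 1)) z = ρ ((ρ ^ i) z) := by rw [pow_succ']; rfl
        rw [h5]
        rcases ih with ih | ih | ih | ih <;> rw [ih]
        · exact Or.inr (Or.inl rfl)
        · exact Or.inr (Or.inr (Or.inl rfl))
        · exact Or.inr (Or.inr (Or.inr rfl))
        · exact Or.inl hz4
    obtain ⟨e, he, hec⟩ := parity Set.univ U (Set.subset_univ _) a (bo ρ D κ o) ha (by
      intro u _ hu
      obtain ⟨f1, f2, f3, f4⟩ := bo_facts hρκ hD o u
      refine ⟨trivial, ?_, f3, f4⟩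
      intro h
      apply hu
      show κ u = κ z
      rw [← f1]
      exact h)
    let o' : Y → Bool := Function.update o (κ z) (!o (κ z))
    have o'1 : o' (κ z) = !o (κ z) := Function.update_self _ _ _
    have o'2 : ∀ y, y ≠ κ z → o' y = o y := fun y hy => Function.update_of_ne hy _ _
    have bout : ∀ u, u ∉ U → bo ρ D κ o' u = bo ρ D κ o u := by
      intro u hu
      unfold bo
      rw [o'2 _ (show κ u ≠ κ z from hu)]
    have toR : ∀ x y, Relation.EqvGen
        (fun u v => u ∈ Set.univ ∧ (v = a u ∨ (u ∉ U ∧ v = bo ρ D κ o u))) x y →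
        R o x y ∧ R o' x y := by
      intro x y hxy
      induction hxy with
      | rel u v huv =>
        obtain ⟨_, hv | ⟨hu, hv⟩⟩ := huv
        · rw [hv]
          exact ⟨Rp o _ _ (hpa u).symm, Rp o' _ _ (hpa u).symm⟩
        · refine ⟨?_, ?_⟩
          · rw [hv]; exact Rb o u
          · rw [hv, ← bout u hu]; exact Rb o' u
      | refl u => exact ⟨Rrefl o u, Rrefl o' u⟩
      | symm u v _ ih => exact ⟨Rsymm o _ _ ih.1, Rsymm o' _ _ ih.2⟩
      | trans u v w _ _ ih1 ih2 => exact ⟨Rtrans o _ _ _ ih1.1 ih2.1, Rtrans o' _ _ _ ih1.2 ih2.2⟩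
    have r03 : R o z z3 := by have := Rb o z; rwa [b0] at this
    have r12 : R o z1 z2 := by have := Rb o z1; rwa [b1] at this
    have mz : z ∈ U := rfl
    have mz1 : z1 ∈ U := k1
    have e0 : e z = z3 := by
      have h5 := he z mz
      have h6 := (toR _ _ (hec z mz)).1
      rcases hU _ h5.1 with h | h | h | h
      · exact absurd h h5.2.2
      · rw [h] at h6; exact absurd h6 hz
      · rw [h] at h6; exact absurd (Rtrans o _ _ _ h6 (Rsymm o _ _ r12)) hz
      · exact h
    have e1 : e z1 = z2 := by
      have h5 := he z1 mz1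
      have h6 := (toR _ _ (hec z1 mz1)).1
      rcases hU _ h5.1 with h | h | h | h
      · rw [h] at h6; exact absurd (Rsymm o _ _ h6) hz
      · exact absurd h h5.2.2
      · exact h
      · rw [h] at h6; exact absurd (Rtrans o _ _ _ r03 (Rsymm o _ _ h6)) hz
    have r03' : R o' z z3 := by have := (toR _ _ (hec z mz)).2; rwa [e0] at this
    have r12' : R o' z1 z2 := by have := (toR _ _ (hec z1 mz1)).2; rwa [e1] at this
    refine ⟨o', ?_, z, z1, hz, ?_⟩
    · intro x y hxy
      have hxy' : Relation.EqvGen (fun u v => p u = p v ∨ v = bo ρ D κ o u) x y := hxy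
      induction hxy' with
      | rel u v huv =>
        rcases huv with h | h
        · exact Rp o' _ _ h
        · rw [h]
          by_cases hu : u ∈ U
          · rcases hU u hu with h7 | h7 | h7 | h7 <;> rw [h7]
            · rw [b0]; exact r03'
            · rw [b1]; exact r12'
            · rw [b2]; exact Rsymm o' _ _ r12'
            · rw [b3]; exact Rsymm o' _ _ r03'
          · rw [← bout u hu]; exact Rb o' u
      | refl u => exact Rrefl o' u
      | symm u v h ih => exact Rsymm o' _ _ (ih h)
      | trans u v w h h' ih1 ih2 => exact Rtrans o' _ _ _ (ih1 h) (ih2 h')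
    · have := Rb o' z
      rw [bo_neg] at this
      · exact this
      · rw [o'1, ← hzo]
        simp)
  refine ⟨o, ?_⟩
  intro S hS hp hb
  obtain ⟨s, hs⟩ := hS
  have key : ∀ x y, R o x y → (x ∈ S ↔ y ∈ S) := by
    intro x y hxy
    have hxy' : Relation.EqvGen (fun u v => p u = p v ∨ v = bo ρ D κ o u) x y := hxy
    clear hxy
    induction hxy' with
    | rel u v huv =>
      rcases huv with h | h
      · exact ⟨hp _ _ h, hp _ _ h.symm⟩
      · rw [h]
        refine ⟨hb u, fun h' => ?_⟩
        have := hb _ h'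
        rwa [(bo_facts hρκ hD o u).2.2.1] at this
    | refl u => exact Iff.rfl
    | symm u v _ ih => exact ih.symm
    | trans u v w _ _ ih1 ih2 => exact ih1.trans ih2
  ext y
  simp only [Set.mem_univ, iff_true]
  exact (key s y (ho s y)).1 hs

/-- **Cyclic orderings from a connected pairing**, with the orientation of the pairs. -/
theorem tour2 {E P : Type*} [Finite E] (F : Finset E) (p : E → P) (b : E → E)
    (hp : ∀ x, Even {e | e ∈ F ∧ p e = x}.ncard)
    (hb : ∀ e ∈ F, b e ∈ F ∧ b e ≠ e ∧ b (b e) = e)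
    (hconn : ∀ S : Set E, S.Nonempty → (∀ e f, p e = p f → e ∈ S → f ∈ S) →
      (∀ e, e ∈ F → e ∈ S → b e ∈ S) → S = Set.univ) :
    ∃ σ : Perm E, (∀ x y, σ.SameCycle x y) ∧ ∃ c : E → Bool, (∀ e ∈ F, c (b e) = !c e) ∧
      (∀ e ∈ F, c e = false → σ e = b e) ∧ ∀ e, (e ∈ F → c e = true) → p (σ e) = p e := by
  classical
  have hp' : ∀ x, Even (F.filter (fun e => p e = x)).card := by
    intro x
    have := hp x
    have h2 : {e | e ∈ F ∧ p e = x} = ((F.filter (fun e => p e = x) : Finset E) : Set E) := by
      ext e; simp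
    rwa [h2, Set.ncard_coe_finset] at this
  obtain ⟨a, ha⟩ := Pool.Agent.X267.Ham.fibre_pairing F p hp'
  obtain ⟨c, hc⟩ := Pool.Agent.X267.Ham.two_colour (E := {e // e ∈ F}) (fun e => ⟨a e, (ha e e.2).1⟩)
    (fun e => ⟨b e, (hb e e.2).1⟩)
    (fun e => Subtype.ext (ha e e.2).2.2.1) (fun e => Subtype.ext (hb e e.2).2.2)
    (fun e h => (ha e e.2).2.1 (congrArg Subtype.val h))
    (fun e h => (hb e e.2).2.1 (congrArg Subtype.val h))
  let c' : E → Bool := fun e => if h : e ∈ F then c ⟨e, h⟩ else true
  have hca : ∀ e ∈ F, c' (a e) = !(c' e) := by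
    intro e he
    have h1 := (hc ⟨e, he⟩).1
    have h2 := (ha e he).1
    simp only [c', dif_pos he, dif_pos h2]
    exact h1
  have hcb : ∀ e ∈ F, c' (b e) = !(c' e) := by
    intro e he
    have h1 := (hc ⟨e, he⟩).2
    have h2 := (hb e he).1
    simp only [c', dif_pos he, dif_pos h2]
    exact h1
  -- out-mode and in-mode
  let T : Set E := {e | e ∉ F ∨ c' e = true}
  let T' : Set E := {e | e ∉ F ∨ c' e = false}
  have hTT : ∀ e, e ∈ T ∨ e ∈ T' := by
    intro e
    by_cases h : c' e = true
    · exact Or.inl (Or.inr h)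
    · exact Or.inr (Or.inr (by simpa using h))
  have hTF : ∀ e, e ∉ T → e ∈ F ∧ c' e = false := by
    intro e he
    refine ⟨?_, ?_⟩
    · by_contra h
      exact he (Or.inl h)
    · by_contra h
      exact he (Or.inr (by simpa using h))
  let P' : Perm E → Prop := fun σ => (∀ e, e ∈ T ↔ σ e ∈ T') ∧ (∀ e, e ∈ T → p (σ e) = p e) ∧
    (∀ e, e ∉ T → σ e = b e)
  let f1 : E → E := fun e => if e ∈ F then (if c' e = true then a e else b e) else e
  let f2 : E → E := fun e => if e ∈ F then (if c' e = true then b e else a e) else e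
  have hf12 : ∀ e, f2 (f1 e) = e := by
    intro e
    by_cases he : e ∈ F
    · by_cases hce : c' e = true
      · have h1 : f1 e = a e := by simp [f1, he, hce]
        rw [h1]
        have h2 : c' (a e) = false := by rw [hca e he, hce]; rfl
        simp only [f2, (ha e he).1, if_true, h2]
        simp [(ha e he).2.2.1]
      · have hce' : c' e = false := by simpa using hce
        have h1 : f1 e = b e := by simp [f1, he, hce']
        rw [h1]
        have h2 : c' (b e) = true := by rw [hcb e he, hce']; rfl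
        simp only [f2, (hb e he).1, if_true, h2]
        exact (hb e he).2.2
    · simp [f1, f2, he]
  have hf21 : ∀ e, f1 (f2 e) = e := by
    intro e
    by_cases he : e ∈ F
    · by_cases hce : c' e = true
      · have h1 : f2 e = b e := by simp [f2, he, hce]
        rw [h1]
        have h2 : c' (b e) = false := by rw [hcb e he, hce]; rfl
        simp only [f1, (hb e he).1, if_true, h2]
        simp [(hb e he).2.2]
      · have hce' : c' e = false := by simpa using hce
        have h1 : f2 e = a e := by simp [f2, he, hce']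
        rw [h1]
        have h2 : c' (a e) = true := by rw [hca e he, hce']; rfl
        simp only [f1, (ha e he).1, if_true, h2]
        exact (ha e he).2.2.1
    · simp [f1, f2, he]
  let σ₀ : Perm E := ⟨f1, f2, hf12, hf21⟩
  have hσ₀ : ∀ e, σ₀ e = f1 e := fun e => rfl
  have hP0 : P' σ₀ := by
    refine ⟨fun e => ?_, fun e he => ?_, fun e he => ?_⟩
    · rw [hσ₀]
      by_cases he : e ∈ F
      · by_cases hce : c' e = true
        · have h1 : f1 e = a e := by simp [f1, he, hce]
          have h2 : c' (a e) = false := by rw [hca e he, hce]; rfl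
          rw [h1]
          exact ⟨fun _ => Or.inr h2, fun _ => Or.inr hce⟩
        · have hce' : c' e = false := by simpa using hce
          have h1 : f1 e = b e := by simp [f1, he, hce']
          have h2 : c' (b e) = true := by rw [hcb e he, hce']; rfl
          rw [h1]
          constructor
          · rintro (h | h)
            · exact absurd he h
            · exact absurd h hce
          · rintro (h | h)
            · exact absurd (hb e he).1 h
            · rw [h2] at h; cases h
      · have h1 : f1 e = e := by simp [f1, he]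
        rw [h1]
        exact ⟨fun _ => Or.inl he, fun _ => Or.inl he⟩
    · rw [hσ₀]
      by_cases heF : e ∈ F
      · rcases he with h | h
        · exact absurd heF h
        · have h1 : f1 e = a e := by simp [f1, heF, h]
          rw [h1]
          exact (ha e heF).2.2.2
      · have h1 : f1 e = e := by simp [f1, heF]
        rw [h1]
    · rw [hσ₀]
      obtain ⟨heF, hce'⟩ := hTF e he
      simp [f1, heF, hce']
  have hpi : ∀ (σ : Perm E) e, σ (σ⁻¹ e) = e := fun σ e => σ.apply_symm_apply e
  have hsc : ∀ (σ : Perm E) e, σ.SameCycle e (σ⁻¹ e) := by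
    intro σ e
    conv_lhs => rw [← hpi σ e]
    exact (sameCycle_apply_left).2 (SameCycle.refl _ _)
  have hstep : ∀ σ, P' σ → (∀ x y, σ.SameCycle x y) ∨
      ∃ x y, ¬ σ.SameCycle x y ∧ P' (σ * swap x y) := by
    intro σ hσ
    by_cases hall : ∀ x y, σ.SameCycle x y
    · exact Or.inl hall
    right
    push Not at hall
    obtain ⟨x, y, hxy⟩ := hall
    have hsw : ∀ e f, ¬ σ.SameCycle e f → e ∈ T → f ∈ T → p e = p f → P' (σ * swap e f) := by
      intro e f hef h1 h2 h3
      have hne : e ≠ f := fun h => hef (h ▸ SameCycle.refl _ _)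
      have he : (σ * swap e f) e = σ f := by simp
      have hf : (σ * swap e f) f = σ e := by simp
      have hz : ∀ z, z ≠ e → z ≠ f → (σ * swap e f) z = σ z := by
        intro z h1 h2
        simp [swap_apply_of_ne_of_ne h1 h2]
      refine ⟨fun z => ?_, fun z hz' => ?_, fun z hz' => ?_⟩
      · by_cases hze : z = e
        · rw [hze, he]
          exact ⟨fun _ => (hσ.1 f).1 h2, fun _ => h1⟩
        · by_cases hzf : z = f
          · rw [hzf, hf]
            exact ⟨fun _ => (hσ.1 e).1 h1, fun _ => h2⟩
          · rw [hz z hze hzf]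
            exact hσ.1 z
      · by_cases hze : z = e
        · rw [hze, he, hσ.2.1 f h2, h3]
        · by_cases hzf : z = f
          · rw [hzf, hf, hσ.2.1 e h1, h3]
          · rw [hz z hze hzf]
            exact hσ.2.1 z hz'
      · have hze : z ≠ e := fun h => hz' (h ▸ h1)
        have hzf : z ≠ f := fun h => hz' (h ▸ h2)
        rw [hz z hze hzf]
        exact hσ.2.2 z hz'
    -- representatives with the right mode
    have repT : ∀ e, ∃ e', σ.SameCycle e e' ∧ e' ∈ T ∧ p e' = p e := by
      intro e
      by_cases he : e ∈ T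
      · exact ⟨e, SameCycle.refl _ _, he, rfl⟩
      · have he' : e ∈ T' := (hTT e).resolve_left he
        have h1 : σ⁻¹ e ∈ T := by
          rw [hσ.1, hpi]
          exact he'
        refine ⟨σ⁻¹ e, hsc σ e, h1, ?_⟩
        have := hσ.2.1 _ h1
        rw [hpi] at this
        exact this.symm
    have hbc : ∀ e ∈ F, σ.SameCycle e (b e) := by
      intro e heF
      by_cases he : e ∈ T
      · have hce : c' e = true := by
          rcases he with h | h
          · exact absurd heF h
          · exact h
        have h1 : b e ∉ T := by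
          rintro (h | h)
          · exact h (hb e heF).1
          · rw [hcb e heF, hce] at h; cases h
        have h2 := hσ.2.2 _ h1
        rw [(hb e heF).2.2] at h2
        rw [← h2]
        exact (sameCycle_apply_left).2 (by rw [h2])
      · rw [← hσ.2.2 e he]
        exact (sameCycle_apply_right).2 (SameCycle.refl _ _)
    by_contra hcon
    push Not at hcon
    have hS := hconn {z | σ.SameCycle x z} ⟨x, SameCycle.refl _ _⟩ ?_ ?_
    · have : y ∈ ({z | σ.SameCycle x z} : Set E) := by rw [hS]; trivial
      exact hxy this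
    · intro e f hef he
      by_contra hf
      obtain ⟨e', he1, he2, he3⟩ := repT e
      obtain ⟨f', hf1, hf2, hf3⟩ := repT f
      have hns : ¬ σ.SameCycle e' f' := by
        intro h
        exact hf ((SameCycle.trans he he1).trans (h.trans hf1.symm))
      exact hcon e' f' hns (hsw e' f' hns he2 hf2 (by rw [he3, hf3, hef]))
    · intro e heF he
      exact SameCycle.trans he (hbc e heF)
  obtain ⟨σ, hσ, hσ'⟩ := Pool.Agent.X267.Ham.single_cycle P' σ₀ hP0 hstep
  refine ⟨σ, hσ', c', hcb, ?_, ?_⟩
  · intro e heF hce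
    apply hσ.2.2
    rintro (h | h)
    · exact h heF
    · rw [hce] at h; cases h
  · intro e he
    apply hσ.2.1
    by_cases heF : e ∈ F
    · exact Or.inr (he heF)
    · exact Or.inl heF

end Pool.Agent.H647.Kot
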