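import Pool.Agent.H647.Kot.Compl
import Pool.Agent.H647.Kot.Pack

/-!
# Complements of subgroups: the class conditions
-/

set_option autoImplicit false
set_option linter.unusedSectionVars false

namespace Pool.Agent.H647.Kot

open Finset Equiv Equiv.Perm
open Pool.Agent.Helper879.ECD (sp Ind sp_mono mem_sp exists_coeff)
open Pool.Agent.X267.Ham

variable {G : Type} [Group G] [Fintype G] [DecidableEq G]

lemma rp_le {U V : Subgroup G} (h : U ≤ V) {a b : G} (hab : rp U a = rp U b) : rp V a = rp V b := by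
  rw [rp_eq_iff] at hab ⊢
  exact h hab

lemma split_count (U : Subgroup G) (F P : Set G) (hd : Disjoint F P) (g : G) :
    {e | e ∈ F ∧ rp U e = rp U g}.ncard + {e | e ∈ P ∧ rp U e = rp U g}.ncard ≤ Nat.card U := by
  rw [← ncard_coset U g, ← Set.ncard_union_eq _ (Set.toFinite _) (Set.toFinite _)]
  · apply Set.ncard_le_ncard _ (Set.toFinite _)
    rintro e (h | h)
    · exact h.2
    · exact h.2
  · rw [Set.disjoint_left]
    rintro e ⟨h1, _⟩ ⟨h2, _⟩
    exact Set.disjoint_left.1 hd h1 h2

lemma split_count' (U : Subgroup G) (F : Set G) (g : G) :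
    {e | e ∈ F ∧ rp U e = rp U g}.ncard + {e | e ∈ Fᶜ ∧ rp U e = rp U g}.ncard = Nat.card U := by
  rw [← ncard_coset U g, ← Set.ncard_union_eq _ (Set.toFinite _) (Set.toFinite _)]
  · congr 1
    ext e
    simp only [Set.mem_union, Set.mem_ofPred_eq, Set.mem_compl_iff]
    tauto
  · rw [Set.disjoint_left]
    rintro e ⟨h1, _⟩ ⟨h2, _⟩
    exact h2 h1

lemma count_le {U V : Subgroup G} (h : U ≤ V) (P : Set G) (g : G) :
    {e | e ∈ P ∧ rp U e = rp U g}.ncard ≤ {e | e ∈ P ∧ rp V e = rp V g}.ncard := by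
  apply Set.ncard_le_ncard _ (Set.toFinite _)
  rintro e ⟨h1, h2⟩
  exact ⟨h1, rp_le h h2⟩

/-- enough elements in every coset -/
lemma side_robust (K M : Subgroup G) (hM : M ≤ K) (F P : Set G) (hd : Disjoint F P)
    (hF : ∀ y, 2 * Nat.card M ≤ {e | e ∈ F ∧ rp K e = rp K y}.ncard) : SideOK K M F P := by
  intro g
  have h1 := split_count M F P hd g
  have h2 := count_le hM P g
  have h3 := hF g
  omega

/-- all other elements assigned, index at least three -/
lemma side_all (H L : Subgroup G) (hL : L ≤ H) (h3 : 3 * Nat.card L ≤ Nat.card H) (F : Set G) :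
    SideOK H L F Fᶜ := by
  intro g
  have h1 := split_count' L F g
  have h2 := split_count' H F g
  have h4 := count_le hL Fᶜ g
  omega

/-- index two -/
lemma side_two (H L : Subgroup G) (hL : L ≤ H) (h2 : Nat.card H = 2 * Nat.card L) (F : Set G)
    (eH : ∀ y, Even {e | e ∈ F ∧ rp H e = y}.ncard) : ∃ Q : Set G, Disjoint F Q ∧ SideOK H L F Q := by
  classical
  have hex : ∀ g : G, ∃ T : Set G, T ⊆ {e | e ∈ Fᶜ ∧ rp L e = rp L g} ∧
      T.ncard = {e | e ∈ F ∧ rp H e = rp H g}.ncard / 2 - {e | e ∈ F ∧ rp L e = rp L g}.ncard := by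
    intro g
    apply Set.exists_subset_card_eq
    have h1 := split_count' L F g
    have h3 := split_count' H F g
    omega
  choose T hT1 hT2 using hex
  have hrr : ∀ g, rp L (rp L g) = rp L g := by
    intro g
    rw [rp_eq_iff]
    exact rp_spec L g
  have hrH : ∀ g, rp H (rp L g) = rp H g := fun g => rp_le hL (hrr g)
  let Q : Set G := {e | e ∈ T (rp L e)}
  have hQ : ∀ g, {e | e ∈ Q ∧ rp L e = rp L g} = T (rp L g) := by
    intro g
    ext e
    constructor
    · rintro ⟨h1, h3⟩
      have h4 : e ∈ T (rp L e) := h1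
      rwa [h3] at h4
    · intro h
      have h3 : rp L e = rp L g := by
        rw [← hrr g]
        exact (hT1 _ h).2
      refine ⟨?_, h3⟩
      show e ∈ T (rp L e)
      rwa [h3]
  have hdis : Disjoint F Q := by
    rw [Set.disjoint_left]
    intro e he hq
    exact (hT1 _ hq).1 he
  have hq : ∀ g, {e | e ∈ Q ∧ rp L e = rp L g}.ncard =
      {e | e ∈ F ∧ rp H e = rp H g}.ncard / 2 - {e | e ∈ F ∧ rp L e = rp L g}.ncard := by
    intro g
    rw [hQ, hT2, hrr, hrH]
  refine ⟨Q, hdis, fun g => ?_⟩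
  -- the other class
  obtain ⟨g', hg'1, hg'2⟩ : ∃ g', rp H g' = rp H g ∧ rp L g' ≠ rp L g := by
    by_contra hcon
    push Not at hcon
    have h3 : {e : G | rp H e = rp H g} ⊆ {e : G | rp L e = rp L g} := fun e he => hcon e he
    have h4 := Set.ncard_le_ncard h3 (Set.toFinite _)
    rw [ncard_coset, ncard_coset] at h4
    have h5 : 0 < Nat.card L := Nat.card_pos
    omega
  have hcov : ∀ e, rp H e = rp H g → rp L e = rp L g ∨ rp L e = rp L g' := by
    have hd : Disjoint {e : G | rp L e = rp L g} {e : G | rp L e = rp L g'} := by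
      rw [Set.disjoint_left]
      intro e h3 h4
      exact hg'2 (h4.symm.trans h3)
    have hs : {e : G | rp L e = rp L g} ∪ {e : G | rp L e = rp L g'} ⊆ {e : G | rp H e = rp H g} := by
      rintro e (h | h)
      · exact rp_le hL h
      · exact (rp_le hL h).trans hg'1
    have he := Set.eq_of_subset_of_ncard_le hs (by
      rw [Set.ncard_union_eq hd (Set.toFinite _) (Set.toFinite _), ncard_coset, ncard_coset,
        ncard_coset]
      omega) (Set.toFinite _)
    intro e h
    have : e ∈ {e : G | rp H e = rp H g} := h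
    rw [← he] at this
    exact this
  have hsum : ∀ P : Set G, {e | e ∈ P ∧ rp H e = rp H g}.ncard =
      {e | e ∈ P ∧ rp L e = rp L g}.ncard + {e | e ∈ P ∧ rp L e = rp L g'}.ncard := by
    intro P
    rw [← Set.ncard_union_eq _ (Set.toFinite _) (Set.toFinite _)]
    · congr 1
      ext e
      simp only [Set.mem_union, Set.mem_ofPred_eq]
      constructor
      · rintro ⟨h1, h3⟩
        rcases hcov e h3 with h | h
        · exact Or.inl ⟨h1, h⟩
        · exact Or.inr ⟨h1, h⟩
      · rintro (⟨h1, h3⟩ | ⟨h1, h3⟩)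
        · exact ⟨h1, rp_le hL h3⟩
        · exact ⟨h1, (rp_le hL h3).trans hg'1⟩
    · rw [Set.disjoint_left]
      rintro e ⟨_, h3⟩ ⟨_, h4⟩
      exact hg'2 (h4.symm.trans h3)
  have h3 := hsum F
  have h4 := hsum Q
  have h5 := hq g
  have h6 := hq g'
  rw [hg'1] at h6
  obtain ⟨r, hr⟩ := eH (rp H g)
  omega

end Pool.Agent.H647.Kot
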